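import Pool.Agent.W_ff1001_h94.HC

/-! Lemmas on the data `HC`: inverses, derivatives of `X`, `Y`, rows 0 and 1 of the derivative of
the matrix `B`, and the special point `h = 1/5`. -/

set_option linter.unusedVariables false
set_option linter.unusedSimpArgs false

namespace FF1001

open Finset Polynomial

namespace HC

section
variable {S : Type*} [CommRing S] (c : HC S)

theorem bm1_AC : (1 + 25 * c.h) ^ 4 * c.ia ^ 4 * ((1 + 6 * c.h + 25 * c.h ^ 2) * c.ic) = 1 := by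
  rw [← mul_pow, c.ha, c.hc]
  ring

theorem bm1_BC : (1 + c.h) ^ 4 * c.ib ^ 4 * ((1 + 6 * c.h + 25 * c.h ^ 2) * c.ic) = 1 := by
  rw [← mul_pow, c.hb, c.hc]
  ring

theorem bm1_X2 : (1 - 75 * c.h - 625 * c.h ^ 2 - 3125 * c.h ^ 3) ^ 2 * c.iX ^ 2 = 1 := by
  rw [← mul_pow, c.hX]
  ring

theorem bm1_Y2 : (1 + 5 * c.h + 15 * c.h ^ 2 - 5 * c.h ^ 3) ^ 2 * c.iY ^ 2 = 1 := by
  rw [← mul_pow, c.hY]
  ring

theorem izX_mul : c.izX * (1 - 256 * c.Xv) = 1 := by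
  unfold izX Xv
  linear_combination (-256 * c.h * c.iX ^ 2) * c.bm1_AC + c.bm1_X2

theorem izY_mul : c.izY * (1 - 256 * c.Yv) = 1 := by
  unfold izY Yv
  linear_combination (-256 * c.h ^ 5 * c.iY ^ 2) * c.bm1_BC + c.bm1_Y2

theorem Xv_izX : c.Xv * c.izX = c.h * c.iX ^ 2 := by
  unfold izX Xv
  linear_combination (c.h * c.iX ^ 2) * c.bm1_AC

theorem Yv_izY : c.Yv * c.izY = c.h ^ 5 * c.iY ^ 2 := by
  unfold izY Yv
  linear_combination (c.h ^ 5 * c.iY ^ 2) * c.bm1_BC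

variable {R : Type*} [CommRing R] [Algebra R S] (θ : Derivation R S S) (ρ : S)

theorem bm1_ofNat (n : ℕ) [n.AtLeastTwo] : θ (ofNat(n) : S) = 0 := by
  rw [← Nat.cast_ofNat (R := S), Derivation.map_natCast]

/-- The derivative of an inverse. -/
theorem bm1_inv {u i : S} (h : u * i = 1) : θ i = -(i ^ 2 * θ u) := by
  have h1 : θ (u * i) = 0 := by
    rw [h]
    exact θ.map_one_eq_zero
  rw [Derivation.leibniz, smul_eq_mul, smul_eq_mul] at h1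
  linear_combination i * h1 - θ i * h

variable {θ ρ}

theorem bm1_dA (hθ : θ c.h = ρ * c.h) : θ (1 + 25 * c.h) = 25 * (ρ * c.h) := by
  simp only [map_add, Derivation.map_one_eq_zero, Derivation.leibniz, smul_eq_mul, bm1_ofNat, hθ]
  ring

theorem bm1_dB (hθ : θ c.h = ρ * c.h) : θ (1 + c.h) = ρ * c.h := by
  simp only [map_add, Derivation.map_one_eq_zero, hθ]
  ring

theorem bm1_dC (hθ : θ c.h = ρ * c.h) :
    θ (1 + 6 * c.h + 25 * c.h ^ 2) = (6 + 50 * c.h) * (ρ * c.h) := by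
  simp only [map_add, Derivation.map_one_eq_zero, Derivation.leibniz, Derivation.leibniz_pow,
    smul_eq_mul, nsmul_eq_mul, bm1_ofNat, hθ]
  push_cast
  ring

theorem bm1_dX (hθ : θ c.h = ρ * c.h) :
    θ (1 - 75 * c.h - 625 * c.h ^ 2 - 3125 * c.h ^ 3) =
      -((75 + 1250 * c.h + 9375 * c.h ^ 2) * (ρ * c.h)) := by
  simp only [map_sub, Derivation.map_one_eq_zero, Derivation.leibniz, Derivation.leibniz_pow,
    smul_eq_mul, nsmul_eq_mul, bm1_ofNat, hθ]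
  push_cast
  ring

theorem bm1_dY (hθ : θ c.h = ρ * c.h) :
    θ (1 + 5 * c.h + 15 * c.h ^ 2 - 5 * c.h ^ 3) =
      (5 + 30 * c.h - 15 * c.h ^ 2) * (ρ * c.h) := by
  simp only [map_add, map_sub, Derivation.map_one_eq_zero, Derivation.leibniz,
    Derivation.leibniz_pow, smul_eq_mul, nsmul_eq_mul, bm1_ofNat, hθ]
  push_cast
  ring

theorem bm1_ia (hθ : θ c.h = ρ * c.h) : θ c.ia = -(c.ia ^ 2 * (25 * (ρ * c.h))) := by
  rw [bm1_inv θ c.ha, bm1_dA c hθ]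

theorem bm1_ib (hθ : θ c.h = ρ * c.h) : θ c.ib = -(c.ib ^ 2 * (ρ * c.h)) := by
  rw [bm1_inv θ c.hb, bm1_dB c hθ]

theorem bm1_ic (hθ : θ c.h = ρ * c.h) :
    θ c.ic = -(c.ic ^ 2 * ((6 + 50 * c.h) * (ρ * c.h))) := by
  rw [bm1_inv θ c.hc, bm1_dC c hθ]

theorem bm1_iX (hθ : θ c.h = ρ * c.h) :
    θ c.iX = c.iX ^ 2 * ((75 + 1250 * c.h + 9375 * c.h ^ 2) * (ρ * c.h)) := by
  rw [bm1_inv θ c.hX, bm1_dX c hθ]
  ring

variable (θ ρ)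

theorem der_Xv (hθ : θ c.h = ρ * c.h) : θ c.Xv = ρ * c.xi * c.Xv := by
  have hac : (1 + 25 * c.h) * c.ia * ((1 + 6 * c.h + 25 * c.h ^ 2) * c.ic) = 1 := by
    rw [c.ha, c.hc]
    ring
  unfold Xv xi
  simp only [Derivation.leibniz, Derivation.leibniz_pow, smul_eq_mul, nsmul_eq_mul, hθ,
    bm1_ia c hθ, bm1_ic c hθ]
  push_cast
  linear_combination (ρ * c.h * c.ia ^ 4 * c.ic) * (-hac + 100 * c.h * c.ia * c.hc +
    c.h * (6 + 50 * c.h) * c.ic * c.ha)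

theorem der_Yv (hθ : θ c.h = ρ * c.h) : θ c.Yv = ρ * c.eta * c.Yv := by
  have hbc : (1 + c.h) * c.ib * ((1 + 6 * c.h + 25 * c.h ^ 2) * c.ic) = 1 := by
    rw [c.hb, c.hc]
    ring
  unfold Yv eta
  simp only [Derivation.leibniz, Derivation.leibniz_pow, smul_eq_mul, nsmul_eq_mul, hθ,
    bm1_ib c hθ, bm1_ic c hθ]
  push_cast
  linear_combination (ρ * c.h ^ 5 * c.ib ^ 4 * c.ic) * (-5 * hbc + 4 * c.h * c.ib * c.hc +
    c.h * (6 + 50 * c.h) * c.ic * c.hb)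

theorem bm1_B00 (hθ : θ c.h = ρ * c.h) :
    θ ((1 + 25 * c.h) * c.ib) = ρ * (c.xi * (24 * c.h * (1 + 25 * c.h) *
      (1 + 6 * c.h + 25 * c.h ^ 2) * c.ib ^ 2 * c.iX)) := by
  have hacx : (1 + 25 * c.h) * c.ia * ((1 + 6 * c.h + 25 * c.h ^ 2) * c.ic) *
      ((1 - 75 * c.h - 625 * c.h ^ 2 - 3125 * c.h ^ 3) * c.iX) = 1 := by
    rw [c.ha, c.hc, c.hX]
    ring
  rw [Derivation.leibniz, bm1_dA c hθ, bm1_ib c hθ]
  unfold xi
  simp only [smul_eq_mul]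
  linear_combination (-25 * ρ * c.h * c.ib) * c.hb - (24 * ρ * c.h * c.ib ^ 2) * hacx

theorem bm1_B10 (hθ : θ c.h = ρ * c.h) :
    θ (24 * c.h * (1 + 25 * c.h) * (1 + 6 * c.h + 25 * c.h ^ 2) * c.ib ^ 2 * c.iX) =
      ρ * (c.xi * ((24 * c.h + 2208 * c.h ^ 2 + 24984 * c.h ^ 3 - 806400 * c.h ^ 4
       - 15570000 * c.h ^ 5 - 155640000 * c.h ^ 6 - 958650000 * c.h ^ 7 - 3900000000 * c.h ^ 8
       - 8578125000 * c.h ^ 9 - 4687500000 * c.h ^ 10 + 29296875000 * c.h ^ 11)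
       * c.ib ^ 3 * c.iX ^ 3)) := by
  have hacx : (1 + 25 * c.h) * c.ia * ((1 + 6 * c.h + 25 * c.h ^ 2) * c.ic) *
      ((1 - 75 * c.h - 625 * c.h ^ 2 - 3125 * c.h ^ 3) * c.iX) = 1 := by
    rw [c.ha, c.hc, c.hX]
    ring
  have hbx : (1 + c.h) * c.ib * ((1 - 75 * c.h - 625 * c.h ^ 2 - 3125 * c.h ^ 3) * c.iX) = 1 := by
    rw [c.hb, c.hX]
    ring
  obtain ⟨h1, e1⟩ : ∃ x, x = 24 * ρ * c.h * ((1 + 25 * c.h) * (1 + 6 * c.h + 25 * c.h ^ 2) +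
    25 * c.h * (1 + 6 * c.h + 25 * c.h ^ 2) + c.h * (1 + 25 * c.h) * (6 + 50 * c.h)) := ⟨_, rfl⟩
  obtain ⟨h2, e2⟩ : ∃ x, x = 48 * ρ * c.h * (c.h * (1 + 25 * c.h) *
    (1 + 6 * c.h + 25 * c.h ^ 2)) := ⟨_, rfl⟩
  obtain ⟨h3, e3⟩ : ∃ x, x = 24 * ρ * c.h * (c.h * (1 + 25 * c.h) *
    (1 + 6 * c.h + 25 * c.h ^ 2)) * (75 + 1250 * c.h + 9375 * c.h ^ 2) := ⟨_, rfl⟩
  have hL : θ (24 * c.h * (1 + 25 * c.h) * (1 + 6 * c.h + 25 * c.h ^ 2) * c.ib ^ 2 * c.iX) =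
      h1 * c.ib ^ 2 * c.iX - h2 * c.ib ^ 3 * c.iX + h3 * c.ib ^ 2 * c.iX ^ 2 := by
    rw [e1, e2, e3]
    simp only [Derivation.leibniz, Derivation.leibniz_pow, smul_eq_mul, nsmul_eq_mul, hθ,
      bm1_dA c hθ, bm1_dC c hθ, bm1_ib c hθ, bm1_iX c hθ, bm1_ofNat]
    push_cast
    ring
  obtain ⟨q, eq⟩ : ∃ x, x = 24 * c.h + 1464 * c.h ^ 2 - 24600 * c.h ^ 3 - 315000 * c.h ^ 4
    - 2415000 * c.h ^ 5 - 10275000 * c.h ^ 6 - 20625000 * c.h ^ 7 + 46875000 * c.h ^ 8 := ⟨_, rfl⟩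
  have hP : 24 * c.h + 2208 * c.h ^ 2 + 24984 * c.h ^ 3 - 806400 * c.h ^ 4
       - 15570000 * c.h ^ 5 - 155640000 * c.h ^ 6 - 958650000 * c.h ^ 7 - 3900000000 * c.h ^ 8
       - 8578125000 * c.h ^ 9 - 4687500000 * c.h ^ 10 + 29296875000 * c.h ^ 11 =
       (1 + 25 * c.h) * (1 + 6 * c.h + 25 * c.h ^ 2) * q := by
    rw [eq]
    ring
  have hq : h1 * ((1 + c.h) * (1 - 75 * c.h - 625 * c.h ^ 2 - 3125 * c.h ^ 3)) -
      h2 * (1 - 75 * c.h - 625 * c.h ^ 2 - 3125 * c.h ^ 3) + h3 * (1 + c.h) = ρ * q := by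
    rw [e1, e2, e3, eq]
    ring
  rw [hL, hP]
  unfold xi
  clear eq e1 e2 e3 hP hL
  linear_combination (-h1 * c.ib ^ 2 * c.iX) * hbx + (h2 * c.ib ^ 3 * c.iX) * c.hX -
    (h3 * c.ib ^ 2 * c.iX ^ 2) * c.hb + (c.ib ^ 3 * c.iX ^ 2) * hq -
    (ρ * q * c.ib ^ 3 * c.iX ^ 2) * hacx

theorem bm1_B11 (hθ : θ c.h = ρ * c.h) :
    θ (5 * (1 + 25 * c.h) ^ 2 * (1 + 5 * c.h + 15 * c.h ^ 2 - 5 * c.h ^ 3) * c.ib ^ 2 * c.iX) =
      ρ * (c.xi * ((760 * c.h + 34160 * c.h ^ 2 + 130200 * c.h ^ 3 - 11838400 * c.h ^ 4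
       - 196650000 * c.h ^ 5 - 1730460000 * c.h ^ 6 - 9362250000 * c.h ^ 7
       - 32935000000 * c.h ^ 8 - 62390625000 * c.h ^ 9 - 22656250000 * c.h ^ 10
       + 185546875000 * c.h ^ 11) * c.ib ^ 3 * c.iX ^ 3) -
       c.eta * (24 * c.h * (1 + 25 * c.h) * (1 + 6 * c.h + 25 * c.h ^ 2) * c.ib ^ 2 * c.iX)) := by
  have hacx : (1 + 25 * c.h) * c.ia * ((1 + 6 * c.h + 25 * c.h ^ 2) * c.ic) *
      ((1 - 75 * c.h - 625 * c.h ^ 2 - 3125 * c.h ^ 3) * c.iX) = 1 := by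
    rw [c.ha, c.hc, c.hX]
    ring
  have hbx : (1 + c.h) * c.ib * ((1 - 75 * c.h - 625 * c.h ^ 2 - 3125 * c.h ^ 3) * c.iX) = 1 := by
    rw [c.hb, c.hX]
    ring
  obtain ⟨h1, e1⟩ : ∃ x, x = 5 * ρ * c.h * (50 * (1 + 25 * c.h) *
    (1 + 5 * c.h + 15 * c.h ^ 2 - 5 * c.h ^ 3) +
    (1 + 25 * c.h) ^ 2 * (5 + 30 * c.h - 15 * c.h ^ 2)) := ⟨_, rfl⟩
  obtain ⟨h2, e2⟩ : ∃ x, x = 10 * ρ * c.h * ((1 + 25 * c.h) ^ 2 *
    (1 + 5 * c.h + 15 * c.h ^ 2 - 5 * c.h ^ 3)) := ⟨_, rfl⟩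
  obtain ⟨h3, e3⟩ : ∃ x, x = 5 * ρ * c.h * ((1 + 25 * c.h) ^ 2 *
    (1 + 5 * c.h + 15 * c.h ^ 2 - 5 * c.h ^ 3)) * (75 + 1250 * c.h + 9375 * c.h ^ 2) := ⟨_, rfl⟩
  have hL : θ (5 * (1 + 25 * c.h) ^ 2 * (1 + 5 * c.h + 15 * c.h ^ 2 - 5 * c.h ^ 3) *
      c.ib ^ 2 * c.iX) =
      h1 * c.ib ^ 2 * c.iX - h2 * c.ib ^ 3 * c.iX + h3 * c.ib ^ 2 * c.iX ^ 2 := by
    rw [e1, e2, e3]
    simp only [Derivation.leibniz, Derivation.leibniz_pow, smul_eq_mul, nsmul_eq_mul,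
      bm1_dA c hθ, bm1_dY c hθ, bm1_ib c hθ, bm1_iX c hθ, bm1_ofNat]
    push_cast
    ring
  obtain ⟨q, eq⟩ : ∃ x, x = 760 * c.h + 10600 * c.h ^ 2 - 331400 * c.h ^ 3 - 3895000 * c.h ^ 4
    - 24535000 * c.h ^ 5 - 81125000 * c.h ^ 6 - 119375000 * c.h ^ 7 + 296875000 * c.h ^ 8 :=
    ⟨_, rfl⟩
  obtain ⟨r, er⟩ : ∃ x, x = 120 * c.h * (1 + 25 * c.h) *
    (1 + 5 * c.h + 15 * c.h ^ 2 - 5 * c.h ^ 3) := ⟨_, rfl⟩
  have hP : 760 * c.h + 34160 * c.h ^ 2 + 130200 * c.h ^ 3 - 11838400 * c.h ^ 4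
       - 196650000 * c.h ^ 5 - 1730460000 * c.h ^ 6 - 9362250000 * c.h ^ 7
       - 32935000000 * c.h ^ 8 - 62390625000 * c.h ^ 9 - 22656250000 * c.h ^ 10
       + 185546875000 * c.h ^ 11 =
       (1 + 25 * c.h) * (1 + 6 * c.h + 25 * c.h ^ 2) * q := by
    rw [eq]
    ring
  have hq : h1 * ((1 + c.h) * (1 - 75 * c.h - 625 * c.h ^ 2 - 3125 * c.h ^ 3)) -
      h2 * (1 - 75 * c.h - 625 * c.h ^ 2 - 3125 * c.h ^ 3) + h3 * (1 + c.h) =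
      ρ * q - ρ * r * (1 - 75 * c.h - 625 * c.h ^ 2 - 3125 * c.h ^ 3) := by
    rw [e1, e2, e3, eq, er]
    ring
  have hr : c.eta * (24 * c.h * (1 + 25 * c.h) * (1 + 6 * c.h + 25 * c.h ^ 2) * c.ib ^ 2 * c.iX) =
      r * c.ib ^ 3 * c.iX := by
    rw [er]
    unfold eta
    linear_combination (120 * c.h * (1 + 25 * c.h) * (1 + 5 * c.h + 15 * c.h ^ 2 - 5 * c.h ^ 3) *
      c.ib ^ 3 * c.iX) * c.hc
  rw [hL, hP, hr]
  unfold xi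
  clear eq e1 e2 e3 hP hL er hr
  linear_combination (-h1 * c.ib ^ 2 * c.iX) * hbx + (h2 * c.ib ^ 3 * c.iX) * c.hX -
    (h3 * c.ib ^ 2 * c.iX ^ 2) * c.hb + (c.ib ^ 3 * c.iX ^ 2) * hq -
    (ρ * q * c.ib ^ 3 * c.iX ^ 2) * hacx + (ρ * r * c.ib ^ 3 * c.iX) * c.hX * (-1)

theorem bm1_u0 (hθ : θ c.h = ρ * c.h) : c.xi * (5 * (1 + 25 * c.h) ^ 2 *
    (1 + 5 * c.h + 15 * c.h ^ 2 - 5 * c.h ^ 3) * c.ib ^ 2 * c.iX) =
    c.eta * ((1 + 25 * c.h) * c.ib) := by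
  have hax : (1 + 25 * c.h) * c.ia *
      ((1 - 75 * c.h - 625 * c.h ^ 2 - 3125 * c.h ^ 3) * c.iX) = 1 := by
    rw [c.ha, c.hX]
    ring
  unfold xi eta
  linear_combination (5 * (1 + 25 * c.h) * (1 + 5 * c.h + 15 * c.h ^ 2 - 5 * c.h ^ 3) *
    c.ib ^ 2 * c.ic) * hax

theorem bm1_u1 (hθ : θ c.h = ρ * c.h) : c.xi * (25 * (1 + 25 * c.h) ^ 3 *
    (1 + 5 * c.h + 15 * c.h ^ 2 - 5 * c.h ^ 3) ^ 2 * c.ib ^ 3 * c.iX ^ 2) =
    c.eta * (5 * (1 + 25 * c.h) ^ 2 * (1 + 5 * c.h + 15 * c.h ^ 2 - 5 * c.h ^ 3) *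
      c.ib ^ 2 * c.iX) := by
  have hax : (1 + 25 * c.h) * c.ia *
      ((1 - 75 * c.h - 625 * c.h ^ 2 - 3125 * c.h ^ 3) * c.iX) = 1 := by
    rw [c.ha, c.hX]
    ring
  unfold xi eta
  linear_combination (25 * (1 + 25 * c.h) ^ 2 * (1 + 5 * c.h + 15 * c.h ^ 2 - 5 * c.h ^ 3) ^ 2 *
    c.ib ^ 3 * c.ic * c.iX) * hax

theorem der_B01 (hθ : θ c.h = ρ * c.h) (i j : Fin 3) (hi : i ≠ 2) :
    θ (c.B i j) = ρ * (c.xi * (Nmat c.Xv c.izX * c.B) i j - c.eta * (c.B * Nmat c.Yv c.izY) i j) := by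
  have h00 := bm1_B00 c θ ρ hθ
  have h10 := bm1_B10 c θ ρ hθ
  have h11 := bm1_B11 c θ ρ hθ
  have hu0 := bm1_u0 c θ ρ hθ
  have hu1 := bm1_u1 c θ ρ hθ
  fin_cases i
  · fin_cases j
    · simp only [B, Nmat, Matrix.mul_apply, Fin.sum_univ_three, Fin.zero_eta, Fin.mk_one,
        Fin.reduceFinMk, Matrix.of_apply, Matrix.cons_val', Matrix.cons_val_zero,
        Matrix.cons_val_one, Matrix.cons_val, Matrix.cons_val_fin_one]
      rw [h00]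
      ring
    · simp only [B, Nmat, Matrix.mul_apply, Fin.sum_univ_three, Fin.zero_eta, Fin.mk_one,
        Fin.reduceFinMk, Matrix.of_apply, Matrix.cons_val', Matrix.cons_val_zero,
        Matrix.cons_val_one, Matrix.cons_val, Matrix.cons_val_fin_one, map_zero]
      linear_combination (-ρ) * hu0
    · simp only [B, Nmat, Matrix.mul_apply, Fin.sum_univ_three, Fin.zero_eta, Fin.mk_one,
        Fin.reduceFinMk, Matrix.of_apply, Matrix.cons_val', Matrix.cons_val_zero,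
        Matrix.cons_val_one, Matrix.cons_val, Matrix.cons_val_fin_one, map_zero]
      ring
  · fin_cases j
    · simp only [B, Nmat, Matrix.mul_apply, Fin.sum_univ_three, Fin.zero_eta, Fin.mk_one,
        Fin.reduceFinMk, Matrix.of_apply, Matrix.cons_val', Matrix.cons_val_zero,
        Matrix.cons_val_one, Matrix.cons_val, Matrix.cons_val_fin_one]
      rw [h10]
      ring
    · simp only [B, Nmat, Matrix.mul_apply, Fin.sum_univ_three, Fin.zero_eta, Fin.mk_one,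
        Fin.reduceFinMk, Matrix.of_apply, Matrix.cons_val', Matrix.cons_val_zero,
        Matrix.cons_val_one, Matrix.cons_val, Matrix.cons_val_fin_one]
      rw [h11]
      ring
    · simp only [B, Nmat, Matrix.mul_apply, Fin.sum_univ_three, Fin.zero_eta, Fin.mk_one,
        Fin.reduceFinMk, Matrix.of_apply, Matrix.cons_val', Matrix.cons_val_zero,
        Matrix.cons_val_one, Matrix.cons_val, Matrix.cons_val_fin_one, map_zero]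
      linear_combination (-ρ) * hu1
  · exact absurd rfl hi

end

section
variable {S : Type*} [CommRing S] (c : HC S)

/-- the special point h = 1/5 -/
theorem B_special (h5 : 5 * c.h = 1) (a : Fin 3 → S) (d : S) (h2 : IsUnit (2 : S))
    (h3 : IsUnit (3 : S))
    (ha : ∀ j, d ∣ (Matrix.vecMul a c.B) j + 5 * a j) : d ∣ a 2 ∧ d ∣ a 1 - 10 * a 0 := by
  have eib : 6 * c.ib = 5 := by
    linear_combination 5 * c.hb - c.ib * h5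
  have eiX : 64 * c.iX = -1 := by
    have h1 : 1 - 75 * c.h - 625 * c.h ^ 2 - 3125 * c.h ^ 3 = -64 := by
      linear_combination (-15 - 25 * (5 * c.h + 1) - 25 * ((5 * c.h) ^ 2 + 5 * c.h + 1)) * h5
    have h2 := c.hX
    rw [h1] at h2
    linear_combination -h2
  have eA : 1 + 25 * c.h = 6 := by linear_combination 5 * h5
  have eY : 25 * (1 + 5 * c.h + 15 * c.h ^ 2 - 5 * c.h ^ 3) = 64 := by
    linear_combination (25 + 15 * (5 * c.h + 1) - ((5 * c.h) ^ 2 + 5 * c.h + 1)) * h5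
  have e00 : (1 + 25 * c.h) * c.ib = 5 := by
    rw [eA]
    exact eib
  have e10 : 24 * c.h * (1 + 25 * c.h) * (1 + 6 * c.h + 25 * c.h ^ 2) * c.ib ^ 2 * c.iX = -1 := by
    have h1 : 24 * c.h * (1 + 25 * c.h) * (1 + 6 * c.h + 25 * c.h ^ 2) * c.ib ^ 2 * c.iX =
        4 * c.h * (1 + 6 * c.h + 25 * c.h ^ 2) * (6 * c.ib) ^ 2 * c.iX := by
      rw [eA]
      ring
    rw [h1, eib]
    have h3 : 100 * c.h * (1 + 6 * c.h + 25 * c.h ^ 2) = 64 := by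
      linear_combination (20 + 24 * (5 * c.h + 1) + 20 * ((5 * c.h) ^ 2 + 5 * c.h + 1)) * h5
    linear_combination c.iX * h3 + eiX
  have e22 : 25 * (1 + 25 * c.h) ^ 3 * (1 + 5 * c.h + 15 * c.h ^ 2 - 5 * c.h ^ 3) ^ 2
       * c.ib ^ 3 * c.iX ^ 2 = 5 := by
    rw [eA]
    have h1 : 25 * 6 ^ 3 * (1 + 5 * c.h + 15 * c.h ^ 2 - 5 * c.h ^ 3) ^ 2
       * c.ib ^ 3 * c.iX ^ 2 = (6 * c.ib) ^ 3 * (25 *
        (1 + 5 * c.h + 15 * c.h ^ 2 - 5 * c.h ^ 3)) *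
        (1 + 5 * c.h + 15 * c.h ^ 2 - 5 * c.h ^ 3) * c.iX ^ 2 := by ring
    rw [h1, eib, eY]
    have h3 : (5 : S) ^ 3 * 64 * (1 + 5 * c.h + 15 * c.h ^ 2 - 5 * c.h ^ 3) * c.iX ^ 2 =
        5 * (25 * (1 + 5 * c.h + 15 * c.h ^ 2 - 5 * c.h ^ 3)) * c.iX * (64 * c.iX) := by ring
    rw [h3, eY, eiX]
    linear_combination (-5) * eiX
  have k0 := ha 0
  have k2 := ha 2
  simp only [Matrix.vecMul, dotProduct, Fin.sum_univ_three, B, Matrix.of_apply,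
    Matrix.cons_val', Matrix.cons_val_zero, Matrix.cons_val_one, Matrix.cons_val,
    Matrix.cons_val_fin_one] at k0 k2
  rw [e22] at k2
  rw [e00, e10] at k0
  have hu : IsUnit (10 : S) := by
    have h6 : IsUnit (5 : S) := IsUnit.of_mul_eq_one _ h5
    have h7 : (10 : S) = 2 * 5 := by norm_num
    rw [h7]
    exact h2.mul h6
  have hd2 : d ∣ a 2 := by
    have h8 : a 0 * 0 + a 1 * 0 + a 2 * 5 + 5 * a 2 = 10 * a 2 := by ring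
    rw [h8] at k2
    exact (hu.dvd_mul_left).1 k2
  refine ⟨hd2, ?_⟩
  have h9 : d ∣ a 2 * ((24 * c.h + 2208 * c.h ^ 2 + 24984 * c.h ^ 3 - 806400 * c.h ^ 4
       - 15570000 * c.h ^ 5
       - 155640000 * c.h ^ 6 - 958650000 * c.h ^ 7 - 3900000000 * c.h ^ 8
       - 8578125000 * c.h ^ 9 - 4687500000 * c.h ^ 10 + 29296875000 * c.h ^ 11)
       * c.ib ^ 3 * c.iX ^ 3) := Dvd.dvd.mul_right hd2 _
  have h10 := dvd_sub h9 k0
  have h11 : a 2 * ((24 * c.h + 2208 * c.h ^ 2 + 24984 * c.h ^ 3 - 806400 * c.h ^ 4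
       - 15570000 * c.h ^ 5
       - 155640000 * c.h ^ 6 - 958650000 * c.h ^ 7 - 3900000000 * c.h ^ 8
       - 8578125000 * c.h ^ 9 - 4687500000 * c.h ^ 10 + 29296875000 * c.h ^ 11)
       * c.ib ^ 3 * c.iX ^ 3) - (a 0 * 5 + a 1 * -1 + a 2 * ((24 * c.h + 2208 * c.h ^ 2 +
       24984 * c.h ^ 3 - 806400 * c.h ^ 4
       - 15570000 * c.h ^ 5
       - 155640000 * c.h ^ 6 - 958650000 * c.h ^ 7 - 3900000000 * c.h ^ 8
       - 8578125000 * c.h ^ 9 - 4687500000 * c.h ^ 10 + 29296875000 * c.h ^ 11)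
       * c.ib ^ 3 * c.iX ^ 3) + 5 * a 0) = a 1 - 10 * a 0 := by ring
  rwa [h11] at h10

end

end HC

end FF1001
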