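import Pool.Agent.W_ff1001_h94.HC

/-! Row 2 of the derivative of the isogeny matrix. -/

namespace FF1001

open Finset Polynomial

namespace BM2

variable {S : Type*} [CommRing S]

def qA (h : S) : S := 1 + 25 * h
def qB (h : S) : S := 1 + h
def qC (h : S) : S := 1 + 6 * h + 25 * h ^ 2
def qX (h : S) : S := 1 - 75 * h - 625 * h ^ 2 - 3125 * h ^ 3
def eX (h : S) : S := - 75 * h - 1250 * h ^ 2 - 9375 * h ^ 3
def qY (h : S) : S := 1 + 5 * h + 15 * h ^ 2 - 5 * h ^ 3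
def p0 (h : S) : S := 24 * h + 2208 * h ^ 2 + 24984 * h ^ 3 - 806400 * h ^ 4 - 15570000 * h ^ 5
       - 155640000 * h ^ 6 - 958650000 * h ^ 7 - 3900000000 * h ^ 8
       - 8578125000 * h ^ 9 - 4687500000 * h ^ 10 + 29296875000 * h ^ 11
def ep0 (h : S) : S := 24 * h + 2208 * 2 * h ^ 2 + 24984 * 3 * h ^ 3 - 806400 * 4 * h ^ 4
       - 15570000 * 5 * h ^ 5
       - 155640000 * 6 * h ^ 6 - 958650000 * 7 * h ^ 7 - 3900000000 * 8 * h ^ 8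
       - 8578125000 * 9 * h ^ 9 - 4687500000 * 10 * h ^ 10 + 29296875000 * 11 * h ^ 11
def p1 (h : S) : S := 760 * h + 34160 * h ^ 2 + 130200 * h ^ 3 - 11838400 * h ^ 4
       - 196650000 * h ^ 5
       - 1730460000 * h ^ 6 - 9362250000 * h ^ 7 - 32935000000 * h ^ 8
       - 62390625000 * h ^ 9 - 22656250000 * h ^ 10 + 185546875000 * h ^ 11
def ep1 (h : S) : S := 760 * h + 34160 * 2 * h ^ 2 + 130200 * 3 * h ^ 3 - 11838400 * 4 * h ^ 4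
       - 196650000 * 5 * h ^ 5
       - 1730460000 * 6 * h ^ 6 - 9362250000 * 7 * h ^ 7 - 32935000000 * 8 * h ^ 8
       - 62390625000 * 9 * h ^ 9 - 22656250000 * 10 * h ^ 10 + 185546875000 * 11 * h ^ 11
def p2 (h : S) : S := 25 * (1 + 25 * h) ^ 3 * (1 + 5 * h + 15 * h ^ 2 - 5 * h ^ 3) ^ 2
def ep2 (h : S) : S := 25 * (75 * h * (1 + 25 * h) ^ 2 * (1 + 5 * h + 15 * h ^ 2 - 5 * h ^ 3) ^ 2
  + 2 * (1 + 25 * h) ^ 3 * (1 + 5 * h + 15 * h ^ 2 - 5 * h ^ 3) *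
    (5 * h + 30 * h ^ 2 - 15 * h ^ 3))

theorem id0 (h : S) :
    ep0 h * qA h * qC h * qB h * qX h - 3 * p0 h * h * qA h * qC h * qX h
      - 3 * p0 h * qA h * qC h * qB h * eX h
    = 24 * h * qA h * qB h ^ 3 * qX h ^ 3 + 4224 * h ^ 2 * qA h * qC h * qB h ^ 2 * qX h ^ 2
      + 384 * h * p0 h * qB h - 3000 * h ^ 5 * qA h ^ 4 * qY h * qX h ^ 2 := by
  unfold ep0 p0 qA qB qC qX qY eX
  ring

theorem id1 (h : S) :
    ep1 h * qA h * qC h * qB h * qX h - 3 * p1 h * h * qA h * qC h * qX h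
      - 3 * p1 h * qA h * qC h * qB h * eX h
    = 880 * h * qA h ^ 2 * qY h * qB h ^ 2 * qX h ^ 2
      + 384 * h * p1 h * qB h - 5 * qY h * qA h * qX h * p0 h
      - 22000 * h ^ 5 * qA h ^ 4 * qY h * qX h ^ 2 := by
  unfold ep1 p1 p0 qA qB qC qX qY eX
  ring

theorem id2 (h : S) :
    ep2 h * qA h * qC h * qB h * qX h ^ 2 - 3 * p2 h * h * qA h * qC h * qX h ^ 2
      - 2 * p2 h * qA h * qC h * qB h * qX h * eX h
    = 384 * h * p2 h * qB h * qX h - 5 * qY h * qA h * qX h * p1 h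
      - 48000 * h ^ 5 * qA h ^ 4 * qY h * qX h ^ 2 := by
  unfold ep2 p2 p1 qA qB qC qX qY eX
  ring

/-- clearing of denominators -/
theorem clr {A a B b C c X x : S} (ha : A * a = 1) (hb : B * b = 1) (hc : C * c = 1)
    (hx : X * x = 1) {t s : S} (i j k l : ℕ)
    (h : (A * a) ^ i * (B * b) ^ j * (C * c) ^ k * (X * x) ^ l * t = s) : t = s := by
  rw [ha, hb, hc, hx] at h
  simpa using h

end BM2

namespace HC

open BM2

variable {S : Type*} [CommRing S] (c : HC S) {R : Type*} [CommRing R] [Algebra R S]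
  (θ : Derivation R S S) (ρ : S)

theorem bm2_pow (hθ : θ c.h = ρ * c.h) (n : ℕ) (a : ℕ) [a.AtLeastTwo] :
    θ ((OfNat.ofNat a : S) * c.h ^ n) = ρ * ((OfNat.ofNat a : S) * n * c.h ^ n) := by
  rw [← Nat.cast_ofNat, ← nsmul_eq_mul, map_nsmul, Derivation.leibniz_pow, hθ]
  rcases n with _ | n
  · simp
  · simp only [nsmul_eq_mul, smul_eq_mul, Nat.add_sub_cancel]
    ring

theorem bm2_one (hθ : θ c.h = ρ * c.h) (a : ℕ) [a.AtLeastTwo] :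
    θ ((OfNat.ofNat a : S) * c.h) = ρ * ((OfNat.ofNat a : S) * c.h) := by
  have := bm2_pow c θ ρ hθ 1 a
  simpa using this

theorem bm2_ib (hθ : θ c.h = ρ * c.h) : θ c.ib = - (ρ * c.h) * c.ib ^ 2 := by
  have h1 := congrArg θ c.hb
  rw [Derivation.leibniz, map_add, Derivation.map_one_eq_zero, hθ] at h1
  simp only [smul_eq_mul, zero_add] at h1
  linear_combination c.ib * h1 - θ c.ib * c.hb

theorem bm2_iX (hθ : θ c.h = ρ * c.h) : θ c.iX = - (ρ * eX c.h) * c.iX ^ 2 := by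
  have h1 := congrArg θ c.hX
  rw [Derivation.leibniz] at h1
  simp only [map_sub, Derivation.map_one_eq_zero, bm2_pow c θ ρ hθ, bm2_one c θ ρ hθ,
    smul_eq_mul, Nat.cast_ofNat] at h1
  unfold eX
  linear_combination c.iX * h1 - θ c.iX * c.hX

theorem bm2_p0 (hθ : θ c.h = ρ * c.h) : θ (p0 c.h) = ρ * ep0 c.h := by
  unfold p0 ep0
  simp only [map_add, map_sub, bm2_pow c θ ρ hθ, bm2_one c θ ρ hθ, Nat.cast_ofNat]
  ring

theorem bm2_p1 (hθ : θ c.h = ρ * c.h) : θ (p1 c.h) = ρ * ep1 c.h := by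
  unfold p1 ep1
  simp only [map_add, map_sub, bm2_pow c θ ρ hθ, bm2_one c θ ρ hθ, Nat.cast_ofNat]
  ring

theorem bm2_p2 (hθ : θ c.h = ρ * c.h) : θ (p2 c.h) = ρ * ep2 c.h := by
  have e : p2 c.h = (25 : ℕ) • (qA c.h ^ 3 * qY c.h ^ 2) := by
    unfold p2 qA qY
    simp only [nsmul_eq_mul, Nat.cast_ofNat]
    ring
  have hA : θ (qA c.h) = ρ * (25 * c.h) := by
    unfold qA
    simp only [map_add, Derivation.map_one_eq_zero, bm2_one c θ ρ hθ, zero_add]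
  have hY : θ (qY c.h) = ρ * (5 * c.h + 15 * 2 * c.h ^ 2 - 5 * 3 * c.h ^ 3) := by
    unfold qY
    simp only [map_add, map_sub, Derivation.map_one_eq_zero, bm2_pow c θ ρ hθ,
      bm2_one c θ ρ hθ, Nat.cast_ofNat]
    ring
  rw [e, map_nsmul, Derivation.leibniz, Derivation.leibniz_pow, Derivation.leibniz_pow, hA, hY]
  simp only [nsmul_eq_mul, smul_eq_mul, Nat.cast_ofNat]
  unfold qA qY ep2
  norm_num
  ring

theorem bm2_Xz : c.Xv * c.izX = c.h * c.iX ^ 2 := by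
  have h1 : c.Xv * c.izX = ((1 + 25 * c.h) * c.ia) ^ 4 *
      ((1 + 6 * c.h + 25 * c.h ^ 2) * c.ic) * (c.h * c.iX ^ 2) := by
    unfold Xv izX
    ring
  rw [h1, c.ha, c.hc]
  ring

theorem bm2_Yz : c.Yv * c.izY = c.h ^ 5 * c.iY ^ 2 := by
  have h1 : c.Yv * c.izY = ((1 + c.h) * c.ib) ^ 4 *
      ((1 + 6 * c.h + 25 * c.h ^ 2) * c.ic) * (c.h ^ 5 * c.iY ^ 2) := by
    unfold Yv izY
    ring
  rw [h1, c.hb, c.hc]
  ring

theorem bm2_NB (j : Fin 3) : c.xi * (Nmat c.Xv c.izX * c.B) 2 j =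
    c.h * c.ia * c.ic * c.iX * (24 * c.B 0 j + 176 * c.B 1 j + 384 * c.B 2 j) := by
  rw [Matrix.mul_apply, Fin.sum_univ_three]
  have h0 : Nmat c.Xv c.izX 2 0 = 24 * (c.Xv * c.izX) := rfl
  have h1 : Nmat c.Xv c.izX 2 1 = 176 * (c.Xv * c.izX) := rfl
  have h2 : Nmat c.Xv c.izX 2 2 = 384 * (c.Xv * c.izX) := rfl
  rw [h0, h1, h2, bm2_Xz]
  unfold xi
  linear_combination (c.ia * c.ic * c.h * c.iX *
    (24 * c.B 0 j + 176 * c.B 1 j + 384 * c.B 2 j)) * c.hX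

theorem bm2_BN0 : c.eta * (c.B * Nmat c.Yv c.izY) 2 0 =
    5 * qY c.h * c.ib * c.ic * (24 * (c.h ^ 5 * c.iY ^ 2) * c.B 2 2) := by
  rw [Matrix.mul_apply, Fin.sum_univ_three]
  have h0 : Nmat c.Yv c.izY 0 0 = 0 := rfl
  have h1 : Nmat c.Yv c.izY 1 0 = 0 := rfl
  have h2 : Nmat c.Yv c.izY 2 0 = 24 * (c.Yv * c.izY) := rfl
  rw [h0, h1, h2, bm2_Yz]
  unfold eta qY
  ring

theorem bm2_BN1 : c.eta * (c.B * Nmat c.Yv c.izY) 2 1 =
    5 * qY c.h * c.ib * c.ic * (c.B 2 0 + 176 * (c.h ^ 5 * c.iY ^ 2) * c.B 2 2) := by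
  rw [Matrix.mul_apply, Fin.sum_univ_three]
  have h0 : Nmat c.Yv c.izY 0 1 = 1 := rfl
  have h1 : Nmat c.Yv c.izY 1 1 = 0 := rfl
  have h2 : Nmat c.Yv c.izY 2 1 = 176 * (c.Yv * c.izY) := rfl
  rw [h0, h1, h2, bm2_Yz]
  unfold eta qY
  ring

theorem bm2_BN2 : c.eta * (c.B * Nmat c.Yv c.izY) 2 2 =
    5 * qY c.h * c.ib * c.ic * (c.B 2 1 + 384 * (c.h ^ 5 * c.iY ^ 2) * c.B 2 2) := by
  rw [Matrix.mul_apply, Fin.sum_univ_three]
  have h0 : Nmat c.Yv c.izY 0 2 = 0 := rfl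
  have h1 : Nmat c.Yv c.izY 1 2 = 1 := rfl
  have h2 : Nmat c.Yv c.izY 2 2 = 384 * (c.Yv * c.izY) := rfl
  rw [h0, h1, h2, bm2_Yz]
  unfold eta qY
  ring

theorem bm2_e00 : c.B 0 0 = qA c.h * c.ib := rfl
theorem bm2_e01 : c.B 0 1 = 0 := rfl
theorem bm2_e02 : c.B 0 2 = 0 := rfl
theorem bm2_e10 : c.B 1 0 = 24 * c.h * qA c.h * qC c.h * c.ib ^ 2 * c.iX := rfl
theorem bm2_e11 : c.B 1 1 = 5 * qA c.h ^ 2 * qY c.h * c.ib ^ 2 * c.iX := rfl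
theorem bm2_e12 : c.B 1 2 = 0 := rfl
theorem bm2_e20 : c.B 2 0 = p0 c.h * c.ib ^ 3 * c.iX ^ 3 := rfl
theorem bm2_e21 : c.B 2 1 = p1 c.h * c.ib ^ 3 * c.iX ^ 3 := rfl
theorem bm2_e22 : c.B 2 2 = p2 c.h * c.ib ^ 3 * c.iX ^ 2 := rfl

theorem bm2_ha : qA c.h * c.ia = 1 := c.ha
theorem bm2_hb : qB c.h * c.ib = 1 := c.hb
theorem bm2_hc : qC c.h * c.ic = 1 := c.hc
theorem bm2_hX : qX c.h * c.iX = 1 := c.hX
theorem bm2_hY : qY c.h * c.iY = 1 := c.hY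

theorem bm2_p2' : p2 c.h = 25 * qA c.h ^ 3 * qY c.h ^ 2 := rfl

/-- derivative of `P ib^3 iX^3` -/
theorem bm2_d3 (hθ : θ c.h = ρ * c.h) (P E : S) (hP : θ P = ρ * E) :
    θ (P * c.ib ^ 3 * c.iX ^ 3) = ρ * (c.ia * c.ic * c.ib ^ 4 * c.iX ^ 4) *
      (E * qA c.h * qC c.h * qB c.h * qX c.h - 3 * P * c.h * qA c.h * qC c.h * qX c.h
      - 3 * P * qA c.h * qC c.h * qB c.h * eX c.h) := by
  rw [Derivation.leibniz, Derivation.leibniz, Derivation.leibniz_pow, Derivation.leibniz_pow,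
    bm2_ib c θ ρ hθ, bm2_iX c θ ρ hθ, hP]
  simp only [nsmul_eq_mul, smul_eq_mul, Nat.cast_ofNat, Nat.add_one_sub_one]
  have ha := c.bm2_ha
  have hb := c.bm2_hb
  have hc := c.bm2_hc
  have hX := c.bm2_hX
  generalize qA c.h = A at *
  generalize qB c.h = B at *
  generalize qC c.h = C at *
  generalize qX c.h = X at *
  generalize eX c.h = Y at *
  have m1 : c.ib ^ 3 * c.iX ^ 3 = (c.ia * c.ic * c.ib ^ 4 * c.iX ^ 4) * (A * C * B * X) :=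
    clr ha hb hc hX 1 1 1 1 (by ring)
  have m2 : c.ib ^ 4 * c.iX ^ 3 = (c.ia * c.ic * c.ib ^ 4 * c.iX ^ 4) * (A * C * X) :=
    clr ha hb hc hX 1 0 1 1 (by ring)
  have m3 : c.ib ^ 3 * c.iX ^ 4 = (c.ia * c.ic * c.ib ^ 4 * c.iX ^ 4) * (A * C * B) :=
    clr ha hb hc hX 1 1 1 0 (by ring)
  linear_combination ρ * E * m1 - 3 * ρ * P * c.h * m2 - 3 * ρ * P * Y * m3

/-- derivative of `P ib^3 iX^2` -/
theorem bm2_d2 (hθ : θ c.h = ρ * c.h) (P E : S) (hP : θ P = ρ * E) :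
    θ (P * c.ib ^ 3 * c.iX ^ 2) = ρ * (c.ia * c.ic * c.ib ^ 4 * c.iX ^ 4) *
      (E * qA c.h * qC c.h * qB c.h * qX c.h ^ 2 - 3 * P * c.h * qA c.h * qC c.h * qX c.h ^ 2
      - 2 * P * qA c.h * qC c.h * qB c.h * qX c.h * eX c.h) := by
  rw [Derivation.leibniz, Derivation.leibniz, Derivation.leibniz_pow, Derivation.leibniz_pow,
    bm2_ib c θ ρ hθ, bm2_iX c θ ρ hθ, hP]
  simp only [nsmul_eq_mul, smul_eq_mul, Nat.cast_ofNat, Nat.add_one_sub_one, pow_one]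
  have ha := c.bm2_ha
  have hb := c.bm2_hb
  have hc := c.bm2_hc
  have hX := c.bm2_hX
  generalize qA c.h = A at *
  generalize qB c.h = B at *
  generalize qC c.h = C at *
  generalize qX c.h = X at *
  generalize eX c.h = Y at *
  have m1 : c.ib ^ 3 * c.iX ^ 2 = (c.ia * c.ic * c.ib ^ 4 * c.iX ^ 4) * (A * C * B * X ^ 2) :=
    clr ha hb hc hX 1 1 1 2 (by ring)
  have m2 : c.ib ^ 4 * c.iX ^ 2 = (c.ia * c.ic * c.ib ^ 4 * c.iX ^ 4) * (A * C * X ^ 2) :=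
    clr ha hb hc hX 1 0 1 2 (by ring)
  have m3 : c.ib ^ 3 * c.iX ^ 3 = (c.ia * c.ic * c.ib ^ 4 * c.iX ^ 4) * (A * C * B * X) :=
    clr ha hb hc hX 1 1 1 1 (by ring)
  linear_combination ρ * E * m1 - 3 * ρ * P * c.h * m2 - 2 * ρ * P * Y * m3

theorem bm2_r0 (hθ : θ c.h = ρ * c.h) :
    θ (c.B 2 0) = ρ * (c.xi * (Nmat c.Xv c.izX * c.B) 2 0
      - c.eta * (c.B * Nmat c.Yv c.izY) 2 0) := by
  rw [bm2_NB, bm2_BN0, bm2_e20, bm2_e00, bm2_e10, bm2_e22,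
    bm2_d3 c θ ρ hθ _ _ (bm2_p0 c θ ρ hθ), id0, bm2_p2']
  have ha := c.bm2_ha
  have hb := c.bm2_hb
  have hc := c.bm2_hc
  have hX := c.bm2_hX
  have hY := c.bm2_hY
  generalize qA c.h = A at *
  generalize qB c.h = B at *
  generalize qC c.h = C at *
  generalize qX c.h = X at *
  generalize qY c.h = Y at *
  generalize p0 c.h = P at *
  have m4 : c.ia * c.ic * c.iX * c.ib =
      (c.ia * c.ic * c.ib ^ 4 * c.iX ^ 4) * (B ^ 3 * X ^ 3) :=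
    clr ha hb hc hX 0 3 0 3 (by ring)
  have m5 : c.ia * c.ic * c.iX * (c.ib ^ 2 * c.iX) =
      (c.ia * c.ic * c.ib ^ 4 * c.iX ^ 4) * (B ^ 2 * X ^ 2) :=
    clr ha hb hc hX 0 2 0 2 (by ring)
  have m6 : c.ia * c.ic * c.iX * (c.ib ^ 3 * c.iX ^ 3) =
      (c.ia * c.ic * c.ib ^ 4 * c.iX ^ 4) * B :=
    clr ha hb hc hX 0 1 0 0 (by ring)
  have m7 : Y ^ 2 * c.iY ^ 2 * (c.ib ^ 4 * c.ic * c.iX ^ 2) =
      (c.ia * c.ic * c.ib ^ 4 * c.iX ^ 4) * (A * X ^ 2) := by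
    rw [← mul_pow, hY, one_pow, one_mul]
    exact clr ha hb hc hX 1 0 0 2 (by ring)
  linear_combination - ρ * 24 * c.h * A * m4 - ρ * 4224 * c.h ^ 2 * A * C * m5
    - ρ * 384 * c.h * P * m6 + ρ * 3000 * c.h ^ 5 * Y * A ^ 3 * m7

theorem bm2_r1 (hθ : θ c.h = ρ * c.h) :
    θ (c.B 2 1) = ρ * (c.xi * (Nmat c.Xv c.izX * c.B) 2 1
      - c.eta * (c.B * Nmat c.Yv c.izY) 2 1) := by
  rw [bm2_NB, bm2_BN1, bm2_e20, bm2_e01, bm2_e11, bm2_e21, bm2_e22,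
    bm2_d3 c θ ρ hθ _ _ (bm2_p1 c θ ρ hθ), id1, bm2_p2']
  have ha := c.bm2_ha
  have hb := c.bm2_hb
  have hc := c.bm2_hc
  have hX := c.bm2_hX
  have hY := c.bm2_hY
  generalize qA c.h = A at *
  generalize qB c.h = B at *
  generalize qC c.h = C at *
  generalize qX c.h = X at *
  generalize qY c.h = Y at *
  generalize p0 c.h = P at *
  generalize p1 c.h = Q at *
  have m5 : c.ia * c.ic * c.iX * (c.ib ^ 2 * c.iX) =
      (c.ia * c.ic * c.ib ^ 4 * c.iX ^ 4) * (B ^ 2 * X ^ 2) :=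
    clr ha hb hc hX 0 2 0 2 (by ring)
  have m6 : c.ia * c.ic * c.iX * (c.ib ^ 3 * c.iX ^ 3) =
      (c.ia * c.ic * c.ib ^ 4 * c.iX ^ 4) * B :=
    clr ha hb hc hX 0 1 0 0 (by ring)
  have m8 : c.ib * c.ic * (c.ib ^ 3 * c.iX ^ 3) =
      (c.ia * c.ic * c.ib ^ 4 * c.iX ^ 4) * (A * X) :=
    clr ha hb hc hX 1 0 0 1 (by ring)
  have m7 : Y ^ 2 * c.iY ^ 2 * (c.ib ^ 4 * c.ic * c.iX ^ 2) =
      (c.ia * c.ic * c.ib ^ 4 * c.iX ^ 4) * (A * X ^ 2) := by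
    rw [← mul_pow, hY, one_pow, one_mul]
    exact clr ha hb hc hX 1 0 0 2 (by ring)
  linear_combination - ρ * 880 * c.h * A ^ 2 * Y * m5
    - ρ * 384 * c.h * Q * m6 + ρ * 5 * Y * P * m8 + ρ * 22000 * c.h ^ 5 * Y * A ^ 3 * m7

theorem bm2_r2 (hθ : θ c.h = ρ * c.h) :
    θ (c.B 2 2) = ρ * (c.xi * (Nmat c.Xv c.izX * c.B) 2 2
      - c.eta * (c.B * Nmat c.Yv c.izY) 2 2) := by
  rw [bm2_NB, bm2_BN2, bm2_e02, bm2_e12, bm2_e21, bm2_e22,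
    bm2_d2 c θ ρ hθ _ _ (bm2_p2 c θ ρ hθ), id2, bm2_p2']
  have ha := c.bm2_ha
  have hb := c.bm2_hb
  have hc := c.bm2_hc
  have hX := c.bm2_hX
  have hY := c.bm2_hY
  generalize qA c.h = A at *
  generalize qB c.h = B at *
  generalize qC c.h = C at *
  generalize qX c.h = X at *
  generalize qY c.h = Y at *
  generalize p1 c.h = Q at *
  have m6 : c.ia * c.ic * c.iX * (c.ib ^ 3 * c.iX ^ 2) =
      (c.ia * c.ic * c.ib ^ 4 * c.iX ^ 4) * (B * X) :=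
    clr ha hb hc hX 0 1 0 1 (by ring)
  have m8 : c.ib * c.ic * (c.ib ^ 3 * c.iX ^ 3) =
      (c.ia * c.ic * c.ib ^ 4 * c.iX ^ 4) * (A * X) :=
    clr ha hb hc hX 1 0 0 1 (by ring)
  have m7 : Y ^ 2 * c.iY ^ 2 * (c.ib ^ 4 * c.ic * c.iX ^ 2) =
      (c.ia * c.ic * c.ib ^ 4 * c.iX ^ 4) * (A * X ^ 2) := by
    rw [← mul_pow, hY, one_pow, one_mul]
    exact clr ha hb hc hX 1 0 0 2 (by ring)
  linear_combination
    - ρ * 384 * c.h * (25 * A ^ 3 * Y ^ 2) * m6 + ρ * 5 * Y * Q * m8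
    + ρ * 48000 * c.h ^ 5 * Y * A ^ 3 * m7

theorem der_B2 (hθ : θ c.h = ρ * c.h) (j : Fin 3) :
    θ (c.B 2 j) = ρ * (c.xi * (Nmat c.Xv c.izX * c.B) 2 j
      - c.eta * (c.B * Nmat c.Yv c.izY) 2 j) := by
  fin_cases j
  · exact bm2_r0 c θ ρ hθ
  · exact bm2_r1 c θ ρ hθ
  · exact bm2_r2 c θ ρ hθ

end HC

end FF1001
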