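import Pool.Agent.W_ff1001_h94.BM1
import Pool.Agent.W_ff1001_h94.BM2

/-! More on the data `HC`: uniqueness, functoriality, special values. -/

namespace FF1001

open Finset Polynomial

namespace HC

variable {S : Type*} [CommRing S]

theorem inv_unique {a b c : S} (h1 : a * b = 1) (h2 : a * c = 1) : b = c := by
  calc b = b * (a * c) := by rw [h2, mul_one]
    _ = (a * b) * c := by ring
    _ = c := by rw [h1, one_mul]

theorem ext_h (c c' : HC S) (h : c.h = c'.h) : c = c' := by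
  obtain ⟨x, ia, ib, ic, iX, iY, ha, hb, hc, hX, hY⟩ := c
  obtain ⟨x', ia', ib', ic', iX', iY', ha', hb', hc', hX', hY'⟩ := c'
  simp only at h
  subst h
  have e1 := inv_unique ha ha'
  have e2 := inv_unique hb hb'
  have e3 := inv_unique hc hc'
  have e4 := inv_unique hX hX'
  have e5 := inv_unique hY hY'
  subst e1 e2 e3 e4 e5
  rfl

variable (c : HC S) {S' : Type*} [CommRing S'] (φ : S →+* S')

@[simp] theorem map_h : (c.map φ).h = φ c.h := rfl

theorem map_Xv : (c.map φ).Xv = φ c.Xv := by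
  simp only [Xv, map, map_mul, map_pow]

theorem map_Yv : (c.map φ).Yv = φ c.Yv := by
  simp only [Yv, map, map_mul, map_pow]

theorem map_izX : (c.map φ).izX = φ c.izX := by
  simp only [izX, map, map_mul, map_pow, map_add, map_one, map_ofNat]

theorem map_izY : (c.map φ).izY = φ c.izY := by
  simp only [izY, map, map_mul, map_pow, map_add, map_one, map_ofNat]

theorem map_xi : (c.map φ).xi = φ c.xi := by
  simp only [xi, map, map_mul, map_pow, map_sub, map_one, map_ofNat]

theorem map_eta : (c.map φ).eta = φ c.eta := by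
  simp only [eta, map, map_mul, map_pow, map_add, map_sub, map_one, map_ofNat]

theorem map_B (i j : Fin 3) : (c.map φ).B i j = φ (c.B i j) := by
  fin_cases i <;> fin_cases j <;>
    simp [B, map, map_mul, map_pow, map_add, map_sub, map_one, map_ofNat]

/-! ### values at `h = 0` -/

section zero

variable (h0 : c.h = 0)
include h0

theorem ia_zero : c.ia = 1 := by have := c.ha; rw [h0] at this; simpa using this
theorem ib_zero : c.ib = 1 := by have := c.hb; rw [h0] at this; simpa using this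
theorem ic_zero : c.ic = 1 := by have := c.hc; rw [h0] at this; simpa using this
theorem iX_zero : c.iX = 1 := by have := c.hX; rw [h0] at this; simpa using this
theorem iY_zero : c.iY = 1 := by have := c.hY; rw [h0] at this; simpa using this

theorem Xv_zero : c.Xv = 0 := by simp [Xv, h0]
theorem Yv_zero : c.Yv = 0 := by simp [Yv, h0]
theorem izX_zero : c.izX = 1 := by simp [izX, h0, c.iX_zero h0]
theorem izY_zero : c.izY = 1 := by simp [izY, h0, c.iY_zero h0]

theorem B_zero : c.B = !![1, 0, 0; 0, 5, 0; 0, 0, 25] := by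
  ext i j
  fin_cases i <;> fin_cases j <;> simp [B, h0, c.ib_zero h0, c.iX_zero h0]

end zero

/-! ### values at `h = 1/5` -/

section fifth

variable (h5 : 5 * c.h = 1)
include h5

theorem ia_fifth : 6 * c.ia = 1 := by
  linear_combination c.ha - 5 * c.ia * h5

theorem ib_fifth : 6 * c.ib = 5 := by
  linear_combination 5 * c.hb - c.ib * h5

theorem ic_fifth : 16 * c.ic = 5 := by
  linear_combination 5 * c.hc - c.ic * (11 + 25 * c.h) * h5

theorem iX_fifth : 64 * c.iX = -1 := by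
  have h1 : 1 - 75 * c.h - 625 * c.h ^ 2 - 3125 * c.h ^ 3 = -64 := by
    linear_combination (-15 - 25 * (5 * c.h + 1) - 25 * ((5 * c.h) ^ 2 + 5 * c.h + 1)) * h5
  have h2 := c.hX
  rw [h1] at h2
  linear_combination -h2

theorem Xv_fifth : 12 ^ 4 * c.Xv = 1 := by
  have h1 : 12 ^ 4 * c.Xv = (6 * c.ia) ^ 4 * (16 * c.ic) * c.h := by
    unfold Xv; ring
  rw [h1, c.ia_fifth h5, c.ic_fifth h5]
  linear_combination h5

theorem Yv_fifth : 12 ^ 4 * c.Yv = 1 := by
  have h1 : 12 ^ 4 * c.Yv = (6 * c.ib) ^ 4 * (16 * c.ic) * c.h ^ 5 := by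
    unfold Yv; ring
  rw [h1, c.ib_fifth h5, c.ic_fifth h5]
  linear_combination ((5 * c.h) ^ 4 + (5 * c.h) ^ 3 + (5 * c.h) ^ 2 + 5 * c.h + 1) * h5

theorem B00_fifth : c.B 0 0 = 5 := by
  change (1 + 25 * c.h) * c.ib = 5
  have eA : 1 + 25 * c.h = 6 := by linear_combination 5 * h5
  rw [eA]
  exact c.ib_fifth h5

theorem B10_fifth : c.B 1 0 = -1 := by
  change 24 * c.h * (1 + 25 * c.h) * (1 + 6 * c.h + 25 * c.h ^ 2) * c.ib ^ 2 * c.iX = -1
  have eA : 1 + 25 * c.h = 6 := by linear_combination 5 * h5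
  have eib := c.ib_fifth h5
  have eiX := c.iX_fifth h5
  have h1 : 24 * c.h * (1 + 25 * c.h) * (1 + 6 * c.h + 25 * c.h ^ 2) * c.ib ^ 2 * c.iX =
      4 * c.h * (1 + 6 * c.h + 25 * c.h ^ 2) * (6 * c.ib) ^ 2 * c.iX := by
    rw [eA]
    ring
  rw [h1, eib]
  have h3 : 100 * c.h * (1 + 6 * c.h + 25 * c.h ^ 2) = 64 := by
    linear_combination (20 + 24 * (5 * c.h + 1) + 20 * ((5 * c.h) ^ 2 + 5 * c.h + 1)) * h5
  linear_combination c.iX * h3 + eiX

theorem B11_fifth : c.B 1 1 = -5 := by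
  change 5 * (1 + 25 * c.h) ^ 2 * (1 + 5 * c.h + 15 * c.h ^ 2 - 5 * c.h ^ 3) * c.ib ^ 2 * c.iX
    = -5
  have eA : 1 + 25 * c.h = 6 := by linear_combination 5 * h5
  have eib := c.ib_fifth h5
  have eiX := c.iX_fifth h5
  have eY : 25 * (1 + 5 * c.h + 15 * c.h ^ 2 - 5 * c.h ^ 3) = 64 := by
    linear_combination (25 + 15 * (5 * c.h + 1) - ((5 * c.h) ^ 2 + 5 * c.h + 1)) * h5
  have h1 : 5 * (1 + 25 * c.h) ^ 2 * (1 + 5 * c.h + 15 * c.h ^ 2 - 5 * c.h ^ 3) * c.ib ^ 2 * c.iX
      = 5 * (1 + 5 * c.h + 15 * c.h ^ 2 - 5 * c.h ^ 3) * (6 * c.ib) ^ 2 * c.iX := by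
    rw [eA]; ring
  rw [h1, eib]
  linear_combination 5 * c.iX * eY + 5 * eiX

theorem P0B_fifth (j : Fin 3) : Matrix.vecMul ![1, 10, 0] c.B j = -5 * ![1, 10, 0] j := by
  have h0 := c.B00_fifth h5
  have h1 := c.B10_fifth h5
  have h2 := c.B11_fifth h5
  have h3 : c.B 0 1 = 0 := rfl
  have h4 : c.B 0 2 = 0 := rfl
  have h6 : c.B 1 2 = 0 := rfl
  fin_cases j
  · simp [Matrix.vecMul, dotProduct, Fin.sum_univ_three, h0, h1]
    ring
  · simp [Matrix.vecMul, dotProduct, Fin.sum_univ_three, h2, h3]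
    ring
  · simp [Matrix.vecMul, dotProduct, Fin.sum_univ_three, h4, h6]

end fifth

section der

variable {R : Type*} [CommRing R] [Algebra R S] (θ : Derivation R S S) (ρ : S)

theorem der_B (hθ : θ c.h = ρ * c.h) (i j : Fin 3) :
    θ (c.B i j) = ρ * (c.xi * (Nmat c.Xv c.izX * c.B) i j
      - c.eta * (c.B * Nmat c.Yv c.izY) i j) := by
  rcases eq_or_ne i 2 with rfl | hi
  · exact der_B2 c θ ρ hθ j
  · exact der_B01 c θ ρ hθ i j hi

end der

end HC

end FF1001
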