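import Pool.Agent.W_ff1001_h94.PsiODE
import Pool.Agent.W_ff1001_h94.HCx

/-! The combination `P B' - B Q` of two solutions. -/

namespace FF1001

open Finset Polynomial

section comb

variable {R S : Type*} [CommRing R] [CommRing S] [Algebra R S]

/-- the derivation applied to the entries of a matrix -/
def thM (θ : Derivation R S S) (M : Matrix (Fin 3) (Fin 3) S) : Matrix (Fin 3) (Fin 3) S :=
  M.map θ

theorem thM_apply (θ : Derivation R S S) (M : Matrix (Fin 3) (Fin 3) S) (i j : Fin 3) :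
    thM θ M i j = θ (M i j) := rfl

theorem thM_mul (θ : Derivation R S S) (M N : Matrix (Fin 3) (Fin 3) S) :
    thM θ (M * N) = thM θ M * N + M * thM θ N := by
  ext i j
  simp only [thM_apply, Matrix.mul_apply, Matrix.add_apply, Fin.sum_univ_three, map_add,
    Derivation.leibniz, smul_eq_mul]
  ring

theorem thM_sub (θ : Derivation R S S) (M N : Matrix (Fin 3) (Fin 3) S) :
    thM θ (M - N) = thM θ M - thM θ N := by
  ext i j
  simp only [thM_apply, Matrix.sub_apply, map_sub]

theorem comb_ode (θ : Derivation R S S) (d : S)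
    (P Q B B' NX NY NZX NZY : Matrix (Fin 3) (Fin 3) S) (ξ η ζx ζy : S)
    (hP : ∀ i j, d ∣ θ (P i j) - (ξ * (NX * P) i j - ζx * (P * NZX) i j))
    (hQ : ∀ i j, d ∣ θ (Q i j) - (η * (NY * Q) i j - ζy * (Q * NZY) i j))
    (hB' : ∀ i j, θ (B' i j) = ζx * (NZX * B') i j - ζy * (B' * NZY) i j)
    (hB : ∀ i j, θ (B i j) = ξ * (NX * B) i j - η * (B * NY) i j) (i j : Fin 3) :
    d ∣ θ ((P * B' - B * Q) i j)
      - ((ξ • NX) * (P * B' - B * Q) - (P * B' - B * Q) * (ζy • NZY)) i j := by
  choose E1 hE1 using hP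
  choose E2 hE2 using hQ
  have e1 : thM θ P = ξ • (NX * P) - ζx • (P * NZX) + d • (Matrix.of E1) := by
    ext i j
    have := hE1 i j
    simp only [thM_apply, Matrix.add_apply, Matrix.sub_apply, Matrix.smul_apply, smul_eq_mul,
      Matrix.of_apply]
    linear_combination this
  have e2 : thM θ Q = η • (NY * Q) - ζy • (Q * NZY) + d • (Matrix.of E2) := by
    ext i j
    have := hE2 i j
    simp only [thM_apply, Matrix.add_apply, Matrix.sub_apply, Matrix.smul_apply, smul_eq_mul,
      Matrix.of_apply]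
    linear_combination this
  have e3 : thM θ B' = ζx • (NZX * B') - ζy • (B' * NZY) := by
    ext i j
    simp only [thM_apply, Matrix.sub_apply, Matrix.smul_apply, smul_eq_mul, hB']
  have e4 : thM θ B = ξ • (NX * B) - η • (B * NY) := by
    ext i j
    simp only [thM_apply, Matrix.sub_apply, Matrix.smul_apply, smul_eq_mul, hB]
  have e5 : thM θ (P * B' - B * Q)
      - ((ξ • NX) * (P * B' - B * Q) - (P * B' - B * Q) * (ζy • NZY))
      = d • (Matrix.of E1 * B' - B * Matrix.of E2) := by
    rw [thM_sub, thM_mul, thM_mul, e1, e2, e3, e4]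
    simp only [mul_add, add_mul, mul_sub, sub_mul, Matrix.smul_mul, Matrix.mul_smul,
      Matrix.mul_assoc, smul_sub]
    abel
  have e6 := congrFun (congrFun e5 i) j
  rw [Matrix.sub_apply, thM_apply, Matrix.smul_apply, smul_eq_mul] at e6
  rw [e6]
  exact dvd_mul_right _ _

end comb

theorem Psi_congr {p : ℕ} [Fact p.Prime] (D : GD p) {S : Type*} [CommRing S] [Algebra ℤ_[p] S]
    (s : ℕ) {Xv v Z iz Xv' v' Z' iz' : S} (h : iz * (1 - 256 * Z) = 1)
    (h' : iz' * (1 - 256 * Z') = 1) (e1 : Xv = Xv') (e2 : v = v') (e3 : Z = Z')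
    (e4 : iz = iz') : Psi D s Xv v Z iz h = Psi D s Xv' v' Z' iz' h' := by
  subst e1 e2 e3 e4
  rfl

end FF1001
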