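import Pool.Agent.W_ff1001_h94.HC

/-! The localised ring with two specialisations. -/

namespace FF1001

open Finset Polynomial

section loc

/-- inverse of a denominator -/
theorem loc_inv {R S : Type} [CommRing R] [CommRing S] [Algebra R S] (M : Submonoid R)
    [IsLocalization M S] {D : R} (hD : D ∈ M) :
    algebraMap R S D * IsLocalization.mk' S 1 ⟨D, hD⟩ = 1 := by
  have h := IsLocalization.mk'_spec' S (1 : R) ⟨D, hD⟩
  rw [map_one] at h
  exact h

/-- the data at a point of the localised ring -/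
noncomputable def locHC {R S : Type} [CommRing R] [CommRing S] [Algebra R S] (M : Submonoid R)
    [IsLocalization M S] (t : R) (ha : 1 + 25 * t ∈ M) (hb : 1 + t ∈ M)
    (hc : 1 + 6 * t + 25 * t ^ 2 ∈ M) (hX : 1 - 75 * t - 625 * t ^ 2 - 3125 * t ^ 3 ∈ M)
    (hY : 1 + 5 * t + 15 * t ^ 2 - 5 * t ^ 3 ∈ M) : HC S where
  h := algebraMap R S t
  ia := IsLocalization.mk' S 1 ⟨_, ha⟩
  ib := IsLocalization.mk' S 1 ⟨_, hb⟩
  ic := IsLocalization.mk' S 1 ⟨_, hc⟩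
  iX := IsLocalization.mk' S 1 ⟨_, hX⟩
  iY := IsLocalization.mk' S 1 ⟨_, hY⟩
  ha := by
    have h := loc_inv (S := S) M ha
    simpa only [map_add, map_sub, map_mul, map_pow, map_one, map_ofNat] using h
  hb := by
    have h := loc_inv (S := S) M hb
    simpa only [map_add, map_sub, map_mul, map_pow, map_one, map_ofNat] using h
  hc := by
    have h := loc_inv (S := S) M hc
    simpa only [map_add, map_sub, map_mul, map_pow, map_one, map_ofNat] using h
  hX := by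
    have h := loc_inv (S := S) M hX
    simpa only [map_add, map_sub, map_mul, map_pow, map_one, map_ofNat] using h
  hY := by
    have h := loc_inv (S := S) M hY
    simpa only [map_add, map_sub, map_mul, map_pow, map_one, map_ofNat] using h

/-- the algebra behind the two power relations -/
theorem loc_alg {S : Type} [CommRing S] {h s K iK A ia Cc ic As ias Cs ics W P : S} (n : ℕ)
    (hK : K * iK = 1) (hA : A * ia = 1) (hC : Cc * ic = 1) (hAs : As * ias = 1)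
    (hCs : Cs * ics = 1) (hs : s = h ^ n * K)
    (hW : P * W = As ^ 4 * Cs - K * (A ^ n) ^ 4 * Cc ^ n) :
    (h * ia ^ 4 * ic) ^ n = s * ias ^ 4 * ics * (1 + P * (W * iK * (ia ^ n) ^ 4 * ic ^ n)) := by
  have e1 : A ^ n * ia ^ n = 1 := by rw [← mul_pow, hA, one_pow]
  have e2 : Cc ^ n * ic ^ n = 1 := by rw [← mul_pow, hC, one_pow]
  have e3 : (h * ia ^ 4 * ic) ^ n = h ^ n * (ia ^ n) ^ 4 * ic ^ n := by
    rw [mul_pow, mul_pow, ← pow_mul, ← pow_mul, Nat.mul_comm 4 n]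
  rw [e3]
  generalize A ^ n = U at *
  generalize ia ^ n = iU at *
  generalize Cc ^ n = V at *
  generalize ic ^ n = iV at *
  generalize h ^ n = H at *
  have E1 : K * U ^ 4 * V * (iK * iU ^ 4 * iV) = 1 := by
    calc K * U ^ 4 * V * (iK * iU ^ 4 * iV) = (K * iK) * (U * iU) ^ 4 * (V * iV) := by ring
      _ = 1 := by rw [hK, e1, e2]; ring
  have E2 : As ^ 4 * Cs * (ias ^ 4 * ics) = 1 := by
    calc As ^ 4 * Cs * (ias ^ 4 * ics) = (As * ias) ^ 4 * (Cs * ics) := by ring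
      _ = 1 := by rw [hAs, hCs]; ring
  linear_combination (-(s * ias ^ 4 * ics * iK * iU ^ 4 * iV)) * hW + (s * ias ^ 4 * ics) * E1
    - (s * iK * iU ^ 4 * iV) * E2 - (iK * iU ^ 4 * iV) * hs - (H * iU ^ 4 * iV) * hK

variable (p : ℕ) [Fact p.Prime]

/-- a polynomial which vanishes modulo `p` is divisible by `p` -/
theorem loc_dvd {f : ℤ_[p][X]} (h : f.map (PadicInt.toZMod (p := p)) = 0) :
    (p : ℤ_[p][X]) ∣ f := by
  rw [← C_eq_natCast, C_dvd_iff_dvd_coeff]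
  intro i
  have h1 : PadicInt.toZMod (f.coeff i) = 0 := by
    rw [← coeff_map, h, coeff_zero]
  have h2 : f.coeff i ∈ RingHom.ker (PadicInt.toZMod (p := p)) := h1
  rw [PadicInt.ker_toZMod, PadicInt.maximalIdeal_eq_span_p, Ideal.mem_span_singleton] at h2
  exact h2

theorem loc_unit {n : ℤ} (hn : ¬ (p : ℤ) ∣ n) : IsUnit (n : ℤ_[p]) := by
  rw [PadicInt.isUnit_iff]
  exact le_antisymm (PadicInt.norm_le_one _)
    (not_lt.1 fun h => hn ((PadicInt.norm_int_lt_one_iff_dvd n).1 h))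

/-- the denominators -/
def locM (h0 : ℤ_[p]) : Submonoid ℤ_[p][X] where
  carrier := {D | IsUnit (D.eval 0) ∧ IsUnit (D.eval h0)}
  one_mem' := by
    constructor
    · rw [eval_one]; exact isUnit_one
    · rw [eval_one]; exact isUnit_one
  mul_mem' := by
    rintro a b ⟨ha, ha'⟩ ⟨hb, hb'⟩
    constructor
    · rw [eval_mul]; exact ha.mul hb
    · rw [eval_mul]; exact ha'.mul hb'

/-- the two divisibilities by `p` -/
theorem loc_W (κ : ℤ_[p]) (hκ : PadicInt.toZMod κ = 0) (m : ℕ) (u : ℕ) :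
    ∃ W : ℤ_[p][X], (p : ℤ_[p][X]) * W =
      (1 + (u : ℤ_[p][X]) * (X ^ p * (1 + C κ * X))) ^ 4 *
        (1 + 6 * (X ^ p * (1 + C κ * X)) + 25 * (X ^ p * (1 + C κ * X)) ^ 2) -
      (1 + C κ * X) ^ m * ((1 + (u : ℤ_[p][X]) * X) ^ p) ^ 4 * (1 + 6 * X + 25 * X ^ 2) ^ p := by
  have h : (p : ℤ_[p][X]) ∣ (1 + (u : ℤ_[p][X]) * (X ^ p * (1 + C κ * X))) ^ 4 *
        (1 + 6 * (X ^ p * (1 + C κ * X)) + 25 * (X ^ p * (1 + C κ * X)) ^ 2) -
      (1 + C κ * X) ^ m * ((1 + (u : ℤ_[p][X]) * X) ^ p) ^ 4 * (1 + 6 * X + 25 * X ^ 2) ^ p := by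
    apply loc_dvd
    simp only [Polynomial.map_sub, Polynomial.map_mul, Polynomial.map_pow, Polynomial.map_add,
      Polynomial.map_one, Polynomial.map_natCast, Polynomial.map_ofNat, Polynomial.map_X,
      Polynomial.map_C, hκ, C_0, zero_mul, add_zero, mul_one, one_pow, one_mul]
    rw [← ZMod.expand_card (1 + (u : (ZMod p)[X]) * X),
      ← ZMod.expand_card (1 + 6 * X + 25 * X ^ 2)]
    simp only [map_add, map_mul, map_pow, map_one, map_natCast, map_ofNat, expand_X]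
    ring
  obtain ⟨W, hW⟩ := h
  exact ⟨W, hW.symm⟩

theorem loc_W0 {W f : ℤ_[p][X]} (hW : (p : ℤ_[p][X]) * W = f) (hf : f.eval 0 = 0) :
    W.eval 0 = 0 := by
  have h := congrArg (eval 0) hW
  rw [eval_mul, hf, eval_natCast] at h
  have hp : (p : ℤ_[p]) ≠ 0 := by
    exact_mod_cast (Fact.out : p.Prime).ne_zero
  exact (mul_eq_zero.1 h).resolve_left hp

end loc

/-! ## Task LOC (p ≥ 7) -/

theorem loc_exists (p : ℕ) [Fact p.Prime] (hp : 7 ≤ p) :
    ∃ (L : Type) (_ : CommRing L) (_ : Algebra ℤ_[p] L)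
      (φ₀ : L →ₐ[ℤ_[p]] PowerSeries ℤ_[p]) (φ₁ : L →ₐ[ℤ_[p]] ℤ_[p])
      (c cs : HC L) (vX vY : L) (κ : ℤ_[p]),
      φ₀ c.h = PowerSeries.X ∧
      φ₀ cs.h = PowerSeries.X ^ p * (1 + PowerSeries.C κ * PowerSeries.X) ∧
      5 * φ₁ c.h = 1 ∧ φ₁ cs.h = φ₁ c.h ∧
      c.Xv ^ p = cs.Xv * (1 + (p : L) * vX) ∧
      c.Yv ^ p = cs.Yv * (1 + (p : L) * vY) ∧
      PowerSeries.constantCoeff (R := ℤ_[p]) (φ₀ vX) = 0 ∧
      PowerSeries.constantCoeff (R := ℤ_[p]) (φ₀ vY) = 0 ∧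
      (∀ (s : ℕ) (x : L), (p : PowerSeries ℤ_[p]) ^ s ∣ φ₀ x → (p : ℤ_[p]) ^ s ∣ φ₁ x) := by
  have hpp : p.Prime := Fact.out
  have hp1 : p - 1 + 1 = p := Nat.sub_add_cancel hpp.one_lt.le
  have hndvd : ∀ q : ℕ, q.Prime → q < 7 → ¬ (p : ℤ) ∣ (q : ℤ) := by
    intro q hq hq7 h
    have h1 : p ∣ q := Int.natCast_dvd_natCast.1 h
    have h2 := (Nat.prime_dvd_prime_iff_eq hpp hq).1 h1
    omega
  have hu2 : IsUnit (2 : ℤ_[p]) := by
    have h := loc_unit p (hndvd 2 Nat.prime_two (by norm_num))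
    exact_mod_cast h
  have hu3 : IsUnit (3 : ℤ_[p]) := by
    have h := loc_unit p (hndvd 3 Nat.prime_three (by norm_num))
    exact_mod_cast h
  have hu5 : IsUnit (5 : ℤ_[p]) := by
    have h := loc_unit p (hndvd 5 Nat.prime_five (by norm_num))
    exact_mod_cast h
  obtain ⟨h0, hh0⟩ := hu5.exists_right_inv
  have hu0 : IsUnit h0 := IsUnit.of_mul_eq_one 5 (by rw [mul_comm]; exact hh0)
  set κ : ℤ_[p] := 5 * (5 ^ (p - 1) - 1) with hκdef
  have hκ : PadicInt.toZMod κ = 0 := by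
    rw [hκdef]
    simp only [map_mul, map_sub, map_pow, map_one, map_ofNat]
    rw [mul_sub, ← pow_succ', hp1, ZMod.pow_card, mul_one, sub_self]
  set s : ℤ_[p][X] := X ^ p * (1 + C κ * X) with hs
  have hK0 : (1 + C κ * X : ℤ_[p][X]).eval 0 = 1 := by simp
  have hK1 : (1 + C κ * X : ℤ_[p][X]).eval h0 = 5 ^ (p - 1) := by
    have h1 : (1 + C κ * X : ℤ_[p][X]).eval h0 = 1 + κ * h0 := by simp
    rw [h1, hκdef]
    linear_combination (5 ^ (p - 1) - 1) * hh0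
  have hs0 : s.eval 0 = 0 := by
    rw [hs, eval_mul, eval_pow, eval_X, zero_pow hpp.ne_zero, zero_mul]
  have hs1 : s.eval h0 = h0 := by
    rw [hs, eval_mul, eval_pow, eval_X, hK1]
    calc h0 ^ p * 5 ^ (p - 1) = h0 * (5 * h0) ^ (p - 1) := by
          rw [← pow_sub_one_mul hpp.ne_zero h0, mul_pow]
          ring
      _ = h0 := by rw [hh0, one_pow, mul_one]
  -- the denominators
  have hden : ∀ t : ℤ_[p][X], t.eval 0 = 0 → t.eval h0 = h0 →
      (1 + 25 * t ∈ locM p h0) ∧ (1 + t ∈ locM p h0) ∧ (1 + 6 * t + 25 * t ^ 2 ∈ locM p h0) ∧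
      (1 - 75 * t - 625 * t ^ 2 - 3125 * t ^ 3 ∈ locM p h0) ∧
      (1 + 5 * t + 15 * t ^ 2 - 5 * t ^ 3 ∈ locM p h0) := by
    intro t ht0 ht1
    refine ⟨⟨?_, ?_⟩, ⟨?_, ?_⟩, ⟨?_, ?_⟩, ⟨?_, ?_⟩, ⟨?_, ?_⟩⟩
    · simp [ht0]
    · have h : (1 + 25 * t : ℤ_[p][X]).eval h0 = 2 * 3 := by
        simp only [eval_add, eval_one, eval_mul, eval_ofNat, ht1]
        linear_combination 5 * hh0
      rw [h]
      exact hu2.mul hu3
    · simp [ht0]
    · have h : (1 + t : ℤ_[p][X]).eval h0 = 2 * 3 * h0 := by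
        simp only [eval_add, eval_one, ht1]
        linear_combination - hh0
      rw [h]
      exact (hu2.mul hu3).mul hu0
    · simp [ht0]
    · have h : (1 + 6 * t + 25 * t ^ 2 : ℤ_[p][X]).eval h0 = 2 ^ 4 * h0 := by
        simp only [eval_add, eval_one, eval_mul, eval_pow, eval_ofNat, ht1]
        linear_combination (5 * h0 - 1) * hh0
      rw [h]
      exact (hu2.pow 4).mul hu0
    · simp [ht0]
    · have h : (1 - 75 * t - 625 * t ^ 2 - 3125 * t ^ 3 : ℤ_[p][X]).eval h0 = - 2 ^ 6 := by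
        simp only [eval_add, eval_sub, eval_one, eval_mul, eval_pow, eval_ofNat, ht1]
        linear_combination (- 15 - 25 * (5 * h0 + 1) - 25 * (25 * h0 ^ 2 + 5 * h0 + 1)) * hh0
      rw [h]
      exact (hu2.pow 6).neg
    · simp [ht0]
    · have h : (1 + 5 * t + 15 * t ^ 2 - 5 * t ^ 3 : ℤ_[p][X]).eval h0 = 2 ^ 6 * h0 ^ 2 := by
        simp only [eval_add, eval_sub, eval_one, eval_mul, eval_pow, eval_ofNat, ht1]
        linear_combination (- h0 ^ 2 - 10 * h0 - 1) * hh0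
      rw [h]
      exact (hu2.pow 6).mul (hu0.pow 2)
  obtain ⟨a1, a2, a3, a4, a5⟩ := hden X eval_X eval_X
  obtain ⟨b1, b2, b3, b4, b5⟩ := hden s hs0 hs1
  have hKM : (1 + C κ * X : ℤ_[p][X]) ∈ locM p h0 :=
    ⟨by rw [hK0]; exact isUnit_one, by rw [hK1]; exact hu5.pow _⟩
  -- the ring and the specialisations
  let M := locM p h0
  let L := Localization M
  let f0 : ℤ_[p][X] →ₐ[ℤ_[p]] PowerSeries ℤ_[p] := coeToPowerSeries.algHom ℤ_[p]
  have hf0 : ∀ q : ℤ_[p][X], f0 q = (q : PowerSeries ℤ_[p]) := by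
    intro q
    show coeToPowerSeries.algHom ℤ_[p] q = _
    rw [coeToPowerSeries.algHom_apply]
    simp
  have hu0' : ∀ y : M, IsUnit (f0 y) := by
    intro y
    rw [hf0, PowerSeries.isUnit_iff_constantCoeff, constantCoeff_coe, coeff_zero_eq_eval_zero]
    exact y.2.1
  have hu1' : ∀ y : M, IsUnit (aeval h0 (y : ℤ_[p][X]) : ℤ_[p]) := by
    intro y
    rw [coe_aeval_eq_eval]
    exact y.2.2
  let φ₀ : L →ₐ[ℤ_[p]] PowerSeries ℤ_[p] := IsLocalization.liftAlgHom hu0'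
  let φ₁ : L →ₐ[ℤ_[p]] ℤ_[p] := IsLocalization.liftAlgHom (f := aeval h0) hu1'
  have hφ₀ : ∀ q : ℤ_[p][X], φ₀ (algebraMap _ L q) = (q : PowerSeries ℤ_[p]) := by
    intro q
    rw [← hf0]
    exact IsLocalization.lift_eq _ q
  have hφ₁ : ∀ q : ℤ_[p][X], φ₁ (algebraMap _ L q) = q.eval h0 := by
    intro q
    rw [← coe_aeval_eq_eval]
    exact IsLocalization.lift_eq _ q
  let c : HC L := locHC M X a1 a2 a3 a4 a5
  let cs : HC L := locHC M s b1 b2 b3 b4 b5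
  obtain ⟨WX, hWX⟩ := loc_W p κ hκ 1 25
  obtain ⟨WY, hWY⟩ := loc_W p κ hκ 5 1
  rw [← hs] at hWX hWY
  have hWX0 : WX.eval 0 = 0 := loc_W0 p hWX (by
    simp only [eval_sub, eval_mul, eval_pow, eval_add, eval_one, eval_natCast, eval_ofNat, hs0,
      eval_X, eval_C]
    simp)
  have hWY0 : WY.eval 0 = 0 := loc_W0 p hWY (by
    simp only [eval_sub, eval_mul, eval_pow, eval_add, eval_one, eval_natCast, eval_ofNat, hs0,
      eval_X, eval_C]
    simp)
  let iK : L := IsLocalization.mk' L 1 ⟨_, hKM⟩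
  have hiK : algebraMap _ L (1 + C κ * X : ℤ_[p][X]) * iK = 1 := loc_inv M hKM
  have hsL : algebraMap _ L s = (algebraMap _ L (X : ℤ_[p][X])) ^ p *
      algebraMap _ L (1 + C κ * X : ℤ_[p][X]) := by
    rw [hs, map_mul, map_pow]
  have hWXL := congrArg (algebraMap ℤ_[p][X] L) hWX
  have hWYL := congrArg (algebraMap ℤ_[p][X] L) hWY
  simp only [map_sub, map_mul, map_pow] at hWXL hWYL
  refine ⟨L, inferInstance, inferInstance, φ₀, φ₁, c, cs,
    algebraMap _ L WX * iK * (c.ia ^ p) ^ 4 * c.ic ^ p,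
    algebraMap _ L WY * iK ^ 5 * (c.ib ^ p) ^ 4 * c.ic ^ p, κ, ?_, ?_, ?_, ?_, ?_, ?_, ?_, ?_, ?_⟩
  · show φ₀ (algebraMap _ L X) = _
    rw [hφ₀, Polynomial.coe_X]
  · show φ₀ (algebraMap _ L s) = _
    rw [hφ₀, hs, Polynomial.coe_mul, Polynomial.coe_pow, Polynomial.coe_X, Polynomial.coe_add,
      Polynomial.coe_one, Polynomial.coe_mul, Polynomial.coe_C, Polynomial.coe_X]
  · show 5 * φ₁ (algebraMap _ L X) = 1
    rw [hφ₁, eval_X]
    exact hh0
  · show φ₁ (algebraMap _ L s) = φ₁ (algebraMap _ L X)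
    rw [hφ₁, hφ₁, eval_X, hs1]
  · have h := loc_alg (S := L) (h := c.h) (s := cs.h) (A := 1 + 25 * c.h) (ia := c.ia)
      (Cc := 1 + 6 * c.h + 25 * c.h ^ 2) (ic := c.ic) (As := 1 + 25 * cs.h) (ias := cs.ia)
      (Cs := 1 + 6 * cs.h + 25 * cs.h ^ 2) (ics := cs.ic) (W := algebraMap _ L WX) (P := (p : L))
      (K := algebraMap _ L (1 + C κ * X : ℤ_[p][X])) (iK := iK) p hiK c.ha c.hc cs.ha cs.hc hsL ?_
    · exact h
    · rw [map_natCast] at hWXL
      rw [hWXL]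
      simp only [map_add, map_mul, map_one, map_natCast, map_ofNat, map_pow, pow_one]
      push_cast
      rfl
  · have h := loc_alg (S := L) (h := c.h ^ 5) (s := cs.h ^ 5) (A := 1 + c.h) (ia := c.ib)
      (Cc := 1 + 6 * c.h + 25 * c.h ^ 2) (ic := c.ic) (As := 1 + cs.h) (ias := cs.ib)
      (Cs := 1 + 6 * cs.h + 25 * cs.h ^ 2) (ics := cs.ic) (W := algebraMap _ L WY) (P := (p : L))
      (K := (algebraMap _ L (1 + C κ * X : ℤ_[p][X])) ^ 5) (iK := iK ^ 5) p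
      (by rw [← mul_pow, hiK, one_pow]) c.hb c.hc cs.hb cs.hc
      (by rw [← pow_mul, Nat.mul_comm 5 p, pow_mul, ← mul_pow]; exact congrArg (· ^ 5) hsL) ?_
    · exact h
    · rw [map_natCast] at hWYL
      rw [hWYL]
      simp only [map_add, map_mul, map_one, map_natCast, map_ofNat, map_pow, Nat.cast_one, one_mul]
      rfl
  · rw [map_mul, map_mul, map_mul, map_mul, map_mul, map_mul, hφ₀, constantCoeff_coe,
      coeff_zero_eq_eval_zero, hWX0, zero_mul, zero_mul, zero_mul]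
  · rw [map_mul, map_mul, map_mul, map_mul, map_mul, map_mul, hφ₀, constantCoeff_coe,
      coeff_zero_eq_eval_zero, hWY0, zero_mul, zero_mul, zero_mul]
  · intro n x hx
    obtain ⟨⟨N, D⟩, hND⟩ := IsLocalization.surj M x
    simp only at hND
    have h0N : φ₀ x * ((D : ℤ_[p][X]) : PowerSeries ℤ_[p]) = (N : PowerSeries ℤ_[p]) := by
      rw [← hφ₀, ← hφ₀, ← map_mul, hND]
    have h1N : φ₁ x * (D : ℤ_[p][X]).eval h0 = N.eval h0 := by
      rw [← hφ₁, ← hφ₁, ← map_mul, hND]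
    have hdN : C ((p : ℤ_[p]) ^ n) ∣ N := by
      rw [C_dvd_iff_dvd_coeff]
      intro i
      obtain ⟨g, hg⟩ := (hx.mul_right ((D : ℤ_[p][X]) : PowerSeries ℤ_[p]))
      rw [h0N] at hg
      have h2 : (p : PowerSeries ℤ_[p]) ^ n = PowerSeries.C ((p : ℤ_[p]) ^ n) := by
        rw [map_pow, map_natCast]
      rw [h2] at hg
      have h3 := congrArg (PowerSeries.coeff i) hg
      rw [coeff_coe, PowerSeries.coeff_C_mul] at h3
      exact ⟨_, h3⟩
    obtain ⟨N', hN'⟩ := hdN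
    have h4 : (p : ℤ_[p]) ^ n ∣ φ₁ x * (D : ℤ_[p][X]).eval h0 := by
      rw [h1N, hN', eval_mul, eval_C]
      exact dvd_mul_right _ _
    exact (D.2.2.dvd_mul_right).1 h4

end FF1001
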