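import Pool.Agent.W_ff1001_h94.HC

/-! Uniqueness for the linear differential equation modulo powers of p. -/

namespace FF1001

open Finset Polynomial

/-- entrywise divisibility -/
def mdv {R : Type*} [CommRing R] (d : R) (M : Matrix (Fin 3) (Fin 3) R) : Prop :=
  ∀ i j, d ∣ M i j

theorem mdv_add {R : Type*} [CommRing R] {d : R} {M N : Matrix (Fin 3) (Fin 3) R}
    (hM : mdv d M) (hN : mdv d N) : mdv d (M + N) := fun i j => dvd_add (hM i j) (hN i j)

theorem mdv_sub {R : Type*} [CommRing R] {d : R} {M N : Matrix (Fin 3) (Fin 3) R}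
    (hM : mdv d M) (hN : mdv d N) : mdv d (M - N) := fun i j => dvd_sub (hM i j) (hN i j)

theorem mdv_mul_left {R : Type*} [CommRing R] {d : R} {M : Matrix (Fin 3) (Fin 3) R}
    (N : Matrix (Fin 3) (Fin 3) R) (hM : mdv d M) : mdv d (N * M) := by
  intro i j
  rw [Matrix.mul_apply]
  exact dvd_sum fun k _ => (hM k j).mul_left _

theorem mdv_mul_right {R : Type*} [CommRing R] {d : R} {M : Matrix (Fin 3) (Fin 3) R}
    (N : Matrix (Fin 3) (Fin 3) R) (hM : mdv d M) : mdv d (M * N) := by
  intro i j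
  rw [Matrix.mul_apply]
  exact dvd_sum fun k _ => (hM i k).mul_right _

theorem mdv_smul {R : Type*} [CommRing R] {d : R} {M : Matrix (Fin 3) (Fin 3) R}
    (c : R) (hM : mdv d M) : mdv d (c • M) := by
  intro i j
  rw [Matrix.smul_apply, smul_eq_mul]
  exact (hM i j).mul_left _

/-- iteration of the nilpotent operator -/
theorem nil_iter {R : Type*} [CommRing R] (d k : R) (U V c : Matrix (Fin 3) (Fin 3) R)
    (hU : U ^ 3 = 0) (hV : V ^ 3 = 0) (h : mdv d (k • c - (U * c - c * V))) :
    mdv d (k ^ 5 • c) := by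
  -- L^n c for n = 0..5
  set L : Matrix (Fin 3) (Fin 3) R → Matrix (Fin 3) (Fin 3) R := fun M => U * M - M * V with hL
  have hLm : ∀ M, mdv d M → mdv d (L M) := fun M hM =>
    mdv_sub (mdv_mul_left U hM) (mdv_mul_right V hM)
  have hLs : ∀ (a : R) M, L (a • M) = a • L M := by
    intro a M
    simp only [hL, Matrix.mul_smul, Matrix.smul_mul, smul_sub]
  have hLsub : ∀ M N, L (M - N) = L M - L N := by
    intro M N
    simp only [hL, mul_sub, sub_mul]
    abel
  have step : ∀ n : ℕ, mdv d (k ^ n • c - L^[n] c) := by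
    intro n
    induction n with
    | zero => intro i j; simp
    | succ n ih =>
      have h1 := hLm _ ih
      rw [hLsub, hLs, ← Function.iterate_succ_apply' L n c] at h1
      have h2 := mdv_smul (k ^ n) h
      have h3 := mdv_add h2 h1
      convert h3 using 1
      rw [pow_succ, smul_sub, smul_smul]
      abel
  have h5 : L^[5] c = 0 := by
    have hU3 : U * (U * U) = 0 := by rw [← hU]; noncomm_ring
    have hV3 : V * (V * V) = 0 := by rw [← hV]; noncomm_ring
    have hU' : ∀ M, U * (U * (U * M)) = 0 := by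
      intro M
      rw [← mul_assoc U U M, ← mul_assoc, hU3, zero_mul]
    have hV' : ∀ M : Matrix (Fin 3) (Fin 3) R, M * V * V * V = 0 := by
      intro M
      rw [mul_assoc, mul_assoc, hV3, mul_zero]
    simp only [Function.iterate_succ, Function.iterate_zero, Function.comp, id, hL]
    simp only [mul_sub, sub_mul, ← mul_assoc]
    simp only [mul_assoc, hV3, hU', mul_zero, zero_mul, sub_zero]
  have := step 5
  rwa [h5, sub_zero] at this

theorem uniq (p : ℕ) [Fact p.Prime]
    (U V : Matrix (Fin 3) (Fin 3) (PowerSeries ℤ_[p]))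
    (hU : (U.map (PowerSeries.constantCoeff (R := ℤ_[p]))) ^ 3 = 0)
    (hV : (V.map (PowerSeries.constantCoeff (R := ℤ_[p]))) ^ 3 = 0)
    (Cs : ℕ → Matrix (Fin 3) (Fin 3) (PowerSeries ℤ_[p]))
    (coh : ∀ s i j, (p : PowerSeries ℤ_[p]) ^ s ∣ Cs (s + 1) i j - Cs s i j)
    (ode : ∀ s i j, (p : PowerSeries ℤ_[p]) ^ s ∣
      PowerSeries.X * PowerSeries.derivative ℤ_[p] (Cs s i j) - (U * Cs s - Cs s * V) i j)
    (ini : ∀ s i j, (p : ℤ_[p]) ^ s ∣ PowerSeries.constantCoeff (R := ℤ_[p]) (Cs s i j)) :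
    ∀ s i j, (p : PowerSeries ℤ_[p]) ^ s ∣ Cs s i j := by
  have hpp : p.Prime := Fact.out
  have hC : ∀ s : ℕ, (p : PowerSeries ℤ_[p]) ^ s = PowerSeries.C ((p : ℤ_[p]) ^ s) := by
    intro s; rw [map_pow, map_natCast]
  have hdc : ∀ (s : ℕ) (f : PowerSeries ℤ_[p]), (p : PowerSeries ℤ_[p]) ^ s ∣ f →
      ∀ k, (p : ℤ_[p]) ^ s ∣ PowerSeries.coeff k f := by
    rintro s f ⟨r, rfl⟩ k
    rw [hC, PowerSeries.coeff_C_mul]
    exact dvd_mul_right _ _
  have hcd : ∀ (s : ℕ) (f : PowerSeries ℤ_[p]), (∀ k, (p : ℤ_[p]) ^ s ∣ PowerSeries.coeff k f) →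
      (p : PowerSeries ℤ_[p]) ^ s ∣ f := by
    intro s f h
    choose r hr using h
    refine ⟨PowerSeries.mk r, ?_⟩
    ext k
    rw [hC, PowerSeries.coeff_C_mul, PowerSeries.coeff_mk]
    exact hr k
  -- coherence for larger indices
  have coh' : ∀ s t i j, (p : PowerSeries ℤ_[p]) ^ s ∣ Cs (s + t) i j - Cs s i j := by
    intro s t i j
    induction t with
    | zero => simp
    | succ t ih =>
      have h1 := coh (s + t) i j
      have h2 : (p : PowerSeries ℤ_[p]) ^ s ∣ Cs (s + t + 1) i j - Cs (s + t) i j :=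
        dvd_trans (pow_dvd_pow _ (by omega)) h1
      have h3 := dvd_add h2 ih
      have e : Cs (s + (t + 1)) i j = Cs (s + t + 1) i j := by rw [add_assoc]
      rw [e]
      convert h3 using 1
      ring
  have main : ∀ k s i j, (p : ℤ_[p]) ^ s ∣ PowerSeries.coeff k (Cs s i j) := by
    intro k
    induction k using Nat.strong_induction_on with
    | _ k ih =>
    intro s i j
    rcases Nat.eq_zero_or_pos k with h0 | hk
    · subst h0
      have := ini s i j
      rwa [← PowerSeries.coeff_zero_eq_constantCoeff_apply] at this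
    -- the congruence for the k-th coefficient
    have hco : ∀ t : ℕ, mdv ((p : ℤ_[p]) ^ t) ((k : ℤ_[p]) • (Cs t).map (PowerSeries.coeff k)
        - (U.map (PowerSeries.constantCoeff (R := ℤ_[p])) * (Cs t).map (PowerSeries.coeff k)
          - (Cs t).map (PowerSeries.coeff k) * V.map (PowerSeries.constantCoeff (R := ℤ_[p])))) := by
      intro t i j
      have h1 := hdc t _ (ode t i j) k
      have hmul : ∀ f g : PowerSeries ℤ_[p], (∀ l < k, (p : ℤ_[p]) ^ t ∣ PowerSeries.coeff l g) →
          (p : ℤ_[p]) ^ t ∣ PowerSeries.coeff k (f * g)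
            - PowerSeries.constantCoeff f * PowerSeries.coeff k g := by
        intro f g hg
        rw [PowerSeries.coeff_mul, Finset.Nat.sum_antidiagonal_eq_sum_range_succ_mk,
          Finset.sum_range_succ']
        have e : PowerSeries.coeff (0, k - 0).1 f * PowerSeries.coeff (0, k - 0).2 g
            = PowerSeries.constantCoeff f * PowerSeries.coeff k g := by
          rw [PowerSeries.coeff_zero_eq_constantCoeff_apply]; simp
        rw [e, add_sub_cancel_right]
        refine dvd_sum fun l hl => ?_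
        have hl' : l < k := mem_range.mp hl
        exact (hg (k - (l + 1)) (by omega)).mul_left _
      have hU' : (p : ℤ_[p]) ^ t ∣ PowerSeries.coeff k ((U * Cs t) i j)
          - (U.map (PowerSeries.constantCoeff (R := ℤ_[p])) * (Cs t).map (PowerSeries.coeff k)) i j := by
        rw [Matrix.mul_apply, Matrix.mul_apply, map_sum, ← sum_sub_distrib]
        refine dvd_sum fun l _ => ?_
        exact hmul _ _ fun m hm => ih m hm t l j
      have hV' : (p : ℤ_[p]) ^ t ∣ PowerSeries.coeff k ((Cs t * V) i j)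
          - ((Cs t).map (PowerSeries.coeff k) * V.map (PowerSeries.constantCoeff (R := ℤ_[p]))) i j := by
        rw [Matrix.mul_apply, Matrix.mul_apply, map_sum, ← sum_sub_distrib]
        refine dvd_sum fun l _ => ?_
        have := hmul (V l j) (Cs t i l) fun m hm => ih m hm t i l
        rw [mul_comm (Cs t i l) (V l j)]
        convert this using 1
        simp only [Matrix.map_apply]
        ring
      have hD : PowerSeries.coeff k (PowerSeries.X * PowerSeries.derivative ℤ_[p] (Cs t i j))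
          = (k : ℤ_[p]) * PowerSeries.coeff k (Cs t i j) := by
        obtain ⟨m, rfl⟩ : ∃ m, k = m + 1 := ⟨k - 1, by omega⟩
        rw [PowerSeries.coeff_succ_X_mul, PowerSeries.coeff_derivative]
        push_cast
        ring
      rw [map_sub, hD, Matrix.sub_apply, map_sub] at h1
      have h2 := dvd_add h1 (dvd_sub hU' hV')
      convert h2 using 1
      simp only [Matrix.sub_apply, Matrix.smul_apply, smul_eq_mul, Matrix.map_apply]
      ring
    have hkne : ((k : ℕ) : ℤ_[p]) ≠ 0 := by exact_mod_cast hk.ne'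
    obtain ⟨a, u, hu⟩ : ∃ (a : ℕ) (u : ℤ_[p]ˣ), ((k : ℕ) : ℤ_[p])
        = (u : ℤ_[p]) * (p : ℤ_[p]) ^ a :=
      ⟨_, _, PadicInt.unitCoeff_spec hkne⟩
    have h1 := nil_iter _ _ _ _ _ hU hV (hco (s + 5 * a)) i j
    rw [Matrix.smul_apply, smul_eq_mul, Matrix.map_apply, hu, mul_pow] at h1
    have h2 : (p : ℤ_[p]) ^ s ∣ PowerSeries.coeff k (Cs (s + 5 * a) i j) := by
      have hu5 : IsUnit ((u : ℤ_[p]) ^ 5) := u.isUnit.pow 5
      rw [mul_assoc, hu5.dvd_mul_left, pow_add, ← pow_mul, mul_comm a 5,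
        mul_comm ((p : ℤ_[p]) ^ s)] at h1
      have hpne : (p : ℤ_[p]) ≠ 0 := by exact_mod_cast hpp.ne_zero
      exact (mul_dvd_mul_iff_left (pow_ne_zero _ hpne)).mp h1
    have h3 := hdc s _ (coh' s (5 * a) i j) k
    rw [map_sub] at h3
    have h4 := dvd_sub h2 h3
    convert h4 using 1
    ring
  intro s i j
  exact hcd s _ fun k => main k s i j

end FF1001
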