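import Pool.Agent.W_ff1001_h94.Comb
import Pool.Agent.W_ff1001_h94.UniqB
import Pool.Agent.W_ff1001_h94.Loc

/-! The commutation with the isogeny matrix at the special point, for `p ≥ 7`. -/

namespace FF1001

open Finset Polynomial

section ps

variable (p : ℕ) [Fact p.Prime]

/-- the Euler derivation on power series -/
noncomputable def thP : Derivation ℤ_[p] (PowerSeries ℤ_[p]) (PowerSeries ℤ_[p]) :=
  (PowerSeries.X : PowerSeries ℤ_[p]) • PowerSeries.derivative ℤ_[p]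

theorem thP_apply (f : PowerSeries ℤ_[p]) :
    thP p f = PowerSeries.X * PowerSeries.derivative ℤ_[p] f := rfl

/-- the constant coefficient as an algebra map -/
noncomputable def ccA : PowerSeries ℤ_[p] →ₐ[ℤ_[p]] ℤ_[p] :=
  { (PowerSeries.constantCoeff (R := ℤ_[p])) with
    commutes' := fun r => by
      change PowerSeries.constantCoeff (algebraMap ℤ_[p] (PowerSeries ℤ_[p]) r) = r
      simp }

theorem ccA_apply (f : PowerSeries ℤ_[p]) : ccA p f = PowerSeries.constantCoeff f := rfl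

theorem natCast_pow_dvd_ne (s : ℕ) : ((p : PowerSeries ℤ_[p])) ^ s ≠ 0 := by
  have hp : (p : ℤ_[p]) ≠ 0 := by
    exact_mod_cast (Fact.out : p.Prime).ne_zero
  have h : (p : PowerSeries ℤ_[p]) = PowerSeries.C (p : ℤ_[p]) := by simp
  rw [h]
  refine pow_ne_zero _ ?_
  intro h0
  apply hp
  have := congrArg (PowerSeries.constantCoeff (R := ℤ_[p])) h0
  simpa using this

/-- the logarithmic derivative of `X^p (1 + κ X)` -/
theorem rho_exists (κ : ℤ_[p]) : ∃ ρ : PowerSeries ℤ_[p],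
    PowerSeries.constantCoeff ρ = (p : ℤ_[p]) ∧
    thP p (PowerSeries.X ^ p * (1 + PowerSeries.C κ * PowerSeries.X))
      = ρ * (PowerSeries.X ^ p * (1 + PowerSeries.C κ * PowerSeries.X)) := by
  have hu : IsUnit (1 + PowerSeries.C κ * PowerSeries.X : PowerSeries ℤ_[p]) := by
    rw [PowerSeries.isUnit_iff_constantCoeff]
    simp
  obtain ⟨u, hu⟩ := hu.exists_right_inv
  refine ⟨(p : PowerSeries ℤ_[p]) + PowerSeries.C κ * PowerSeries.X * u, by simp, ?_⟩
  have h1 : PowerSeries.derivative ℤ_[p] (PowerSeries.X : PowerSeries ℤ_[p]) = 1 :=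
    PowerSeries.derivative_X
  have hpp : 0 < p := (Fact.out : p.Prime).pos
  obtain ⟨k, hk⟩ : ∃ k, p = k + 1 := ⟨p - 1, by omega⟩
  rw [thP_apply, Derivation.leibniz, Derivation.leibniz_pow, map_add, Derivation.leibniz, h1]
  have h2 : PowerSeries.derivative ℤ_[p] (PowerSeries.C κ) = 0 := PowerSeries.derivative_C
  have h3 : PowerSeries.derivative ℤ_[p] (1 : PowerSeries ℤ_[p]) = 0 := by simp
  rw [h2, h3]
  have h4 : (PowerSeries.X : PowerSeries ℤ_[p]) ^ p
      = PowerSeries.X ^ (p - 1) * PowerSeries.X := by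
    rw [← pow_succ]; congr 1; omega
  simp only [smul_eq_mul, nsmul_eq_mul, mul_one, mul_zero, zero_add, add_zero]
  rw [h4]
  linear_combination (-PowerSeries.X ^ (p - 1) * PowerSeries.X
    * (PowerSeries.C κ * PowerSeries.X)) * hu

/-- the derivation of `v` from the relation `X^p = Z (1 + p v)` -/
theorem theta_v (Xv Z v ξ ζ : PowerSeries ℤ_[p]) (hZ : Xv ^ p = Z * (1 + (p : PowerSeries ℤ_[p]) * v))
    (hZ0 : Z ≠ 0) (hX : thP p Xv = ξ * Xv) (hZd : thP p Z = ζ * Z) :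
    (p : PowerSeries ℤ_[p]) * thP p v = ((p : PowerSeries ℤ_[p]) * ξ - ζ)
      * (1 + (p : PowerSeries ℤ_[p]) * v) := by
  have h1 := congrArg (thP p) hZ
  have h4 : Xv ^ p = Xv ^ (p - 1) * Xv := by
    have hpp : 0 < p := (Fact.out : p.Prime).pos
    rw [← pow_succ]; congr 1; omega
  have h5 : thP p (p : PowerSeries ℤ_[p]) = 0 := by
    have := (thP p).map_natCast p
    exact this
  rw [Derivation.leibniz_pow, Derivation.leibniz, map_add, Derivation.leibniz, h5, hX, hZd] at h1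
  have h6 : thP p (1 : PowerSeries ℤ_[p]) = 0 := by simp
  rw [h6] at h1
  simp only [smul_eq_mul, nsmul_eq_mul, mul_zero, zero_add, add_zero] at h1
  apply mul_left_cancel₀ hZ0
  linear_combination (-1 : PowerSeries ℤ_[p]) * h1
    + (p : PowerSeries ℤ_[p]) * ξ * hZ - (p : PowerSeries ℤ_[p]) * ξ * h4

end ps

section core

variable {p : ℕ} [Fact p.Prime]

theorem HC.Xv_ne (c : HC (PowerSeries ℤ_[p])) (h : c.h ≠ 0) : c.Xv ≠ 0 := by
  intro h0
  have h1 : c.Xv * ((1 + 25 * c.h) ^ 4 * (1 + 6 * c.h + 25 * c.h ^ 2)) = c.h := by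
    have e1 : (1 + 25 * c.h) ^ 4 * c.ia ^ 4 = 1 := by rw [← mul_pow, c.ha, one_pow]
    unfold HC.Xv
    linear_combination c.h * (c.ic * (1 + 6 * c.h + 25 * c.h ^ 2)) * e1 + c.h * c.hc
  rw [h0, zero_mul] at h1
  exact h h1.symm

theorem HC.Yv_ne (c : HC (PowerSeries ℤ_[p])) (h : c.h ≠ 0) : c.Yv ≠ 0 := by
  intro h0
  have h1 : c.Yv * ((1 + c.h) ^ 4 * (1 + 6 * c.h + 25 * c.h ^ 2)) = c.h ^ 5 := by
    have e1 : (1 + c.h) ^ 4 * c.ib ^ 4 = 1 := by rw [← mul_pow, c.hb, one_pow]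
    unfold HC.Yv
    linear_combination c.h ^ 5 * (c.ic * (1 + 6 * c.h + 25 * c.h ^ 2)) * e1 + c.h ^ 5 * c.hc
  rw [h0, zero_mul] at h1
  exact pow_ne_zero 5 h h1.symm

theorem Nmat_zero_cube {S : Type*} [CommRing S] (ξ iz : S) :
    (ξ • Nmat (0 : S) iz) ^ 3 = 0 := by
  have h : (Nmat (0 : S) iz) ^ 3 = 0 := by
    rw [pow_succ, pow_two]
    ext i j
    fin_cases i <;> fin_cases j <;>
      simp [Nmat, Matrix.mul_apply, Fin.sum_univ_three]
  rw [_root_.smul_pow, h, smul_zero]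

theorem Nmat_map_cc (ξ Z iz : PowerSeries ℤ_[p]) (hZ : PowerSeries.constantCoeff Z = 0) :
    ((ξ • Nmat Z iz).map (PowerSeries.constantCoeff (R := ℤ_[p]))) ^ 3 = 0 := by
  have h : (ξ • Nmat Z iz).map (PowerSeries.constantCoeff (R := ℤ_[p]))
      = PowerSeries.constantCoeff ξ • Nmat (0 : ℤ_[p]) (PowerSeries.constantCoeff iz) := by
    ext i j
    fin_cases i <;> fin_cases j <;> simp [Nmat, hZ]
  rw [h]
  exact Nmat_zero_cube _ _

/-- the initial value of `Psi` for power series data vanishing at the origin -/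
theorem Psi_cc (D : GD p) (s : ℕ) (Xv v Z iz : PowerSeries ℤ_[p]) (h : iz * (1 - 256 * Z) = 1)
    (h1 : PowerSeries.constantCoeff Xv = 0) (h2 : PowerSeries.constantCoeff v = 0)
    (h3 : PowerSeries.constantCoeff Z = 0) (h4 : PowerSeries.constantCoeff iz = 1)
    (i j : Fin 3) :
    (p : ℤ_[p]) ^ s ∣ PowerSeries.constantCoeff (Psi D s Xv v Z iz h i j)
      - (if i = j then (p : ℤ_[p]) ^ (i : ℕ) else 0) := by
  have e := Psi_map D (ccA p) s Xv v Z iz h (by
    rw [ccA_apply, ccA_apply, h3, h4]; ring) i j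
  rw [ccA_apply] at e
  rw [e]
  have e2 := Psi_congr D s (Xv := ccA p Xv) (v := ccA p v) (Z := ccA p Z) (iz := ccA p iz)
    (by rw [ccA_apply, ccA_apply, h3, h4]; ring) (show (1 : ℤ_[p]) * (1 - 256 * 0) = 1 by ring)
    h1 h2 h3 h4
  rw [e2]
  exact Psi_init D s _ i j

theorem ini_aux {S : Type*} [CommRing S] (d : S) (a : Fin 3 → S) (P Q B : Matrix (Fin 3) (Fin 3) S)
    (hP : ∀ i j, d ∣ P i j - (if i = j then a i else 0))
    (hQ : ∀ i j, d ∣ Q i j - (if i = j then a i else 0))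
    (hB : ∀ i j, i ≠ j → B i j = 0) (i j : Fin 3) : d ∣ (P * B - B * Q) i j := by
  have e1 : (P * B) i j = P i j * B j j := by
    rw [Matrix.mul_apply]
    exact sum_eq_single_of_mem j (mem_univ _) fun b _ hb => by rw [hB b j hb, mul_zero]
  have e2 : (B * Q) i j = B i i * Q i j := by
    rw [Matrix.mul_apply]
    exact sum_eq_single_of_mem i (mem_univ _) fun b _ hb => by rw [hB i b hb.symm, zero_mul]
  rw [Matrix.sub_apply, e1, e2]
  have h1 := hP i j
  have h2 := hQ i j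
  by_cases hij : i = j
  · subst hij
    rw [if_pos rfl] at h1 h2
    have h3 := (dvd_sub h1 h2).mul_left (B i i)
    convert h3 using 1
    ring
  · rw [if_neg hij, sub_zero] at h1 h2
    exact dvd_sub (h1.mul_right _) (h2.mul_left _)

theorem comb_map (D : GD p) {L S' : Type*} [CommRing L] [Algebra ℤ_[p] L] [CommRing S']
    [Algebra ℤ_[p] S'] (φ : L →ₐ[ℤ_[p]] S') (c cs : HC L) (vX vY : L) (s : ℕ) (i j : Fin 3) :
    φ ((Psi D s c.Xv vX cs.Xv cs.izX cs.izX_mul * cs.B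
      - c.B * Psi D s c.Yv vY cs.Yv cs.izY cs.izY_mul) i j)
    = (Psi D s (c.map (φ : L →+* S')).Xv (φ vX) (cs.map (φ : L →+* S')).Xv
        (cs.map (φ : L →+* S')).izX (cs.map (φ : L →+* S')).izX_mul * (cs.map (φ : L →+* S')).B
      - (c.map (φ : L →+* S')).B * Psi D s (c.map (φ : L →+* S')).Yv (φ vY)
        (cs.map (φ : L →+* S')).Yv (cs.map (φ : L →+* S')).izY
        (cs.map (φ : L →+* S')).izY_mul) i j := by
  have eX : ∀ i j, Psi D s (c.map (φ : L →+* S')).Xv (φ vX) (cs.map (φ : L →+* S')).Xv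
        (cs.map (φ : L →+* S')).izX (cs.map (φ : L →+* S')).izX_mul i j
      = φ (Psi D s c.Xv vX cs.Xv cs.izX cs.izX_mul i j) := by
    intro i j
    have hh : φ cs.izX * (1 - 256 * φ cs.Xv) = 1 := by
      have := congrArg φ cs.izX_mul
      simpa [map_ofNat] using this
    rw [Psi_map D φ s _ _ _ _ _ hh]
    exact congrFun (congrFun (Psi_congr D s _ _ (HC.map_Xv c _) rfl (HC.map_Xv cs _)
      (HC.map_izX cs _)) i) j
  have eY : ∀ i j, Psi D s (c.map (φ : L →+* S')).Yv (φ vY) (cs.map (φ : L →+* S')).Yv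
        (cs.map (φ : L →+* S')).izY (cs.map (φ : L →+* S')).izY_mul i j
      = φ (Psi D s c.Yv vY cs.Yv cs.izY cs.izY_mul i j) := by
    intro i j
    have hh : φ cs.izY * (1 - 256 * φ cs.Yv) = 1 := by
      have := congrArg φ cs.izY_mul
      simpa [map_ofNat] using this
    rw [Psi_map D φ s _ _ _ _ _ hh]
    exact congrFun (congrFun (Psi_congr D s _ _ (HC.map_Yv c _) rfl (HC.map_Yv cs _)
      (HC.map_izY cs _)) i) j
  have eB : ∀ (c : HC L) (i j : Fin 3), (c.map (φ : L →+* S')).B i j = φ (c.B i j) :=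
    fun c i j => HC.map_B c _ i j
  simp only [Matrix.sub_apply, Matrix.mul_apply, Fin.sum_univ_three, eX, eY, eB, map_sub, map_add,
    map_mul]

theorem core7 (hp : 7 ≤ p) (D : GD p) :
    ∃ (c1 : HC ℤ_[p]) (v : ℤ_[p]), 5 * c1.h = 1 ∧ c1.Xv ^ p = c1.Xv * (1 + (p : ℤ_[p]) * v) ∧
      ∀ (s : ℕ) (i j : Fin 3), (p : ℤ_[p]) ^ s ∣
        (Psi D s c1.Xv v c1.Xv c1.izX c1.izX_mul * c1.B
          - c1.B * Psi D s c1.Xv v c1.Xv c1.izX c1.izX_mul) i j := by
  obtain ⟨L, iL1, iL2, φ₀, φ₁, c, cs, vX, vY, κ, h0, hs0, h1, hs1, hX, hY, vX0, vY0, hdiv⟩ :=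
    loc_exists p hp
  set c0 : HC (PowerSeries ℤ_[p]) := c.map (φ₀ : L →+* PowerSeries ℤ_[p]) with hc0
  set cs0 : HC (PowerSeries ℤ_[p]) := cs.map (φ₀ : L →+* PowerSeries ℤ_[p]) with hcs0
  set c1 : HC ℤ_[p] := c.map (φ₁ : L →+* ℤ_[p]) with hc1
  set cs1 : HC ℤ_[p] := cs.map (φ₁ : L →+* ℤ_[p]) with hcs1
  have hc0h : c0.h = PowerSeries.X := h0
  have hcs0h : cs0.h = PowerSeries.X ^ p * (1 + PowerSeries.C κ * PowerSeries.X) := hs0
  have hppos : 0 < p := (Fact.out : p.Prime).pos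
  have hc0z : PowerSeries.constantCoeff c0.h = 0 := by rw [hc0h]; simp
  have hcs0z : PowerSeries.constantCoeff cs0.h = 0 := by
    rw [hcs0h, map_mul, map_pow]; simp [hppos.ne']
  have hu : IsUnit (1 + PowerSeries.C κ * PowerSeries.X : PowerSeries ℤ_[p]) := by
    rw [PowerSeries.isUnit_iff_constantCoeff]
    simp
  have hcs0ne : cs0.h ≠ 0 := by
    rw [hcs0h]
    exact mul_ne_zero (pow_ne_zero _ PowerSeries.X_ne_zero) hu.ne_zero
  obtain ⟨ρ, hρ0, hρ⟩ := rho_exists p κ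
  -- relations in power series
  have hX0 : c0.Xv ^ p = cs0.Xv * (1 + (p : PowerSeries ℤ_[p]) * φ₀ vX) := by
    have := congrArg φ₀ hX
    rw [hc0, hcs0, HC.map_Xv, HC.map_Xv]
    simpa using this
  have hY0 : c0.Yv ^ p = cs0.Yv * (1 + (p : PowerSeries ℤ_[p]) * φ₀ vY) := by
    have := congrArg φ₀ hY
    rw [hc0, hcs0, HC.map_Yv, HC.map_Yv]
    simpa using this
  have tc : thP p c0.h = 1 * c0.h := by
    rw [hc0h, thP_apply, PowerSeries.derivative_X]; ring
  have tcs : thP p cs0.h = ρ * cs0.h := by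
    rw [hcs0h]; exact hρ
  have tX := HC.der_Xv c0 (thP p) 1 tc
  have tY := HC.der_Yv c0 (thP p) 1 tc
  have tZX := HC.der_Xv cs0 (thP p) ρ tcs
  have tZY := HC.der_Yv cs0 (thP p) ρ tcs
  have tvX := theta_v p c0.Xv cs0.Xv (φ₀ vX) _ _ hX0 (cs0.Xv_ne hcs0ne) tX tZX
  have tvY := theta_v p c0.Yv cs0.Yv (φ₀ vY) _ _ hY0 (cs0.Yv_ne hcs0ne) tY tZY
  have uX : IsUnit (1 + (p : PowerSeries ℤ_[p]) * φ₀ vX) := by
    rw [PowerSeries.isUnit_iff_constantCoeff, map_add, map_mul, vX0]; simp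
  have uY : IsUnit (1 + (p : PowerSeries ℤ_[p]) * φ₀ vY) := by
    rw [PowerSeries.isUnit_iff_constantCoeff, map_add, map_mul, vY0]; simp
  -- the matrices
  set PX : ℕ → Matrix (Fin 3) (Fin 3) (PowerSeries ℤ_[p]) :=
    fun s => Psi D s c0.Xv (φ₀ vX) cs0.Xv cs0.izX cs0.izX_mul with hPX
  set PY : ℕ → Matrix (Fin 3) (Fin 3) (PowerSeries ℤ_[p]) :=
    fun s => Psi D s c0.Yv (φ₀ vY) cs0.Yv cs0.izY cs0.izY_mul with hPY
  have key := uniq p ((1 * c0.xi) • Nmat c0.Xv c0.izX) ((ρ * cs0.eta) • Nmat cs0.Yv cs0.izY)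
    (Nmat_map_cc _ _ _ (by
      unfold HC.Xv; rw [map_mul, map_mul, hc0z]; ring))
    (Nmat_map_cc _ _ _ (by
      unfold HC.Yv; rw [map_mul, map_mul, map_pow, hcs0z]; ring))
    (fun s => PX s * cs0.B - c0.B * PY s) ?_ ?_ ?_
  · -- conclusion at the special point
    have e1 : cs1 = c1 := HC.ext_h _ _ hs1
    have h5 : 5 * c1.h = 1 := h1
    have hXY : c1.Xv = c1.Yv := by
      have a1 := c1.Xv_fifth h5
      have a2 := c1.Yv_fifth h5
      linear_combination (-c1.Xv) * a2 + c1.Yv * a1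
    have hX1 : c1.Xv ^ p = c1.Xv * (1 + (p : ℤ_[p]) * φ₁ vX) := by
      have := congrArg φ₁ hX
      conv_rhs => rw [← e1]
      rw [hc1, hcs1, HC.map_Xv, HC.map_Xv]
      simpa using this
    have hY1 : c1.Yv ^ p = c1.Yv * (1 + (p : ℤ_[p]) * φ₁ vY) := by
      have := congrArg φ₁ hY
      conv_rhs => rw [← e1]
      rw [hc1, hcs1, HC.map_Yv, HC.map_Yv]
      simpa using this
    have hne : c1.Xv ≠ 0 := by
      intro h0
      have a1 := c1.Xv_fifth h5
      rw [h0, mul_zero] at a1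
      exact zero_ne_one a1
    have hpne : (p : ℤ_[p]) ≠ 0 := by
      exact_mod_cast (Fact.out : p.Prime).ne_zero
    have hv : φ₁ vX = φ₁ vY := by
      rw [← hXY, hX1] at hY1
      have := mul_left_cancel₀ hne hY1
      exact mul_left_cancel₀ hpne (add_left_cancel this)
    have hiz : c1.izX = c1.izY := by
      have a1 := c1.izX_mul
      have a2 := c1.izY_mul
      rw [← hXY] at a2
      linear_combination (-c1.izX) * a2 + c1.izY * a1
    refine ⟨c1, φ₁ vX, h5, hX1, fun s i j => ?_⟩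
    have k1 := key s i j
    have k2 := comb_map D φ₀ c cs vX vY s i j
    have k3 := comb_map D φ₁ c cs vX vY s i j
    have k4 : (p : PowerSeries ℤ_[p]) ^ s ∣ φ₀ ((Psi D s c.Xv vX cs.Xv cs.izX cs.izX_mul * cs.B
      - c.B * Psi D s c.Yv vY cs.Yv cs.izY cs.izY_mul) i j) := by
      rw [k2]; exact k1
    have k5 := hdiv s _ k4
    rw [k3] at k5
    change (p : ℤ_[p]) ^ s ∣ (Psi D s c1.Xv (φ₁ vX) cs1.Xv cs1.izX cs1.izX_mul * cs1.B
      - c1.B * Psi D s c1.Yv (φ₁ vY) cs1.Yv cs1.izY cs1.izY_mul) i j at k5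
    rw [Psi_congr D s cs1.izX_mul c1.izX_mul rfl rfl (by rw [e1]) (by rw [e1]),
      Psi_congr D s cs1.izY_mul c1.izX_mul hXY.symm hv.symm (by rw [e1, hXY]) (by rw [e1, hiz]),
      e1] at k5
    exact k5
  · -- coherence
    intro s i j
    choose r1 hr1 using fun i j => Psi_coh D s c0.Xv (φ₀ vX) cs0.Xv cs0.izX cs0.izX_mul i j
    choose r2 hr2 using fun i j => Psi_coh D s c0.Yv (φ₀ vY) cs0.Yv cs0.izY cs0.izY_mul i j
    refine ⟨(r1 i 0 * cs0.B 0 j + r1 i 1 * cs0.B 1 j + r1 i 2 * cs0.B 2 j)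
      - (c0.B i 0 * r2 0 j + c0.B i 1 * r2 1 j + c0.B i 2 * r2 2 j), ?_⟩
    simp only [Matrix.sub_apply, Matrix.mul_apply, Fin.sum_univ_three, hPX, hPY]
    linear_combination cs0.B 0 j * hr1 i 0 + cs0.B 1 j * hr1 i 1 + cs0.B 2 j * hr1 i 2
      - c0.B i 0 * hr2 0 j - c0.B i 1 * hr2 1 j - c0.B i 2 * hr2 2 j
  · -- differential equation
    intro s i j
    have := comb_ode (thP p) ((p : PowerSeries ℤ_[p]) ^ s) (PX s) (PY s) c0.B cs0.B
      (Nmat c0.Xv c0.izX) (Nmat c0.Yv c0.izY) (Nmat cs0.Xv cs0.izX) (Nmat cs0.Yv cs0.izY)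
      (1 * c0.xi) (1 * c0.eta) (ρ * cs0.xi) (ρ * cs0.eta)
      (Psi_ode D s (thP p) c0.Xv cs0.Xv (φ₀ vX) cs0.izX c0.izX _ _ cs0.izX_mul c0.izX_mul
        hX0 uX tX tZX tvX)
      (Psi_ode D s (thP p) c0.Yv cs0.Yv (φ₀ vY) cs0.izY c0.izY _ _ cs0.izY_mul c0.izY_mul
        hY0 uY tY tZY tvY)
      (fun i j => by rw [HC.der_B cs0 (thP p) ρ tcs i j]; ring)
      (fun i j => by rw [HC.der_B c0 (thP p) 1 tc i j]; ring) i j
    rw [thP_apply] at this
    exact this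
  · -- initial value
    intro s i j
    set cc := (PowerSeries.constantCoeff (R := ℤ_[p])) with hcc
    have e0 : cc ((PX s * cs0.B - c0.B * PY s) i j)
        = ((PX s).map cc * (cs0.map cc).B - (c0.map cc).B * (PY s).map cc) i j := by
      simp only [Matrix.sub_apply, Matrix.mul_apply, Fin.sum_univ_three, map_sub, map_add,
        map_mul, Matrix.map_apply, HC.map_B]
    rw [e0, HC.B_zero (cs0.map cc) hcs0z, HC.B_zero (c0.map cc) hc0z]
    have z1 : cc c0.Xv = 0 := by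
      unfold HC.Xv; rw [map_mul, map_mul, hc0z]; ring
    have z2 : cc cs0.Xv = 0 := by
      unfold HC.Xv; rw [map_mul, map_mul, hcs0z]; ring
    have z3 : cc c0.Yv = 0 := by
      unfold HC.Yv; rw [map_mul, map_mul, map_pow, hc0z]; ring
    have z4 : cc cs0.Yv = 0 := by
      unfold HC.Yv; rw [map_mul, map_mul, map_pow, hcs0z]; ring
    have z5 : cc cs0.izX = 1 := by
      rw [← HC.map_izX]; exact HC.izX_zero _ hcs0z
    have z6 : cc cs0.izY = 1 := by
      rw [← HC.map_izY]; exact HC.izY_zero _ hcs0z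
    refine ini_aux _ (fun i => (p : ℤ_[p]) ^ (i : ℕ)) _ _ _ ?_ ?_ ?_ i j
    · intro i j
      exact Psi_cc D s _ _ _ _ cs0.izX_mul z1 vX0 z2 z5 i j
    · intro i j
      exact Psi_cc D s _ _ _ _ cs0.izY_mul z3 vY0 z4 z6 i j
    · intro i j hij
      fin_cases i <;> fin_cases j <;> first | rfl | exact absurd rfl hij

end core

end FF1001
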