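import Mathlib

/-!
Definitions for MP_ff1001_nt (integrality of the sums attached to Ramanujan's (10k+1)/12^(4k)).
-/

namespace FF1001

open Finset Polynomial

/-- `Mn k = (4k)!/(k!)^4`. -/
def Mn (k : ℕ) : ℕ := Nat.centralBinom (2 * k) * (Nat.centralBinom k) ^ 2

/-- `Rf x = 4(4x+1)(4x+2)(4x+3)`. -/
def Rf {A : Type*} [CommSemiring A] (x : A) : A :=
  4 * (4 * x + 1) * (4 * x + 2) * (4 * x + 3)

/-- `Pf p x = prod_{0<i<p} (p x + i)`. -/
def Pf {A : Type*} [CommSemiring A] (p : ℕ) (x : A) : A :=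
  ∏ i ∈ Ico 1 p, ((p : A) * x + (i : A))

/-- `nf p j x = prod_{i<4j} (4 p x + i + 1) * prod_{j<i<p} (p x + i)^4`. -/
def nf {A : Type*} [CommSemiring A] (p j : ℕ) (x : A) : A :=
  (∏ i ∈ range (4 * j), (4 * (p : A) * x + ((i : A) + 1))) *
    (∏ i ∈ Ico (j + 1) p, ((p : A) * x + (i : A))) ^ 4

/-- `Gm p m = prod_{l<m} Pf p l`, the product of all `i < p m` not divisible by `p`. -/
def Gm (p m : ℕ) : ℕ := ∏ l ∈ range m, Pf p l

/-- `D n = n (2n+1) C(2n,n)`. -/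
def Dn (n : ℕ) : ℕ := n * (2 * n + 1) * Nat.centralBinom n

/-- The sums: `T 0 = 0`, `T (n+1) = 12^4 T n + (10n+1) M(n)`. -/
def T : ℕ → ℕ
  | 0 => 0
  | n + 1 => 12 ^ 4 * T n + (10 * n + 1) * Mn n

/-- the telescoping operator `q ↦ x^3 q(x) - Z R(x) q(x+1)` -/
noncomputable def tau {S : Type*} [CommRing S] (Z : S) (q : S[X]) : S[X] :=
  X ^ 3 * q - C Z * Rf X * q.comp (X + 1)

/-- `a0 + a1 x + a2 x^2` -/
noncomputable def qd {S : Type*} [CommRing S] (a : Fin 3 → S) : S[X] :=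
  C (a 0) + C (a 1) * X + C (a 2) * X ^ 2

/-- the connection matrix `N(Z)`, where `iz` is the inverse of `1 - 256 Z` -/
def Nmat {S : Type*} [CommRing S] (Z iz : S) : Matrix (Fin 3) (Fin 3) S :=
  !![0, 1, 0; 0, 0, 1; 24 * (Z * iz), 176 * (Z * iz), 384 * (Z * iz)]

/-- the numbers `S_{P,n}` for `P = 10k+1` in a ring where `w` is given -/
def Sw {S : Type*} [CommSemiring S] (w : S) (n : ℕ) : S :=
  ∑ k ∈ range n, (10 * (k : S) + 1) * (Mn k : S) * w ^ k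

end FF1001
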