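import Pool.Agent.W_ff1001_h94.Defs

/-! The coefficientwise derivation on polynomials. -/

namespace FF1001

open Polynomial

variable {R S : Type*} [CommRing R] [CommRing S] [Algebra R S]

/-- coefficientwise extension of a derivation of `S` to `S[X]` -/
noncomputable def dm (θ : Derivation R S S) : Derivation R S[X] S[X] :=
  LinearMap.compDer (PolynomialModule.equivPolynomialSelf (R := S)).toLinearMap θ.mapCoeffs

theorem dm_coeff (θ : Derivation R S S) (q : S[X]) (i : ℕ) :
    (dm θ q).coeff i = θ (q.coeff i) := by
  have h : dm θ q = PolynomialModule.equivPolynomialSelf (θ.mapCoeffs q) := rfl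
  rw [h]
  rfl

@[simp] theorem dm_C (θ : Derivation R S S) (a : S) : dm θ (C a) = C (θ a) := by
  ext i
  rw [dm_coeff, coeff_C, coeff_C]
  split_ifs <;> simp

@[simp] theorem dm_X (θ : Derivation R S S) : dm θ (X : S[X]) = 0 := by
  ext i
  rw [dm_coeff, coeff_X, coeff_zero]
  split_ifs <;> simp

@[simp] theorem dm_natCast (θ : Derivation R S S) (n : ℕ) : dm θ (n : S[X]) = 0 := by
  rw [← C_eq_natCast, dm_C]
  simp

@[simp] theorem dm_ofNat (θ : Derivation R S S) (n : ℕ) [n.AtLeastTwo] :
    dm θ (ofNat(n) : S[X]) = 0 := by
  rw [← Nat.cast_ofNat]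
  exact dm_natCast θ _

/-- `dm` commutes with composition with a polynomial of zero derivation -/
theorem dm_comp (θ : Derivation R S S) (q r : S[X]) (hr : dm θ r = 0) :
    dm θ (q.comp r) = (dm θ q).comp r := by
  induction q using Polynomial.induction_on' with
  | add a b ha hb => simp [ha, hb, add_comp]
  | monomial n a =>
    have h1 : dm θ (monomial n a) = C (θ a) * X ^ n := by
      rw [← C_mul_X_pow_eq_monomial]
      simp [Derivation.leibniz, Derivation.leibniz_pow]
    rw [h1]
    simp [monomial_comp, Derivation.leibniz, Derivation.leibniz_pow, hr]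
    ring

/-- constants from the base ring are killed -/
theorem dm_map (θ : Derivation R S S) (q : R[X]) : dm θ (q.map (algebraMap R S)) = 0 := by
  ext i
  rw [dm_coeff, coeff_map]
  simp

end FF1001
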