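import Pool.Agent.W_ff1001_h94.HC

/-! Factorial identities. -/

namespace FF1001

open Finset Polynomial

/-- the central binomial coefficient and factorials -/
theorem central_fact (n : ℕ) : Nat.centralBinom n * n.factorial ^ 2 = (2 * n).factorial := by
  have h := Nat.choose_mul_factorial_mul_factorial (show n ≤ 2 * n by omega)
  rw [show 2 * n - n = n by omega] at h
  rw [Nat.centralBinom_eq_two_mul_choose, ← h]
  ring

theorem fact_add (n k : ℕ) : (n + k).factorial = n.factorial * ∏ i ∈ range k, (n + (i + 1)) := by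
  induction k with
  | zero => simp
  | succ k ih => rw [← add_assoc, Nat.factorial_succ, ih, prod_range_succ]; ring

theorem Mn_fact (k : ℕ) : Mn k * (k.factorial) ^ 4 = (4 * k).factorial := by
  have h1 := central_fact (2 * k)
  have h2 := central_fact k
  rw [show 2 * (2 * k) = 4 * k by ring, ← h2] at h1
  rw [← h1]
  unfold Mn
  ring

theorem Mn_succ (k : ℕ) : (k + 1) ^ 3 * Mn (k + 1) = Rf k * Mn k := by
  have h1 := Mn_fact k
  have h2 := Mn_fact (k + 1)
  rw [show 4 * (k + 1) = 4 * k + 1 + 1 + 1 + 1 by ring, Nat.factorial_succ, Nat.factorial_succ,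
    Nat.factorial_succ, Nat.factorial_succ, Nat.factorial_succ, ← h1] at h2
  have hpos : 0 < (k + 1) * k.factorial ^ 4 := by positivity
  apply Nat.eq_of_mul_eq_mul_right hpos
  unfold Rf
  calc (k + 1) ^ 3 * Mn (k + 1) * ((k + 1) * k.factorial ^ 4)
      = Mn (k + 1) * ((k + 1) * k.factorial) ^ 4 := by ring
    _ = _ := h2
    _ = _ := by ring

theorem prod_shift (f : ℕ → ℕ) (p : ℕ) : ∏ i ∈ range p, f (i + 1) = ∏ i ∈ Ico 1 (p + 1), f i := by
  rw [range_eq_Ico, prod_Ico_add']

theorem Pf_nat (p m : ℕ) : Pf p m = ∏ i ∈ Ico 1 p, (p * m + i) := rfl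

theorem fact_mul_pred (p m : ℕ) (hp : 0 < p) :
    (p * m).factorial * Pf p m = (p * m + (p - 1)).factorial := by
  rw [fact_add, Pf_nat]
  congr 1
  rw [prod_shift (fun i => p * m + i) (p - 1), Nat.sub_add_cancel hp]

theorem fact_mul (p m : ℕ) (hp : 0 < p) :
    (p * m).factorial = p ^ m * m.factorial * Gm p m := by
  induction m with
  | zero => simp [Gm]
  | succ m ih =>
    have h1 : Gm p (m + 1) = Gm p m * Pf p m := by unfold Gm; rw [prod_range_succ]
    have h2 : p * (m + 1) = p * m + (p - 1) + 1 := by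
      rw [mul_add, mul_one]; omega
    have h3 := fact_mul_pred p m hp
    have h4 : p * m + (p - 1) + 1 = p * (m + 1) := h2.symm
    rw [h2, Nat.factorial_succ, ← h3, h4, ih, h1, Nat.factorial_succ, pow_succ]
    ring

theorem Gm_succ_fact (p m : ℕ) (hp : 0 < p) :
    p ^ m * m.factorial * Gm p (m + 1) = (p * m + (p - 1)).factorial := by
  have h1 : Gm p (m + 1) = Gm p m * Pf p m := by unfold Gm; rw [prod_range_succ]
  rw [h1, ← fact_mul_pred p m hp, fact_mul p m hp]
  ring

theorem Mn_split (p : ℕ) (hp : 0 < p) (m j : ℕ) (hj : j < p) :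
    Mn (p * m + j) * (Gm p (m + 1)) ^ 4 = Mn m * Gm p (4 * m) * nf p j m := by
  have hpos : 0 < (p ^ m * m.factorial) ^ 4 := by positivity
  apply Nat.eq_of_mul_eq_mul_right hpos
  set Q : ℕ := ∏ i ∈ Ico (j + 1) p, (p * m + i) with hQ
  have h1 : (p * m + (p - 1)).factorial = (p * m + j).factorial * Q := by
    have h2 : p * m + (p - 1) = p * m + j + (p - 1 - j) := by omega
    rw [h2, fact_add, hQ]
    congr 1
    have h3 : Ico (j + 1) p = Ico (0 + (j + 1)) ((p - 1 - j) + (j + 1)) := by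
      congr 1
      · omega
      · omega
    rw [h3, ← prod_Ico_add', range_eq_Ico]
    refine prod_congr rfl fun i _ => ?_
    ring
  have h4 : nf p j m = (∏ i ∈ range (4 * j), (4 * (p * m) + (i + 1))) * Q ^ 4 := by
    unfold nf
    simp only [Nat.cast_id, hQ, mul_assoc]
  calc Mn (p * m + j) * Gm p (m + 1) ^ 4 * (p ^ m * m.factorial) ^ 4
      = Mn (p * m + j) * (p ^ m * m.factorial * Gm p (m + 1)) ^ 4 := by ring
    _ = Mn (p * m + j) * (p * m + j).factorial ^ 4 * Q ^ 4 := by
        rw [Gm_succ_fact p m hp, h1]; ring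
    _ = (4 * (p * m + j)).factorial * Q ^ 4 := by rw [Mn_fact]
    _ = (p * (4 * m)).factorial * (∏ i ∈ range (4 * j), (4 * (p * m) + (i + 1))) * Q ^ 4 := by
        rw [show 4 * (p * m + j) = 4 * (p * m) + 4 * j by ring, fact_add,
          show p * (4 * m) = 4 * (p * m) by ring]
    _ = p ^ (4 * m) * (Mn m * m.factorial ^ 4) * Gm p (4 * m) *
          ((∏ i ∈ range (4 * j), (4 * (p * m) + (i + 1))) * Q ^ 4) := by
        rw [fact_mul p (4 * m) hp, Mn_fact]; ring
    _ = Mn m * Gm p (4 * m) * nf p j m * (p ^ m * m.factorial) ^ 4 := by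
        rw [h4]; ring

theorem central_split (p : ℕ) (hp : 0 < p) (m : ℕ) :
    Nat.centralBinom (p * m) * (Gm p m) ^ 2 = Nat.centralBinom m * Gm p (2 * m) := by
  have hpos : 0 < (p ^ m * m.factorial) ^ 2 := by positivity
  apply Nat.eq_of_mul_eq_mul_right hpos
  calc Nat.centralBinom (p * m) * Gm p m ^ 2 * (p ^ m * m.factorial) ^ 2
      = Nat.centralBinom (p * m) * (p ^ m * m.factorial * Gm p m) ^ 2 := by ring
    _ = (p * (2 * m)).factorial := by
        rw [← fact_mul p m hp, central_fact]; congr 1; ring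
    _ = p ^ (2 * m) * (Nat.centralBinom m * m.factorial ^ 2) * Gm p (2 * m) := by
        rw [fact_mul p (2 * m) hp, central_fact]
    _ = Nat.centralBinom m * Gm p (2 * m) * (p ^ m * m.factorial) ^ 2 := by ring

theorem Gm_coprime (p : ℕ) (hp : p.Prime) (m : ℕ) : Nat.Coprime p (Gm p m) := by
  unfold Gm
  refine Nat.Coprime.prod_right fun l _ => ?_
  rw [Pf_nat]
  refine Nat.Coprime.prod_right fun i hi => ?_
  rw [mem_Ico] at hi
  rw [Nat.coprime_mul_left_add_right]
  exact (hp.coprime_iff_not_dvd).2 (Nat.not_dvd_of_pos_of_lt hi.1 hi.2)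

end FF1001
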