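import Pool.Agent.W_ff1001_h94.HC
import Pool.Agent.W_ff1001_h94.Fact

/-! The digit induction. -/

namespace FF1001

open Finset Polynomial

theorem isUnit_natCast_of_not_dvd {p : ℕ} [Fact p.Prime] {a : ℕ} (h : ¬ p ∣ a) :
    IsUnit (a : ℤ_[p]) := by
  rw [PadicInt.isUnit_iff]
  by_contra hne
  have h1 : ‖(a : ℤ_[p])‖ < 1 := lt_of_le_of_ne (PadicInt.norm_le_one _) hne
  have h2 := (PadicInt.norm_int_lt_one_iff_dvd (p := p) (a : ℤ)).mp (by exact_mod_cast h1)
  exact h (by exact_mod_cast h2)

theorem central_assoc_zero {p : ℕ} [hF : Fact p.Prime] (m : ℕ) :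
    Associated (Nat.centralBinom (p * m) : ℤ_[p]) (Nat.centralBinom m : ℤ_[p]) := by
  have h := central_split p hF.out.pos m
  have hu : ∀ k, IsUnit (Gm p k : ℤ_[p]) := fun k => by
    refine isUnit_natCast_of_not_dvd (fun hd => ?_)
    have := Gm_coprime p hF.out k
    exact hF.out.one_lt.ne' (Nat.Coprime.eq_one_of_dvd this hd)
  have h' : (Nat.centralBinom (p * m) : ℤ_[p]) * (Gm p m : ℤ_[p]) ^ 2 =
      (Nat.centralBinom m : ℤ_[p]) * (Gm p (2 * m) : ℤ_[p]) := by exact_mod_cast h
  have e1 : Associated (Nat.centralBinom (p * m) : ℤ_[p])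
      ((Nat.centralBinom (p * m) : ℤ_[p]) * (Gm p m : ℤ_[p]) ^ 2) :=
    (associated_mul_unit_right _ _ ((hu m).pow 2))
  have e2 : Associated (Nat.centralBinom m : ℤ_[p])
      ((Nat.centralBinom m : ℤ_[p]) * (Gm p (2 * m) : ℤ_[p])) :=
    (associated_mul_unit_right _ _ (hu (2 * m)))
  rw [h'] at e1
  exact e1.trans e2.symm

theorem central_step {p : ℕ} [Fact p.Prime] (k : ℕ) :
    ((k + 1 : ℕ) : ℤ_[p]) * (Nat.centralBinom (k + 1) : ℤ_[p]) =
      ((2 * (2 * k + 1) : ℕ) : ℤ_[p]) * (Nat.centralBinom k : ℤ_[p]) := by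
  exact_mod_cast congrArg (fun x : ℕ => (x : ℤ_[p])) (Nat.succ_mul_centralBinom_succ k)

/-- not divisible by `p` because of the last digit -/
theorem not_dvd_digit {p m i : ℕ} (h0 : 0 < i) (h1 : i < p) : ¬ p ∣ p * m + i := by
  intro h
  rw [Nat.dvd_add_right (dvd_mul_right p m)] at h
  exact absurd (Nat.le_of_dvd h0 h) (not_le.mpr h1)

theorem central_step_unit {p : ℕ} [Fact p.Prime] (k : ℕ) (h1 : ¬ p ∣ k + 1)
    (h2 : ¬ p ∣ 2 * (2 * k + 1)) :
    Associated (Nat.centralBinom (k + 1) : ℤ_[p]) (Nat.centralBinom k : ℤ_[p]) := by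
  have e1 := associated_mul_unit_right (Nat.centralBinom (k + 1) : ℤ_[p]) _
    (isUnit_natCast_of_not_dvd h1)
  have e2 := associated_mul_unit_right (Nat.centralBinom k : ℤ_[p]) _
    (isUnit_natCast_of_not_dvd h2)
  rw [mul_comm, central_step k, mul_comm] at e1
  exact e1.trans e2.symm

theorem central_assoc_low {p r : ℕ} [hF : Fact p.Prime] (hr : p = 2 * r + 1) (hr1 : 1 ≤ r)
    (m : ℕ) : ∀ i ≤ r, Associated (Nat.centralBinom (p * m + i) : ℤ_[p])
      (Nat.centralBinom m : ℤ_[p])
  | 0, _ => central_assoc_zero m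
  | i + 1, hi => by
    refine Associated.trans ?_ (central_assoc_low hr hr1 m i (by omega))
    refine central_step_unit (p * m + i) ?_ ?_
    · exact not_dvd_digit (m := m) (i := i + 1) (by omega) (by omega)
    · intro h
      rcases (Nat.Prime.dvd_mul hF.out).mp h with h | h
      · have := Nat.le_of_dvd (by norm_num) h
        omega
      · exact not_dvd_digit (p := p) (m := 2 * m) (i := 2 * i + 1) (by omega) (by omega)
          (by convert h using 1; ring)

theorem central_assoc_high {p r : ℕ} [hF : Fact p.Prime] (hr : p = 2 * r + 1) (hr1 : 1 ≤ r)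
    (m : ℕ) : ∀ i, r + 1 + i < p → Associated (Nat.centralBinom (p * m + (r + 1 + i)) : ℤ_[p])
      (((p * (2 * m + 1) : ℕ) : ℤ_[p]) * (Nat.centralBinom m : ℤ_[p]))
  | 0, hi => by
    have h1 := central_step (p := p) (p * m + r)
    have h2 : ¬ p ∣ p * m + r + 1 := not_dvd_digit (m := m) (i := r + 1) (by omega) (by omega)
    have h3 : ¬ p ∣ 2 := fun h => by
      have := Nat.le_of_dvd (by norm_num) h
      omega
    have e1 := associated_mul_unit_right (Nat.centralBinom (p * m + r + 1) : ℤ_[p]) _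
      (isUnit_natCast_of_not_dvd h2)
    rw [mul_comm (Nat.centralBinom (p * m + r + 1) : ℤ_[p])] at e1
    rw [h1] at e1
    have e2 : 2 * (2 * (p * m + r) + 1) = (p * (2 * m + 1)) * 2 := by
      subst hr; ring
    rw [e2, Nat.cast_mul, mul_assoc, mul_comm ((2 : ℕ) : ℤ_[p]), ← mul_assoc] at e1
    refine e1.trans ?_
    refine (associated_mul_unit_right _ _ (isUnit_natCast_of_not_dvd h3)).symm.trans ?_
    exact (Associated.refl _).mul_mul (central_assoc_low hr hr1 m r le_rfl)
  | i + 1, hi => by
    refine Associated.trans ?_ (central_assoc_high hr hr1 m i (by omega))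
    refine central_step_unit (p * m + (r + 1 + i)) ?_ ?_
    · exact not_dvd_digit (m := m) (i := r + 1 + i + 1) (by omega) (by omega)
    · intro h
      rcases (Nat.Prime.dvd_mul hF.out).mp h with h | h
      · have := Nat.le_of_dvd (by norm_num) h
        omega
      · refine not_dvd_digit (p := p) (m := 2 * m + 1) (i := 2 * i + 2) (by omega) (by omega) ?_
        convert h using 1
        subst hr; ring

theorem Sw_succ {S : Type*} [CommSemiring S] (w : S) (n : ℕ) :
    Sw w (n + 1) = Sw w n + (10 * (n : S) + 1) * (Mn n : S) * w ^ n := by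
  unfold Sw
  rw [sum_range_succ]

theorem digit (p : ℕ) [Fact p.Prime] (hp : 5 ≤ p) (w : ℤ_[p])
    (H : ∀ n : ℕ, (Dn n : ℤ_[p]) ∣ Sw w n →
      ((p * n * Nat.centralBinom n : ℕ) : ℤ_[p]) ∣ Sw w (p * n)) :
    ∀ n : ℕ, (Dn n : ℤ_[p]) ∣ Sw w n := by
  have hF : p.Prime := Fact.out
  obtain ⟨r, hr⟩ : ∃ r, p = 2 * r + 1 := by
    rcases hF.eq_two_or_odd' with h | h
    · omega
    · exact h
  have hr2 : 2 ≤ r := by omega
  intro n
  induction n using Nat.strong_induction_on with
  | _ n ih =>
  rcases Nat.eq_zero_or_pos n with h0 | hn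
  · subst h0
    simp [Dn, Sw]
  -- digits
  obtain ⟨n', j, hj, hnj⟩ : ∃ n' j, j < p ∧ n = p * n' + j :=
    ⟨n / p, n % p, Nat.mod_lt _ hF.pos, (Nat.div_add_mod n p).symm⟩
  have hn' : n' < n := by
    rw [hnj]
    rcases Nat.eq_zero_or_pos n' with h | h
    · subst h; omega
    · nlinarith
  have hS : ((p * n' * Nat.centralBinom n' : ℕ) : ℤ_[p]) ∣ Sw w (p * n') := H n' (ih n' hn')
  rcases Nat.eq_zero_or_pos j with hj0 | hj0
  · -- j = 0
    subst hj0
    rw [add_zero] at hnj
    rw [hnj]
    refine dvd_trans ?_ hS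
    have h1 : ¬ p ∣ 2 * (p * n') + 1 := by
      have := not_dvd_digit (p := p) (m := 2 * n') (i := 1) (by omega) (by omega)
      intro h; apply this; convert h using 1; ring
    obtain ⟨u, hu⟩ := isUnit_natCast_of_not_dvd h1
    obtain ⟨v, hv⟩ := central_assoc_zero (p := p) n'
    unfold Dn
    push_cast at hu hv ⊢
    rw [← hu, ← hv]
    exact ⟨((u⁻¹ * v : ℤ_[p]ˣ) : ℤ_[p]), by
      push_cast
      have : (u : ℤ_[p]) * ((u⁻¹ : ℤ_[p]ˣ) : ℤ_[p]) = 1 := u.mul_inv
      linear_combination (-((p : ℤ_[p]) * n' * (Nat.centralBinom (p * n') : ℤ_[p]) * v)) * this⟩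
  have hnu : IsUnit (n : ℤ_[p]) := by
    rw [hnj]; exact isUnit_natCast_of_not_dvd (not_dvd_digit hj0 hj)
  rcases Nat.lt_or_ge j r with hjr | hjr
  · -- 0 < j < r
    have h1 : ¬ p ∣ 2 * n + 1 := by
      have := not_dvd_digit (p := p) (m := 2 * n') (i := 2 * j + 1) (by omega) (by omega)
      intro h; apply this; rw [hnj] at h; convert h using 1; ring
    have h2 : (Dn n : ℤ_[p]) ∣ (Nat.centralBinom n' : ℤ_[p]) := by
      unfold Dn
      push_cast
      have h3 := (isUnit_natCast_of_not_dvd h1)
      push_cast at h3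
      rw [(hnu.mul h3).mul_left_dvd]
      rw [hnj]
      exact (central_assoc_low hr (by omega) n' j (by omega)).dvd
    refine dvd_trans h2 ?_
    have h4 : ∀ i ≤ r, (Nat.centralBinom n' : ℤ_[p]) ∣ Sw w (p * n' + i) := by
      intro i
      induction i with
      | zero =>
        intro _
        refine dvd_trans ?_ hS
        push_cast
        exact dvd_mul_left _ _
      | succ i ihi =>
        intro hi
        rw [← add_assoc, Sw_succ]
        refine dvd_add (ihi (by omega)) ?_
        have h5 := (central_assoc_low hr (by omega) n' i (by omega)).symm.dvd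
        refine dvd_mul_of_dvd_left (dvd_mul_of_dvd_right ?_ _) _
        unfold Mn
        push_cast
        exact dvd_mul_of_dvd_right (h5.trans (dvd_pow_self _ two_ne_zero)) _
    rw [hnj]
    exact h4 j (by omega)
  · -- j ≥ r
    set E : ℤ_[p] := ((p * (2 * n' + 1) : ℕ) : ℤ_[p]) * (Nat.centralBinom n' : ℤ_[p]) with hE
    have hDE : (Dn n : ℤ_[p]) ∣ E := by
      rcases Nat.eq_or_lt_of_le hjr with hjr' | hjr'
      · -- j = r
        have e2 : 2 * n + 1 = p * (2 * n' + 1) := by
          rw [hnj, ← hjr', hr]; ring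
        have e3 : (Dn n : ℤ_[p]) = (n : ℤ_[p]) *
            (((p * (2 * n' + 1) : ℕ) : ℤ_[p]) * (Nat.centralBinom n : ℤ_[p])) := by
          unfold Dn
          rw [e2]
          push_cast
          ring
        rw [e3, hnu.mul_left_dvd]
        refine mul_dvd_mul_left _ ?_
        rw [hnj, ← hjr']
        exact (central_assoc_low hr (by omega) n' r le_rfl).dvd
      · obtain ⟨i, rfl⟩ : ∃ i, j = r + 1 + i := ⟨j - (r + 1), by omega⟩
        have h1 : ¬ p ∣ 2 * n + 1 := by
          have := not_dvd_digit (p := p) (m := 2 * n' + 1) (i := 2 * i + 2) (by omega) (by omega)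
          intro h
          apply this
          rw [hnj] at h
          convert h using 1
          rw [hr]
          ring
        unfold Dn
        rw [Nat.cast_mul, Nat.cast_mul, (hnu.mul (isUnit_natCast_of_not_dvd h1)).mul_left_dvd, hnj]
        exact (central_assoc_high hr (by omega) n' i hj).dvd
    refine hDE.trans ?_
    have h6 : E ∣ Sw w (p * n' + p) := by
      have h61 := H (n' + 1) (ih (n' + 1) (by
        rw [hnj]
        have : n' ≤ p * n' := Nat.le_mul_of_pos_left _ hF.pos
        omega))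
      have h62 : (p * (n' + 1) * Nat.centralBinom (n' + 1) : ℕ) =
          p * (2 * n' + 1) * Nat.centralBinom n' * 2 := by
        rw [mul_assoc, Nat.succ_mul_centralBinom_succ]
        ring
      rw [h62] at h61
      have e : p * (n' + 1) = p * n' + p := by ring
      rw [e] at h61
      refine dvd_trans ?_ h61
      rw [hE]
      push_cast
      exact dvd_mul_right _ _
    have h7 : ∀ i, r ≤ i → i < p → E ∣ (10 * ((p * n' + i : ℕ) : ℤ_[p]) + 1) *
        (Mn (p * n' + i) : ℤ_[p]) * w ^ (p * n' + i) := by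
      intro i hi hip
      refine dvd_mul_of_dvd_left (dvd_mul_of_dvd_right ?_ _) _
      rcases Nat.eq_or_lt_of_le hi with hi' | hi'
      · subst hi'
        have h71 : (p * (2 * n' + 1)) ∣ Nat.centralBinom (2 * (p * n' + r)) := by
          have := Nat.succ_dvd_centralBinom (2 * (p * n' + r))
          convert this using 1
          rw [hr]
          ring
        have h72 := (central_assoc_low hr (by omega) n' r le_rfl).symm.dvd
        unfold Mn
        push_cast
        rw [hE]
        refine mul_dvd_mul ?_ (h72.trans (dvd_pow_self _ two_ne_zero))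
        exact_mod_cast (Nat.cast_dvd_cast h71 : ((p * (2 * n' + 1) : ℕ) : ℤ_[p]) ∣ _)
      · obtain ⟨l, rfl⟩ : ∃ l, i = r + 1 + l := ⟨i - (r + 1), by omega⟩
        have h72 := (central_assoc_high hr (by omega) n' l hip).symm.dvd
        unfold Mn
        push_cast
        refine dvd_mul_of_dvd_right (dvd_trans ?_ (dvd_pow_self _ two_ne_zero)) _
        rw [hE]
        exact h72
    have h8 : ∀ d i, i + d = p → r ≤ i → E ∣ Sw w (p * n' + i) := by
      intro d
      induction d with
      | zero =>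
        intro i hi _
        rw [add_zero] at hi
        rw [hi]
        exact h6
      | succ d ihd =>
        intro i hi hri
        have h81 := ihd (i + 1) (by omega) (by omega)
        rw [← add_assoc, Sw_succ] at h81
        exact (dvd_add_left (h7 i hri (by omega))).mp h81
    rw [hnj]
    exact h8 (p - j) j (by omega) hjr

end FF1001
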