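import Pool.Agent.W_ff1001_h94.Tele
import Pool.Agent.W_ff1001_h94.Fact

/-! Dwork type reduction of the truncated sums: general identities. -/

namespace FF1001

open Finset Polynomial

variable {S : Type*} [CommRing S]

/-- `G(x) * sum_{j<p} X^j P(px+j) n_j(x)` -/
noncomputable def gh (p : ℕ) (G : S[X]) (Xv : S) (P : S[X]) : S[X] :=
  G * ∑ j ∈ range p, C Xv ^ j * P.comp ((p : S[X]) * X + (j : S[X])) * nf p j X

theorem gh_add (p : ℕ) (G : S[X]) (Xv : S) (P P' : S[X]) :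
    gh p G Xv (P + P') = gh p G Xv P + gh p G Xv P' := by
  unfold gh
  rw [← mul_add, ← sum_add_distrib]
  congr 1
  refine sum_congr rfl fun j _ => ?_
  rw [add_comp]; ring

theorem gh_C_mul (p : ℕ) (G : S[X]) (Xv a : S) (P : S[X]) :
    gh p G Xv (C a * P) = C a * gh p G Xv P := by
  have h : ∑ j ∈ range p, C Xv ^ j * (C a * P).comp ((p : S[X]) * X + (j : S[X])) * nf p j X
      = C a * ∑ j ∈ range p, C Xv ^ j * P.comp ((p : S[X]) * X + (j : S[X])) * nf p j X := by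
    rw [mul_sum]
    refine sum_congr rfl fun j _ => ?_
    rw [mul_comp, C_comp]; ring
  unfold gh
  rw [h]; ring

theorem Rf_comp (q : S[X]) : (Rf X : S[X]).comp q = Rf q := by
  unfold Rf
  simp

theorem gh_tele (p : ℕ) (hp : 0 < p) (d A Q E : S[X]) (Xv Z v : S)
    (hA : d ∣ A * Pf p X ^ 4 - Q)
    (hA2 : d ∣ (Pf p (4 * X) * Pf p (4 * X + 1) * Pf p (4 * X + 2) * Pf p (4 * X + 3)) * A
      - Q.comp (X + 1))
    (hE : d ∣ E.comp (X + 1) - C (1 + (p : S) * v) * E)
    (hZ : Xv ^ p = Z * (1 + (p : S) * v)) :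
    d ∣ gh p (A * E) Xv (X ^ 3 - C Xv * Rf X) - (p : S[X]) ^ 3 * tau Z (Q * E) := by
  obtain ⟨r1, h1⟩ := hA
  obtain ⟨r2, h2⟩ := hA2
  obtain ⟨r3, h3⟩ := hE
  have ht := tele p hp (X : S[X]) (C Xv)
  have hs : ∑ j ∈ range p, C Xv ^ j * (X ^ 3 - C Xv * Rf X : S[X]).comp
      ((p : S[X]) * X + (j : S[X])) * nf p j X
      = ((p : S[X]) * X) ^ 3 * Pf p X ^ 4
        - C Xv ^ p * ((p : S[X]) ^ 3 * Rf X * (Pf p (4 * X) * Pf p (4 * X + 1)
          * Pf p (4 * X + 2) * Pf p (4 * X + 3))) := by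
    rw [← ht]
    refine sum_congr rfl fun j _ => ?_
    rw [sub_comp, mul_comp, C_comp, Rf_comp, pow_comp, X_comp]
  have hZ' : (C Xv : S[X]) ^ p = C Z * C (1 + (p : S) * v) := by
    rw [← C_pow, hZ, C_mul]
  unfold gh tau
  rw [hs, hZ', mul_comp]
  refine ⟨(p : S[X]) ^ 3 * X ^ 3 * E * r1
    - (p : S[X]) ^ 3 * Rf X * C Z * (r2 * C (1 + (p : S) * v) * E - Q.comp (X + 1) * r3), ?_⟩
  linear_combination (p : S[X]) ^ 3 * X ^ 3 * E * h1
    - (p : S[X]) ^ 3 * Rf X * C Z * C (1 + (p : S) * v) * E * h2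
    + (p : S[X]) ^ 3 * Rf X * C Z * Q.comp (X + 1) * h3

section der

variable {R : Type*} [CommRing R] [Algebra R S]

theorem dm_prod_zero {ι : Type*} (θ : Derivation R S S) (s : Finset ι) (f : ι → S[X])
    (h : ∀ i ∈ s, dm θ (f i) = 0) : dm θ (∏ i ∈ s, f i) = 0 := by
  classical
  induction s using Finset.induction_on with
  | empty => simp
  | insert a s ha ih =>
    rw [prod_insert ha, Derivation.leibniz, ih (fun i hi => h i (mem_insert_of_mem hi)),
      h a (mem_insert_self _ _)]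
    simp

theorem dm_nf (θ : Derivation R S S) (p j : ℕ) : dm θ (nf p j (X : S[X])) = 0 := by
  unfold nf
  rw [Derivation.leibniz, Derivation.leibniz_pow, dm_prod_zero, dm_prod_zero]
  · simp
  · intro i _
    simp [Derivation.leibniz]
  · intro i _
    simp [Derivation.leibniz]

theorem gh_der (p : ℕ) (θ : Derivation R S S) (d A E : S[X]) (Xv ξ ζ : S)
    (hX : θ Xv = ξ * Xv) (hA : dm θ A = 0)
    (hE : d ∣ dm θ E - C ((p : S) * ξ - ζ) * X * E) (P : S[X]) (hP : dm θ P = 0) :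
    d ∣ dm θ (gh p (A * E) Xv P) + C ζ * X * gh p (A * E) Xv P
      - C ξ * gh p (A * E) Xv (X * P) := by
  obtain ⟨r, hr⟩ := hE
  have hsum : dm θ (∑ j ∈ range p, C Xv ^ j * P.comp ((p : S[X]) * X + (j : S[X])) * nf p j X)
      = ∑ j ∈ range p, (j : S[X]) * C ξ * (C Xv ^ j * P.comp ((p : S[X]) * X + (j : S[X]))
        * nf p j X) := by
    rw [map_sum]
    refine sum_congr rfl fun j _ => ?_
    have h1 : dm θ (P.comp ((p : S[X]) * X + (j : S[X]))) = 0 := by
      rw [dm_comp _ _ _ (by simp [Derivation.leibniz]), hP, zero_comp]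
    have h2 : dm θ ((C Xv : S[X]) ^ j) = (j : S[X]) * C ξ * C Xv ^ j := by
      rw [Derivation.leibniz_pow, dm_C, hX]
      rcases Nat.eq_zero_or_pos j with hj | hj
      · simp [hj]
      · obtain ⟨k, rfl⟩ := Nat.exists_eq_succ_of_ne_zero hj.ne'
        simp [pow_succ]
        ring
    rw [Derivation.leibniz, Derivation.leibniz, dm_nf, h1, h2]
    simp only [smul_eq_mul, mul_zero, zero_add]
    ring
  have hXP : ∑ j ∈ range p, C Xv ^ j * (X * P).comp ((p : S[X]) * X + (j : S[X])) * nf p j X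
      = (p : S[X]) * X * (∑ j ∈ range p, C Xv ^ j * P.comp ((p : S[X]) * X + (j : S[X]))
          * nf p j X)
        + ∑ j ∈ range p, (j : S[X]) * (C Xv ^ j * P.comp ((p : S[X]) * X + (j : S[X]))
          * nf p j X) := by
    rw [mul_sum, ← sum_add_distrib]
    refine sum_congr rfl fun j _ => ?_
    rw [mul_comp, X_comp]; ring
  have hsum' : dm θ (∑ j ∈ range p, C Xv ^ j * P.comp ((p : S[X]) * X + (j : S[X])) * nf p j X)
      = C ξ * ∑ j ∈ range p, (j : S[X]) * (C Xv ^ j * P.comp ((p : S[X]) * X + (j : S[X]))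
        * nf p j X) := by
    rw [hsum, mul_sum]
    refine sum_congr rfl fun j _ => ?_
    ring
  unfold gh
  rw [hXP, Derivation.leibniz, Derivation.leibniz, hA, hsum']
  set s1 := ∑ j ∈ range p, C Xv ^ j * P.comp ((p : S[X]) * X + (j : S[X])) * nf p j X with hs1
  set s2 := ∑ j ∈ range p, (j : S[X]) * (C Xv ^ j * P.comp ((p : S[X]) * X + (j : S[X]))
        * nf p j X) with hs2
  refine ⟨A * s1 * r, ?_⟩
  simp only [smul_eq_mul, mul_zero, add_zero]
  have hC : (C ((p : S) * ξ - ζ) : S[X]) = (p : S[X]) * C ξ - C ζ := by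
    rw [C_sub, C_mul]; simp
  rw [hC] at hr
  linear_combination A * s1 * hr

end der

end FF1001
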