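import Pool.Agent.W_ff1001_h94.HC

/-! Division by the telescoping operator. -/

namespace FF1001

open Finset Polynomial

theorem red_Mn_succ (k : ℕ) : (k + 1) ^ 3 * Mn (k + 1) = Rf k * Mn k := by
  have h1 := Nat.succ_mul_centralBinom_succ (2 * k + 1)
  have h2 := Nat.succ_mul_centralBinom_succ (2 * k)
  have h3 := Nat.succ_mul_centralBinom_succ k
  have e : 2 * (k + 1) = 2 * k + 1 + 1 := by ring
  unfold Mn Rf
  rw [e]
  set A := Nat.centralBinom (2 * k + 1 + 1)
  set B := Nat.centralBinom (2 * k + 1)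
  set D := Nat.centralBinom (2 * k)
  set E := Nat.centralBinom (k + 1)
  set G := Nat.centralBinom k
  have hpos : 0 < 2 * (2 * k + 1) := by positivity
  apply Nat.eq_of_mul_eq_mul_left hpos
  zify at h1 h2 h3 ⊢
  have h4 : ((k : ℤ) + 1) ^ 2 * (E : ℤ) ^ 2 = (2 * (2 * k + 1) * G) ^ 2 := by
    rw [← h3]; ring
  have h5 : (2 * (k : ℤ) + 1 + 1) * (2 * k + 1) * A = 4 * (4 * k + 3) * (4 * k + 1) * D := by
    calc (2 * (k : ℤ) + 1 + 1) * (2 * k + 1) * A = (2 * k + 1) * ((2 * k + 1 + 1) * A) := by ring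
      _ = 2 * (2 * (2 * k + 1) + 1) * ((2 * k + 1) * B) := by rw [h1]; ring
      _ = _ := by rw [h2]; ring
  calc 2 * (2 * (k : ℤ) + 1) * (((k : ℤ) + 1) ^ 3 * (A * E ^ 2))
      = ((2 * (k : ℤ) + 1 + 1) * (2 * k + 1) * A) * (((k : ℤ) + 1) ^ 2 * E ^ 2) := by ring
    _ = _ := by rw [h4, h5]; ring

section
variable {S : Type*} [CommRing S]

theorem red_Rf_X_eq : (Rf X : S[X]) = 256 * X ^ 3 + 384 * X ^ 2 + 176 * X + 24 := by
  unfold Rf
  ring

theorem red_tau_add (Z : S) (p q : S[X]) : tau Z (p + q) = tau Z p + tau Z q := by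
  unfold tau
  rw [add_comp]
  ring

theorem red_tau_zero (Z : S) : tau Z (0 : S[X]) = 0 := by
  unfold tau
  simp

theorem red_tau_C_mul (Z c : S) (q : S[X]) : tau Z (C c * q) = C c * tau Z q := by
  unfold tau
  rw [mul_comp, C_comp]
  ring

theorem red_tau_sub (Z : S) (p q : S[X]) : tau Z (p - q) = tau Z p - tau Z q := by
  unfold tau
  rw [sub_comp]
  ring

theorem red_Rf_X_natDegree : (Rf X : S[X]).natDegree ≤ 3 := by
  rw [red_Rf_X_eq]
  compute_degree

theorem red_Rf_X_coeff : (Rf X : S[X]).coeff 3 = 256 := by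
  rw [red_Rf_X_eq]
  compute_degree!

theorem red_comp_top (q : S[X]) {n : ℕ} (hq : q.natDegree ≤ n) :
    (q.comp (X + 1)).natDegree ≤ n ∧ (q.comp (X + 1)).coeff n = q.coeff n := by
  have e : q.comp (X + 1) = taylor 1 q := by
    rw [taylor_apply, C_1]
  have h1 : (taylor 1 q).natDegree = q.natDegree := natDegree_taylor q 1
  rw [e]
  refine ⟨h1.le.trans hq, ?_⟩
  rcases hq.lt_or_eq with h | h
  · rw [coeff_eq_zero_of_natDegree_lt (h1.le.trans_lt h), coeff_eq_zero_of_natDegree_lt h]
  · have h2 := coeff_taylor_natDegree (1 : S) q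
    rw [← h, h2]
    rfl

theorem red_tau_top (Z : S) (q : S[X]) {n : ℕ} (hq : q.natDegree ≤ n) :
    (tau Z q).natDegree ≤ n + 3 ∧ (tau Z q).coeff (n + 3) = (1 - 256 * Z) * q.coeff n := by
  obtain ⟨h1, h2⟩ := red_comp_top q hq
  have h3 : (Rf X * q.comp (X + 1)).natDegree ≤ n + 3 := by
    refine natDegree_mul_le.trans ?_
    rw [add_comm n 3]
    exact add_le_add red_Rf_X_natDegree h1
  have h4 : (Rf X * q.comp (X + 1)).coeff (n + 3) = 256 * q.coeff n := by
    rw [add_comm n 3, coeff_mul_add_eq_of_natDegree_le red_Rf_X_natDegree h1, red_Rf_X_coeff, h2]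
  have e : tau Z q = X ^ 3 * q - C Z * (Rf X * q.comp (X + 1)) := by
    unfold tau
    ring
  rw [e]
  constructor
  · refine (natDegree_sub_le _ _).trans (max_le ?_ ?_)
    · refine natDegree_mul_le.trans ?_
      rw [add_comm n 3]
      exact add_le_add (natDegree_X_pow_le 3) hq
    · exact (natDegree_C_mul_le _ _).trans h3
  · rw [coeff_sub, coeff_C_mul, h4, mul_comm (X ^ 3) q, coeff_mul_X_pow]
    ring

theorem red_qd_natDegree (a : Fin 3 → S) : (qd a).natDegree ≤ 2 := by
  unfold qd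
  compute_degree

theorem red_qd_coeff (a : Fin 3 → S) (i : Fin 3) : (qd a).coeff i = a i := by
  unfold qd
  fin_cases i
  · simp
  · simp
  · simp

theorem red_exists (Z iz : S) (h : iz * (1 - 256 * Z) = 1) (g : S[X]) :
    ∃ (a : Fin 3 → S) (q : S[X]), g = qd a + tau Z q := by
  have key : ∀ n : ℕ, ∀ g : S[X], g.natDegree ≤ n + 2 →
      ∃ (a : Fin 3 → S) (q : S[X]), g = qd a + tau Z q := by
    intro n
    induction n with
    | zero =>
      intro g hg
      refine ⟨fun i => g.coeff i, 0, ?_⟩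
      rw [red_tau_zero, add_zero]
      ext N
      by_cases hN : N < 3
      · exact (red_qd_coeff (fun i : Fin 3 => g.coeff i) ⟨N, hN⟩).symm
      · rw [coeff_eq_zero_of_natDegree_lt (by omega),
          coeff_eq_zero_of_natDegree_lt (lt_of_le_of_lt (red_qd_natDegree _) (by omega))]
    | succ n ih =>
      intro g hg
      have hq0 : (C (iz * g.coeff (n + 3)) * X ^ n : S[X]).natDegree ≤ n :=
        natDegree_C_mul_X_pow_le _ _
      obtain ⟨t1, t2⟩ := red_tau_top Z _ hq0
      have hc : (C (iz * g.coeff (n + 3)) * X ^ n : S[X]).coeff n = iz * g.coeff (n + 3) := by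
        rw [coeff_C_mul, coeff_X_pow, if_pos rfl, mul_one]
      rw [hc] at t2
      obtain ⟨a, q, hq⟩ := ih (g - tau Z (C (iz * g.coeff (n + 3)) * X ^ n)) (by
        rw [natDegree_le_iff_coeff_eq_zero]
        intro N hN
        rw [coeff_sub]
        rcases Nat.lt_or_ge (n + 3) N with h' | h'
        · rw [coeff_eq_zero_of_natDegree_lt (lt_of_le_of_lt hg (by omega)),
            coeff_eq_zero_of_natDegree_lt (lt_of_le_of_lt t1 h'), sub_zero]
        · have hN' : N = n + 3 := by omega
          subst hN'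
          rw [t2]
          linear_combination (-g.coeff (n + 3)) * h)
      refine ⟨a, q + C (iz * g.coeff (n + 3)) * X ^ n, ?_⟩
      rw [red_tau_add, ← add_assoc, ← hq]
      ring
  exact key g.natDegree g (by omega)

theorem red_unique (Z iz : S) (h : iz * (1 - 256 * Z) = 1) (d : S) (a : Fin 3 → S)
    (q : S[X]) (hd : C d ∣ qd a + tau Z q) : (∀ i, d ∣ a i) ∧ C d ∣ q := by
  have key : ∀ n : ℕ, ∀ q : S[X], (∀ N, n ≤ N → q.coeff N = 0) → C d ∣ qd a + tau Z q →
      (∀ i, d ∣ a i) ∧ C d ∣ q := by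
    intro n
    induction n with
    | zero =>
      intro q hq hd
      have hq0 : q = 0 := by
        ext N
        rw [hq N (Nat.zero_le N), coeff_zero]
      rw [hq0, red_tau_zero, add_zero] at hd
      refine ⟨fun i => ?_, hq0 ▸ dvd_zero _⟩
      rw [← red_qd_coeff a i]
      exact (C_dvd_iff_dvd_coeff d (qd a)).1 hd i
    | succ n ih =>
      intro q hq hd
      have hdeg : q.natDegree ≤ n := by
        rw [natDegree_le_iff_coeff_eq_zero]
        intro N hN
        exact hq N hN
      obtain ⟨-, t2⟩ := red_tau_top Z q hdeg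
      have h1 := (C_dvd_iff_dvd_coeff d _).1 hd (n + 3)
      rw [coeff_add, coeff_eq_zero_of_natDegree_lt (lt_of_le_of_lt (red_qd_natDegree a) (by omega)),
        zero_add, t2] at h1
      have h2 : d ∣ q.coeff n := by
        have h3 : q.coeff n = iz * ((1 - 256 * Z) * q.coeff n) := by
          linear_combination (-q.coeff n) * h
        rw [h3]
        exact h1.mul_left iz
      have hm : C d ∣ C (q.coeff n) * X ^ n := (map_dvd C h2).mul_right _
      have htm : C d ∣ tau Z (C (q.coeff n) * X ^ n) := by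
        rw [red_tau_C_mul]
        exact (map_dvd C h2).mul_right _
      obtain ⟨g1, g2⟩ := ih (q - C (q.coeff n) * X ^ n) (by
        intro N hN
        rw [coeff_sub, coeff_C_mul, coeff_X_pow]
        rcases Nat.lt_or_ge n N with h' | h'
        · rw [hq N h', if_neg (by omega), mul_zero, sub_zero]
        · have hN' : N = n := by omega
          subst hN'
          rw [if_pos rfl, mul_one, sub_self]) (by
        rw [red_tau_sub, ← add_sub_assoc]
        exact dvd_sub hd htm)
      refine ⟨g1, ?_⟩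
      have h5 := dvd_add g2 hm
      rwa [sub_add_cancel] at h5
  refine key (q.natDegree + 1) q (fun N hN => coeff_eq_zero_of_natDegree_lt (by omega)) hd

theorem tau_sum (Z : S) (q : S[X]) (n : ℕ) :
    ∑ m ∈ range n, (Mn m : S) * Z ^ m * (tau Z q).eval (m : S)
      = - ((n : S) ^ 3 * (Mn n : S) * Z ^ n * q.eval (n : S)) := by
  induction n with
  | zero => simp
  | succ n ih =>
    rw [Finset.sum_range_succ, ih]
    have h1 : ((n : S) + 1) ^ 3 * (Mn (n + 1) : S) = Rf (n : S) * (Mn n : S) := by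
      have h := congrArg (Nat.cast : ℕ → S) (red_Mn_succ n)
      unfold Rf at h ⊢
      push_cast at h
      exact h
    have h2 : (tau Z q).eval (n : S) = (n : S) ^ 3 * q.eval (n : S) -
        Z * Rf (n : S) * q.eval ((n : S) + 1) := by
      unfold tau Rf
      simp [eval_comp]
    rw [h2]
    push_cast
    have h3 : ((n : S) + 1) ^ 3 * (Mn (n + 1) : S) * Z ^ (n + 1) * q.eval ((n : S) + 1) =
        Rf (n : S) * (Mn n : S) * Z ^ (n + 1) * q.eval ((n : S) + 1) := by rw [h1]
    rw [h3]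
    ring

theorem qd_map {S' : Type*} [CommRing S'] (φ : S →+* S') (a : Fin 3 → S) :
    (qd a).map φ = qd (fun i => φ (a i)) := by
  simp [qd]

theorem tau_map {S' : Type*} [CommRing S'] (φ : S →+* S') (Z : S) (q : S[X]) :
    (tau Z q).map φ = tau (φ Z) (q.map φ) := by
  simp [tau, Rf, map_comp]

variable {R : Type*} [CommRing R] [Algebra R S]

theorem red_dm_Rf_X (θ : Derivation R S S) : dm θ (Rf X : S[X]) = 0 := by
  rw [red_Rf_X_eq]
  simp [Derivation.leibniz, Derivation.leibniz_pow]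

theorem D_tau (θ : Derivation R S S) (Z ζ : S) (hZ : θ Z = ζ * Z) (q : S[X]) :
    dm θ (tau Z q) + C ζ * X * tau Z q = tau Z (dm θ q + C ζ * X * q) := by
  have h1 : dm θ (q.comp (X + 1)) = (dm θ q).comp (X + 1) := dm_comp θ q _ (by simp)
  have h2 : dm θ (tau Z q) = X ^ 3 * dm θ q - (C (ζ * Z) * Rf X * q.comp (X + 1) +
      C Z * Rf X * (dm θ q).comp (X + 1)) := by
    unfold tau
    rw [map_sub, Derivation.leibniz, Derivation.leibniz, Derivation.leibniz, red_dm_Rf_X, h1, dm_C, hZ,
      Derivation.leibniz_pow, dm_X]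
    simp only [smul_eq_mul, smul_zero, mul_zero, add_zero, zero_add]
    ring
  rw [h2]
  unfold tau
  rw [add_comp, mul_comp, mul_comp, C_comp, X_comp, C_mul]
  ring

theorem D_qd (θ : Derivation R S S) (Z iz ζ : S) (h : iz * (1 - 256 * Z) = 1)
    (a : Fin 3 → S) :
    dm θ (qd a) + C ζ * X * qd a
      = qd (fun i => θ (a i) + ζ * (Matrix.vecMul a (Nmat Z iz)) i)
        + tau Z (C (ζ * a 2 * iz)) := by
  have hC : (C iz : S[X]) * (1 - 256 * C Z) = 1 := by
    have h' := congrArg (C : S → S[X]) h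
    simp only [map_mul, map_sub, map_one, map_ofNat] at h'
    exact h'
  have e0 : Matrix.vecMul a (Nmat Z iz) 0 = a 2 * (24 * (Z * iz)) := by
    simp [Matrix.vecMul, dotProduct, Fin.sum_univ_three, Nmat]
  have e1 : Matrix.vecMul a (Nmat Z iz) 1 = a 0 + a 2 * (176 * (Z * iz)) := by
    simp [Matrix.vecMul, dotProduct, Fin.sum_univ_three, Nmat]
  have e2 : Matrix.vecMul a (Nmat Z iz) 2 = a 1 + a 2 * (384 * (Z * iz)) := by
    simp [Matrix.vecMul, dotProduct, Fin.sum_univ_three, Nmat]
  have h2 : dm θ (qd a) = C (θ (a 0)) + C (θ (a 1)) * X + C (θ (a 2)) * X ^ 2 := by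
    unfold qd
    simp only [map_add, Derivation.leibniz, Derivation.leibniz_pow, dm_C, dm_X, smul_zero, zero_add,
      smul_eq_mul, mul_zero]
    ring
  rw [h2]
  unfold qd tau
  rw [C_comp]
  simp only [e0, e1, e2, red_Rf_X_eq, map_add, map_mul, map_ofNat]
  linear_combination (-(C ζ * C (a 2) * X ^ 3)) * hC

end

end FF1001
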