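import Pool.Agent.W_ff1001_h94.Dwork
import Pool.Agent.W_ff1001_h94.Red

/-! Values of `gh` at natural numbers and the truncated sums. -/

namespace FF1001

open Finset Polynomial

variable {S : Type*} [CommRing S]

theorem nf_eval (p j : ℕ) (x : S) : (nf p j (X : S[X])).eval x = nf p j x := by
  unfold nf
  rw [eval_mul, eval_pow, eval_prod, eval_prod]
  congr 1
  · refine prod_congr rfl fun i _ => ?_
    simp
  · congr 1
    refine prod_congr rfl fun i _ => ?_
    simp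

theorem nf_natCast (p j m : ℕ) : nf p j (m : S) = ((nf p j m : ℕ) : S) := by
  unfold nf
  push_cast
  rfl

theorem gh_eval (p : ℕ) (hp : 0 < p) (d : S) (A E P : S[X]) (Xv Z v : S) (m : ℕ)
    (hA : d ∣ A.eval (m : S) * (Gm p (m + 1) : S) ^ 4 - (Gm p (4 * m) : S))
    (hG : IsUnit (Gm p (m + 1) : S))
    (hE : d ∣ E.eval (m : S) - (1 + (p : S) * v) ^ m)
    (hZ : Xv ^ p = Z * (1 + (p : S) * v)) :
    d ∣ (Mn m : S) * Z ^ m * (gh p (A * E) Xv P).eval (m : S)
      - ∑ j ∈ range p, P.eval ((p : S) * (m : S) + (j : S)) * (Mn (p * m + j) : S)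
        * Xv ^ (p * m + j) := by
  obtain ⟨r1, h1⟩ := hA
  obtain ⟨r2, h2⟩ := hE
  have hval : (gh p (A * E) Xv P).eval (m : S)
      = A.eval (m : S) * E.eval (m : S) * ∑ j ∈ range p, Xv ^ j
        * P.eval ((p : S) * (m : S) + (j : S)) * nf p j (m : S) := by
    unfold gh
    rw [eval_mul, eval_mul, eval_finset_sum]
    congr 1
    refine sum_congr rfl fun j _ => ?_
    rw [eval_mul, eval_mul, nf_eval, eval_comp]
    simp
  have hg : IsUnit ((Gm p (m + 1) : S) ^ 4) := hG.pow 4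
  rw [← hg.dvd_mul_left]
  rw [hval, mul_sub, mul_sum, mul_sum, mul_sum, mul_sum, ← sum_sub_distrib]
  refine dvd_sum fun j hj => ?_
  have hj' : j < p := mem_range.mp hj
  have hM : (Mn (p * m + j) : S) * (Gm p (m + 1) : S) ^ 4
      = (Mn m : S) * (Gm p (4 * m) : S) * nf p j (m : S) := by
    rw [nf_natCast]
    have := Mn_split p hp m j hj'
    exact_mod_cast congrArg (Nat.cast (R := S)) this
  have hX : Xv ^ (p * m + j) = Z ^ m * (1 + (p : S) * v) ^ m * Xv ^ j := by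
    rw [pow_add, pow_mul, hZ, mul_pow]
  rw [hX]
  refine ⟨(Mn m : S) * Z ^ m * Xv ^ j * P.eval ((p : S) * (m : S) + (j : S)) * nf p j (m : S)
    * (r1 * E.eval (m : S) + (Gm p (4 * m) : S) * r2), ?_⟩
  linear_combination (Mn m : S) * Z ^ m * Xv ^ j * P.eval ((p : S) * (m : S) + (j : S))
      * nf p j (m : S) * E.eval (m : S) * h1
    + (Mn m : S) * Z ^ m * Xv ^ j * P.eval ((p : S) * (m : S) + (j : S)) * nf p j (m : S)
      * (Gm p (4 * m) : S) * h2
    - P.eval ((p : S) * (m : S) + (j : S)) * Z ^ m * (1 + (p : S) * v) ^ m * Xv ^ j * hM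

theorem sum_range_mul (p n : ℕ) (f : ℕ → S) :
    ∑ k ∈ range (p * n), f k = ∑ m ∈ range n, ∑ j ∈ range p, f (p * m + j) := by
  induction n with
  | zero => simp
  | succ n ih => rw [Nat.mul_succ, sum_range_add, ih, sum_range_succ]

/-- the truncated sums -/
theorem gh_sum (p : ℕ) (hp : 0 < p) (d : S) (A E P : S[X]) (Xv Z v : S)
    (hA : ∀ m : ℕ, d ∣ A.eval (m : S) * (Gm p (m + 1) : S) ^ 4 - (Gm p (4 * m) : S))
    (hG : ∀ m : ℕ, IsUnit (Gm p m : S))
    (hE : ∀ m : ℕ, d ∣ E.eval (m : S) - (1 + (p : S) * v) ^ m)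
    (hZ : Xv ^ p = Z * (1 + (p : S) * v)) (a : Fin 3 → S) (q : S[X])
    (hg : gh p (A * E) Xv P = qd a + tau Z q) (n : ℕ) :
    d ∣ (∑ k ∈ range (p * n), P.eval (k : S) * (Mn k : S) * Xv ^ k)
      - (∑ m ∈ range n, (a 0 + a 1 * (m : S) + a 2 * (m : S) ^ 2) * (Mn m : S) * Z ^ m)
      + (n : S) ^ 3 * (Mn n : S) * Z ^ n * q.eval (n : S) := by
  have h1 : d ∣ ∑ m ∈ range n, ((Mn m : S) * Z ^ m * (gh p (A * E) Xv P).eval (m : S)
      - ∑ j ∈ range p, P.eval ((p : S) * (m : S) + (j : S)) * (Mn (p * m + j) : S)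
        * Xv ^ (p * m + j)) :=
    dvd_sum fun m _ => gh_eval p hp d A E P Xv Z v m (hA m) (hG _) (hE m) hZ
  have h2 := tau_sum Z q n
  have h3 : ∑ m ∈ range n, (Mn m : S) * Z ^ m * (gh p (A * E) Xv P).eval (m : S)
      = (∑ m ∈ range n, (a 0 + a 1 * (m : S) + a 2 * (m : S) ^ 2) * (Mn m : S) * Z ^ m)
        - (n : S) ^ 3 * (Mn n : S) * Z ^ n * q.eval (n : S) := by
    rw [sub_eq_add_neg, ← h2, ← sum_add_distrib]
    refine sum_congr rfl fun m _ => ?_
    rw [hg, eval_add]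
    have : (qd a).eval (m : S) = a 0 + a 1 * (m : S) + a 2 * (m : S) ^ 2 := by
      unfold qd; simp
    rw [this]; ring
  have h4 : ∑ k ∈ range (p * n), P.eval (k : S) * (Mn k : S) * Xv ^ k
      = ∑ m ∈ range n, ∑ j ∈ range p, P.eval ((p : S) * (m : S) + (j : S))
        * (Mn (p * m + j) : S) * Xv ^ (p * m + j) := by
    rw [sum_range_mul p n (fun k => P.eval (k : S) * (Mn k : S) * Xv ^ k)]
    refine sum_congr rfl fun m _ => sum_congr rfl fun j _ => ?_
    push_cast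
    rfl
  rw [sum_sub_distrib, h3, ← h4] at h1
  have h5 := (dvd_neg (α := S)).mpr h1
  convert h5 using 1
  ring

/-! ### weights -/

/-- coefficient of `x^i` divisible by `p^min(i,3)` -/
def wt (p : ℕ) (f : S[X]) : Prop := ∀ i : ℕ, (p : S) ^ (min i 3) ∣ f.coeff i

theorem wt_add {p : ℕ} {f g : S[X]} (hf : wt p f) (hg : wt p g) : wt p (f + g) := by
  intro i
  rw [coeff_add]
  exact dvd_add (hf i) (hg i)

theorem wt_sum {p : ℕ} {ι : Type*} (s : Finset ι) (f : ι → S[X]) (h : ∀ i ∈ s, wt p (f i)) :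
    wt p (∑ i ∈ s, f i) := by
  intro i
  rw [finset_sum_coeff]
  exact dvd_sum fun j hj => h j hj i

theorem wt_mul {p : ℕ} {f g : S[X]} (hf : wt p f) (hg : wt p g) : wt p (f * g) := by
  intro i
  rw [coeff_mul]
  refine dvd_sum fun x hx => ?_
  have hx' : x.1 + x.2 = i := mem_antidiagonal.mp hx
  have h1 : (p : S) ^ (min x.1 3 + min x.2 3) ∣ f.coeff x.1 * g.coeff x.2 := by
    rw [pow_add]
    exact mul_dvd_mul (hf _) (hg _)
  refine dvd_trans (pow_dvd_pow _ ?_) h1
  omega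

theorem wt_C {p : ℕ} (a : S) : wt p (C a) := by
  intro i
  rcases i with _ | i
  · simp
  · simp [coeff_C]

theorem wt_one {p : ℕ} : wt p (1 : S[X]) := by
  rw [← C_1]; exact wt_C 1

theorem wt_prod {p : ℕ} {ι : Type*} (s : Finset ι) (f : ι → S[X]) (h : ∀ i ∈ s, wt p (f i)) :
    wt p (∏ i ∈ s, f i) := by
  classical
  induction s using Finset.induction_on with
  | empty => simpa using wt_one
  | insert a s ha ih =>
    rw [prod_insert ha]
    exact wt_mul (h a (mem_insert_self _ _)) (ih fun i hi => h i (mem_insert_of_mem hi))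

theorem wt_pow {p : ℕ} {f : S[X]} (hf : wt p f) (n : ℕ) : wt p (f ^ n) := by
  induction n with
  | zero => simpa using wt_one
  | succ n ih => rw [pow_succ]; exact wt_mul ih hf

theorem wt_natCast {p : ℕ} (n : ℕ) : wt p (n : S[X]) := by
  rw [← C_eq_natCast]; exact wt_C _

theorem wt_pX {p : ℕ} : wt p ((p : S[X]) * X) := by
  intro i
  rw [← C_eq_natCast, coeff_C_mul, coeff_X]
  split_ifs with h
  · subst h; simp
  · simp

theorem wt_nf (p j : ℕ) : wt p (nf p j (X : S[X])) := by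
  unfold nf
  refine wt_mul (wt_prod _ _ fun i _ => ?_) (wt_pow (wt_prod _ _ fun i _ => ?_) 4)
  · have h4 : wt p (4 : S[X]) := by simpa using wt_natCast (S := S) (p := p) 4
    refine wt_add ?_ (wt_add (wt_natCast i) wt_one)
    rw [mul_assoc]
    exact wt_mul h4 wt_pX
  · exact wt_add wt_pX (wt_natCast i)

theorem wt_gh (p : ℕ) (G : S[X]) (hG : wt p G) (Xv : S) (P : S[X]) : wt p (gh p G Xv P) := by
  unfold gh
  refine wt_mul hG (wt_sum _ _ fun j _ => ?_)
  refine wt_mul (wt_mul (wt_pow (wt_C _) j) ?_) (wt_nf p j)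
  rw [comp_eq_sum_left]
  unfold Polynomial.sum
  refine wt_sum _ _ fun i _ => ?_
  exact wt_mul (wt_C _) (wt_pow (wt_add wt_pX (wt_natCast j)) i)

/-- remainder and quotient of a polynomial of weight `wt` -/
theorem wt_red (p : ℕ) (Z iz : S) (h : iz * (1 - 256 * Z) = 1) (g : S[X]) (hg : wt p g)
    (a : Fin 3 → S) (q : S[X]) (hq : g = qd a + tau Z q) :
    (∀ i : Fin 3, (p : S) ^ (i : ℕ) ∣ a i) ∧ C ((p : S) ^ 3) ∣ q := by
  have hd : C ((p : S) ^ 3) ∣ qd (fun i : Fin 3 => a i - g.coeff i) + tau Z q := by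
    have h1 : qd (fun i : Fin 3 => a i - g.coeff i) + tau Z q
        = g - (C (g.coeff 0) + C (g.coeff 1) * X + C (g.coeff 2) * X ^ 2) := by
      rw [hq]; unfold qd
      simp only [C_sub]
      simp
      ring
    rw [h1, C_dvd_iff_dvd_coeff]
    intro i
    rcases i with _ | _ | _ | i
    · simp [coeff_X, coeff_C]
    · simp [coeff_X, coeff_C, coeff_X_pow]
    · simp [coeff_X, coeff_C, coeff_X_pow]
    · have h2 := hg (i + 3)
      rw [show min (i + 3) 3 = 3 by omega] at h2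
      have h3 : (g - (C (g.coeff 0) + C (g.coeff 1) * X + C (g.coeff 2) * X ^ 2)).coeff (i + 3)
          = g.coeff (i + 3) := by
        simp [coeff_X, coeff_C, coeff_X_pow]
      rw [h3]; exact h2
  obtain ⟨h1, h2⟩ := red_unique Z iz h _ _ q hd
  refine ⟨fun i => ?_, h2⟩
  have h3 := h1 i
  have h4 := hg (i : ℕ)
  have hi : min (i : ℕ) 3 = i := by omega
  rw [hi] at h4
  have h5 : (p : S) ^ (i : ℕ) ∣ a i - g.coeff i := dvd_trans (pow_dvd_pow _ (by omega)) h3
  have := dvd_add h5 h4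
  simpa using this

end FF1001
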