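import Pool.Agent.W_ff1001_h94.HC

/-! The truncated exponential `(1+pv)^x`. -/

namespace FF1001

open Finset Polynomial

theorem expo_c (p : ℕ) [Fact p.Prime] (hp : 5 ≤ p) (j : ℕ) :
    ∃ (v : ℕ) (c : ℤ_[p]), (j.factorial : ℤ_[p]) * c = (p : ℤ_[p]) ^ j ∧ 4 * v ≤ j - 1 ∧
      (p : ℤ_[p]) ^ (j - v) ∣ c := by
  have hpp : p.Prime := Fact.out
  obtain ⟨v, m, hm, hj⟩ := Nat.exists_eq_pow_mul_and_not_dvd (Nat.factorial_ne_zero j) p
    hpp.ne_one
  have hm0 : m ≠ 0 := by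
    rintro rfl
    exact hm (dvd_zero p)
  have hv : padicValNat p j.factorial = v := by
    rw [hj, padicValNat.mul (pow_ne_zero _ hpp.ne_zero) hm0, padicValNat.prime_pow,
      padicValNat.eq_zero_of_not_dvd hm, add_zero]
  have h4 : 4 * v ≤ j - 1 := by
    rcases Nat.eq_zero_or_pos j with h0 | h0
    · subst h0
      have : v = 0 := by
        rw [← hv]
        simp
      omega
    · have h1 := sub_one_mul_padicValNat_factorial_lt_of_ne_zero p (n := j) h0.ne'
      rw [hv] at h1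
      have h2 : 4 * v ≤ (p - 1) * v := Nat.mul_le_mul_right v (by omega)
      omega
  have hu : IsUnit (m : ℤ_[p]) := by
    rw [PadicInt.isUnit_iff, PadicInt.norm_natCast_eq_one_iff]
    exact (Nat.Prime.coprime_iff_not_dvd hpp).2 hm
  obtain ⟨u, hu⟩ := hu
  refine ⟨v, (p : ℤ_[p]) ^ (j - v) * ((u⁻¹ : ℤ_[p]ˣ) : ℤ_[p]), ?_, h4, dvd_mul_right _ _⟩
  have h5 : (j.factorial : ℤ_[p]) = (p : ℤ_[p]) ^ v * (u : ℤ_[p]) := by
    rw [hu, hj]
    push_cast
    rfl
  rw [h5]
  calc (p : ℤ_[p]) ^ v * (u : ℤ_[p]) * ((p : ℤ_[p]) ^ (j - v) * ((u⁻¹ : ℤ_[p]ˣ) : ℤ_[p]))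
      = (p : ℤ_[p]) ^ v * (p : ℤ_[p]) ^ (j - v) * ((u : ℤ_[p]) * ((u⁻¹ : ℤ_[p]ˣ) : ℤ_[p])) := by
        ring
    _ = (p : ℤ_[p]) ^ j := by
        rw [Units.mul_inv, mul_one, ← pow_add]
        congr 1
        omega

theorem beta_exists (p : ℕ) [Fact p.Prime] (hp : 5 ≤ p) :
    ∃ β : ℕ → ℤ_[p][X],
      (∀ j : ℕ, (j.factorial : ℤ_[p][X]) * β j = (p : ℤ_[p][X]) ^ j * descPochhammer ℤ_[p] j) ∧
      (∀ s j : ℕ, 2 * s ≤ j → (p : ℤ_[p][X]) ^ s ∣ β j) ∧
      (∀ i j : ℕ, (p : ℤ_[p]) ^ (min i 3) ∣ (β j).coeff i) := by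
  choose v c h1 h2 h3 using expo_c p hp
  refine ⟨fun j => C (c j) * descPochhammer ℤ_[p] j, ?_, ?_, ?_⟩
  · intro j
    rw [← mul_assoc, ← C_eq_natCast, ← C_eq_natCast, ← C_mul, ← C_pow, h1 j]
  · intro s j hs
    have h4 : (p : ℤ_[p]) ^ s ∣ c j := by
      refine (pow_dvd_pow _ ?_).trans (h3 j)
      have := h2 j
      omega
    obtain ⟨d, hd⟩ := h4
    refine ⟨C d * descPochhammer ℤ_[p] j, ?_⟩
    show C (c j) * descPochhammer ℤ_[p] j = _
    rw [hd, C_mul, C_pow, C_eq_natCast, mul_assoc]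
  · intro i j
    rw [coeff_C_mul]
    by_cases hij : i ≤ j
    · refine Dvd.dvd.mul_right ((pow_dvd_pow _ ?_).trans (h3 j)) _
      have := h2 j
      omega
    · rw [coeff_eq_zero_of_natDegree_lt, mul_zero]
      · exact dvd_zero _
      · rw [descPochhammer_natDegree]
        omega

section
variable {p : ℕ} [Fact p.Prime] (β : ℕ → ℤ_[p][X])
  (hβ : ∀ j : ℕ, (j.factorial : ℤ_[p][X]) * β j = (p : ℤ_[p][X]) ^ j * descPochhammer ℤ_[p] j)
  (hβ2 : ∀ s j : ℕ, 2 * s ≤ j → (p : ℤ_[p][X]) ^ s ∣ β j)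
  (hβ3 : ∀ i j : ℕ, (p : ℤ_[p]) ^ (min i 3) ∣ (β j).coeff i)
  {S : Type*} [CommRing S] [Algebra ℤ_[p] S]

theorem expo_fac_ne (j : ℕ) : (j.factorial : ℤ_[p][X]) ≠ 0 :=
  Nat.cast_ne_zero.2 (Nat.factorial_ne_zero j)

include hβ in
theorem expo_zero : β 0 = 1 := by
  have h := hβ 0
  rw [Nat.factorial_zero, Nat.cast_one, one_mul, pow_zero, one_mul, descPochhammer_zero] at h
  exact h

include hβ in
theorem expo_shift (j : ℕ) : (β (j + 1)).comp (X + 1) = β (j + 1) + (p : ℤ_[p][X]) * β j := by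
  apply mul_left_cancel₀ (expo_fac_ne (p := p) (j + 1))
  have h1 : (descPochhammer ℤ_[p] (j + 1)).comp (X + 1) =
      descPochhammer ℤ_[p] (j + 1) + ((j : ℤ_[p][X]) + 1) * descPochhammer ℤ_[p] j := by
    have h2 : (descPochhammer ℤ_[p] (j + 1)).comp (X + 1) = (X + 1) * descPochhammer ℤ_[p] j := by
      rw [descPochhammer_succ_left, mul_comp, X_comp, comp_assoc, sub_comp, X_comp, one_comp,
        add_sub_cancel_right, comp_X]
    rw [h2, descPochhammer_succ_right]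
    ring
  have h3 : ((j + 1).factorial : ℤ_[p][X]) * (β (j + 1)).comp (X + 1) =
      (p : ℤ_[p][X]) ^ (j + 1) * (descPochhammer ℤ_[p] (j + 1)).comp (X + 1) := by
    have h4 := congrArg (fun q : ℤ_[p][X] => q.comp (X + 1)) (hβ (j + 1))
    simp only [mul_comp, pow_comp, natCast_comp] at h4
    exact h4
  rw [h3, h1]
  have h5 := hβ (j + 1)
  have h6 := hβ j
  rw [Nat.factorial_succ, Nat.cast_mul, Nat.cast_add, Nat.cast_one] at h5 ⊢
  linear_combination -h5 - (p : ℤ_[p][X]) * ((j : ℤ_[p][X]) + 1) * h6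

include hβ in
theorem expo_mulX (j : ℕ) : (p : ℤ_[p][X]) * X * β j =
    ((j : ℤ_[p][X]) + 1) * β (j + 1) + (p : ℤ_[p][X]) * (j : ℤ_[p][X]) * β j := by
  apply mul_left_cancel₀ (expo_fac_ne (p := p) j)
  have h5 := hβ (j + 1)
  have h6 := hβ j
  rw [Nat.factorial_succ, Nat.cast_mul, Nat.cast_add, Nat.cast_one, descPochhammer_succ_right]
    at h5
  linear_combination (p : ℤ_[p][X]) * X * h6 - h5 - (p : ℤ_[p][X]) * (j : ℤ_[p][X]) * h6

/-- the image of `β j` in `S[X]` -/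
noncomputable def expobS (S : Type*) [CommRing S] [Algebra ℤ_[p] S] (j : ℕ) : S[X] :=
  (β j).map (algebraMap ℤ_[p] S)

theorem expo_Ef (s : ℕ) (v : S) : Ef β s v = ∑ j ∈ range (2 * s), C (v ^ j) * expobS β S j := rfl

include hβ in
theorem expo_zeroS : expobS β S 0 = 1 := by
  unfold expobS
  rw [expo_zero β hβ, Polynomial.map_one]

include hβ in
theorem expo_shiftS (j : ℕ) :
    (expobS β S (j + 1)).comp (X + 1) = expobS β S (j + 1) + (p : S[X]) * expobS β S j := by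
  have h := congrArg (Polynomial.map (algebraMap ℤ_[p] S)) (expo_shift β hβ j)
  rw [map_comp, Polynomial.map_add, Polynomial.map_add, Polynomial.map_mul, map_X,
    Polynomial.map_one, Polynomial.map_natCast] at h
  exact h

include hβ in
theorem expo_mulXS (j : ℕ) : (p : S[X]) * X * expobS β S j =
    ((j : S[X]) + 1) * expobS β S (j + 1) + (p : S[X]) * (j : S[X]) * expobS β S j := by
  have h := congrArg (Polynomial.map (algebraMap ℤ_[p] S)) (expo_mulX β hβ j)
  simp only [Polynomial.map_add, Polynomial.map_mul, map_X,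
    Polynomial.map_one, Polynomial.map_natCast] at h
  exact h

include hβ2 in
theorem expo_dvdS {s j : ℕ} (h : 2 * s ≤ j) : (p : S[X]) ^ s ∣ expobS β S j := by
  obtain ⟨d, hd⟩ := hβ2 s j h
  refine ⟨d.map (algebraMap ℤ_[p] S), ?_⟩
  unfold expobS
  rw [hd, Polynomial.map_mul, Polynomial.map_pow, Polynomial.map_natCast]

include hβ hβ2 in
theorem Ef_comp (s : ℕ) (v : S) :
    (p : S[X]) ^ s ∣ (Ef β s v).comp (X + 1) - C (1 + (p : S) * v) * Ef β s v := by
  rcases s with _ | s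
  · rw [pow_zero]
    exact one_dvd _
  have key : ∀ n : ℕ, (∑ j ∈ range (n + 1), C (v ^ j) * expobS β S j).comp (X + 1) -
      C (1 + (p : S) * v) * (∑ j ∈ range (n + 1), C (v ^ j) * expobS β S j) =
      -((p : S[X]) * (C (v ^ (n + 1)) * expobS β S n)) := by
    intro n
    induction n with
    | zero =>
      simp only [zero_add, sum_range_one, pow_zero, pow_one, mul_comp, expo_zeroS β hβ,
        one_comp, C_add, C_mul, C_1, C_eq_natCast]
      ring
    | succ n ih =>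
      rw [sum_range_succ, add_comp, mul_comp, C_comp, expo_shiftS β hβ]
      have e1 : C (v ^ (n + 1 + 1)) = C v * (C (v ^ (n + 1)) : S[X]) := by
        rw [← C_mul, pow_succ' v (n + 1)]
      rw [e1]
      have e2 : (C (1 + (p : S) * v) : S[X]) = 1 + (p : S[X]) * C v := by
        rw [C_add, C_mul, C_1, C_eq_natCast]
      rw [e2] at ih ⊢
      linear_combination ih
  have h1 : 2 * (s + 1) = (2 * s + 1) + 1 := by ring
  rw [expo_Ef, h1, key (2 * s + 1), dvd_neg, pow_succ' (p : S[X]) s]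
  refine mul_dvd_mul_left _ ?_
  exact Dvd.dvd.mul_left (expo_dvdS β hβ2 (by omega)) _

include hβ hβ2 in
theorem Ef_der (s : ℕ) (v : S) (θ : Derivation ℤ_[p] S S) :
    (p : S[X]) ^ s ∣ C (1 + (p : S) * v) * dm θ (Ef β s v)
      - C ((p : S) * θ v) * X * Ef β s v := by
  have hd : ∀ j : ℕ, dm θ (C (v ^ j) * expobS β S j) = (j : S[X]) * C (v ^ (j - 1)) * C (θ v) * expobS β S j := by
    intro j
    rw [Derivation.leibniz, dm_C, Derivation.leibniz_pow]
    have h0 : dm θ (expobS β S j) = 0 := dm_map θ (β j)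
    rw [h0, smul_zero, zero_add, smul_eq_mul]
    simp only [nsmul_eq_mul, smul_eq_mul, C_mul, C_eq_natCast]
    ring
  have key : ∀ n : ℕ, C (1 + (p : S) * v) * dm θ (∑ j ∈ range n, C (v ^ j) * expobS β S j) -
      C ((p : S) * θ v) * X * (∑ j ∈ range n, C (v ^ j) * expobS β S j) =
      -((n : S[X]) * C (v ^ (n - 1)) * C (θ v) * expobS β S n) := by
    intro n
    induction n with
    | zero => simp
    | succ n ih =>
      rw [sum_range_succ, (dm θ).map_add, hd]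
      have e2 : (C (1 + (p : S) * v) : S[X]) = 1 + (p : S[X]) * C v := by
        rw [C_add, C_mul, C_1, C_eq_natCast]
      have e3 : (C ((p : S) * θ v) : S[X]) = (p : S[X]) * C (θ v) := by
        rw [C_mul, C_eq_natCast]
      have hm := expo_mulXS β hβ (S := S) n
      rw [Nat.add_sub_cancel, Nat.cast_add, Nat.cast_one]
      have e4 : (n : S[X]) * C (v ^ n) = (n : S[X]) * C (v ^ (n - 1)) * C v := by
        rcases n with _ | n
        · simp
        · rw [Nat.add_sub_cancel, mul_assoc, ← C_mul, pow_succ]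
      rw [e2, e3] at ih ⊢
      linear_combination ih - C (v ^ n) * C (θ v) * hm - (p : S[X]) * C (θ v) * expobS β S n * e4
  rw [expo_Ef, key (2 * s), dvd_neg]
  exact Dvd.dvd.mul_left (expo_dvdS β hβ2 le_rfl) _

include hβ in
theorem Ef_zero (s : ℕ) : (p : S[X]) ^ s ∣ Ef β s (0 : S) - 1 := by
  rcases s with _ | s
  · rw [pow_zero]
    exact one_dvd _
  have h1 : 2 * (s + 1) = (2 * s + 1) + 1 := by ring
  rw [expo_Ef, h1, sum_range_succ', expo_zeroS β hβ]
  have h2 : ∑ j ∈ range (2 * s + 1), C ((0 : S) ^ (j + 1)) * expobS β S (j + 1) = 0 := by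
    apply sum_eq_zero
    intro j _
    rw [zero_pow (Nat.succ_ne_zero j), C_0, zero_mul]
  rw [h2, pow_zero, C_1, zero_add, mul_one, sub_self]
  exact dvd_zero _

include hβ in
theorem expo_eval_zero (j : ℕ) : (expobS β S (j + 1)).eval 0 = 0 := by
  have h1 : (β (j + 1)).eval 0 = 0 := by
    have h2 := congrArg (fun q : ℤ_[p][X] => q.eval 0) (hβ (j + 1))
    simp only [eval_mul, eval_pow, eval_natCast] at h2
    rw [descPochhammer_ne_zero_eval_zero _ (Nat.succ_ne_zero j), mul_zero] at h2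
    rcases mul_eq_zero.1 h2 with h3 | h3
    · exact absurd h3 (Nat.cast_ne_zero.2 (Nat.factorial_ne_zero _))
    · exact h3
  unfold expobS
  have h4 : (0 : S) = algebraMap ℤ_[p] S 0 := (map_zero _).symm
  rw [h4, eval_map_algebraMap, aeval_algebraMap_apply, coe_aeval_eq_eval, h1]

include hβ hβ2 in
theorem Ef_eval (s m : ℕ) (v : S) :
    (p : S) ^ s ∣ (Ef β s v).eval (m : S) - (1 + (p : S) * v) ^ m := by
  induction m with
  | zero =>
    rcases s with _ | s
    · rw [pow_zero]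
      exact one_dvd _
    have h1 : 2 * (s + 1) = (2 * s + 1) + 1 := by ring
    rw [expo_Ef, h1, sum_range_succ', expo_zeroS β hβ, eval_add, Nat.cast_zero, eval_finsetSum]
    have h2 : ∑ j ∈ range (2 * s + 1), (C (v ^ (j + 1)) * expobS β S (j + 1)).eval 0 = 0 := by
      apply sum_eq_zero
      intro j _
      rw [eval_mul, expo_eval_zero β hβ, mul_zero]
    rw [h2]
    simp
  | succ m ih =>
    obtain ⟨d, hd⟩ := Ef_comp β hβ hβ2 s v
    obtain ⟨e, he⟩ := ih
    have h1 := congrArg (fun q : S[X] => q.eval (m : S)) hd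
    simp only [eval_sub, eval_mul, eval_comp, eval_add, eval_X, eval_one, eval_C, eval_pow,
      eval_natCast] at h1
    refine ⟨d.eval (m : S) + (1 + (p : S) * v) * e, ?_⟩
    rw [Nat.cast_add, Nat.cast_one]
    linear_combination h1 + (1 + (p : S) * v) * he

include hβ3 in
theorem Ef_wt (s i : ℕ) (v : S) : (p : S) ^ (min i 3) ∣ (Ef β s v).coeff i := by
  rw [expo_Ef, finsetSum_coeff]
  apply dvd_sum
  intro j _
  rw [coeff_C_mul]
  refine Dvd.dvd.mul_left ?_ _
  unfold expobS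
  rw [coeff_map]
  obtain ⟨d, hd⟩ := hβ3 i j
  refine ⟨algebraMap ℤ_[p] S d, ?_⟩
  rw [hd, map_mul, map_pow, map_natCast]

include hβ2 in
theorem Ef_coh (s : ℕ) (v : S) : (p : S[X]) ^ s ∣ Ef β (s + 1) v - Ef β s v := by
  have h1 : 2 * (s + 1) = (2 * s + 1) + 1 := by ring
  rw [expo_Ef, expo_Ef, h1, sum_range_succ, sum_range_succ]
  have h2 : ∑ j ∈ range (2 * s), C (v ^ j) * expobS β S j + C (v ^ (2 * s)) * expobS β S (2 * s) +
      C (v ^ (2 * s + 1)) * expobS β S (2 * s + 1) - ∑ j ∈ range (2 * s), C (v ^ j) * expobS β S j =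
      C (v ^ (2 * s)) * expobS β S (2 * s) + C (v ^ (2 * s + 1)) * expobS β S (2 * s + 1) := by ring
  rw [h2]
  exact dvd_add (Dvd.dvd.mul_left (expo_dvdS β hβ2 le_rfl) _)
    (Dvd.dvd.mul_left (expo_dvdS β hβ2 (by omega)) _)

theorem Ef_map {S' : Type*} [CommRing S'] [Algebra ℤ_[p] S'] (φ : S →ₐ[ℤ_[p]] S')
    (s : ℕ) (v : S) : (Ef β s v).map (φ : S →+* S') = Ef β s (φ v) := by
  unfold Ef
  rw [Polynomial.map_sum]
  apply sum_congr rfl
  intro j _
  rw [Polynomial.map_mul, map_C, Polynomial.map_map]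
  congr 2
  · simp
  · exact AlgHom.comp_algebraMap φ

end

end FF1001
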