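import Pool.Agent.W_ff1001_h94.Core7
import Pool.Agent.W_ff1001_h94.Digit

/-! The congruences for the primes `p ≥ 7`. -/

namespace FF1001

open Finset Polynomial

variable {p : ℕ} [Fact p.Prime]

theorem Gm_isUnit (m : ℕ) : IsUnit (Gm p m : ℤ_[p]) := by
  apply isUnit_natCast_of_not_dvd
  have h := Gm_coprime p (Fact.out : p.Prime) m
  exact ((Fact.out : p.Prime).coprime_iff_not_dvd).mp h

theorem isUnit_small (hp : 7 ≤ p) {a : ℕ} (h0 : 0 < a) (h : a < 7) : IsUnit (a : ℤ_[p]) := by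
  apply isUnit_natCast_of_not_dvd
  intro hd
  have := Nat.le_of_dvd h0 hd
  omega

theorem main7 (p : ℕ) [Fact p.Prime] (hp : 7 ≤ p) (w : ℤ_[p]) (hw : 12 ^ 4 * w = 1) (s : ℕ) :
    ∃ (lam : ℤ_[p]) (q : ℤ_[p][X]), (p : ℤ_[p]) ∣ lam ∧ (p : ℤ_[p][X]) ∣ q ∧
      ∀ n : ℕ, (p : ℤ_[p]) ^ (s + 1) ∣ Sw w (p * n) - lam * Sw w n
        + (n : ℤ_[p]) ^ 3 * (Mn n : ℤ_[p]) * w ^ n * q.eval (n : ℤ_[p]) := by
  obtain ⟨D⟩ := GD_exists p (by omega)
  obtain ⟨c1, v, h5, hZ, hcom⟩ := core7 hp D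
  have hw1 : w = c1.Xv := by
    have a1 := c1.Xv_fifth h5
    linear_combination c1.Xv * hw - w * a1
  subst hw1
  have hppos : 0 < p := (Fact.out : p.Prime).pos
  set Φ := Psi D (s + 1) c1.Xv v c1.Xv c1.izX c1.izX_mul with hΦ
  set P0 : Fin 3 → ℤ_[p] := ![1, 10, 0] with hP0
  set a : Fin 3 → ℤ_[p] := Matrix.vecMul P0 Φ with ha
  have u2 : IsUnit (2 : ℤ_[p]) := by exact_mod_cast isUnit_small hp (a := 2) (by norm_num) (by norm_num)
  have u3 : IsUnit (3 : ℤ_[p]) := by exact_mod_cast isUnit_small hp (a := 3) (by norm_num) (by norm_num)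
  have u5 : IsUnit (5 : ℤ_[p]) := by exact_mod_cast isUnit_small hp (a := 5) (by norm_num) (by norm_num)
  have hsp : ∀ j, (p : ℤ_[p]) ^ (s + 1) ∣ (Matrix.vecMul a c1.B) j + 5 * a j := by
    intro j
    have e1 : (Matrix.vecMul a c1.B) j + 5 * a j
        = Matrix.vecMul P0 (Φ * c1.B - c1.B * Φ) j := by
      have e2 : Matrix.vecMul P0 (c1.B * Φ) j = - 5 * a j := by
        rw [← Matrix.vecMul_vecMul]
        have e3 : Matrix.vecMul P0 c1.B = (-5 : ℤ_[p]) • P0 := by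
          funext j
          rw [Pi.smul_apply, smul_eq_mul]
          exact c1.P0B_fifth h5 j
        rw [e3, Matrix.smul_vecMul, Pi.smul_apply, smul_eq_mul]
      rw [Matrix.vecMul_sub, Pi.sub_apply, e2, ha, Matrix.vecMul_vecMul]
      ring
    rw [e1]
    change _ ∣ ∑ i, P0 i * (Φ * c1.B - c1.B * Φ) i j
    exact dvd_sum fun i _ => (hcom (s + 1) i j).mul_left _
  obtain ⟨ha2, ha1⟩ := HC.B_special c1 h5 a _ u2 u3 hsp
  -- the polynomial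
  set A' := (D.A (s + 1)).map (algebraMap ℤ_[p] ℤ_[p]) with hA'
  set E := Ef D.β (s + 1) v with hE
  have hga : ∀ j, a j = redA c1.Xv c1.izX c1.izX_mul (gg D (s + 1) c1.Xv v (X ^ 0)) j
      + 10 * redA c1.Xv c1.izX c1.izX_mul (gg D (s + 1) c1.Xv v (X ^ 1)) j := by
    intro j
    rw [ha, hP0]
    simp [Matrix.vecMul, dotProduct, Fin.sum_univ_three, hΦ, Psi]
  set q := redQ c1.Xv c1.izX c1.izX_mul (gg D (s + 1) c1.Xv v (X ^ 0))
    + C 10 * redQ c1.Xv c1.izX c1.izX_mul (gg D (s + 1) c1.Xv v (X ^ 1)) with hq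
  have hg : gh p (A' * E) c1.Xv (X ^ 0 + C 10 * X ^ 1) = qd a + tau c1.Xv q := by
    have e1 : gg D (s + 1) c1.Xv v (X ^ 0 + C 10 * X ^ 1)
        = gg D (s + 1) c1.Xv v (X ^ 0) + C 10 * gg D (s + 1) c1.Xv v (X ^ 1) := by
      rw [gg_add, gg_C_mul]
    have e2 : qd a = qd (redA c1.Xv c1.izX c1.izX_mul (gg D (s + 1) c1.Xv v (X ^ 0)))
        + C 10 * qd (redA c1.Xv c1.izX c1.izX_mul (gg D (s + 1) c1.Xv v (X ^ 1))) := by
      rw [C_mul_qd, qd_add]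
      congr 1
      funext j
      exact hga j
    change gg D (s + 1) c1.Xv v (X ^ 0 + C 10 * X ^ 1) = _
    rw [e1, e2, hq, tau_add, tau_C_mul]
    have s0 := red_spec c1.Xv c1.izX c1.izX_mul (gg D (s + 1) c1.Xv v (X ^ 0))
    have s1 := red_spec c1.Xv c1.izX c1.izX_mul (gg D (s + 1) c1.Xv v (X ^ 1))
    linear_combination s0 + C 10 * s1
  have hwt : wt p (gh p (A' * E) c1.Xv (X ^ 0 + C 10 * X ^ 1)) := by
    refine wt_gh p _ (wt_mul ?_ ?_) _ _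
    · intro i
      rw [hA', coeff_map]
      exact D.hAw (s + 1) i
    · intro i
      exact Ef_wt D.β D.hβ3 (s + 1) i v
  obtain ⟨w1, w2⟩ := wt_red p c1.Xv c1.izX c1.izX_mul _ hwt a q hg
  have hpa1 : (p : ℤ_[p]) ∣ a 1 := by simpa using w1 1
  have hpa0 : (p : ℤ_[p]) ∣ a 0 := by
    have h1 : (p : ℤ_[p]) ∣ a 1 - 10 * a 0 := dvd_trans (dvd_pow_self _ (by omega)) ha1
    have h2 : (p : ℤ_[p]) ∣ (2 * 5) * a 0 := by
      have := dvd_sub hpa1 h1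
      convert this using 1
      ring
    exact ((u2.mul u5).dvd_mul_left).mp h2
  refine ⟨a 0, q, hpa0, ?_, fun n => ?_⟩
  · have h1 : (p : ℤ_[p][X]) ∣ C ((p : ℤ_[p]) ^ 3) := by
      rw [C_pow]
      refine dvd_trans ?_ (dvd_pow_self _ (by norm_num))
      simp
    exact dvd_trans h1 w2
  · have hsum := gh_sum p hppos ((p : ℤ_[p]) ^ (s + 1)) A' E (X ^ 0 + C 10 * X ^ 1) c1.Xv c1.Xv v
      (fun m => by
        have := D.hAe (s + 1) m
        have e : A' = D.A (s + 1) := by rw [hA']; simp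
        rw [e]
        exact this)
      (fun m => Gm_isUnit m)
      (fun m => Ef_eval D.β D.hβ D.hβ2 (s + 1) m v) hZ a q hg n
    have e1 : Sw c1.Xv (p * n) = ∑ k ∈ range (p * n),
        (X ^ 0 + C 10 * X ^ 1 : ℤ_[p][X]).eval (k : ℤ_[p]) * (Mn k : ℤ_[p]) * c1.Xv ^ k := by
      unfold Sw
      refine sum_congr rfl fun k _ => ?_
      have e3 : (X ^ 0 + C 10 * X ^ 1 : ℤ_[p][X]).eval (k : ℤ_[p]) = 10 * (k : ℤ_[p]) + 1 := by
        simp only [pow_zero, pow_one, eval_add, eval_one, eval_mul, eval_C, eval_X]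
        ring
      rw [e3]
    have e2 : (p : ℤ_[p]) ^ (s + 1) ∣ (∑ m ∈ range n, (a 0 + a 1 * (m : ℤ_[p])
        + a 2 * (m : ℤ_[p]) ^ 2) * (Mn m : ℤ_[p]) * c1.Xv ^ m) - a 0 * Sw c1.Xv n := by
      unfold Sw
      rw [mul_sum, ← sum_sub_distrib]
      refine dvd_sum fun m _ => ?_
      obtain ⟨r1, hr1⟩ := ha1
      obtain ⟨r2, hr2⟩ := ha2
      refine ⟨(r1 * m + r2 * (m : ℤ_[p]) ^ 2) * (Mn m : ℤ_[p]) * c1.Xv ^ m, ?_⟩
      linear_combination (m : ℤ_[p]) * (Mn m : ℤ_[p]) * c1.Xv ^ m * hr1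
        + (m : ℤ_[p]) ^ 2 * (Mn m : ℤ_[p]) * c1.Xv ^ m * hr2
    have := dvd_add hsum e2
    rw [e1]
    convert this using 1
    ring

/-- the hypothesis of the digit induction for `p ≥ 7` -/
theorem H7 (p : ℕ) [Fact p.Prime] (hp : 7 ≤ p) (w : ℤ_[p]) (hw : 12 ^ 4 * w = 1) (n : ℕ)
    (hn : (Dn n : ℤ_[p]) ∣ Sw w n) :
    ((p * n * Nat.centralBinom n : ℕ) : ℤ_[p]) ∣ Sw w (p * n) := by
  rcases Nat.eq_zero_or_pos n with h0 | hpos
  · subst h0; simp [Sw]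
  have hne : p * n * Nat.centralBinom n ≠ 0 :=
    mul_ne_zero (mul_ne_zero (Fact.out : p.Prime).ne_zero hpos.ne') (Nat.centralBinom_ne_zero n)
  have hval : ∃ s : ℕ, ((p * n * Nat.centralBinom n : ℕ) : ℤ_[p]) ∣ (p : ℤ_[p]) ^ (s + 1) := by
    have h1 : ((p * n * Nat.centralBinom n : ℕ) : ℤ_[p]) ≠ 0 := by exact_mod_cast hne
    obtain ⟨t, u, hu⟩ : ∃ (t : ℕ) (u : ℤ_[p]ˣ), ((p * n * Nat.centralBinom n : ℕ) : ℤ_[p])
        = (u : ℤ_[p]) * (p : ℤ_[p]) ^ t :=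
      ⟨_, _, PadicInt.unitCoeff_spec h1⟩
    refine ⟨t, ?_⟩
    rw [hu]
    have : IsUnit (u : ℤ_[p]) := u.isUnit
    rw [this.mul_left_dvd]
    exact pow_dvd_pow _ (by omega)
  obtain ⟨s, hs⟩ := hval
  obtain ⟨lam, q, hlam, hq, hsum⟩ := main7 p hp w hw s
  have h1 := dvd_trans hs (hsum n)
  have h2 : ((p * n * Nat.centralBinom n : ℕ) : ℤ_[p]) ∣ lam * Sw w n := by
    have h3 : ((p * n * Nat.centralBinom n : ℕ) : ℤ_[p]) ∣ (p : ℤ_[p]) * (Dn n : ℤ_[p]) := by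
      have : p * n * Nat.centralBinom n ∣ p * Dn n := by
        unfold Dn
        exact ⟨2 * n + 1, by ring⟩
      exact_mod_cast (Nat.cast_dvd_cast (α := ℤ_[p]) this)
    exact dvd_trans h3 (mul_dvd_mul hlam hn)
  have h3 : ((p * n * Nat.centralBinom n : ℕ) : ℤ_[p]) ∣
      (n : ℤ_[p]) ^ 3 * (Mn n : ℤ_[p]) * w ^ n * q.eval (n : ℤ_[p]) := by
    obtain ⟨r, hr⟩ := hq
    have e1 : q.eval (n : ℤ_[p]) = (p : ℤ_[p]) * r.eval (n : ℤ_[p]) := by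
      rw [hr]; simp
    rw [e1]
    unfold Mn
    push_cast
    exact ⟨(n : ℤ_[p]) ^ 2 * (Nat.centralBinom (2 * n) : ℤ_[p]) * (Nat.centralBinom n : ℤ_[p])
      * w ^ n * r.eval (n : ℤ_[p]), by ring⟩
  have h4 := dvd_add (dvd_sub h1 h3) h2
  convert h4 using 1
  ring

theorem all7 (p : ℕ) [Fact p.Prime] (hp : 7 ≤ p) (w : ℤ_[p]) (hw : 12 ^ 4 * w = 1) (n : ℕ) :
    (Dn n : ℤ_[p]) ∣ Sw w n :=
  digit p (by omega) w (fun n hn => H7 p hp w hw n hn) n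

end FF1001
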