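import Pool.Agent.W_ff1001_h94.HC

/-! The primes 2 and 3. -/

namespace FF1001

open Finset Polynomial

/-! ## positivity -/

theorem P23_Mn_pos (k : ℕ) : 0 < Mn k := by
  unfold Mn
  exact Nat.mul_pos (Nat.centralBinom_pos _) (pow_pos (Nat.centralBinom_pos _) _)

theorem P23_T_pos (n : ℕ) : 0 < T (n + 1) := by
  show 0 < 12 ^ 4 * T n + (10 * n + 1) * Mn n
  have h := P23_Mn_pos n
  positivity

theorem P23_cb_fact (m : ℕ) :
    Nat.centralBinom m * (m.factorial * m.factorial) = (2 * m).factorial := by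
  have h := Nat.choose_mul_factorial_mul_factorial (show m ≤ 2 * m by omega)
  have e : 2 * m - m = m := by omega
  rw [e] at h
  rw [Nat.centralBinom_eq_two_mul_choose, ← mul_assoc]
  exact h

theorem P23_T_succ (n : ℕ) : T (n + 1) = 12 ^ 4 * T n + (10 * n + 1) * Mn n := rfl

/-! ## the prime 2 -/

theorem P23_a_fact (m : ℕ) :
    padicValNat 2 (Nat.centralBinom m) + padicValNat 2 m.factorial = m := by
  have h := congrArg (padicValNat 2) (P23_cb_fact m)
  have hf : m.factorial ≠ 0 := Nat.factorial_ne_zero m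
  rw [padicValNat.mul (Nat.centralBinom_ne_zero m) (mul_ne_zero hf hf), padicValNat.mul hf hf,
    padicValNat_factorial_mul] at h
  omega

theorem P23_a_double (k : ℕ) :
    padicValNat 2 (Nat.centralBinom (2 * k)) = padicValNat 2 (Nat.centralBinom k) := by
  have h1 := P23_a_fact k
  have h2 := P23_a_fact (2 * k)
  rw [padicValNat_factorial_mul] at h2
  omega

theorem P23_v2_Mn (k : ℕ) : padicValNat 2 (Mn k) = 3 * padicValNat 2 (Nat.centralBinom k) := by
  unfold Mn
  rw [padicValNat.mul (Nat.centralBinom_ne_zero _) (pow_ne_zero _ (Nat.centralBinom_ne_zero _)),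
    padicValNat.pow, P23_a_double]
  ring

theorem P23_v2_odd (k : ℕ) : padicValNat 2 (2 * k + 1) = 0 := by
  apply padicValNat.eq_zero_of_not_dvd
  omega

theorem P23_a_succ (n : ℕ) :
    padicValNat 2 (n + 1) + padicValNat 2 (Nat.centralBinom (n + 1)) =
      1 + padicValNat 2 (Nat.centralBinom n) := by
  have h := congrArg (padicValNat 2) (Nat.succ_mul_centralBinom_succ n)
  rw [padicValNat.mul (by omega) (Nat.centralBinom_ne_zero _),
    padicValNat.mul (by omega) (Nat.centralBinom_ne_zero _),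
    padicValNat.mul (by omega) (by omega), P23_v2_odd] at h
  have h2 : padicValNat 2 2 = 1 := padicValNat_self
  rw [h2] at h
  omega

theorem P23_dvd2 (n : ℕ) : 2 ^ (3 * padicValNat 2 (Nat.centralBinom n)) ∣ T (n + 1) := by
  have hM : ∀ k : ℕ, 2 ^ (3 * padicValNat 2 (Nat.centralBinom k)) ∣ Mn k := by
    intro k
    rw [← P23_v2_Mn]
    exact pow_padicValNat_dvd
  induction n with
  | zero =>
    have h0 : padicValNat 2 (Nat.centralBinom 0) = 0 := by
      rw [Nat.centralBinom_zero]; simp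
    rw [h0]
    simp
  | succ n ih =>
    rw [P23_T_succ]
    apply dvd_add
    · have h1 := P23_a_succ n
      have h2 : 2 ^ (3 * padicValNat 2 (Nat.centralBinom (n + 1))) ∣
          2 ^ 8 * 2 ^ (3 * padicValNat 2 (Nat.centralBinom n)) := by
        rw [← pow_add]
        apply pow_dvd_pow
        omega
      refine h2.trans (mul_dvd_mul ?_ ih)
      norm_num
    · exact (hM (n + 1)).mul_left _

theorem T_two (n : ℕ) (hn : 2 ≤ n) : padicValNat 2 (2 * Dn n) ≤ padicValNat 2 (T n) := by
  obtain ⟨m, rfl⟩ : ∃ m, n = m + 1 := ⟨n - 1, by omega⟩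
  have hm : 0 < m := by omega
  have ha : 1 ≤ padicValNat 2 (Nat.centralBinom m) :=
    one_le_padicValNat_of_dvd (Nat.centralBinom_ne_zero m)
      (Nat.two_dvd_centralBinom_of_one_le hm)
  have hT : 3 * padicValNat 2 (Nat.centralBinom m) ≤ padicValNat 2 (T (m + 1)) :=
    (padicValNat_dvd_iff_le (P23_T_pos m).ne').mp (P23_dvd2 m)
  have hD : padicValNat 2 (2 * Dn (m + 1)) = 2 + padicValNat 2 (Nat.centralBinom m) := by
    unfold Dn
    have h1 := P23_a_succ m
    rw [padicValNat.mul (by omega)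
      (mul_ne_zero (by positivity) (Nat.centralBinom_ne_zero _)),
      padicValNat.mul (by positivity) (Nat.centralBinom_ne_zero _),
      padicValNat.mul (by omega) (by omega), P23_v2_odd, padicValNat_self]
    omega
  omega

/-! ## the prime 3 -/

/-- base 3 digit sum, by Legendre's formula -/
def sd (n : ℕ) : ℕ := n - 2 * padicValNat 3 n.factorial

theorem P23_sd (n : ℕ) : 2 * padicValNat 3 n.factorial + sd n = n := by
  have h := sub_one_mul_padicValNat_factorial (p := 3) n
  have h2 := Nat.digit_sum_le 3 n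
  unfold sd
  omega

theorem P23_sd_eq_zero (n : ℕ) (h : sd n = 0) : n = 0 := by
  by_contra hn
  have h1 := sub_one_mul_padicValNat_factorial_lt_of_ne_zero 3 hn
  have h2 := P23_sd n
  omega

theorem P23_sd_add (a b : ℕ) : sd (a + b) ≤ sd a + sd b := by
  have h : a.factorial * b.factorial ∣ (a + b).factorial := Nat.factorial_mul_factorial_dvd_factorial_add a b
  have hv : padicValNat 3 (a.factorial * b.factorial) ≤ padicValNat 3 (a + b).factorial := by
    rw [← padicValNat_dvd_iff_le (Nat.factorial_ne_zero _)]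
    exact pow_padicValNat_dvd.trans h
  rw [padicValNat.mul (Nat.factorial_ne_zero _) (Nat.factorial_ne_zero _)] at hv
  have h1 := P23_sd a
  have h2 := P23_sd b
  have h3 := P23_sd (a + b)
  omega

theorem P23_sd_three (a r : ℕ) (hr : r < 3) : sd (3 * a + r) = sd a + r := by
  have h1 := padicValNat_factorial_mul_add (p := 3) a hr
  have h2 : padicValNat 3 (3 * a).factorial = padicValNat 3 a.factorial + a :=
    padicValNat_factorial_mul a
  have h3 := P23_sd (3 * a + r)
  have h4 := P23_sd a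
  rw [h1, h2] at h3
  omega

theorem P23_sd_one_pow (N : ℕ) (h : sd N = 1) : ∃ m, N = 3 ^ m := by
  induction N using Nat.strong_induction_on with
  | _ N ih =>
    obtain ⟨a, r, hr, hN⟩ : ∃ a r, r < 3 ∧ N = 3 * a + r :=
      ⟨N / 3, N % 3, Nat.mod_lt _ (by norm_num), by omega⟩
    have hs := P23_sd_three a r hr
    rw [← hN, h] at hs
    have hN0 : N ≠ 0 := by
      rintro rfl
      have := P23_sd 0
      omega
    rcases Nat.eq_zero_or_pos r with hr0 | hr0
    · obtain ⟨m, hm⟩ := ih a (by omega) (by omega)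
      exact ⟨m + 1, by rw [hN, hm, hr0]; ring⟩
    · have ha : sd a = 0 := by omega
      have ha0 := P23_sd_eq_zero a ha
      exact ⟨0, by rw [hN, ha0]; simp; omega⟩

theorem P23_sd_succ (n : ℕ) : sd n + 1 = sd (n + 1) + 2 * padicValNat 3 (n + 1) := by
  have h1 := P23_sd n
  have h2 := P23_sd (n + 1)
  rw [Nat.factorial_succ, padicValNat.mul (by omega) (Nat.factorial_ne_zero _)] at h2
  omega

theorem P23_Mn_fact (k : ℕ) : Mn k * k.factorial ^ 4 = (4 * k).factorial := by
  have h1 := P23_cb_fact k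
  have h2 := P23_cb_fact (2 * k)
  have e : 2 * (2 * k) = 4 * k := by ring
  rw [e, ← h1] at h2
  rw [← h2]
  unfold Mn
  ring

theorem P23_v3_Mn (k : ℕ) : 2 * padicValNat 3 (Mn k) + sd (4 * k) = 4 * sd k := by
  have h := congrArg (padicValNat 3) (P23_Mn_fact k)
  rw [padicValNat.mul (P23_Mn_pos k).ne' (pow_ne_zero _ (Nat.factorial_ne_zero _)),
    padicValNat.pow] at h
  have h1 := P23_sd k
  have h2 := P23_sd (4 * k)
  omega

theorem P23_sd_four (k : ℕ) : sd (4 * k) ≤ 2 * sd k := by
  have h := P23_sd_add (3 * k) k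
  have h2 := P23_sd_three k 0 (by norm_num)
  have e : 3 * k + k = 4 * k := by ring
  rw [e] at h
  simp only [add_zero] at h2
  omega

theorem P23_dvd3 (n : ℕ) : 3 ^ sd n ∣ T (n + 1) := by
  have hM : ∀ k : ℕ, 3 ^ sd k ∣ Mn k := by
    intro k
    rw [padicValNat_dvd_iff_le (P23_Mn_pos k).ne']
    have h1 := P23_v3_Mn k
    have h2 := P23_sd_four k
    omega
  induction n with
  | zero =>
    have h0 : sd 0 = 0 := by
      have := P23_sd 0
      omega
    rw [h0]
    simp
  | succ n ih =>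
    rw [P23_T_succ]
    apply dvd_add
    · have h1 := P23_sd_succ n
      have h2 : 3 ^ sd (n + 1) ∣ 3 ^ 4 * 3 ^ sd n := by
        rw [← pow_add]
        apply pow_dvd_pow
        omega
      refine h2.trans (mul_dvd_mul ?_ ih)
      norm_num
    · exact (hM (n + 1)).mul_left _

theorem P23_dvd3' (n : ℕ) : 3 ^ (sd n + 1) ∣ 12 ^ 4 * T n := by
  cases n with
  | zero => simp [T]
  | succ n =>
    have h1 := P23_sd_succ n
    have h2 : 3 ^ (sd (n + 1) + 1) ∣ 3 ^ 4 * 3 ^ sd n := by
      rw [← pow_add]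
      apply pow_dvd_pow
      omega
    refine h2.trans (mul_dvd_mul ?_ (P23_dvd3 n))
    norm_num

theorem P23_v3_Dn (n : ℕ) (hn : 1 ≤ n) :
    2 * padicValNat 3 (Dn n) + sd (2 * n + 1) = 2 * padicValNat 3 n + 1 + 2 * sd n := by
  have h0 : Dn n * (n.factorial * n.factorial) = n * (2 * n + 1).factorial := by
    rw [Nat.factorial_succ, ← P23_cb_fact n]
    unfold Dn
    ring
  have hD : Dn n ≠ 0 := by
    unfold Dn
    exact mul_ne_zero (by positivity) (Nat.centralBinom_ne_zero _)
  have h := congrArg (padicValNat 3) h0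
  have hf : n.factorial ≠ 0 := Nat.factorial_ne_zero n
  rw [padicValNat.mul hD (mul_ne_zero hf hf), padicValNat.mul hf hf,
    padicValNat.mul (by omega) (Nat.factorial_ne_zero _)] at h
  have h1 := P23_sd n
  have h2 := P23_sd (2 * n + 1)
  omega

theorem T_three (n : ℕ) (hn : 1 ≤ n) (h : ∀ m : ℕ, 2 * n + 1 ≠ 3 ^ m) :
    padicValNat 3 (Dn n) ≤ padicValNat 3 (T n) := by
  obtain ⟨k, rfl⟩ : ∃ k, n = k + 1 := ⟨n - 1, by omega⟩
  have hT : sd k ≤ padicValNat 3 (T (k + 1)) :=
    (padicValNat_dvd_iff_le (P23_T_pos k).ne').mp (P23_dvd3 k)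
  have h1 := P23_sd_succ k
  have h2 := P23_v3_Dn (k + 1) hn
  have h3 := P23_sd (2 * (k + 1) + 1)
  have h4 : sd (2 * (k + 1) + 1) ≠ 1 := by
    intro he
    obtain ⟨m, hm⟩ := P23_sd_one_pow _ he
    exact h m hm
  omega

theorem P23_jm (n m : ℕ) (h : 2 * n + 1 = 3 ^ m) :
    sd n = m ∧ sd (4 * n + 1) = 2 * m + 1 ∧ sd (4 * n) = 2 * m ∧ sd (2 * n + 1) = 1 := by
  induction m generalizing n with
  | zero =>
    have hn : n = 0 := by simp at h; omega
    subst hn
    have h0 := P23_sd 0
    have h1 := P23_sd_three 0 1 (by norm_num)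
    have h00 : sd 0 = 0 := by omega
    simp only [mul_zero, zero_add] at h1
    refine ⟨h00, ?_, ?_, ?_⟩ <;> simp only [mul_zero, zero_add] <;> omega
  | succ m ih =>
    obtain ⟨k, hk⟩ : ∃ k, 2 * k + 1 = 3 ^ m := by
      have hodd : Odd (3 ^ m) := Odd.pow (by decide)
      obtain ⟨k, hk⟩ := hodd
      exact ⟨k, hk.symm⟩
    obtain ⟨i1, i2, i3, i4⟩ := ih k hk
    have hn : n = 3 * k + 1 := by
      have : 2 * n + 1 = 3 * (2 * k + 1) := by rw [h, hk]; ring
      omega
    have e1 := P23_sd_three k 1 (by norm_num)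
    have e2 := P23_sd_three (4 * k + 1) 2 (by norm_num)
    have e3 := P23_sd_three (4 * k + 1) 1 (by norm_num)
    have e4 := P23_sd_three (2 * k + 1) 0 (by norm_num)
    have f2 : 4 * n + 1 = 3 * (4 * k + 1) + 2 := by omega
    have f3 : 4 * n = 3 * (4 * k + 1) + 1 := by omega
    have f4 : 2 * n + 1 = 3 * (2 * k + 1) + 0 := by omega
    rw [f2, f3, f4, e2, e3, e4, hn, e1]
    omega

theorem T_three' (n m : ℕ) (hn : 1 ≤ n) (h : 2 * n + 1 = 3 ^ m) :
    padicValNat 3 (T n) + 1 = padicValNat 3 (Dn n) := by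
  obtain ⟨j1, j2, j3, j4⟩ := P23_jm n m h
  cases m with
  | zero => simp at h; omega
  | succ m =>
    obtain ⟨k, hk⟩ : ∃ k, 2 * k + 1 = 3 ^ m := by
      have hodd : Odd (3 ^ m) := Odd.pow (by decide)
      obtain ⟨k, hk⟩ := hodd
      exact ⟨k, hk.symm⟩
    obtain ⟨i1, i2, i3, i4⟩ := P23_jm k m hk
    have hn3 : n = 3 * k + 1 := by
      have : 2 * n + 1 = 3 * (2 * k + 1) := by rw [h, hk]; ring
      omega
    have hv : padicValNat 3 n = 0 := by
      apply padicValNat.eq_zero_of_not_dvd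
      omega
    have hD := P23_v3_Dn n hn
    -- the valuation of `T n`
    have s1 : sd (3 * k) = m := by
      have := P23_sd_three k 0 (by norm_num)
      simp only [add_zero] at this
      omega
    have s2 : sd (4 * (3 * k)) = 2 * m := by
      have := P23_sd_three (4 * k) 0 (by norm_num)
      simp only [add_zero] at this
      have e : 4 * (3 * k) = 3 * (4 * k) := by ring
      rw [e]
      omega
    have hM := P23_v3_Mn (3 * k)
    have hM' : padicValNat 3 (Mn (3 * k)) = m := by omega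
    have hle : m ≤ padicValNat 3 (T n) := by
      have := (padicValNat_dvd_iff_le (p := 3) (P23_T_pos (3 * k)).ne').mp (P23_dvd3 (3 * k))
      rw [hn3]
      omega
    have hlt : ¬ m + 1 ≤ padicValNat 3 (T n) := by
      intro hc
      rw [hn3] at hc
      have hd : 3 ^ (m + 1) ∣ T (3 * k + 1) :=
        (padicValNat_dvd_iff_le (P23_T_pos (3 * k)).ne').mpr hc
      rw [P23_T_succ] at hd
      have hd1 := P23_dvd3' (3 * k)
      rw [s1] at hd1
      have hd2 : 3 ^ (m + 1) ∣ (10 * (3 * k) + 1) * Mn (3 * k) := (Nat.dvd_add_right hd1).mp hd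
      have hc3 : Nat.Coprime (3 ^ (m + 1)) (10 * (3 * k) + 1) := by
        apply Nat.Coprime.pow_left
        rw [Nat.Prime.coprime_iff_not_dvd Nat.prime_three]
        omega
      have hd3 := hc3.dvd_of_dvd_mul_left hd2
      have := (padicValNat_dvd_iff_le (P23_Mn_pos (3 * k)).ne').mp hd3
      omega
    omega

end FF1001
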