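import Pool.Agent.W_ff1001_h94.Main5
import Pool.Agent.W_ff1001_h94.Main7
import Pool.Agent.W_ff1001_h94.P23

/-! Assembly of all primes. -/

namespace FF1001

open Finset

theorem T_eq_sum (n : ℕ) :
    T n = ∑ k ∈ range n, (10 * k + 1) * Mn k * (12 ^ 4) ^ (n - 1 - k) := by
  induction n with
  | zero => rfl
  | succ n ih =>
    rw [P23_T_succ, ih, sum_range_succ, mul_sum]
    congr 1
    · refine sum_congr rfl fun k hk => ?_
      have hk' : k < n := mem_range.mp hk
      have e : n + 1 - 1 - k = (n - 1 - k) + 1 := by omega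
      rw [e, pow_succ]; ring
    · simp

theorem T_Sw {S : Type*} [CommRing S] (w : S) (hw : 12 ^ 4 * w = 1) (n : ℕ) :
    Sw w n * (12 ^ 4) ^ n = 12 ^ 4 * (T n : S) := by
  induction n with
  | zero => simp [Sw, T]
  | succ n ih =>
    have e1 : w ^ n * (12 ^ 4 : S) ^ n = 1 := by
      rw [← mul_pow, mul_comm, hw, one_pow]
    rw [Sw_succ, P23_T_succ]
    push_cast
    rw [pow_succ]
    linear_combination (12 ^ 4 : S) * ih + ((10 * (n : S) + 1) * (Mn n : S)) * 12 ^ 4 * e1

theorem T_large (p : ℕ) [Fact p.Prime] (hp : 5 ≤ p) (n : ℕ) :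
    (Dn n : ℤ_[p]) ∣ (T n : ℤ_[p]) := by
  have hpp : p.Prime := Fact.out
  have h12 : IsUnit ((12 : ℤ_[p]) ^ 4) := by
    have h : IsUnit ((12 : ℕ) : ℤ_[p]) := by
      apply isUnit_natCast_of_not_dvd
      intro h
      have h1 : p ∣ 2 * 2 * 3 := h
      rw [hpp.dvd_mul, hpp.dvd_mul] at h1
      rcases h1 with (h1 | h1) | h1
      · have := Nat.le_of_dvd (by norm_num) h1; omega
      · have := Nat.le_of_dvd (by norm_num) h1; omega
      · have := Nat.le_of_dvd (by norm_num) h1; omega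
    exact (by exact_mod_cast h : IsUnit (12 : ℤ_[p])).pow 4
  obtain ⟨w, hw⟩ := h12.exists_right_inv
  have h1 : (Dn n : ℤ_[p]) ∣ Sw w n := by
    rcases Nat.lt_or_ge p 7 with h | h
    · have h5 : p = 5 := by
        have : p ≠ 6 := by
          rintro rfl
          exact absurd hpp (by norm_num)
        omega
      subst h5
      exact all5 w hw n
    · exact all7 p h w hw n
  have h2 : (Dn n : ℤ_[p]) ∣ 12 ^ 4 * (T n : ℤ_[p]) := by
    rw [← T_Sw w hw n]
    exact h1.mul_right _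
  exact (h12.dvd_mul_left).mp h2

theorem T_large_val (p : ℕ) [Fact p.Prime] (hp : 5 ≤ p) (n : ℕ) (hn : 1 ≤ n) :
    padicValNat p (Dn n) ≤ padicValNat p (T n) := by
  have hT : T n ≠ 0 := by
    obtain ⟨k, rfl⟩ : ∃ k, n = k + 1 := ⟨n - 1, by omega⟩
    exact (P23_T_pos k).ne'
  have h1 : ((p : ℤ_[p]) ^ padicValNat p (Dn n)) ∣ (T n : ℤ_[p]) := by
    have h2 : p ^ padicValNat p (Dn n) ∣ Dn n := pow_padicValNat_dvd
    have h3 : (((p ^ padicValNat p (Dn n) : ℕ)) : ℤ_[p]) ∣ (Dn n : ℤ_[p]) := by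
      exact_mod_cast (Nat.cast_dvd_cast (α := ℤ_[p]) h2)
    rw [Nat.cast_pow] at h3
    exact dvd_trans h3 (T_large p hp n)
  have h4 : ((p : ℤ) ^ padicValNat p (Dn n)) ∣ ((T n : ℕ) : ℤ) := by
    have := (PadicInt.pow_p_dvd_int_iff (p := p) (padicValNat p (Dn n)) (T n : ℤ)).mp
      (by simpa using h1)
    simpa using this
  have h5 : p ^ padicValNat p (Dn n) ∣ T n := by exact_mod_cast h4
  exact (padicValNat_dvd_iff_le hT).mp h5

theorem Dn_ne (n : ℕ) (hn : 1 ≤ n) : Dn n ≠ 0 := by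
  unfold Dn
  exact mul_ne_zero (mul_ne_zero (by omega) (by omega)) (Nat.centralBinom_ne_zero n)

theorem T_ne (n : ℕ) (hn : 1 ≤ n) : T n ≠ 0 := by
  obtain ⟨k, rfl⟩ : ∃ k, n = k + 1 := ⟨n - 1, by omega⟩
  exact (P23_T_pos k).ne'

/-- a divisibility criterion by valuations -/
theorem dvd_of_val (a b : ℕ) (ha : a ≠ 0) (hb : b ≠ 0)
    (h : ∀ p : ℕ, p.Prime → padicValNat p a ≤ padicValNat p b) : a ∣ b := by
  rw [← Nat.factorization_prime_le_iff_dvd ha hb]
  intro p hp
  rw [Nat.factorization_def _ hp, Nat.factorization_def _ hp]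
  exact h p hp

theorem val_two_mul (p : ℕ) [Fact p.Prime] (hp : p ≠ 2) (a : ℕ) (ha : a ≠ 0) :
    padicValNat p (2 * a) = padicValNat p a := by
  rw [padicValNat.mul (by norm_num) ha]
  have : padicValNat p 2 = 0 := by
    apply padicValNat.eq_zero_of_not_dvd
    intro h
    have h1 := (Nat.prime_dvd_prime_iff_eq (Fact.out : p.Prime) Nat.prime_two).mp h
    exact hp h1
  omega

theorem main_dvd (n : ℕ) (hn : 2 ≤ n) (h : ∀ m : ℕ, 2 * n + 1 ≠ 3 ^ m) : 2 * Dn n ∣ T n := by
  have hD := Dn_ne n (by omega)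
  refine dvd_of_val _ _ (mul_ne_zero (by norm_num) hD) (T_ne n (by omega)) fun p hp => ?_
  haveI : Fact p.Prime := ⟨hp⟩
  rcases eq_or_ne p 2 with rfl | h2
  · exact T_two n hn
  rw [val_two_mul p h2 _ hD]
  rcases eq_or_ne p 3 with rfl | h3
  · exact T_three n (by omega) h
  · have h5 : 5 ≤ p := by
      have h4 : p ≠ 4 := by rintro rfl; exact absurd hp (by norm_num)
      have := hp.two_le
      omega
    exact T_large_val p h5 n (by omega)

theorem main_dvd' (n m : ℕ) (hn : 2 ≤ n) (h : 2 * n + 1 = 3 ^ m) :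
    2 * Dn n ∣ 3 * T n ∧ ¬ (3 * (2 * Dn n) ∣ 3 * T n) := by
  have hD := Dn_ne n (by omega)
  have hT := T_ne n (by omega)
  have v3 := T_three' n m (by omega) h
  have v33 : padicValNat 3 (3 * T n) = padicValNat 3 (T n) + 1 := by
    rw [padicValNat.mul (by norm_num) hT, padicValNat.self (by norm_num)]
    omega
  constructor
  · refine dvd_of_val _ _ (mul_ne_zero (by norm_num) hD) (mul_ne_zero (by norm_num) hT)
      fun p hp => ?_
    haveI : Fact p.Prime := ⟨hp⟩
    rcases eq_or_ne p 2 with rfl | h2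
    · have := T_two n hn
      rw [padicValNat.mul (by norm_num) hT]
      omega
    rw [val_two_mul p h2 _ hD]
    rcases eq_or_ne p 3 with rfl | h3
    · omega
    · have h5 : 5 ≤ p := by
        have h4 : p ≠ 4 := by rintro rfl; exact absurd hp (by norm_num)
        have := hp.two_le
        omega
      have := T_large_val p h5 n (by omega)
      rw [padicValNat.mul (by norm_num) hT]
      omega
  · intro hd
    have h1 : padicValNat 3 (3 * (2 * Dn n)) ≤ padicValNat 3 (3 * T n) :=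
      (padicValNat_dvd_iff_le (mul_ne_zero (by norm_num) hT)).mp
        (dvd_trans pow_padicValNat_dvd hd)
    have h2 : padicValNat 3 (3 * (2 * Dn n)) = padicValNat 3 (Dn n) + 1 := by
      rw [padicValNat.mul (by norm_num) (mul_ne_zero (by norm_num) hD),
        val_two_mul 3 (by norm_num) _ hD, padicValNat.self (by norm_num)]
      omega
    omega

end FF1001
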