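import Pool.Agent.W_ff1001_h94.HC

/-!
The polynomials approximating the `p`-adic Gamma function.
-/

namespace FF1001

open Finset Polynomial

/-! ### weights -/

/-- `j - [j/p]` -/
def gmW (p j : ℕ) : ℕ := j - j / p

theorem gmW_add (p a b : ℕ) : gmW p (a + b) ≤ gmW p a + b := by
  unfold gmW
  have h1 : a / p ≤ (a + b) / p := Nat.div_le_div_right (by omega)
  have h2 : a / p ≤ a := Nat.div_le_self a p
  omega

theorem gmW_p {p : ℕ} (hp : 0 < p) (a : ℕ) : gmW p (a + p) + 1 = gmW p a + p := by
  unfold gmW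
  rw [Nat.add_div_right a hp]
  have h2 : a / p ≤ a := Nat.div_le_self a p
  omega

/-- the weights of `-Pi - 1` -/
def gmU (p i : ℕ) : ℕ := if i = p - 1 then p - 1 else i + 1

/-- differences of a product -/
theorem gm_mul (p : ℤ) : ∀ (n : ℕ) (U V : ℕ → ℕ) (f g : ℕ → ℤ) (e : ℕ),
    (∀ i, i ≤ n → ∀ m, p ^ U i ∣ (fwdDiff 1)^[i] f m) →
    (∀ i, i ≤ n → ∀ m, p ^ V i ∣ (fwdDiff 1)^[i] g m) →
    (∀ i, i ≤ n → e ≤ U i + V (n - i)) →
    ∀ m, p ^ e ∣ (fwdDiff 1)^[n] (fun k => f k * g k) m := by
  intro n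
  induction n with
  | zero =>
    intro U V f g e hf hg he m
    have h1 := hf 0 le_rfl m
    have h2 := hg 0 le_rfl m
    have h3 := he 0 le_rfl
    simp only [Function.iterate_zero, id_eq, Nat.sub_zero] at h1 h2 h3 ⊢
    refine (pow_dvd_pow p h3).trans ?_
    rw [pow_add]
    exact mul_dvd_mul h1 h2
  | succ n ih =>
    intro U V f g e hf hg he m
    have h1 : fwdDiff 1 (fun k => f k * g k) =
        (fun k => fwdDiff 1 f k * g (k + 1)) + (fun k => f k * fwdDiff 1 g k) := by
      funext k
      simp only [fwdDiff, Pi.add_apply]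
      ring
    rw [Function.iterate_succ_apply, h1, fwdDiff_iter_add, Pi.add_apply]
    refine dvd_add ?_ ?_
    · refine ih (fun i => U (i + 1)) V (fwdDiff 1 f) (fun k => g (k + 1)) e ?_ ?_ ?_ m
      · intro i hi m
        have h2 := hf (i + 1) (by omega) m
        rw [Function.iterate_succ_apply] at h2
        exact h2
      · intro i hi m
        rw [fwdDiff_iter_comp_add]
        exact hg i (by omega) (m + 1)
      · intro i hi
        have h2 := he (i + 1) (by omega)
        have h3 : n + 1 - (i + 1) = n - i := by omega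
        rw [h3] at h2
        exact h2
    · refine ih U (fun i => V (i + 1)) f (fwdDiff 1 g) e ?_ ?_ ?_ m
      · intro i hi m
        exact hf i (by omega) m
      · intro i hi m
        have h2 := hg (i + 1) (by omega) m
        rw [Function.iterate_succ_apply] at h2
        exact h2
      · intro i hi
        have h2 := he i (by omega)
        have h3 : n + 1 - i = n - i + 1 := by omega
        rw [h3] at h2
        exact h2

/-! ### the polynomial `prod (X + i)` modulo `p` -/

theorem gm_map (p : ℕ) [Fact p.Prime] :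
    (∏ i ∈ Ico 1 p, (X + C (i : ℤ))).map (Int.castRingHom (ZMod p)) = X ^ (p - 1) - 1 := by
  have hp : p.Prime := Fact.out
  have hp2 := hp.two_le
  have h1 : (∏ i ∈ Ico 1 p, (X + C (i : ℤ))).map (Int.castRingHom (ZMod p)) =
      ∏ i ∈ Ico 1 p, (X + C (i : ZMod p)) := by
    rw [Polynomial.map_prod]
    refine Finset.prod_congr rfl fun i _ => ?_
    simp
  rw [h1]
  have hm : (∏ i ∈ Ico 1 p, (X + C (i : ZMod p))).Monic :=
    monic_prod_of_monic _ _ fun i _ => monic_X_add_C _
  have hd : (∏ i ∈ Ico 1 p, (X + C (i : ZMod p))).natDegree = p - 1 := by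
    rw [natDegree_prod_of_monic _ _ fun i _ => monic_X_add_C _]
    simp only [natDegree_X_add_C, Finset.sum_const, Nat.card_Ico, smul_eq_mul, mul_one]
  have hm2 : (X ^ (p - 1) - 1 : (ZMod p)[X]).Monic := by
    have := monic_X_pow_sub_C (1 : ZMod p) (n := p - 1) (by omega)
    rwa [C_1] at this
  have hd2 : (X ^ (p - 1) - 1 : (ZMod p)[X]).natDegree = p - 1 := by
    have := natDegree_X_pow_sub_C (n := p - 1) (r := (1 : ZMod p))
    rwa [C_1] at this
  have h2 : (∏ i ∈ Ico 1 p, (X + C (i : ZMod p))) - (X ^ (p - 1) - 1) = 0 := by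
    by_contra hne
    have hlt : ((∏ i ∈ Ico 1 p, (X + C (i : ZMod p))) - (X ^ (p - 1) - 1)).degree <
        ((p - 1 : ℕ) : WithBot ℕ) := by
      have := degree_sub_lt_left (p := ∏ i ∈ Ico 1 p, (X + C (i : ZMod p)))
        (q := X ^ (p - 1) - 1) (by
          rw [degree_eq_natDegree hm.ne_zero, degree_eq_natDegree hm2.ne_zero, hd, hd2])
        hm.ne_zero (by rw [hm.leadingCoeff, hm2.leadingCoeff])
      rwa [degree_eq_natDegree hm.ne_zero, hd] at this
    have hroots : (univ.erase (0 : ZMod p)).val ≤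
        ((∏ i ∈ Ico 1 p, (X + C (i : ZMod p))) - (X ^ (p - 1) - 1)).roots := by
      rw [Finset.val_le_iff_val_subset]
      intro a ha
      rw [mem_roots hne, IsRoot.def, eval_sub, eval_sub, eval_pow, eval_X, eval_one]
      have ha0 : a ≠ 0 := by
        have := Finset.mem_erase.1 (Finset.mem_def.2 ha)
        exact this.1
      rw [ZMod.pow_card_sub_one_eq_one ha0, sub_self, sub_zero, eval_prod]
      have hv : (-a).val ≠ 0 := by
        rw [Ne, ZMod.val_eq_zero]
        exact neg_ne_zero.2 ha0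
      refine Finset.prod_eq_zero (i := (-a).val) (Finset.mem_Ico.2
        ⟨by omega, ZMod.val_lt _⟩) ?_
      rw [eval_add, eval_X, eval_C, ZMod.natCast_zmod_val, add_neg_cancel]
    have hcard : (univ.erase (0 : ZMod p)).card ≤
        ((∏ i ∈ Ico 1 p, (X + C (i : ZMod p))) - (X ^ (p - 1) - 1)).roots.card :=
      Multiset.card_le_card hroots
    have h3 := card_roots hne
    rw [Finset.card_erase_of_mem (Finset.mem_univ _), Finset.card_univ, ZMod.card] at hcard
    have h4 : ((p - 1 : ℕ) : WithBot ℕ) ≤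
        ((∏ i ∈ Ico 1 p, (X + C (i : ZMod p))) - (X ^ (p - 1) - 1)).degree :=
      le_trans (by exact_mod_cast hcard) h3
    exact absurd hlt (not_lt.2 h4)
  exact sub_eq_zero.1 h2

/-- the polynomial `-prod(X+i) - 1` -/
noncomputable def gmQ (p : ℕ) : ℤ[X] := -(∏ i ∈ Ico 1 p, (X + C (i : ℤ))) - 1

theorem gmQ_coeff (p : ℕ) [Fact p.Prime] {k : ℕ} (hk : k < p - 1) :
    (p : ℤ) ∣ (gmQ p).coeff k := by
  rw [← ZMod.intCast_zmod_eq_zero_iff_dvd]
  have h1 : ((gmQ p).map (Int.castRingHom (ZMod p))).coeff k = 0 := by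
    unfold gmQ
    rw [Polynomial.map_sub, Polynomial.map_neg, gm_map, Polynomial.map_one]
    have h2 : (-(X ^ (p - 1) - 1) - 1 : (ZMod p)[X]) = -X ^ (p - 1) := by ring
    rw [h2, coeff_neg, coeff_X_pow, if_neg (by omega), neg_zero]
  rw [coeff_map] at h1
  exact h1

theorem gmQ_deg {p : ℕ} (hp : 2 ≤ p) : (gmQ p).natDegree < p := by
  have h1 : (∏ i ∈ Ico 1 p, (X + C (i : ℤ))).natDegree = p - 1 := by
    rw [natDegree_prod_of_monic _ _ fun i _ => monic_X_add_C _]
    simp only [natDegree_X_add_C, Finset.sum_const, Nat.card_Ico, smul_eq_mul, mul_one]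
  unfold gmQ
  refine lt_of_le_of_lt (natDegree_sub_le _ _) ?_
  rw [natDegree_neg, h1, natDegree_one]
  omega

/-- `-Pi - 1` -/
def gmu (p m : ℕ) : ℤ := -Pf p (m : ℤ) - 1

theorem gmu_eq {p : ℕ} (hp : 2 ≤ p) (m : ℕ) :
    gmu p m = ∑ k ∈ range p, ((gmQ p).coeff k * (p : ℤ) ^ k) * (m : ℤ) ^ k := by
  have h1 : gmu p m = (gmQ p).eval ((p : ℤ) * m) := by
    unfold gmu gmQ Pf
    rw [eval_sub, eval_neg, eval_prod, eval_one]
    simp
  rw [h1, eval_eq_sum_range' (gmQ_deg hp)]
  refine Finset.sum_congr rfl fun k _ => ?_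
  rw [mul_pow]
  ring

theorem gm_diff_pow {i k : ℕ} (h : k < i) (m : ℕ) :
    (fwdDiff 1)^[i] (fun m : ℕ => (m : ℤ) ^ k) m = 0 := by
  have h1 : ∀ (i : ℕ) (f : ℤ → ℤ) (m : ℕ), (fwdDiff 1)^[i] (fun m : ℕ => f (m : ℤ)) m =
      (fwdDiff 1)^[i] f (m : ℤ) := by
    intro i
    induction i with
    | zero => intro f m; rfl
    | succ i ih =>
      intro f m
      rw [Function.iterate_succ_apply, Function.iterate_succ_apply]
      have h2 : fwdDiff 1 (fun m : ℕ => f (m : ℤ)) = fun m : ℕ => (fwdDiff 1 f) (m : ℤ) := by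
        funext n
        simp [fwdDiff]
      rw [h2, ih]
  rw [h1 i (fun x => x ^ k) m, fwdDiff_iter_pow_eq_zero_of_lt h, Pi.zero_apply]

theorem gmu_diff {p : ℕ} [Fact p.Prime] (i m : ℕ) :
    (p : ℤ) ^ gmU p i ∣ (fwdDiff 1)^[i] (gmu p) m := by
  have hp : p.Prime := Fact.out
  have h1 : gmu p = ∑ k ∈ range p, ((gmQ p).coeff k * (p : ℤ) ^ k) •
      (fun m : ℕ => (m : ℤ) ^ k) := by
    funext m
    rw [gmu_eq hp.two_le m, Finset.sum_apply]
    rfl
  rw [h1, fwdDiff_iter_finsetSum, Finset.sum_apply]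
  refine Finset.dvd_sum fun k hk => ?_
  rw [Finset.mem_range] at hk
  rw [fwdDiff_iter_const_smul, Pi.smul_apply, smul_eq_mul]
  by_cases hki : k < i
  · rw [gm_diff_pow hki, mul_zero]
    exact dvd_zero _
  · refine Dvd.dvd.mul_right ?_ _
    by_cases hk1 : k < p - 1
    · have h2 : (p : ℤ) ^ (k + 1) ∣ (gmQ p).coeff k * (p : ℤ) ^ k := by
        rw [pow_succ, mul_comm]
        exact mul_dvd_mul (gmQ_coeff p hk1) dvd_rfl
      refine (pow_dvd_pow _ ?_).trans h2
      unfold gmU
      rw [if_neg (by omega)]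
      omega
    · refine Dvd.dvd.mul_left (pow_dvd_pow _ ?_) _
      unfold gmU
      split <;> omega

/-- the values at the natural numbers -/
def gmg (p m : ℕ) : ℤ := ∏ l ∈ range m, (-Pf p (l : ℤ))

theorem gmg_diff {p : ℕ} [Fact p.Prime] (j : ℕ) :
    ∀ m, (p : ℤ) ^ gmW p j ∣ (fwdDiff 1)^[j] (gmg p) m := by
  have hp : p.Prime := Fact.out
  have hp2 := hp.two_le
  induction j using Nat.strong_induction_on with
  | _ j ih =>
    intro m
    rcases j with _ | n
    · have h0 : gmW p 0 = 0 := by simp [gmW]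
      rw [h0, pow_zero]
      exact one_dvd _
    · have h1 : fwdDiff 1 (gmg p) = fun k => gmu p k * gmg p k := by
        funext k
        simp only [fwdDiff, gmg, gmu, Finset.prod_range_succ]
        ring
      rw [Function.iterate_succ_apply, h1]
      refine gm_mul p n (gmU p) (gmW p) (gmu p) (gmg p) _ (fun i _ m => gmu_diff i m)
        (fun i hi m => ih i (by omega) m) ?_ m
      intro i hi
      unfold gmU
      split
      · have h2 := gmW_p (p := p) (by omega) (n - i)
        have h3 : n - i + p = n + 1 := by omega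
        rw [h3] at h2
        omega
      · have h2 := gmW_add p (n - i) (i + 1)
        have h3 : n - i + (i + 1) = n + 1 := by omega
        rw [h3] at h2
        omega

/-! ### sequences of Newton coefficients -/

section newton

variable {R : Type*} [CommRing R]

/-- the value at `m` of the series with Newton coefficients `c` -/
def nev (c : ℕ → R) (m : ℕ) : R := ∑ j ∈ range (m + 1), c j * (m.descFactorial j : R)

theorem nev_of_le (c : ℕ → R) {m N : ℕ} (h : m + 1 ≤ N) :
    ∑ j ∈ range N, c j * (m.descFactorial j : R) = nev c m := by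
  unfold nev
  symm
  refine Finset.sum_subset (Finset.range_subset_range.2 h) fun j _ hj => ?_
  rw [Finset.mem_range, not_lt] at hj
  rw [Nat.descFactorial_of_lt (by omega), Nat.cast_zero, mul_zero]

theorem nev_inj [IsDomain R] [CharZero R] {c : ℕ → R} (h : ∀ m, nev c m = 0) : c = 0 := by
  funext m
  induction m using Nat.strong_induction_on with
  | _ m ih =>
    have h1 := h m
    unfold nev at h1
    rw [Finset.sum_range_succ, Finset.sum_eq_zero, zero_add, Nat.descFactorial_self] at h1
    · rcases mul_eq_zero.1 h1 with h2 | h2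
      · exact h2
      · exact absurd h2 (Nat.cast_ne_zero.2 (Nat.factorial_ne_zero m))
    · intro j hj
      rw [ih j (Finset.mem_range.1 hj), Pi.zero_apply, zero_mul]

/-- the shift operator -/
def nE : (ℕ → R) →ₗ[R] (ℕ → R) where
  toFun c := fun j => c j + ((j : R) + 1) * c (j + 1)
  map_add' a b := by funext j; simp only [Pi.add_apply]; ring
  map_smul' a b := by funext j; simp only [Pi.smul_apply, smul_eq_mul, RingHom.id_apply]; ring

/-- multiplication by `x` -/
def nM : (ℕ → R) →ₗ[R] (ℕ → R) where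
  toFun c := fun j => (if j = 0 then 0 else c (j - 1)) + (j : R) * c j
  map_add' a b := by
    funext j
    by_cases h : j = 0
    · simp [h]
    · simp only [Pi.add_apply, if_neg h]
      ring
  map_smul' a b := by
    funext j
    by_cases h : j = 0
    · simp [h]
    · simp only [Pi.smul_apply, smul_eq_mul, RingHom.id_apply, if_neg h]
      ring

theorem descF_mul (m j : ℕ) : (m : R) * (m.descFactorial j : R) =
    (m.descFactorial (j + 1) : R) + (j : R) * (m.descFactorial j : R) := by
  by_cases h : j ≤ m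
  · rw [Nat.descFactorial_succ, Nat.cast_mul, Nat.cast_sub h]
    ring
  · rw [Nat.descFactorial_of_lt (by omega), Nat.descFactorial_of_lt (by omega)]
    simp

theorem descF_succ (m j : ℕ) : ((m + 1).descFactorial (j + 1) : R) =
    (m.descFactorial (j + 1) : R) + ((j : R) + 1) * (m.descFactorial j : R) := by
  rw [Nat.succ_descFactorial_succ, Nat.cast_mul, Nat.cast_add, Nat.cast_one]
  have h := descF_mul (R := R) m j
  linear_combination h

theorem nev_nE (c : ℕ → R) (m : ℕ) : nev (nE c) m = nev c (m + 1) := by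
  have h1 : nev c (m + 1) = ∑ j ∈ range (m + 1), c (j + 1) * ((m + 1).descFactorial (j + 1) : R) +
      c 0 := by
    unfold nev
    rw [Finset.sum_range_succ']
    simp
  have h2 : ∑ j ∈ range (m + 1), c (j + 1) * (m.descFactorial (j + 1) : R) + c 0 = nev c m := by
    have h5 := Finset.sum_range_succ' (fun j => c j * (m.descFactorial j : R)) (m + 1)
    rw [← nev_of_le c (N := m + 1 + 1) (by omega), h5, Nat.descFactorial_zero, Nat.cast_one,
      mul_one]
  rw [h1, ← sub_eq_zero]
  have h3 : nev (nE c) m = nev c m +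
      ∑ j ∈ range (m + 1), c (j + 1) * (((j : R) + 1) * (m.descFactorial j : R)) := by
    unfold nev
    rw [← Finset.sum_add_distrib]
    refine Finset.sum_congr rfl fun j _ => ?_
    show (c j + ((j : R) + 1) * c (j + 1)) * (m.descFactorial j : R) = _
    ring
  rw [h3, ← h2]
  have h4 : ∑ j ∈ range (m + 1), c (j + 1) * ((m + 1).descFactorial (j + 1) : R) =
      ∑ j ∈ range (m + 1), c (j + 1) * (m.descFactorial (j + 1) : R) +
      ∑ j ∈ range (m + 1), c (j + 1) * (((j : R) + 1) * (m.descFactorial j : R)) := by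
    rw [← Finset.sum_add_distrib]
    refine Finset.sum_congr rfl fun j _ => ?_
    rw [descF_succ]
    ring
  rw [h4]
  ring

theorem nev_nM (c : ℕ → R) (m : ℕ) : nev (nM c) m = (m : R) * nev c m := by
  have h1 : nev (nM c) m = ∑ j ∈ range m, c j * (m.descFactorial (j + 1) : R) +
      ∑ j ∈ range (m + 1), (j : R) * c j * (m.descFactorial j : R) := by
    have h2 : nev (nM c) m =
        ∑ j ∈ range (m + 1), (if j = 0 then 0 else c (j - 1)) * (m.descFactorial j : R) +
        ∑ j ∈ range (m + 1), (j : R) * c j * (m.descFactorial j : R) := by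
      unfold nev
      rw [← Finset.sum_add_distrib]
      refine Finset.sum_congr rfl fun j _ => ?_
      show ((if j = 0 then 0 else c (j - 1)) + (j : R) * c j) * (m.descFactorial j : R) = _
      ring
    rw [h2]
    congr 1
    rw [Finset.sum_range_succ']
    simp
  have h3 : ∑ j ∈ range m, c j * (m.descFactorial (j + 1) : R) =
      ∑ j ∈ range (m + 1), c j * (m.descFactorial (j + 1) : R) := by
    rw [Finset.sum_range_succ, Nat.descFactorial_of_lt (Nat.lt_succ_self m)]
    simp
  rw [h1, h3, ← Finset.sum_add_distrib]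
  unfold nev
  rw [Finset.mul_sum]
  refine Finset.sum_congr rfl fun j _ => ?_
  have h4 := descF_mul (R := R) m j
  linear_combination (-(c j)) * h4

theorem nev_add (c d : ℕ → R) (m : ℕ) : nev (c + d) m = nev c m + nev d m := by
  unfold nev
  rw [← Finset.sum_add_distrib]
  exact Finset.sum_congr rfl fun j _ => by rw [Pi.add_apply, add_mul]

theorem nev_smul (a : R) (c : ℕ → R) (m : ℕ) : nev (a • c) m = a * nev c m := by
  unfold nev
  rw [Finset.mul_sum]
  exact Finset.sum_congr rfl fun j _ => by rw [Pi.smul_apply, smul_eq_mul, mul_assoc]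

theorem nev_aeval (q : R[X]) : ∀ (c : ℕ → R) (m : ℕ),
    nev (aeval (nM : Module.End R (ℕ → R)) q c) m = q.eval (m : R) * nev c m := by
  induction q using Polynomial.induction_on with
  | C a =>
    intro c m
    rw [aeval_C, Module.algebraMap_end_apply, nev_smul, eval_C]
  | add q r hq hr =>
    intro c m
    rw [map_add, LinearMap.add_apply, nev_add, hq, hr, eval_add, add_mul]
  | monomial n a h =>
    intro c m
    rw [pow_succ, ← mul_assoc, map_mul, aeval_X, Module.End.mul_apply, h, nev_nM,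
      eval_mul (p := C a * X ^ n) (q := X), eval_X]
    ring

/-- Newton expansion of a polynomial -/
theorem exists_newton (F : R[X]) : ∃ (c : ℕ → R) (N : ℕ), (∀ j, N ≤ j → c j = 0) ∧
    F = ∑ j ∈ range N, C (c j) * descPochhammer R j := by
  have hext : ∀ (c : ℕ → R) (N N' : ℕ), (∀ j, N ≤ j → c j = 0) → N ≤ N' →
      ∑ j ∈ range N, C (c j) * descPochhammer R j =
        ∑ j ∈ range N', C (c j) * descPochhammer R j := by
    intro c N N' hc hN
    refine Finset.sum_subset (Finset.range_subset_range.2 hN) fun j _ hj => ?_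
    rw [Finset.mem_range, not_lt] at hj
    rw [hc j hj, C_0, zero_mul]
  have hX : ∀ F : R[X], (∃ (c : ℕ → R) (N : ℕ), (∀ j, N ≤ j → c j = 0) ∧
      F = ∑ j ∈ range N, C (c j) * descPochhammer R j) →
      ∃ (c : ℕ → R) (N : ℕ), (∀ j, N ≤ j → c j = 0) ∧
      F * X = ∑ j ∈ range N, C (c j) * descPochhammer R j := by
    rintro F ⟨c, N, hc, rfl⟩
    refine ⟨nM c, N + 1, fun j hj => ?_, ?_⟩
    · show (if j = 0 then 0 else c (j - 1)) + (j : R) * c j = 0
      rw [if_neg (by omega), hc j (by omega), hc (j - 1) (by omega)]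
      ring
    · have h1 : ∑ j ∈ range (N + 1), C ((nM c) j) * descPochhammer R j =
          ∑ j ∈ range (N + 1), C (if j = 0 then 0 else c (j - 1)) * descPochhammer R j +
          ∑ j ∈ range (N + 1), C ((j : R) * c j) * descPochhammer R j := by
        rw [← Finset.sum_add_distrib]
        refine Finset.sum_congr rfl fun j _ => ?_
        show C ((if j = 0 then 0 else c (j - 1)) + (j : R) * c j) * descPochhammer R j = _
        rw [C_add, add_mul]
      have h2 : ∑ j ∈ range (N + 1), C (if j = 0 then 0 else c (j - 1)) * descPochhammer R j =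
          ∑ j ∈ range N, C (c j) * descPochhammer R (j + 1) := by
        rw [Finset.sum_range_succ']
        simp
      have h3 : ∑ j ∈ range (N + 1), C ((j : R) * c j) * descPochhammer R j =
          ∑ j ∈ range N, C ((j : R) * c j) * descPochhammer R j := by
        rw [Finset.sum_range_succ, hc N le_rfl]
        simp
      rw [h1, h2, h3, ← Finset.sum_add_distrib, Finset.sum_mul]
      refine Finset.sum_congr rfl fun j _ => ?_
      rw [descPochhammer_succ_right, C_mul, C_eq_natCast]
      ring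
  induction F using Polynomial.induction_on with
  | C a =>
    refine ⟨fun j => if j = 0 then a else 0, 1, fun j hj => if_neg (by omega), ?_⟩
    rw [Finset.sum_range_one, descPochhammer_zero, mul_one]
    rfl
  | add F G hF hG =>
    obtain ⟨c, N, hc, rfl⟩ := hF
    obtain ⟨d, M, hd, rfl⟩ := hG
    refine ⟨c + d, max N M, fun j hj => ?_, ?_⟩
    · rw [Pi.add_apply, hc j (le_trans (le_max_left _ _) hj),
        hd j (le_trans (le_max_right _ _) hj), add_zero]
    · rw [hext c N _ hc (le_max_left N M), hext d M _ hd (le_max_right N M),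
        ← Finset.sum_add_distrib]
      refine Finset.sum_congr rfl fun j _ => ?_
      rw [Pi.add_apply, C_add, add_mul]
  | monomial n a h =>
    rw [pow_succ, ← mul_assoc]
    exact hX _ h

theorem nev_eval (c : ℕ → R) (N m : ℕ) :
    (∑ j ∈ range N, C (c j) * descPochhammer R j).eval (m : R) =
      nev (fun j => if j < N then c j else 0) m := by
  rw [eval_finsetSum, ← nev_of_le _ (N := N + m + 1) (by omega)]
  have h1 : ∀ j, (C (c j) * descPochhammer R j).eval (m : R) =
      c j * (m.descFactorial j : R) := by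
    intro j
    rw [eval_mul, eval_C, descPochhammer_eval_eq_descFactorial]
  simp only [h1]
  have h2 : ∑ j ∈ range N, c j * (m.descFactorial j : R) =
      ∑ j ∈ range N, (if j < N then c j else 0) * (m.descFactorial j : R) := by
    refine Finset.sum_congr rfl fun j hj => ?_
    rw [if_pos (Finset.mem_range.1 hj)]
  rw [h2]
  refine Finset.sum_subset (Finset.range_subset_range.2 (by omega)) fun j _ hj => ?_
  rw [Finset.mem_range] at hj
  rw [if_neg hj, zero_mul]

end newton

/-! ### the coefficients -/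

theorem gm_newton (p m : ℕ) : ∑ j ∈ range (m + 1),
    (m.choose j : ℤ) * (fwdDiff 1)^[j] (gmg p) 0 = gmg p m := by
  have h := shift_eq_sum_fwdDiff_iter 1 (gmg p) m 0
  rw [zero_add, smul_eq_mul, mul_one] at h
  rw [h]
  exact Finset.sum_congr rfl fun j _ => by rw [nsmul_eq_mul]

/-- divided Newton coefficients -/
theorem gm_delta {p : ℕ} [Fact p.Prime] (hp : 5 ≤ p) (j : ℕ) : ∃ d : ℤ_[p],
    (j.factorial : ℤ_[p]) * d = (((fwdDiff 1)^[j] (gmg p) 0 : ℤ) : ℤ_[p]) ∧
    (p : ℤ_[p]) ^ min j 3 ∣ d ∧ ∀ s, 2 * s ≤ j → (p : ℤ_[p]) ^ s ∣ d := by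
  have hpp : p.Prime := Fact.out
  obtain ⟨c, hc⟩ := gmg_diff (p := p) j 0
  obtain ⟨t, ht, htt⟩ : ∃ t : ℕ, ¬ p ∣ t ∧
      j.factorial = p ^ padicValNat p j.factorial * t := by
    refine ⟨j.factorial / p ^ padicValNat p j.factorial, ?_, ?_⟩
    · rw [← Nat.factorization_def _ hpp]
      exact Nat.not_dvd_ordCompl hpp (Nat.factorial_ne_zero j)
    · rw [Nat.mul_div_cancel' pow_padicValNat_dvd]
  have hv : padicValNat p j.factorial ≤ gmW p j ∧
      min j 3 ≤ gmW p j - padicValNat p j.factorial ∧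
      ∀ s, 2 * s ≤ j → s ≤ gmW p j - padicValNat p j.factorial := by
    rcases Nat.eq_zero_or_pos j with rfl | hj
    · simp
    · have h1 := sub_one_mul_padicValNat_factorial_lt_of_ne_zero p hj.ne'
      have h2 : 4 * padicValNat p j.factorial ≤ (p - 1) * padicValNat p j.factorial :=
        Nat.mul_le_mul_right _ (by omega)
      have h3 : 5 * (j / p) ≤ j :=
        (Nat.mul_le_mul_right _ hp).trans (Nat.mul_div_le j p)
      unfold gmW
      refine ⟨by omega, by omega, fun s hs => by omega⟩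
  have hu : IsUnit (t : ℤ_[p]) := by
    rw [PadicInt.isUnit_iff, PadicInt.norm_natCast_eq_one_iff]
    exact (Nat.Prime.coprime_iff_not_dvd hpp).2 ht
  obtain ⟨u, hu⟩ := hu
  refine ⟨(p : ℤ_[p]) ^ (gmW p j - padicValNat p j.factorial) * ((c : ℤ_[p]) * (↑u⁻¹ : ℤ_[p])),
    ?_, (pow_dvd_pow _ hv.2.1).mul_right _, fun s hs => (pow_dvd_pow _ (hv.2.2 s hs)).mul_right _⟩
  rw [hc, htt]
  push_cast
  have h4 : (p : ℤ_[p]) ^ gmW p j = (p : ℤ_[p]) ^ padicValNat p j.factorial *
      (p : ℤ_[p]) ^ (gmW p j - padicValNat p j.factorial) := by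
    rw [← pow_add]
    congr 1
    omega
  have h5 : (t : ℤ_[p]) * (↑u⁻¹ : ℤ_[p]) = 1 := by
    rw [← hu]
    exact u.mul_inv
  have h6 : padicValNat p (p ^ padicValNat p j.factorial * t) = padicValNat p j.factorial := by
    rw [← htt]
  rw [h6, h4]
  linear_combination ((p : ℤ_[p]) ^ padicValNat p j.factorial *
    (p : ℤ_[p]) ^ (gmW p j - padicValNat p j.factorial) * (c : ℤ_[p])) * h5

theorem gam_exists (p : ℕ) [Fact p.Prime] (hp : 5 ≤ p) :
    ∃ g : ℕ → ℤ_[p][X], ∀ s : ℕ,
      (g s).coeff 0 = 1 ∧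
      ((p : ℤ_[p][X]) ^ s ∣ (g s).comp (X + 1) + Pf p X * g s) ∧
      ((p : ℤ_[p][X]) ^ s ∣ g (s + 1) - g s) ∧
      (∀ i : ℕ, (p : ℤ_[p]) ^ (min i 3) ∣ (g s).coeff i) := by
  choose d hd1 hd2 hd3 using gm_delta (p := p) hp
  -- the series has the right values
  have hval : ∀ m, nev d m = ((gmg p m : ℤ) : ℤ_[p]) := by
    intro m
    rw [← gm_newton]
    unfold nev
    push_cast
    refine Finset.sum_congr rfl fun j _ => ?_
    rw [← hd1 j, Nat.descFactorial_eq_factorial_mul_choose, Nat.cast_mul]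
    ring
  have hPfm : ∀ m : ℕ, (Pf p X : ℤ_[p][X]).eval (m : ℤ_[p]) = ((Pf p (m : ℤ) : ℤ) : ℤ_[p]) := by
    intro m
    unfold Pf
    rw [eval_prod]
    push_cast
    refine Finset.prod_congr rfl fun i _ => ?_
    simp
  let T : (ℕ → ℤ_[p]) →ₗ[ℤ_[p]] (ℕ → ℤ_[p]) :=
    nE + aeval (nM : Module.End ℤ_[p] (ℕ → ℤ_[p])) (Pf p X : ℤ_[p][X])
  have hT : ∀ c m, nev (T c) m = nev c (m + 1) +
      ((Pf p (m : ℤ) : ℤ) : ℤ_[p]) * nev c m := by
    intro c m
    show nev (nE c + aeval (nM : Module.End ℤ_[p] (ℕ → ℤ_[p])) (Pf p X : ℤ_[p][X]) c) m = _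
    rw [nev_add, nev_nE, nev_aeval, hPfm]
  have hTd : T d = 0 := by
    refine nev_inj fun m => ?_
    rw [hT, hval, hval]
    have h1 : gmg p (m + 1) = gmg p m * (-Pf p (m : ℤ)) := Finset.prod_range_succ _ _
    rw [h1]
    push_cast
    ring
  refine ⟨fun s => ∑ j ∈ range (2 * s + 1), C (d j) * descPochhammer ℤ_[p] j, fun s => ?_⟩
  have hps : ∀ s : ℕ, (p : ℤ_[p][X]) ^ s = C ((p : ℤ_[p]) ^ s) := by
    intro s
    rw [C_pow, C_eq_natCast]
  refine ⟨?_, ?_, ?_, ?_⟩
  · show (∑ j ∈ range (2 * s + 1), C (d j) * descPochhammer ℤ_[p] j).coeff 0 = 1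
    rw [Finset.sum_range_succ', coeff_add, finsetSum_coeff, Finset.sum_eq_zero, zero_add,
      descPochhammer_zero, mul_one, coeff_C_zero]
    · have h1 := hd1 0
      have h2 : ((fwdDiff 1)^[0] (gmg p) 0 : ℤ) = 1 := rfl
      rw [h2] at h1
      simpa using h1
    · intro j _
      rw [coeff_C_mul, coeff_zero_eq_eval_zero, descPochhammer_ne_zero_eval_zero _ (Nat.succ_ne_zero j),
        mul_zero]
  · obtain ⟨c, N, hc, hF⟩ := exists_newton
      ((∑ j ∈ range (2 * s + 1), C (d j) * descPochhammer ℤ_[p] j).comp (X + 1) +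
        Pf p X * ∑ j ∈ range (2 * s + 1), C (d j) * descPochhammer ℤ_[p] j)
    -- the tail
    have htail : ∀ j, ∃ e : ℤ_[p], (if j < 2 * s + 1 then 0 else d j) = (p : ℤ_[p]) ^ s * e := by
      intro j
      by_cases h : j < 2 * s + 1
      · exact ⟨0, by rw [if_pos h, mul_zero]⟩
      · rw [if_neg h]
        exact hd3 j s (by omega)
    choose e he using htail
    have hsum : d = (fun j => if j < 2 * s + 1 then d j else 0) + (p : ℤ_[p]) ^ s • e := by
      funext j
      rw [Pi.add_apply, Pi.smul_apply, smul_eq_mul, ← he]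
      by_cases h : j < 2 * s + 1 <;> simp [h]
    have hTlt : T (fun j => if j < 2 * s + 1 then d j else 0) = (p : ℤ_[p]) ^ s • (-T e) := by
      have h1 := hTd
      rw [hsum, map_add, map_smul] at h1
      rw [smul_neg]
      exact eq_neg_of_add_eq_zero_left h1
    have hcT : c = (p : ℤ_[p]) ^ s • (-T e) := by
      rw [← hTlt, ← sub_eq_zero]
      refine nev_inj fun m => ?_
      have h1 : nev (c - T (fun j => if j < 2 * s + 1 then d j else 0)) m =
          nev c m - nev (T (fun j => if j < 2 * s + 1 then d j else 0)) m := by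
        rw [sub_eq_add_neg, ← neg_one_smul ℤ_[p], nev_add, nev_smul]
        ring
      have h2 : nev c m = nev (fun j => if j < N then c j else 0) m := by
        congr 1
        funext j
        by_cases h : j < N
        · rw [if_pos h]
        · rw [if_neg h, hc j (by omega)]
      rw [h1, h2, ← nev_eval, ← hF, hT, eval_add, eval_comp, eval_mul, hPfm, nev_eval]
      have h3 : (X + 1 : ℤ_[p][X]).eval (m : ℤ_[p]) = ((m + 1 : ℕ) : ℤ_[p]) := by
        simp
      rw [h3, nev_eval, sub_self]
    rw [hF, hcT, hps]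
    refine Finset.dvd_sum fun j _ => ?_
    rw [Pi.smul_apply, smul_eq_mul, C_mul, mul_assoc]
    exact dvd_mul_right _ _
  · have h1 : 2 * (s + 1) + 1 = 2 * s + 1 + 1 + 1 := by ring
    show (p : ℤ_[p][X]) ^ s ∣ ∑ j ∈ range (2 * (s + 1) + 1), C (d j) * descPochhammer ℤ_[p] j -
      ∑ j ∈ range (2 * s + 1), C (d j) * descPochhammer ℤ_[p] j
    rw [h1, Finset.sum_range_succ, Finset.sum_range_succ, add_assoc, add_sub_cancel_left, hps]
    refine dvd_add ?_ ?_
    · exact (_root_.map_dvd C (hd3 _ s (by omega))).mul_right _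
    · exact (_root_.map_dvd C (hd3 _ s (by omega))).mul_right _
  · intro i
    rw [finsetSum_coeff]
    refine Finset.dvd_sum fun j _ => ?_
    rw [coeff_C_mul]
    by_cases h : j < i
    · rw [coeff_eq_zero_of_natDegree_lt (by rw [descPochhammer_natDegree]; exact h), mul_zero]
      exact dvd_zero _
    · exact ((pow_dvd_pow _ (by omega)).trans (hd2 j)).mul_right _

end FF1001
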