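import Pool.Agent.W_ff1001_h94.HC
import Pool.Agent.W_ff1001_h94.Gam1

/-! Consequences of the existence of the p-adic Gamma polynomials. -/

set_option autoImplicit false

namespace FF1001

open Finset Polynomial

theorem g2_cmul {A : Type*} [CommRing A] {D a b c d : A} (h : D ∣ a - b) (h' : D ∣ c - d) :
    D ∣ a * c - b * d := by
  have : a * c - b * d = (a - b) * c + b * (c - d) := by ring
  rw [this]
  exact dvd_add (Dvd.dvd.mul_right h _) (Dvd.dvd.mul_left h' _)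

theorem g2_cpow {A : Type*} [CommRing A] {D a b : A} (h : D ∣ a - b) (n : ℕ) :
    D ∣ a ^ n - b ^ n := by
  induction n with
  | zero => simp
  | succ n ih => rw [pow_succ, pow_succ]; exact g2_cmul ih h

theorem g2_ctrans {A : Type*} [CommRing A] {D a b c : A} (h : D ∣ a - b) (h' : D ∣ b - c) :
    D ∣ a - c := by
  have : a - c = (a - b) + (b - c) := by ring
  rw [this]
  exact dvd_add h h'

theorem g2_csymm {A : Type*} [CommRing A] {D a b : A} (h : D ∣ a - b) :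
    D ∣ b - a := by
  have : b - a = -(a - b) := by ring
  rw [this]
  exact (dvd_neg).2 h

theorem g2_Pf_map {A B : Type*} [CommRing A] [CommRing B] (φ : A →+* B) (p : ℕ) (x : A) :
    φ (Pf p x) = Pf p (φ x) := by
  simp [Pf, map_prod]

theorem g2_Pf_refl {A : Type*} [CommRing A] (p : ℕ) (hodd : Even (p - 1)) (x : A) :
    Pf p (-1 - x) = Pf p x := by
  unfold Pf
  have h1 : ∀ i ∈ Ico 1 p, ((p : A) * (-1 - x) + (i : A))
      = (-1) * ((p : A) * x + ((p - i : ℕ) : A)) := by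
    intro i hi
    rw [Finset.mem_Ico] at hi
    rw [Nat.cast_sub hi.2.le]
    ring
  rw [Finset.prod_congr rfl h1, Finset.prod_mul_distrib, Finset.prod_const, Nat.card_Ico,
    hodd.neg_one_pow, one_mul]
  rw [Finset.prod_Ico_reflect (fun j : ℕ => ((p : A) * x + (j : A))) 1 (Nat.le_succ p)]
  have h2 : p + 1 - p = 1 := by omega
  have h3 : p + 1 - 1 = p := by omega
  rw [h2, h3]

theorem g2_even_pred (p : ℕ) [hpp : Fact p.Prime] (hp : 5 ≤ p) : Even (p - 1) :=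
  hpp.out.even_sub_one (by omega)

theorem g2_comp_dvd {A : Type*} [CommRing A] (p s : ℕ) {f : A[X]} (q : A[X])
    (h : (p : A[X]) ^ s ∣ f) : (p : A[X]) ^ s ∣ f.comp q := by
  have := map_dvd (Polynomial.compRingHom q) h
  rw [map_pow, map_natCast] at this
  simpa using this

theorem g2_eval_dvd {A : Type*} [CommRing A] (p s : ℕ) {f : A[X]} (x : A)
    (h : (p : A[X]) ^ s ∣ f) : (p : A) ^ s ∣ f.eval x := by
  have := map_dvd (Polynomial.evalRingHom x) h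
  rw [map_pow, map_natCast] at this
  simpa using this

theorem g2_coeff_dvd {A : Type*} [CommRing A] (p s : ℕ) {f : A[X]} (i : ℕ)
    (h : (p : A[X]) ^ s ∣ f) : (p : A) ^ s ∣ f.coeff i := by
  have h2 : (p : A[X]) ^ s = C ((p : A) ^ s) := by simp
  rw [h2, Polynomial.C_dvd_iff_dvd_coeff] at h
  exact h i

/-- the reflected functional equation -/
theorem g2_refl (p : ℕ) [Fact p.Prime] (hp : 5 ≤ p) (s : ℕ) (g : ℤ_[p][X])
    (h1 : (p : ℤ_[p][X]) ^ s ∣ g.comp (X + 1) + Pf p X * g) :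
    (p : ℤ_[p][X]) ^ s ∣ g.comp (-X) + Pf p X * g.comp (-1 - X) := by
  have h2 := g2_comp_dvd p s (-1 - X : ℤ_[p][X]) h1
  rw [add_comp, mul_comp, comp_assoc] at h2
  have h3 : (Pf p (X : ℤ_[p][X])).comp (-1 - X) = Pf p X := by
    have := g2_Pf_map (Polynomial.compRingHom (-1 - X : ℤ_[p][X])) p X
    simp only [coe_compRingHom_apply, X_comp] at this
    rw [this, g2_Pf_refl p (g2_even_pred p hp)]
  have h4 : (X + 1 : ℤ_[p][X]).comp (-1 - X) = -X := by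
    simp only [add_comp, X_comp, one_comp]; ring
  rw [h3, h4] at h2
  exact h2

/-- `g(x+1) g(-x-1) = g(x) g(-x)` modulo `p^s` -/
theorem g2_E_shift (p : ℕ) [Fact p.Prime] (hp : 5 ≤ p) (s : ℕ) (g : ℤ_[p][X])
    (h1 : (p : ℤ_[p][X]) ^ s ∣ g.comp (X + 1) + Pf p X * g) :
    (p : ℤ_[p][X]) ^ s ∣ (g * g.comp (-X)).comp (X + 1) - g * g.comp (-X) := by
  have h2 := g2_refl p hp s g h1
  have h3 : (g * g.comp (-X)).comp (X + 1) - g * g.comp (-X)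
      = (g.comp (X + 1) + Pf p X * g) * g.comp (-1 - X)
        - g * (g.comp (-X) + Pf p X * g.comp (-1 - X)) := by
    rw [mul_comp, comp_assoc]
    have h4 : (-X : ℤ_[p][X]).comp (X + 1) = -1 - X := by
      simp only [neg_comp, X_comp]; ring
    rw [h4]; ring
  rw [h3]
  exact dvd_sub (Dvd.dvd.mul_right h1 _) (Dvd.dvd.mul_left h2 _)

theorem g2_E_eval (p : ℕ) [Fact p.Prime] (hp : 5 ≤ p) (s : ℕ) (g : ℤ_[p][X])
    (h0 : g.coeff 0 = 1)
    (h1 : (p : ℤ_[p][X]) ^ s ∣ g.comp (X + 1) + Pf p X * g) (m : ℕ) :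
    (p : ℤ_[p]) ^ s ∣ (g * g.comp (-X)).eval (m : ℤ_[p]) - 1 := by
  induction m with
  | zero =>
    have : (g * g.comp (-X)).eval ((0 : ℕ) : ℤ_[p]) - 1 = 0 := by
      rw [Nat.cast_zero, eval_mul, eval_comp, eval_neg, eval_X, neg_zero,
        ← coeff_zero_eq_eval_zero, h0]
      ring
    rw [this]; exact dvd_zero _
  | succ m ih =>
    have h2 := g2_eval_dvd p s (m : ℤ_[p]) (g2_E_shift p hp s g h1)
    rw [eval_sub, eval_comp, eval_add, eval_X, eval_one] at h2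
    rw [Nat.cast_succ]
    exact g2_ctrans h2 ih

theorem g2_coeff_mul0 {A : Type*} [CommRing A] (f g : A[X]) :
    (f * g).coeff 0 = f.coeff 0 * g.coeff 0 := by
  simp [coeff_mul]

theorem g2_coeff_mul1 {A : Type*} [CommRing A] (f g : A[X]) :
    (f * g).coeff 1 = f.coeff 0 * g.coeff 1 + f.coeff 1 * g.coeff 0 := by
  simp [coeff_mul, Finset.Nat.antidiagonal_succ]

theorem g2_coeff_mul2 {A : Type*} [CommRing A] (f g : A[X]) :
    (f * g).coeff 2 = f.coeff 0 * g.coeff 2 + f.coeff 1 * g.coeff 1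
      + f.coeff 2 * g.coeff 0 := by
  simp [coeff_mul, Finset.Nat.antidiagonal_succ]; ring

theorem g2_coeff_comp {A : Type*} [CommRing A] (f : A[X]) (r : A) (n : ℕ) :
    (f.comp (C r * X)).coeff n = f.coeff n * r ^ n := by
  exact comp_C_mul_X_coeff

theorem g2_coeff_neg {A : Type*} [CommRing A] (f : A[X]) (n : ℕ) :
    (f.comp (-X)).coeff n = f.coeff n * (-1) ^ n := by
  have : (-X : A[X]) = C (-1) * X := by simp
  rw [this, g2_coeff_comp]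

theorem g2_expand {A : Type*} [CommRing A] (f : A[X]) :
    ∃ F : A[X], f = C (f.coeff 0) + C (f.coeff 1) * X + C (f.coeff 2) * X ^ 2
      + C (f.coeff 3) * X ^ 3 + X ^ 4 * F := by
  have h : X ^ 4 ∣ f - (C (f.coeff 0) + C (f.coeff 1) * X + C (f.coeff 2) * X ^ 2
      + C (f.coeff 3) * X ^ 3) := by
    rw [X_pow_dvd_iff]
    intro d hd
    interval_cases d <;> simp [coeff_X, coeff_C]
  obtain ⟨F, hF⟩ := h
  exact ⟨F, by rw [← hF]; ring⟩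

theorem g2_key (p : ℕ) [Fact p.Prime] (hp : 5 ≤ p) (a : ℕ) (g : ℤ_[p][X])
    (h0 : g.coeff 0 = 1)
    (h1 : (p : ℤ_[p][X]) ^ (4 * a) ∣ g.comp (X + 1) + Pf p X * g) :
    (p : ℤ_[p]) ^ (2 * a) ∣ 2 * g.coeff 2 - g.coeff 1 ^ 2 := by
  set E := g * g.comp (-X) with hE
  have hsym : ∀ n, E.coeff n = E.coeff n * (-1) ^ n := by
    intro n
    rw [← g2_coeff_neg]
    have : E.comp (-X) = E := by
      rw [hE, mul_comp, comp_assoc]
      have : (-X : ℤ_[p][X]).comp (-X) = X := by simp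
      rw [this, comp_X, mul_comm]
    rw [this]
  have hc1 : E.coeff 1 = 0 := by
    have := hsym 1
    have h2 : (2 : ℤ_[p]) * E.coeff 1 = 0 := by linear_combination this
    rcases mul_eq_zero.1 h2 with h | h
    · exact absurd h two_ne_zero
    · exact h
  have hc3 : E.coeff 3 = 0 := by
    have := hsym 3
    have h2 : (2 : ℤ_[p]) * E.coeff 3 = 0 := by linear_combination this
    rcases mul_eq_zero.1 h2 with h | h
    · exact absurd h two_ne_zero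
    · exact h
  have hc0 : E.coeff 0 = 1 := by
    rw [hE, g2_coeff_mul0, g2_coeff_neg, h0]; ring
  have hc2 : E.coeff 2 = 2 * g.coeff 2 - g.coeff 1 ^ 2 := by
    rw [hE, g2_coeff_mul2, g2_coeff_neg, g2_coeff_neg, g2_coeff_neg, h0]; ring
  obtain ⟨F, hF⟩ := g2_expand E
  have hev := g2_E_eval p hp (4 * a) g h0 h1 (p ^ a)
  rw [← hE, hF, hc0, hc1, hc2, hc3] at hev
  have h5 : (C (1 : ℤ_[p]) + C 0 * X + C (2 * g.coeff 2 - g.coeff 1 ^ 2) * X ^ 2 + C 0 * X ^ 3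
      + X ^ 4 * F).eval ((p ^ a : ℕ) : ℤ_[p]) - 1
      = (p : ℤ_[p]) ^ (2 * a) * (2 * g.coeff 2 - g.coeff 1 ^ 2)
        + (p : ℤ_[p]) ^ (4 * a) * F.eval ((p ^ a : ℕ) : ℤ_[p]) := by
    simp only [eval_add, eval_mul, eval_C, eval_X, eval_pow]
    push_cast
    ring
  rw [h5] at hev
  have h6 : (p : ℤ_[p]) ^ (4 * a) ∣ (p : ℤ_[p]) ^ (2 * a) * (2 * g.coeff 2 - g.coeff 1 ^ 2) := by
    have := dvd_sub hev (Dvd.intro (F.eval ((p ^ a : ℕ) : ℤ_[p])) rfl)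
    simpa using this
  have h7 : (p : ℤ_[p]) ^ (4 * a) = (p : ℤ_[p]) ^ (2 * a) * (p : ℤ_[p]) ^ (2 * a) := by
    rw [← pow_add]; congr 1; ring
  rw [h7] at h6
  have hpne : (p : ℤ_[p]) ^ (2 * a) ≠ 0 :=
    pow_ne_zero _ (by exact_mod_cast (Fact.out : p.Prime).ne_zero)
  exact (mul_dvd_mul_iff_left hpne).1 h6

theorem g2_coherent (p : ℕ) [Fact p.Prime] (g : ℕ → ℤ_[p][X])
    (h2 : ∀ s, (p : ℤ_[p][X]) ^ s ∣ g (s + 1) - g s) (s n : ℕ) :
    (p : ℤ_[p][X]) ^ s ∣ g (s + n) - g s := by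
  induction n with
  | zero => simp
  | succ n ih =>
    have h3 : (p : ℤ_[p][X]) ^ s ∣ g (s + (n + 1)) - g (s + n) :=
      dvd_trans (pow_dvd_pow _ (Nat.le_add_right s n)) (h2 (s + n))
    exact g2_ctrans h3 ih

theorem gam_even (p : ℕ) [Fact p.Prime] (hp : 5 ≤ p) (g : ℕ → ℤ_[p][X])
    (h0 : ∀ s, (g s).coeff 0 = 1)
    (h1 : ∀ s, (p : ℤ_[p][X]) ^ s ∣ (g s).comp (X + 1) + Pf p X * g s)
    (h2 : ∀ s, (p : ℤ_[p][X]) ^ s ∣ g (s + 1) - g s) (s : ℕ) :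
    (p : ℤ_[p]) ^ s ∣ 2 * (g s).coeff 2 - (g s).coeff 1 ^ 2 := by
  have h3 := g2_key p hp s (g (4 * s)) (h0 _) (h1 _)
  have h4 : (p : ℤ_[p]) ^ s ∣ 2 * (g (4 * s)).coeff 2 - (g (4 * s)).coeff 1 ^ 2 :=
    dvd_trans (pow_dvd_pow _ (by omega)) h3
  have h5 := g2_coherent p g h2 s (3 * s)
  have h6 : s + 3 * s = 4 * s := by ring
  rw [h6] at h5
  have h7 := g2_coeff_dvd p s 1 h5
  have h8 := g2_coeff_dvd p s 2 h5
  rw [coeff_sub] at h7 h8
  have h9 := g2_cpow h7 2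
  have h10 : 2 * (g s).coeff 2 - (g s).coeff 1 ^ 2
      = (2 * (g (4 * s)).coeff 2 - (g (4 * s)).coeff 1 ^ 2)
        - 2 * ((g (4 * s)).coeff 2 - (g s).coeff 2)
        + ((g (4 * s)).coeff 1 ^ 2 - (g s).coeff 1 ^ 2) := by ring
  rw [h10]
  exact dvd_add (dvd_sub h4 (Dvd.dvd.mul_left h8 _)) h9

/-- the weight condition `p^(min i 3)` divides the `i`-th coefficient -/
def G2W (p : ℕ) [Fact p.Prime] (f : ℤ_[p][X]) : Prop :=
  ∀ i : ℕ, (p : ℤ_[p]) ^ (min i 3) ∣ f.coeff i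

theorem g2_W_mul (p : ℕ) [Fact p.Prime] {f g : ℤ_[p][X]} (hf : G2W p f) (hg : G2W p g) :
    G2W p (f * g) := by
  intro i
  rw [coeff_mul]
  refine Finset.dvd_sum ?_
  rintro ⟨a, b⟩ hab
  rw [HasAntidiagonal.mem_antidiagonal] at hab
  have h1 : (p : ℤ_[p]) ^ (min a 3 + min b 3) ∣ f.coeff a * g.coeff b := by
    rw [pow_add]; exact mul_dvd_mul (hf a) (hg b)
  refine dvd_trans (pow_dvd_pow _ ?_) h1
  have : a + b = i := hab
  omega

theorem g2_W_pow (p : ℕ) [Fact p.Prime] {f : ℤ_[p][X]} (hf : G2W p f) (n : ℕ) :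
    G2W p (f ^ n) := by
  induction n with
  | zero =>
    intro i
    rw [pow_zero, coeff_one]
    split_ifs with h
    · rw [h]; simp
    · exact dvd_zero _
  | succ n ih => rw [pow_succ]; exact g2_W_mul p ih hf

theorem g2_W_sum (p : ℕ) [Fact p.Prime] {ι : Type*} (t : Finset ι) (f : ι → ℤ_[p][X])
    (hf : ∀ i ∈ t, G2W p (f i)) : G2W p (∑ i ∈ t, f i) := by
  intro i
  rw [finsetSum_coeff]
  exact Finset.dvd_sum (fun j hj => hf j hj i)

theorem g2_W_comp (p : ℕ) [Fact p.Prime] {f q : ℤ_[p][X]} (hf : G2W p f)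
    (hq : q.natDegree ≤ 1) : G2W p (f.comp q) := by
  rw [Polynomial.comp, Polynomial.eval₂_eq_sum_range]
  refine g2_W_sum p _ _ ?_
  intro j _ i
  rw [coeff_C_mul]
  by_cases hij : i ≤ j
  · refine dvd_trans (pow_dvd_pow _ ?_) (Dvd.dvd.mul_right (hf j) _)
    omega
  · have h1 : (q ^ j).coeff i = 0 := by
      refine coeff_eq_zero_of_natDegree_lt ?_
      have h2 : (q ^ j).natDegree ≤ j * 1 := natDegree_pow_le_of_le j hq
      omega
    rw [h1, mul_zero]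
    exact dvd_zero _

theorem g2_eval_nat (p : ℕ) [Fact p.Prime] (s : ℕ) (g : ℤ_[p][X])
    (h0 : g.coeff 0 = 1)
    (h1 : (p : ℤ_[p][X]) ^ s ∣ g.comp (X + 1) + Pf p X * g) (m : ℕ) :
    (p : ℤ_[p]) ^ s ∣ g.eval (m : ℤ_[p]) - (-1) ^ m * (Gm p m : ℤ_[p]) := by
  induction m with
  | zero =>
    have : g.eval ((0 : ℕ) : ℤ_[p]) - (-1) ^ 0 * (Gm p 0 : ℤ_[p]) = 0 := by
      rw [Nat.cast_zero, ← coeff_zero_eq_eval_zero, h0]
      simp [Gm]
    rw [this]; exact dvd_zero _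
  | succ m ih =>
    have h2 := g2_eval_dvd p s (m : ℤ_[p]) h1
    have h3 : (Pf p (X : ℤ_[p][X])).eval (m : ℤ_[p]) = ((Pf p m : ℕ) : ℤ_[p]) := by
      have e1 := g2_Pf_map (Polynomial.evalRingHom (m : ℤ_[p])) p X
      simp only [coe_evalRingHom, eval_X] at e1
      rw [e1]
      simp [Pf]
    rw [eval_add, eval_mul, eval_comp, eval_add, eval_X, eval_one, h3] at h2
    rw [Nat.cast_succ]
    have h4 : (Gm p (m + 1) : ℤ_[p]) = (Gm p m : ℤ_[p]) * ((Pf p m : ℕ) : ℤ_[p]) := by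
      unfold Gm
      rw [Finset.prod_range_succ]
      push_cast
      rfl
    rw [h4]
    have h5 : eval ((m : ℤ_[p]) + 1) g
          - (-1) ^ (m + 1) * ((Gm p m : ℤ_[p]) * ((Pf p m : ℕ) : ℤ_[p]))
        = (eval ((m : ℤ_[p]) + 1) g + ((Pf p m : ℕ) : ℤ_[p]) * eval (m : ℤ_[p]) g)
          - ((Pf p m : ℕ) : ℤ_[p]) * (eval (m : ℤ_[p]) g - (-1) ^ m * (Gm p m : ℤ_[p])) := by
      ring
    rw [h5]
    exact dvd_sub h2 (Dvd.dvd.mul_left ih _)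

theorem g2_eval_neg (p : ℕ) [Fact p.Prime] (hp : 5 ≤ p) (s : ℕ) (g : ℤ_[p][X])
    (h0 : g.coeff 0 = 1)
    (h1 : (p : ℤ_[p][X]) ^ s ∣ g.comp (X + 1) + Pf p X * g) (m : ℕ) :
    (p : ℤ_[p]) ^ s ∣ g.eval (-(m : ℤ_[p])) * ((-1) ^ m * (Gm p m : ℤ_[p])) - 1 := by
  have h2 := g2_E_eval p hp s g h0 h1 m
  have h3 := g2_eval_nat p s g h0 h1 m
  rw [eval_mul, eval_comp, eval_neg, eval_X] at h2
  have h4 : (p : ℤ_[p]) ^ s ∣ g.eval (-(m : ℤ_[p])) * ((-1) ^ m * (Gm p m : ℤ_[p]))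
      - g.eval (-(m : ℤ_[p])) * g.eval (m : ℤ_[p]) := by
    rw [← mul_sub]
    exact Dvd.dvd.mul_left (g2_csymm h3) _
  refine g2_ctrans h4 ?_
  rw [mul_comm]
  exact h2

theorem g2_shift4 (p : ℕ) [Fact p.Prime] (s : ℕ) (g : ℤ_[p][X])
    (h1 : (p : ℤ_[p][X]) ^ s ∣ g.comp (X + 1) + Pf p X * g) :
    (p : ℤ_[p][X]) ^ s ∣ (Pf p (4 * X) * Pf p (4 * X + 1) * Pf p (4 * X + 2)
          * Pf p (4 * X + 3)) * g.comp (4 * X) - g.comp (4 * X + 4) := by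
  have hc : ∀ c : ℤ_[p][X], (p : ℤ_[p][X]) ^ s ∣
      g.comp (4 * X + c + 1) + Pf p (4 * X + c) * g.comp (4 * X + c) := by
    intro c
    have h2 := g2_comp_dvd p s (4 * X + c) h1
    rw [add_comp, mul_comp, comp_assoc] at h2
    have h3 : (Pf p (X : ℤ_[p][X])).comp (4 * X + c) = Pf p (4 * X + c) := by
      have := g2_Pf_map (Polynomial.compRingHom (4 * X + c : ℤ_[p][X])) p X
      simp only [coe_compRingHom_apply, X_comp] at this
      exact this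
    have h4 : (X + 1 : ℤ_[p][X]).comp (4 * X + c) = 4 * X + c + 1 := by
      simp only [add_comp, X_comp, one_comp]
    rw [h3, h4] at h2
    exact h2
  have a0 := hc 0
  have a1 := hc 1
  have a2 := hc 2
  have a3 := hc 3
  have e1 : (4 * X + 0 + 1 : ℤ_[p][X]) = 4 * X + 1 := by ring
  have e2 : (4 * X + 1 + 1 : ℤ_[p][X]) = 4 * X + 2 := by ring
  have e3 : (4 * X + 2 + 1 : ℤ_[p][X]) = 4 * X + 3 := by ring
  have e4 : (4 * X + 3 + 1 : ℤ_[p][X]) = 4 * X + 4 := by ring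
  rw [e1, add_zero] at a0
  rw [e2] at a1
  rw [e3] at a2
  rw [e4] at a3
  have e5 : (Pf p (4 * X) * Pf p (4 * X + 1) * Pf p (4 * X + 2)
          * Pf p (4 * X + 3)) * g.comp (4 * X) - g.comp (4 * X + 4)
      = Pf p (4 * X + 1) * Pf p (4 * X + 2) * Pf p (4 * X + 3)
          * (g.comp (4 * X + 1) + Pf p (4 * X) * g.comp (4 * X))
        - Pf p (4 * X + 2) * Pf p (4 * X + 3)
          * (g.comp (4 * X + 2) + Pf p (4 * X + 1) * g.comp (4 * X + 1))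
        + Pf p (4 * X + 3) * (g.comp (4 * X + 3) + Pf p (4 * X + 2) * g.comp (4 * X + 2))
        - (g.comp (4 * X + 4) + Pf p (4 * X + 3) * g.comp (4 * X + 3)) := by ring
  rw [e5]
  exact dvd_sub (dvd_add (dvd_sub (Dvd.dvd.mul_left a0 _) (Dvd.dvd.mul_left a1 _))
    (Dvd.dvd.mul_left a2 _)) a3

theorem g2_AQ (p : ℕ) [Fact p.Prime] (hp : 5 ≤ p)
    (hg : ∃ g : ℕ → ℤ_[p][X], ∀ s : ℕ,
      (g s).coeff 0 = 1 ∧
      ((p : ℤ_[p][X]) ^ s ∣ (g s).comp (X + 1) + Pf p X * g s) ∧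
      ((p : ℤ_[p][X]) ^ s ∣ g (s + 1) - g s) ∧
      (∀ i : ℕ, (p : ℤ_[p]) ^ (min i 3) ∣ (g s).coeff i)) :
    ∃ A Q : ℕ → ℤ_[p][X], ∀ s : ℕ,
      ((p : ℤ_[p][X]) ^ s ∣ A s * Pf p X ^ 4 - Q s) ∧
      ((p : ℤ_[p][X]) ^ s ∣ (Pf p (4 * X) * Pf p (4 * X + 1) * Pf p (4 * X + 2)
          * Pf p (4 * X + 3)) * A s - (Q s).comp (X + 1)) ∧
      ((p : ℤ_[p]) ^ s ∣ (Q s).coeff 0 - 1) ∧ ((p : ℤ_[p]) ^ s ∣ (Q s).coeff 1) ∧
      ((p : ℤ_[p]) ^ s ∣ (Q s).coeff 2) ∧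
      (∀ i : ℕ, (p : ℤ_[p]) ^ (min i 3) ∣ (A s).coeff i) ∧
      ((p : ℤ_[p][X]) ^ s ∣ A (s + 1) - A s) ∧
      (∀ m : ℕ, (p : ℤ_[p]) ^ s ∣ (A s).eval (m : ℤ_[p]) * (Gm p (m + 1) : ℤ_[p]) ^ 4
          - (Gm p (4 * m) : ℤ_[p])) := by
  obtain ⟨g, hg⟩ := hg
  have h0 : ∀ s, (g s).coeff 0 = 1 := fun s => (hg s).1
  have h1 : ∀ s, (p : ℤ_[p][X]) ^ s ∣ (g s).comp (X + 1) + Pf p X * g s := fun s => (hg s).2.1
  have h2 : ∀ s, (p : ℤ_[p][X]) ^ s ∣ g (s + 1) - g s := fun s => (hg s).2.2.1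
  have hW : ∀ s, G2W p (g s) := fun s => (hg s).2.2.2
  refine ⟨fun s => (g s).comp (4 * X) * ((g s).comp (-1 - X)) ^ 4,
    fun s => (g s).comp (4 * X) * ((g s).comp (-X)) ^ 4, ?_⟩
  intro s
  have hr := g2_refl p hp s (g s) (h1 s)
  have c4 : (C (4 : ℤ_[p]) : ℤ_[p][X]) = 4 := map_ofNat C 4
  have q4 : (4 * X : ℤ_[p][X]) = C 4 * X := by rw [c4]
  have k0 : ∀ n, ((g s).comp (4 * X)).coeff n = (g s).coeff n * 4 ^ n := by
    intro n; rw [q4, g2_coeff_comp]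
  have k1 : ∀ n, ((g s).comp (-X)).coeff n = (g s).coeff n * (-1) ^ n := by
    intro n; rw [g2_coeff_neg]
  have k2 : ((g s).comp (-X)) ^ 4 = ((g s).comp (-X) * (g s).comp (-X))
      * ((g s).comp (-X) * (g s).comp (-X)) := by ring
  refine ⟨?_, ?_, ?_, ?_, ?_, ?_, ?_, ?_⟩
  · have e1 : (p : ℤ_[p][X]) ^ s ∣ -(Pf p X * (g s).comp (-1 - X)) - (g s).comp (-X) := by
      have : -(Pf p X * (g s).comp (-1 - X)) - (g s).comp (-X)
          = -((g s).comp (-X) + Pf p X * (g s).comp (-1 - X)) := by ring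
      rw [this]; exact (dvd_neg).2 hr
    have e2 := g2_cpow e1 4
    have e3 : (g s).comp (4 * X) * ((g s).comp (-1 - X)) ^ 4 * Pf p X ^ 4
        - (g s).comp (4 * X) * ((g s).comp (-X)) ^ 4
        = (g s).comp (4 * X) * ((-(Pf p X * (g s).comp (-1 - X))) ^ 4
          - ((g s).comp (-X)) ^ 4) := by ring
    show (p : ℤ_[p][X]) ^ s ∣ (g s).comp (4 * X) * ((g s).comp (-1 - X)) ^ 4 * Pf p X ^ 4
        - (g s).comp (4 * X) * ((g s).comp (-X)) ^ 4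
    rw [e3]
    exact Dvd.dvd.mul_left e2 _
  · show (p : ℤ_[p][X]) ^ s ∣ (Pf p (4 * X) * Pf p (4 * X + 1) * Pf p (4 * X + 2)
          * Pf p (4 * X + 3)) * ((g s).comp (4 * X) * ((g s).comp (-1 - X)) ^ 4)
          - ((g s).comp (4 * X) * ((g s).comp (-X)) ^ 4).comp (X + 1)
    have e1 := g2_shift4 p s (g s) (h1 s)
    have e2 : ((g s).comp (4 * X) * ((g s).comp (-X)) ^ 4).comp (X + 1)
        = (g s).comp (4 * X + 4) * ((g s).comp (-1 - X)) ^ 4 := by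
      rw [mul_comp, pow_comp, comp_assoc, comp_assoc]
      have e3 : (4 * X : ℤ_[p][X]).comp (X + 1) = 4 * X + 4 := by
        rw [q4, mul_comp, C_comp, X_comp]
        rw [c4]; ring
      have e4 : (-X : ℤ_[p][X]).comp (X + 1) = -1 - X := by
        simp only [neg_comp, X_comp]; ring
      rw [e3, e4]
    rw [e2]
    have e5 : (Pf p (4 * X) * Pf p (4 * X + 1) * Pf p (4 * X + 2)
          * Pf p (4 * X + 3)) * ((g s).comp (4 * X) * ((g s).comp (-1 - X)) ^ 4)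
          - (g s).comp (4 * X + 4) * ((g s).comp (-1 - X)) ^ 4
        = ((Pf p (4 * X) * Pf p (4 * X + 1) * Pf p (4 * X + 2)
          * Pf p (4 * X + 3)) * (g s).comp (4 * X) - (g s).comp (4 * X + 4))
          * ((g s).comp (-1 - X)) ^ 4 := by ring
    rw [e5]
    exact Dvd.dvd.mul_right e1 _
  · show (p : ℤ_[p]) ^ s ∣ ((g s).comp (4 * X) * ((g s).comp (-X)) ^ 4).coeff 0 - 1
    rw [k2, g2_coeff_mul0, g2_coeff_mul0, g2_coeff_mul0, k0, k1, h0]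
    simp
  · show (p : ℤ_[p]) ^ s ∣ ((g s).comp (4 * X) * ((g s).comp (-X)) ^ 4).coeff 1
    have e1 : ((g s).comp (4 * X) * ((g s).comp (-X)) ^ 4).coeff 1 = 0 := by
      simp only [k2, g2_coeff_mul1, g2_coeff_mul0, k0, k1, h0]
      ring
    rw [e1]
    exact dvd_zero _
  · show (p : ℤ_[p]) ^ s ∣ ((g s).comp (4 * X) * ((g s).comp (-X)) ^ 4).coeff 2
    have e1 : ((g s).comp (4 * X) * ((g s).comp (-X)) ^ 4).coeff 2
        = 10 * (2 * (g s).coeff 2 - (g s).coeff 1 ^ 2) := by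
      simp only [k2, g2_coeff_mul2, g2_coeff_mul1, g2_coeff_mul0, k0, k1, h0]
      ring
    rw [e1]
    exact Dvd.dvd.mul_left (gam_even p hp g h0 h1 h2 s) _
  · intro i
    refine g2_W_mul p (g2_W_comp p (hW s) ?_) (g2_W_pow p (g2_W_comp p (hW s) ?_) 4) i
    · rw [q4]; compute_degree
    · compute_degree
  · show (p : ℤ_[p][X]) ^ s ∣ (g (s + 1)).comp (4 * X) * ((g (s + 1)).comp (-1 - X)) ^ 4
      - (g s).comp (4 * X) * ((g s).comp (-1 - X)) ^ 4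
    refine g2_cmul ?_ (g2_cpow ?_ 4)
    · rw [← sub_comp]; exact g2_comp_dvd p s _ (h2 s)
    · rw [← sub_comp]; exact g2_comp_dvd p s _ (h2 s)
  · intro m
    show (p : ℤ_[p]) ^ s ∣ ((g s).comp (4 * X) * ((g s).comp (-1 - X)) ^ 4).eval (m : ℤ_[p])
      * (Gm p (m + 1) : ℤ_[p]) ^ 4 - (Gm p (4 * m) : ℤ_[p])
    have e1 := g2_eval_nat p s (g s) (h0 s) (h1 s) (4 * m)
    have e2 := g2_eval_neg p hp s (g s) (h0 s) (h1 s) (m + 1)
    have e3 := g2_cmul e1 (g2_cpow e2 4)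
    have e4 : ((g s).comp (4 * X) * ((g s).comp (-1 - X)) ^ 4).eval (m : ℤ_[p])
        = (g s).eval ((4 * m : ℕ) : ℤ_[p]) * ((g s).eval (-((m + 1 : ℕ) : ℤ_[p]))) ^ 4 := by
      rw [eval_mul, eval_pow, eval_comp, eval_comp, q4]
      simp only [eval_mul, eval_C, eval_X, eval_sub, eval_neg, eval_one]
      congr 2
      · push_cast; ring_nf
      · congr 1; push_cast; ring
    rw [e4]
    have e5 : (-1 : ℤ_[p]) ^ (4 * m) = 1 := by
      rw [pow_mul]; norm_num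
    have e6 : ((-1 : ℤ_[p]) ^ (m + 1)) ^ 4 = 1 := by
      rw [← pow_mul, mul_comm, pow_mul]; norm_num
    rw [e5, one_mul, one_pow, mul_one, mul_pow, mul_pow, e6, one_mul] at e3
    have e7 : (g s).eval ((4 * m : ℕ) : ℤ_[p]) * ((g s).eval (-((m + 1 : ℕ) : ℤ_[p]))) ^ 4
        * (Gm p (m + 1) : ℤ_[p]) ^ 4
        = (g s).eval ((4 * m : ℕ) : ℤ_[p]) * (((g s).eval (-((m + 1 : ℕ) : ℤ_[p]))) ^ 4
        * (Gm p (m + 1) : ℤ_[p]) ^ 4) := by ring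
    rw [e7]
    exact e3

theorem AQ_exists (p : ℕ) [Fact p.Prime] (hp : 5 ≤ p) :
    ∃ A Q : ℕ → ℤ_[p][X], ∀ s : ℕ,
      ((p : ℤ_[p][X]) ^ s ∣ A s * Pf p X ^ 4 - Q s) ∧
      ((p : ℤ_[p][X]) ^ s ∣ (Pf p (4 * X) * Pf p (4 * X + 1) * Pf p (4 * X + 2)
          * Pf p (4 * X + 3)) * A s - (Q s).comp (X + 1)) ∧
      ((p : ℤ_[p]) ^ s ∣ (Q s).coeff 0 - 1) ∧ ((p : ℤ_[p]) ^ s ∣ (Q s).coeff 1) ∧
      ((p : ℤ_[p]) ^ s ∣ (Q s).coeff 2) ∧
      (∀ i : ℕ, (p : ℤ_[p]) ^ (min i 3) ∣ (A s).coeff i) ∧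
      ((p : ℤ_[p][X]) ^ s ∣ A (s + 1) - A s) ∧
      (∀ m : ℕ, (p : ℤ_[p]) ^ s ∣ (A s).eval (m : ℤ_[p]) * (Gm p (m + 1) : ℤ_[p]) ^ 4
          - (Gm p (4 * m) : ℤ_[p])) :=
  g2_AQ p hp (gam_exists p hp)

end FF1001
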