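import Pool.Agent.W_ff1001_h94.Der

/-! The modular equation of degree 5 in algebraic form: the data at a point `h`. -/

namespace FF1001

open Finset Polynomial

/-- truncated exponential `(1+pv)^x`; `β j = p^j binom(x,j)` -/
noncomputable def Ef {p : ℕ} [Fact p.Prime] (β : ℕ → ℤ_[p][X]) {S : Type*} [CommRing S]
    [Algebra ℤ_[p] S] (s : ℕ) (v : S) : S[X] :=
  ∑ j ∈ range (2 * s), C (v ^ j) * (β j).map (algebraMap ℤ_[p] S)

/-- data: `h` and the inverses of the five denominators -/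
structure HC (S : Type*) [CommRing S] where
  h : S
  ia : S
  ib : S
  ic : S
  iX : S
  iY : S
  ha : (1 + 25 * h) * ia = 1
  hb : (1 + h) * ib = 1
  hc : (1 + 6 * h + 25 * h ^ 2) * ic = 1
  hX : (1 - 75 * h - 625 * h ^ 2 - 3125 * h ^ 3) * iX = 1
  hY : (1 + 5 * h + 15 * h ^ 2 - 5 * h ^ 3) * iY = 1

namespace HC

variable {S : Type*} [CommRing S] (c : HC S)

/-- `X(h)` -/
def Xv : S := c.h * c.ia ^ 4 * c.ic
/-- `Y(h)` -/
def Yv : S := c.h ^ 5 * c.ib ^ 4 * c.ic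
/-- inverse of `1 - 256 X` -/
def izX : S := (1 + 25 * c.h) ^ 4 * (1 + 6 * c.h + 25 * c.h ^ 2) * c.iX ^ 2
/-- inverse of `1 - 256 Y` -/
def izY : S := (1 + c.h) ^ 4 * (1 + 6 * c.h + 25 * c.h ^ 2) * c.iY ^ 2
/-- `theta log X` -/
def xi : S := (1 - 75 * c.h - 625 * c.h ^ 2 - 3125 * c.h ^ 3) * c.ia * c.ic
/-- `theta log Y` -/
def eta : S := 5 * (1 + 5 * c.h + 15 * c.h ^ 2 - 5 * c.h ^ 3) * c.ib * c.ic

/-- the isogeny matrix -/
def B : Matrix (Fin 3) (Fin 3) S :=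
  !![(1 + 25 * c.h) * c.ib, 0, 0;
     24 * c.h * (1 + 25 * c.h) * (1 + 6 * c.h + 25 * c.h ^ 2) * c.ib ^ 2 * c.iX,
       5 * (1 + 25 * c.h) ^ 2 * (1 + 5 * c.h + 15 * c.h ^ 2 - 5 * c.h ^ 3) * c.ib ^ 2 * c.iX, 0;
     (24 * c.h + 2208 * c.h ^ 2 + 24984 * c.h ^ 3 - 806400 * c.h ^ 4 - 15570000 * c.h ^ 5
       - 155640000 * c.h ^ 6 - 958650000 * c.h ^ 7 - 3900000000 * c.h ^ 8
       - 8578125000 * c.h ^ 9 - 4687500000 * c.h ^ 10 + 29296875000 * c.h ^ 11)
       * c.ib ^ 3 * c.iX ^ 3,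
     (760 * c.h + 34160 * c.h ^ 2 + 130200 * c.h ^ 3 - 11838400 * c.h ^ 4 - 196650000 * c.h ^ 5
       - 1730460000 * c.h ^ 6 - 9362250000 * c.h ^ 7 - 32935000000 * c.h ^ 8
       - 62390625000 * c.h ^ 9 - 22656250000 * c.h ^ 10 + 185546875000 * c.h ^ 11)
       * c.ib ^ 3 * c.iX ^ 3,
     25 * (1 + 25 * c.h) ^ 3 * (1 + 5 * c.h + 15 * c.h ^ 2 - 5 * c.h ^ 3) ^ 2
       * c.ib ^ 3 * c.iX ^ 2]

/-- transport of the data along a ring homomorphism -/
def map {S' : Type*} [CommRing S'] (φ : S →+* S') : HC S' where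
  h := φ c.h
  ia := φ c.ia
  ib := φ c.ib
  ic := φ c.ic
  iX := φ c.iX
  iY := φ c.iY
  ha := by have := congrArg φ c.ha; simpa only [map_add, map_sub, map_mul, map_pow, map_one, map_ofNat] using this
  hb := by have := congrArg φ c.hb; simpa only [map_add, map_sub, map_mul, map_pow, map_one, map_ofNat] using this
  hc := by have := congrArg φ c.hc; simpa only [map_add, map_sub, map_mul, map_pow, map_one, map_ofNat] using this
  hX := by have := congrArg φ c.hX; simpa only [map_add, map_sub, map_mul, map_pow, map_one, map_ofNat] using this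
  hY := by have := congrArg φ c.hY; simpa only [map_add, map_sub, map_mul, map_pow, map_one, map_ofNat] using this

end HC

end FF1001
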