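import Pool.Agent.W_ff1001_h94.HCx

/-! The polynomial `W` used for the prime 5, and a weight property of polynomials. -/

namespace FF1001

open Finset Polynomial

section

variable {S : Type*} [CommRing S]

def w5C (x : S) : S := 1 + 6 * x + 25 * x ^ 2
def w5X (x : S) : S := 1 - 75 * x - 625 * x ^ 2 - 3125 * x ^ 3
def w5Y (x : S) : S := 1 + 5 * x + 15 * x ^ 2 - 5 * x ^ 3

/-- the numerator of the difference of the two truncated sums -/
def Wf (n : ℕ) (x : S) : S :=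
  ∑ k ∈ range (5 * n), (10 * (k : S) + 1) * (Mn k : S) *
      (x ^ k * (1 + 25 * x) ^ (20 * n - 4 - 4 * k) * w5C x ^ (5 * n - 1 - k)
        * (1 + x) ^ (4 * n - 2) * w5X x)
  - ∑ m ∈ range n, (Mn m : S) *
      (x ^ (5 * m) * (1 + x) ^ (4 * (n - 1 - m)) * w5C x ^ (5 * n - 1 - m)
        * (1 + 25 * x) ^ (20 * n - 4))
      * ((1 + 25 * x) * (1 + x) * w5X x + 240 * (x * (1 + 25 * x) * w5C x)
        + 50 * (m : S) * ((1 + 25 * x) ^ 2 * w5Y x))

theorem w5C_map {S' : Type*} [CommRing S'] (φ : S →+* S') (x : S) : φ (w5C x) = w5C (φ x) := by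
  unfold w5C
  simp only [map_add, map_mul, map_pow, map_one, map_ofNat]

theorem w5X_map {S' : Type*} [CommRing S'] (φ : S →+* S') (x : S) : φ (w5X x) = w5X (φ x) := by
  unfold w5X
  simp only [map_sub, map_mul, map_pow, map_one, map_ofNat]

theorem w5Y_map {S' : Type*} [CommRing S'] (φ : S →+* S') (x : S) : φ (w5Y x) = w5Y (φ x) := by
  unfold w5Y
  simp only [map_add, map_sub, map_mul, map_pow, map_one, map_ofNat]

theorem Wf_map {S' : Type*} [CommRing S'] (φ : S →+* S') (n : ℕ) (x : S) :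
    φ (Wf n x) = Wf n (φ x) := by
  unfold Wf
  simp only [map_sub, map_sum, map_add, map_mul, map_pow, map_one, map_ofNat, map_natCast,
    w5C_map, w5X_map, w5Y_map]

/-- the difference of the two truncated sums -/
def Dnf (c : HC S) (n : ℕ) : S :=
  ∑ k ∈ range (5 * n), (10 * (k : S) + 1) * (Mn k : S) * c.Xv ^ k
  - ∑ m ∈ range n, ((c.B 0 0 + 10 * c.B 1 0) + 10 * c.B 1 1 * (m : S)) * (Mn m : S) * c.Yv ^ m

theorem W_eq (c : HC S) (n : ℕ) (hn : 1 ≤ n) :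
    Wf n c.h = Dnf c n * ((1 + c.h) ^ (4 * n - 2) * w5C c.h ^ (5 * n - 1)
      * (1 + 25 * c.h) ^ (20 * n - 4) * w5X c.h) := by
  have hC : w5C c.h * c.ic = 1 := c.hc
  have hX : w5X c.h * c.iX = 1 := c.hX
  unfold Wf Dnf
  rw [sub_mul, sum_mul, sum_mul]
  congr 1
  · refine sum_congr rfl fun k hk => ?_
    have hk' : k < 5 * n := mem_range.mp hk
    have e1 : (1 + 25 * c.h) ^ (20 * n - 4)
        = (1 + 25 * c.h) ^ (4 * k) * (1 + 25 * c.h) ^ (20 * n - 4 - 4 * k) := by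
      rw [← pow_add]; congr 1; omega
    have e2 : w5C c.h ^ (5 * n - 1) = w5C c.h ^ k * w5C c.h ^ (5 * n - 1 - k) := by
      rw [← pow_add]; congr 1; omega
    have e3 : (1 + 25 * c.h) ^ (4 * k) * (c.ia ^ 4) ^ k = 1 := by
      rw [← pow_mul, ← mul_pow, c.ha, one_pow]
    have e4 : w5C c.h ^ k * c.ic ^ k = 1 := by
      rw [← mul_pow, hC, one_pow]
    have e5 : c.Xv ^ k = c.h ^ k * (c.ia ^ 4) ^ k * c.ic ^ k := by
      unfold HC.Xv; rw [mul_pow, mul_pow]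
    rw [e1, e2, e5]
    linear_combination (-((10 * (k : S) + 1) * (Mn k : S) *
      (c.h ^ k * (1 + 25 * c.h) ^ (20 * n - 4 - 4 * k) * w5C c.h ^ (5 * n - 1 - k)
        * (1 + c.h) ^ (4 * n - 2) * w5X c.h))) * (w5C c.h ^ k * c.ic ^ k) * e3
      - ((10 * (k : S) + 1) * (Mn k : S) *
      (c.h ^ k * (1 + 25 * c.h) ^ (20 * n - 4 - 4 * k) * w5C c.h ^ (5 * n - 1 - k)
        * (1 + c.h) ^ (4 * n - 2) * w5X c.h)) * e4
  · refine sum_congr rfl fun m hm => ?_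
    have hm' : m < n := mem_range.mp hm
    have e1 : (1 + c.h) ^ (4 * n - 2)
        = (1 + c.h) ^ (4 * m) * (1 + c.h) ^ (4 * (n - 1 - m)) * (1 + c.h) ^ 2 := by
      rw [← pow_add, ← pow_add]; congr 1; omega
    have e2 : w5C c.h ^ (5 * n - 1) = w5C c.h ^ m * w5C c.h ^ (5 * n - 1 - m) := by
      rw [← pow_add]; congr 1; omega
    have e3 : (1 + c.h) ^ (4 * m) * (c.ib ^ 4) ^ m = 1 := by
      rw [← pow_mul, ← mul_pow, c.hb, one_pow]
    have e4 : w5C c.h ^ m * c.ic ^ m = 1 := by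
      rw [← mul_pow, hC, one_pow]
    have e5 : c.Yv ^ m = c.h ^ (5 * m) * (c.ib ^ 4) ^ m * c.ic ^ m := by
      unfold HC.Yv; rw [mul_pow, mul_pow, ← pow_mul c.h]
    have e6 : ((c.B 0 0 + 10 * c.B 1 0) + 10 * c.B 1 1 * (m : S)) * ((1 + c.h) ^ 2 * w5X c.h)
        = (1 + 25 * c.h) * (1 + c.h) * w5X c.h + 240 * (c.h * (1 + 25 * c.h) * w5C c.h)
        + 50 * (m : S) * ((1 + 25 * c.h) ^ 2 * w5Y c.h) := by
      have b00 : c.B 0 0 = (1 + 25 * c.h) * c.ib := rfl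
      have b10 : c.B 1 0 = 24 * c.h * (1 + 25 * c.h) * w5C c.h * c.ib ^ 2 * c.iX := rfl
      have b11 : c.B 1 1 = 5 * (1 + 25 * c.h) ^ 2 * w5Y c.h * c.ib ^ 2 * c.iX := rfl
      have h2 : (1 + c.h) ^ 2 * c.ib ^ 2 = 1 := by rw [← mul_pow, c.hb, one_pow]
      rw [b00, b10, b11]
      linear_combination ((1 + 25 * c.h) * (1 + c.h) * w5X c.h) * c.hb
        + (240 * (c.h * (1 + 25 * c.h) * w5C c.h) + 50 * (m : S) * ((1 + 25 * c.h) ^ 2 * w5Y c.h))
          * (w5X c.h * c.iX) * h2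
        + (240 * (c.h * (1 + 25 * c.h) * w5C c.h)
          + 50 * (m : S) * ((1 + 25 * c.h) ^ 2 * w5Y c.h)) * hX
    rw [← e6, e1, e2, e5]
    linear_combination (-(((c.B 0 0 + 10 * c.B 1 0) + 10 * c.B 1 1 * (m : S)) * (Mn m : S)
        * (c.h ^ (5 * m) * (1 + c.h) ^ (4 * (n - 1 - m)) * (1 + c.h) ^ 2
        * w5C c.h ^ (5 * n - 1 - m) * (1 + 25 * c.h) ^ (20 * n - 4) * w5X c.h)))
        * (w5C c.h ^ m * c.ic ^ m) * e3
      - (((c.B 0 0 + 10 * c.B 1 0) + 10 * c.B 1 1 * (m : S)) * (Mn m : S)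
        * (c.h ^ (5 * m) * (1 + c.h) ^ (4 * (n - 1 - m)) * (1 + c.h) ^ 2
        * w5C c.h ^ (5 * n - 1 - m) * (1 + 25 * c.h) ^ (20 * n - 4) * w5X c.h)) * e4

/-! ### the weight property -/

/-- the coefficient of `x^(K+j)` is divisible by `25^j` -/
def wq (K : ℕ) (f : S[X]) : Prop := ∀ i : ℕ, (25 : S) ^ (i - K) ∣ f.coeff i

theorem wq_mono {K L : ℕ} (h : K ≤ L) {f : S[X]} (hf : wq K f) : wq L f := fun i =>
  dvd_trans (pow_dvd_pow _ (by omega)) (hf i)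

theorem wq_add {K : ℕ} {f g : S[X]} (hf : wq K f) (hg : wq K g) : wq K (f + g) := by
  intro i; rw [coeff_add]; exact dvd_add (hf i) (hg i)

theorem wq_sub {K : ℕ} {f g : S[X]} (hf : wq K f) (hg : wq K g) : wq K (f - g) := by
  intro i; rw [coeff_sub]; exact dvd_sub (hf i) (hg i)

theorem wq_sum {K : ℕ} {ι : Type*} (s : Finset ι) (f : ι → S[X]) (h : ∀ i ∈ s, wq K (f i)) :
    wq K (∑ i ∈ s, f i) := by
  intro i
  rw [finset_sum_coeff]
  exact dvd_sum fun j hj => h j hj i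

theorem wq_mul {K L : ℕ} {f g : S[X]} (hf : wq K f) (hg : wq L g) : wq (K + L) (f * g) := by
  intro i
  rw [coeff_mul]
  refine dvd_sum fun x hx => ?_
  have hx' : x.1 + x.2 = i := mem_antidiagonal.mp hx
  have h1 : (25 : S) ^ ((x.1 - K) + (x.2 - L)) ∣ f.coeff x.1 * g.coeff x.2 := by
    rw [pow_add]
    exact mul_dvd_mul (hf _) (hg _)
  refine dvd_trans (pow_dvd_pow _ ?_) h1
  omega

theorem wq_mono' {K : ℕ} (a : S) (j : ℕ) (h : (25 : S) ^ (j - K) ∣ a) : wq K (C a * X ^ j) := by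
  intro i
  rw [coeff_C_mul, coeff_X_pow]
  split_ifs with hij
  · subst hij; simpa using h
  · simp

theorem wq_C (a : S) : wq 0 (C a) := by
  have := wq_mono' (K := 0) a 0 (by simp)
  simpa using this

theorem wq_one : wq 0 (1 : S[X]) := by
  rw [← C_1]; exact wq_C 1

theorem wq_pow {K : ℕ} {f : S[X]} (hf : wq K f) (n : ℕ) : wq (n * K) (f ^ n) := by
  induction n with
  | zero => simpa using wq_one
  | succ n ih => rw [pow_succ, Nat.succ_mul]; exact wq_mul ih hf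

theorem wq_X : wq 1 (X : S[X]) := by
  have := wq_mono' (K := 1) (1 : S) 1 (by simp)
  simpa using this

theorem wq_A : wq 0 (1 + 25 * X : S[X]) := by
  have := wq_mono' (K := 0) (25 : S) 1 (by simp)
  have h : (1 + 25 * X : S[X]) = 1 + C 25 * X ^ 1 := by
    rw [pow_one]; rfl
  rw [h]
  exact wq_add wq_one this

theorem wq_B : wq 1 (1 + X : S[X]) := wq_add (wq_mono (by norm_num) wq_one) wq_X

theorem wq_w5C : wq 1 (w5C X : S[X]) := by
  have h : (w5C X : S[X]) = C 1 * X ^ 0 + C 6 * X ^ 1 + C 25 * X ^ 2 := by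
    unfold w5C
    have h6 : (C 6 : S[X]) = 6 := rfl
    have h25 : (C 25 : S[X]) = 25 := rfl
    rw [h6, h25, C_1]; ring
  rw [h]
  refine wq_add (wq_add (wq_mono' _ _ ?_) (wq_mono' _ _ ?_)) (wq_mono' _ _ ?_)
  · simp
  · simp
  · simp

theorem wq_w5X : wq 1 (w5X X : S[X]) := by
  have h : (w5X X : S[X]) = C 1 * X ^ 0 - C 75 * X ^ 1 - C 625 * X ^ 2 - C 3125 * X ^ 3 := by
    unfold w5X
    have h6 : (C 75 : S[X]) = 75 := rfl
    have h25 : (C 625 : S[X]) = 625 := rfl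
    have h3 : (C 3125 : S[X]) = 3125 := rfl
    rw [h6, h25, h3, C_1]; ring
  rw [h]
  refine wq_sub (wq_sub (wq_sub (wq_mono' _ _ ?_) (wq_mono' _ _ ?_)) (wq_mono' _ _ ?_))
    (wq_mono' _ _ ?_)
  · simp
  · simp
  · exact ⟨25, by norm_num⟩
  · exact ⟨5, by norm_num⟩

theorem wq_w5Y : wq 3 (w5Y X : S[X]) := by
  have h : (w5Y X : S[X]) = C 1 * X ^ 0 + C 5 * X ^ 1 + C 15 * X ^ 2 - C 5 * X ^ 3 := by
    unfold w5Y
    have h6 : (C 5 : S[X]) = 5 := rfl
    have h25 : (C 15 : S[X]) = 15 := rfl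
    rw [h6, h25, C_1]; ring
  rw [h]
  refine wq_sub (wq_add (wq_add (wq_mono' _ _ ?_) (wq_mono' _ _ ?_)) (wq_mono' _ _ ?_))
    (wq_mono' _ _ ?_)
  · simp
  · simp
  · simp
  · simp

theorem wq_nc (n : ℕ) : wq 0 (n : S[X]) := by
  rw [← C_eq_natCast]; exact wq_C _

theorem wq_cast {K L : ℕ} (h : K = L) {f : S[X]} (hf : wq K f) : wq L f := h ▸ hf

theorem wq_Wf (n : ℕ) (hn : 1 ≤ n) : wq (9 * n - 2) (Wf n (X : S[X])) := by
  unfold Wf
  refine wq_sub (wq_sum _ _ fun k hk => ?_) (wq_sum _ _ fun m hm => ?_)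
  · have hk' : k < 5 * n := mem_range.mp hk
    have h10 : wq 0 (10 * (k : S[X]) + 1) := by
      have : (10 * (k : S[X]) + 1) = ((10 * k + 1 : ℕ) : S[X]) := by push_cast; rfl
      rw [this]; exact wq_nc _
    have := wq_mul (wq_mul h10 (wq_nc (S := S) (Mn k)))
      (wq_mul (wq_mul (wq_mul (wq_mul (wq_pow (wq_X (S := S)) k)
        (wq_pow (wq_A (S := S)) (20 * n - 4 - 4 * k))) (wq_pow (wq_w5C (S := S)) (5 * n - 1 - k)))
        (wq_pow (wq_B (S := S)) (4 * n - 2))) (wq_w5X (S := S)))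
    exact wq_mono (by omega) this
  · have hm' : m < n := mem_range.mp hm
    have h1 := wq_mul (wq_mul (wq_A (S := S)) (wq_B (S := S))) (wq_w5X (S := S))
    have h240 : wq 0 (240 : S[X]) := by
      have := wq_nc (S := S) 240
      simpa using this
    have h50 : wq 0 (50 * (m : S[X])) := by
      have : (50 * (m : S[X])) = ((50 * m : ℕ) : S[X]) := by push_cast; rfl
      rw [this]; exact wq_nc _
    have h2 := wq_mul h240 (wq_mul (wq_mul (wq_X (S := S)) (wq_A (S := S))) (wq_w5C (S := S)))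
    have h3 := wq_mul h50 (wq_mul (wq_pow (wq_A (S := S)) 2) (wq_w5Y (S := S)))
    have h4 := wq_add (wq_add (wq_mono (L := 3) (by norm_num) h1)
      (wq_mono (L := 3) (by norm_num) h2)) (wq_mono (L := 3) (by norm_num) h3)
    have := wq_mul (wq_mul (wq_nc (S := S) (Mn m)) (wq_mul (wq_mul (wq_mul
      (wq_pow (wq_X (S := S)) (5 * m)) (wq_pow (wq_B (S := S)) (4 * (n - 1 - m))))
      (wq_pow (wq_w5C (S := S)) (5 * n - 1 - m))) (wq_pow (wq_A (S := S)) (20 * n - 4)))) h4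
    exact wq_mono (by omega) this

end

end FF1001
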