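import Pool.Agent.W_ff1001_h94.Core7
import Pool.Agent.W_ff1001_h94.Main7
import Pool.Agent.W_ff1001_h94.W5

/-! The prime 5. -/

namespace FF1001

open Finset Polynomial

section eval

variable [Fact (Nat.Prime 5)]

theorem hom_dvd (f : ℤ_[5][X]) (K N a : ℕ) (h1 : wq K f)
    (h2 : ∀ i, (5 : ℤ_[5]) ^ (2 * a + 1) ∣ f.coeff i) :
    (5 : ℤ_[5]) ^ (N - K + 1 + a) ∣ ∑ i ∈ range (N + 1), f.coeff i * 5 ^ (N - i) := by
  refine dvd_sum fun i hi => ?_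
  have hi' : i ≤ N := by have := mem_range.mp hi; omega
  have h3 : (5 : ℤ_[5]) ^ ((i - K) + 1 + a) ∣ f.coeff i := by
    rcases le_or_gt (i - K) a with h | h
    · exact dvd_trans (pow_dvd_pow _ (by omega)) (h2 i)
    · have h4 : (25 : ℤ_[5]) ^ (i - K) = 5 ^ (2 * (i - K)) := by
        rw [pow_mul]; norm_num
      have h5 := h1 i
      rw [h4] at h5
      exact dvd_trans (pow_dvd_pow _ (by omega)) h5
  have h6 : (5 : ℤ_[5]) ^ ((i - K) + 1 + a + (N - i)) ∣ f.coeff i * 5 ^ (N - i) := by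
    rw [pow_add]
    exact mul_dvd_mul h3 dvd_rfl
  exact dvd_trans (pow_dvd_pow _ (by omega)) h6

/-- the embedding of the 5-adic integers into the 5-adic numbers -/
noncomputable def cq : ℤ_[5] →+* ℚ_[5] := PadicInt.Coe.ringHom

theorem cq_inj : Function.Injective cq := fun _ _ h => Subtype.coe_injective h

theorem hom_eval (f : ℤ_[5][X]) (N : ℕ) (hN : f.natDegree ≤ N) :
    cq (∑ i ∈ range (N + 1), f.coeff i * 5 ^ (N - i))
      = 5 ^ N * eval₂ cq (1 / 5 : ℚ_[5]) f := by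
  rw [eval₂_eq_sum_range' cq (Nat.lt_succ_of_le hN), mul_sum, map_sum]
  refine sum_congr rfl fun i hi => ?_
  rw [map_mul, map_pow, map_ofNat]
  have hi' : i ≤ N := by have := mem_range.mp hi; omega
  have h5 : (5 : ℚ_[5]) ≠ 0 := by norm_num
  have e1 : (5 : ℚ_[5]) ^ N = 5 ^ (N - i) * 5 ^ i := by
    rw [← pow_add]; congr 1; omega
  have e2 : (5 : ℚ_[5]) ^ i * (1 / 5) ^ i = 1 := by
    rw [← mul_pow]; norm_num
  rw [e1]
  linear_combination (-(cq (f.coeff i)) * 5 ^ (N - i)) * e2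

/-- the data at `h = 1/5` -/
noncomputable def c5 : HC ℚ_[5] where
  h := 1 / 5
  ia := 1 / 6
  ib := 5 / 6
  ic := 5 / 16
  iX := - 1 / 64
  iY := 25 / 64
  ha := by norm_num
  hb := by norm_num
  hc := by norm_num
  hX := by norm_num
  hY := by norm_num

theorem c5_h : 5 * (c5).h = 1 := by
  change (5 : ℚ_[5]) * (1 / 5) = 1
  norm_num

theorem Dnf_c5 (w : ℤ_[5]) (hw : 12 ^ 4 * w = 1) (n : ℕ) :
    Dnf c5 n = cq (Sw w (5 * n) + 5 * Sw w n) := by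
  have hw' : (12 : ℚ_[5]) ^ 4 * (cq w) = 1 := by
    have := congrArg cq hw
    rwa [map_mul, map_pow, map_ofNat, map_one] at this
  have h12 : (12 : ℚ_[5]) ^ 4 ≠ 0 := by norm_num
  have hX : (c5).Xv = cq w := by
    have := (c5).Xv_fifth c5_h
    exact mul_left_cancel₀ h12 (this.trans hw'.symm)
  have hY : (c5).Yv = cq w := by
    have := (c5).Yv_fifth c5_h
    exact mul_left_cancel₀ h12 (this.trans hw'.symm)
  unfold Dnf
  rw [hX, hY, (c5).B00_fifth c5_h, (c5).B10_fifth c5_h, (c5).B11_fifth c5_h]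
  unfold Sw
  simp only [map_add, map_mul, map_sum, map_pow, map_ofNat, map_natCast, map_one]
  rw [mul_sum, sub_eq_add_neg, ← sum_neg_distrib]
  congr 1
  refine sum_congr rfl fun m _ => ?_
  ring

theorem den_c5 (n : ℕ) (hn : 1 ≤ n) : ∃ u : ℤ_[5], IsUnit u ∧
    (5 : ℚ_[5]) ^ (9 * n - 3) * ((1 + (c5).h) ^ (4 * n - 2) * w5C (c5).h ^ (5 * n - 1)
      * (1 + 25 * (c5).h) ^ (20 * n - 4) * w5X (c5).h) = cq u := by
  refine ⟨((6 ^ (4 * n - 2) * 16 ^ (5 * n - 1) * 6 ^ (20 * n - 4) : ℕ) : ℤ_[5]) * (-(64 : ℕ)), ?_, ?_⟩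
  · refine IsUnit.mul ?_ ?_
    · apply isUnit_natCast_of_not_dvd
      have hp : Nat.Prime 5 := Fact.out
      rw [hp.dvd_mul, hp.dvd_mul]
      rintro ((h | h) | h)
      · have := hp.dvd_of_dvd_pow h; omega
      · have := hp.dvd_of_dvd_pow h; omega
      · have := hp.dvd_of_dvd_pow h; omega
    · apply IsUnit.neg
      apply isUnit_natCast_of_not_dvd
      norm_num
  · have e1 : (1 : ℚ_[5]) + (c5).h = 6 / 5 := by change (1 : ℚ_[5]) + 1 / 5 = 6 / 5; norm_num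
    have e2 : w5C (c5).h = 16 / 5 := by
      change (1 : ℚ_[5]) + 6 * (1 / 5) + 25 * (1 / 5) ^ 2 = 16 / 5; norm_num
    have e3 : (1 : ℚ_[5]) + 25 * (c5).h = 6 := by
      change (1 : ℚ_[5]) + 25 * (1 / 5) = 6; norm_num
    have e4 : w5X (c5).h = - 64 := by
      change (1 : ℚ_[5]) - 75 * (1 / 5) - 625 * (1 / 5) ^ 2 - 3125 * (1 / 5) ^ 3 = - 64; norm_num
    rw [e1, e2, e3, e4, div_pow, div_pow]
    have e5 : (5 : ℚ_[5]) ^ (9 * n - 3) = 5 ^ (4 * n - 2) * 5 ^ (5 * n - 1) := by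
      rw [← pow_add]; congr 1; omega
    have h5 : (5 : ℚ_[5]) ≠ 0 := by norm_num
    rw [e5, map_mul, map_neg, map_natCast, map_natCast]
    push_cast
    field_simp

end eval

section ps5

variable [Fact (Nat.Prime 5)]

theorem c0_exists : ∃ c0 : HC (PowerSeries ℤ_[5]), c0.h = PowerSeries.X := by
  have key : ∀ f : PowerSeries ℤ_[5], PowerSeries.constantCoeff f = 1 → ∃ g, f * g = 1 := by
    intro f hf
    have : IsUnit f := by rw [PowerSeries.isUnit_iff_constantCoeff, hf]; exact isUnit_one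
    exact this.exists_right_inv
  obtain ⟨ia, ha⟩ := key (1 + 25 * PowerSeries.X) (by simp)
  obtain ⟨ib, hb⟩ := key (1 + PowerSeries.X) (by simp)
  obtain ⟨ic, hc⟩ := key (1 + 6 * PowerSeries.X + 25 * PowerSeries.X ^ 2) (by simp)
  obtain ⟨iX, hX⟩ := key (1 - 75 * PowerSeries.X - 625 * PowerSeries.X ^ 2
    - 3125 * PowerSeries.X ^ 3) (by simp)
  obtain ⟨iY, hY⟩ := key (1 + 5 * PowerSeries.X + 15 * PowerSeries.X ^ 2
    - 5 * PowerSeries.X ^ 3) (by simp)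
  exact ⟨⟨PowerSeries.X, ia, ib, ic, iX, iY, ha, hb, hc, hX, hY⟩, rfl⟩

omit [Fact (Nat.Prime 5)] in
/-- the isogeny is a Frobenius lift -/
theorem frob5 {S : Type*} [CommRing S] (c : HC S) : ∃ v : S,
    5 * v = (1 + c.h) ^ 4 * c.ia ^ 20 * c.ic ^ 4 - 1 ∧ c.Xv ^ 5 = c.Yv * (1 + 5 * v) := by
  have h1 : (5 : S) ∣ (1 + 25 * c.h) ^ 20 - 1 := by
    have h := sub_dvd_pow_sub_pow (1 + 25 * c.h) 1 20
    rw [one_pow] at h
    exact dvd_trans ⟨5 * c.h, by ring⟩ h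
  have h2 : (5 : S) ∣ (1 + 6 * c.h + 25 * c.h ^ 2) ^ 4 - (1 + c.h) ^ 4 := by
    have h := sub_dvd_pow_sub_pow (1 + 6 * c.h + 25 * c.h ^ 2) (1 + c.h) 4
    exact dvd_trans ⟨c.h + 5 * c.h ^ 2, by ring⟩ h
  obtain ⟨r1, h1⟩ := h1
  obtain ⟨r2, h2⟩ := h2
  have e1 : (1 + 25 * c.h) ^ 20 * c.ia ^ 20 = 1 := by rw [← mul_pow, c.ha, one_pow]
  have e2 : (1 + 6 * c.h + 25 * c.h ^ 2) ^ 4 * c.ic ^ 4 = 1 := by rw [← mul_pow, c.hc, one_pow]
  have e3 : (1 + c.h) ^ 4 * c.ib ^ 4 = 1 := by rw [← mul_pow, c.hb, one_pow]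
  have hv : 5 * (-(r1 * (1 + 6 * c.h + 25 * c.h ^ 2) ^ 4 + r2) * c.ia ^ 20 * c.ic ^ 4)
      = (1 + c.h) ^ 4 * c.ia ^ 20 * c.ic ^ 4 - 1 := by
    linear_combination (c.ia ^ 20 * c.ic ^ 4 * (1 + 6 * c.h + 25 * c.h ^ 2) ^ 4) * h1
      + (c.ia ^ 20 * c.ic ^ 4) * h2
      - ((1 + 6 * c.h + 25 * c.h ^ 2) ^ 4 * c.ic ^ 4) * e1 - e2
  refine ⟨_, hv, ?_⟩
  rw [hv]
  unfold HC.Xv HC.Yv
  linear_combination (-(c.h ^ 5 * c.ic ^ 5 * c.ia ^ 20)) * e3

theorem PsiB (D : GD 5) (c : HC (PowerSeries ℤ_[5])) (hc : c.h = PowerSeries.X)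
    (v : PowerSeries ℤ_[5]) (hv : 5 * v = (1 + c.h) ^ 4 * c.ia ^ 20 * c.ic ^ 4 - 1)
    (hZ : c.Xv ^ 5 = c.Yv * (1 + ((5 : ℕ) : PowerSeries ℤ_[5]) * v)) :
    ∀ (s : ℕ) (i j : Fin 3), (((5 : ℕ) : PowerSeries ℤ_[5])) ^ s ∣
      (Psi D s c.Xv v c.Yv c.izY c.izY_mul) i j - c.B i j := by
  have hcz : PowerSeries.constantCoeff c.h = 0 := by rw [hc]; simp
  have hv0 : PowerSeries.constantCoeff v = 0 := by
    have h1 := congrArg (PowerSeries.constantCoeff (R := ℤ_[5])) hv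
    have h2 : PowerSeries.constantCoeff c.ia = 1 := (c.map _).ia_zero hcz
    have h3 : PowerSeries.constantCoeff c.ic = 1 := (c.map _).ic_zero hcz
    rw [map_mul, map_sub, map_mul, map_mul, map_pow, map_pow, map_pow, h2, h3, map_add, hcz,
      map_one, map_ofNat] at h1
    have h5 : (5 : ℤ_[5]) ≠ 0 := by norm_num
    apply mul_left_cancel₀ h5
    rw [h1]; ring
  have tc : thP 5 c.h = 1 * c.h := by
    rw [hc, thP_apply, PowerSeries.derivative_X]; ring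
  have tX := HC.der_Xv c (thP 5) 1 tc
  have tY := HC.der_Yv c (thP 5) 1 tc
  have hne : c.h ≠ 0 := by rw [hc]; exact PowerSeries.X_ne_zero
  have tv := theta_v 5 c.Xv c.Yv v _ _ hZ (c.Yv_ne hne) tX tY
  have uX : IsUnit (1 + ((5 : ℕ) : PowerSeries ℤ_[5]) * v) := by
    rw [PowerSeries.isUnit_iff_constantCoeff, map_add, map_mul, hv0]; simp
  have t1 : ∀ i j : Fin 3, thP 5 ((1 : Matrix (Fin 3) (Fin 3) (PowerSeries ℤ_[5])) i j) = 0 := by
    intro i j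
    rw [Matrix.one_apply]
    split_ifs
    · simp
    · simp
  have key := uniq 5 ((1 * c.xi) • Nmat c.Xv c.izX) ((1 * c.eta) • Nmat c.Yv c.izY)
    (Nmat_map_cc _ _ _ (by
      unfold HC.Xv; rw [map_mul, map_mul, hcz]; ring))
    (Nmat_map_cc _ _ _ (by
      unfold HC.Yv; rw [map_mul, map_mul, map_pow, hcz]; ring))
    (fun s => Psi D s c.Xv v c.Yv c.izY c.izY_mul * 1 - c.B * 1) ?_ ?_ ?_
  · intro s i j
    have := key s i j
    simpa using this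
  · intro s i j
    have := Psi_coh D s c.Xv v c.Yv c.izY c.izY_mul i j
    simpa using this
  · intro s i j
    exact comb_ode (thP 5) (((5 : ℕ) : PowerSeries ℤ_[5]) ^ s)
      (Psi D s c.Xv v c.Yv c.izY c.izY_mul) 1 c.B 1
      (Nmat c.Xv c.izX) (Nmat c.Yv c.izY) (Nmat c.Yv c.izY) (Nmat c.Yv c.izY)
      (1 * c.xi) (1 * c.eta) (1 * c.eta) (1 * c.eta)
      (Psi_ode D s (thP 5) c.Xv c.Yv v c.izY c.izX _ _ c.izY_mul c.izX_mul hZ uX tX tY tv)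
      (fun i j => by rw [t1, mul_one, one_mul]; simp)
      (fun i j => by rw [t1, mul_one, one_mul]; simp)
      (fun i j => by rw [HC.der_B c (thP 5) 1 tc i j]; ring) i j
  · intro s i j
    set cc := (PowerSeries.constantCoeff (R := ℤ_[5])) with hcc
    have z1 : cc c.Xv = 0 := by
      unfold HC.Xv; rw [map_mul, map_mul, hcz]; ring
    have z3 : cc c.Yv = 0 := by
      unfold HC.Yv; rw [map_mul, map_mul, map_pow, hcz]; ring
    have z6 : cc c.izY = 1 := by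
      rw [← HC.map_izY]; exact HC.izY_zero _ hcz
    have h1 := Psi_cc D s _ _ _ _ c.izY_mul z1 hv0 z3 z6 i j
    have h2 : cc (c.B i j) = if i = j then ((5 : ℕ) : ℤ_[5]) ^ (i : ℕ) else 0 := by
      rw [← HC.map_B, HC.B_zero (c.map cc) hcz]
      fin_cases i <;> fin_cases j <;> simp <;> norm_num
    rw [← h2] at h1
    rw [mul_one, mul_one, Matrix.sub_apply, map_sub]
    exact h1

/-- the difference of the truncated sums is highly divisible as a power series -/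
theorem Dnf_dvd (D : GD 5) (c : HC (PowerSeries ℤ_[5])) (hc : c.h = PowerSeries.X) (n : ℕ)
    (hn : 1 ≤ n) : ((5 ^ 3 * n ^ 3 * Mn n : ℕ) : PowerSeries ℤ_[5]) ∣ Dnf c n := by
  obtain ⟨v, hv, hZ0⟩ := frob5 c
  have hZ : c.Xv ^ 5 = c.Yv * (1 + ((5 : ℕ) : PowerSeries ℤ_[5]) * v) := by
    rw [hZ0]; push_cast; rfl
  have hMn : Mn n ≠ 0 := by
    unfold Mn
    exact mul_ne_zero (Nat.centralBinom_ne_zero _) (pow_ne_zero _ (Nat.centralBinom_ne_zero _))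
  have hne : 5 ^ 3 * n ^ 3 * Mn n ≠ 0 :=
    mul_ne_zero (mul_ne_zero (by norm_num) (pow_ne_zero _ (by omega))) hMn
  obtain ⟨s, hs⟩ : ∃ s : ℕ, ((5 ^ 3 * n ^ 3 * Mn n : ℕ) : ℤ_[5]) ∣ ((5 : ℕ) : ℤ_[5]) ^ s := by
    have h1 : ((5 ^ 3 * n ^ 3 * Mn n : ℕ) : ℤ_[5]) ≠ 0 := by exact_mod_cast hne
    obtain ⟨t, u, hu⟩ : ∃ (t : ℕ) (u : ℤ_[5]ˣ), ((5 ^ 3 * n ^ 3 * Mn n : ℕ) : ℤ_[5])
        = (u : ℤ_[5]) * ((5 : ℕ) : ℤ_[5]) ^ t :=
      ⟨_, _, PadicInt.unitCoeff_spec h1⟩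
    refine ⟨t, ?_⟩
    rw [hu]
    have : IsUnit (u : ℤ_[5]) := u.isUnit
    rw [this.mul_left_dvd]
  have hsP : ((5 ^ 3 * n ^ 3 * Mn n : ℕ) : PowerSeries ℤ_[5])
      ∣ ((5 : ℕ) : PowerSeries ℤ_[5]) ^ s := by
    have := map_dvd (PowerSeries.C (R := ℤ_[5])) hs
    rwa [map_natCast, map_pow, map_natCast] at this
  have hPB := PsiB D c hc v hv hZ s
  set A' := (D.A s).map (algebraMap ℤ_[5] (PowerSeries ℤ_[5])) with hA'
  set E := Ef D.β s v with hE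
  set a : Fin 3 → PowerSeries ℤ_[5] := fun j =>
    redA c.Yv c.izY c.izY_mul (gg D s c.Xv v (X ^ 0)) j
      + 10 * redA c.Yv c.izY c.izY_mul (gg D s c.Xv v (X ^ 1)) j with ha
  have haB : ∀ j, ((5 : ℕ) : PowerSeries ℤ_[5]) ^ s ∣ a j - (c.B 0 j + 10 * c.B 1 j) := by
    intro j
    have h0 := hPB 0 j
    have h1 := (hPB 1 j).mul_left 10
    have h2 := dvd_add h0 h1
    have e0 : Psi D s c.Xv v c.Yv c.izY c.izY_mul 0 j
        = redA c.Yv c.izY c.izY_mul (gg D s c.Xv v (X ^ 0)) j := rfl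
    have e1 : Psi D s c.Xv v c.Yv c.izY c.izY_mul 1 j
        = redA c.Yv c.izY c.izY_mul (gg D s c.Xv v (X ^ 1)) j := rfl
    rw [e0, e1] at h2
    convert h2 using 1
    rw [ha]; ring
  set q := redQ c.Yv c.izY c.izY_mul (gg D s c.Xv v (X ^ 0))
    + C 10 * redQ c.Yv c.izY c.izY_mul (gg D s c.Xv v (X ^ 1)) with hq
  have hg : gh 5 (A' * E) c.Xv (X ^ 0 + C 10 * X ^ 1) = qd a + tau c.Yv q := by
    have e1 : gg D s c.Xv v (X ^ 0 + C 10 * X ^ 1)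
        = gg D s c.Xv v (X ^ 0) + C 10 * gg D s c.Xv v (X ^ 1) := by
      rw [gg_add, gg_C_mul]
    have e2 : qd a = qd (redA c.Yv c.izY c.izY_mul (gg D s c.Xv v (X ^ 0)))
        + C 10 * qd (redA c.Yv c.izY c.izY_mul (gg D s c.Xv v (X ^ 1))) := by
      rw [C_mul_qd, qd_add]
    change gg D s c.Xv v (X ^ 0 + C 10 * X ^ 1) = _
    rw [e1, e2, hq, tau_add, tau_C_mul]
    have s0 := red_spec c.Yv c.izY c.izY_mul (gg D s c.Xv v (X ^ 0))
    have s1 := red_spec c.Yv c.izY c.izY_mul (gg D s c.Xv v (X ^ 1))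
    linear_combination s0 + C 10 * s1
  have hwt : wt 5 (gh 5 (A' * E) c.Xv (X ^ 0 + C 10 * X ^ 1)) := by
    refine wt_gh 5 _ (wt_mul ?_ ?_) _ _
    · intro i
      rw [hA', coeff_map]
      have := map_dvd (algebraMap ℤ_[5] (PowerSeries ℤ_[5])) (D.hAw s i)
      rwa [map_pow, map_natCast] at this
    · intro i
      exact Ef_wt D.β D.hβ3 s i v
  obtain ⟨w1, r, hr⟩ := wt_red 5 c.Yv c.izY c.izY_mul _ hwt a q hg
  have hsum := gh_sum 5 (by norm_num) (((5 : ℕ) : PowerSeries ℤ_[5]) ^ s) A' E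
    (X ^ 0 + C 10 * X ^ 1) c.Xv c.Yv v
    (fun m => by
      have h1 := map_dvd (algebraMap ℤ_[5] (PowerSeries ℤ_[5])) (D.hAe s m)
      rw [map_pow, map_natCast, map_sub, map_mul, map_pow, map_natCast, map_natCast,
        ← Polynomial.eval_natCast_map] at h1
      exact h1)
    (fun m => by
      have h1 := (Gm_isUnit (p := 5) m).map (PowerSeries.C (R := ℤ_[5]))
      rwa [map_natCast] at h1)
    (fun m => Ef_eval D.β D.hβ D.hβ2 s m v) hZ a q hg n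
  have h1 := dvd_trans hsP hsum
  have h2 : ((5 ^ 3 * n ^ 3 * Mn n : ℕ) : PowerSeries ℤ_[5]) ∣
      (n : PowerSeries ℤ_[5]) ^ 3 * (Mn n : PowerSeries ℤ_[5]) * c.Yv ^ n
        * q.eval (n : PowerSeries ℤ_[5]) := by
    have e1 : q.eval (n : PowerSeries ℤ_[5]) = ((5 : ℕ) : PowerSeries ℤ_[5]) ^ 3
        * r.eval (n : PowerSeries ℤ_[5]) := by
      rw [hr]; simp
    rw [e1]
    refine ⟨c.Yv ^ n * r.eval (n : PowerSeries ℤ_[5]), ?_⟩
    push_cast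
    ring
  have h3 : ((5 : ℕ) : PowerSeries ℤ_[5]) ^ s ∣
      (∑ m ∈ range n, (a 0 + a 1 * (m : PowerSeries ℤ_[5]) + a 2 * (m : PowerSeries ℤ_[5]) ^ 2)
        * (Mn m : PowerSeries ℤ_[5]) * c.Yv ^ m)
      - ∑ m ∈ range n, ((c.B 0 0 + 10 * c.B 1 0) + 10 * c.B 1 1 * (m : PowerSeries ℤ_[5]))
        * (Mn m : PowerSeries ℤ_[5]) * c.Yv ^ m := by
    rw [← sum_sub_distrib]
    refine dvd_sum fun m _ => ?_
    obtain ⟨r0, hr0⟩ := haB 0
    obtain ⟨r1, hr1⟩ := haB 1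
    obtain ⟨r2, hr2⟩ := haB 2
    have b01 : c.B 0 1 = 0 := rfl
    have b02 : c.B 0 2 = 0 := rfl
    have b12 : c.B 1 2 = 0 := rfl
    rw [b01] at hr1
    rw [b02, b12] at hr2
    refine ⟨(r0 + r1 * (m : PowerSeries ℤ_[5]) + r2 * (m : PowerSeries ℤ_[5]) ^ 2)
      * (Mn m : PowerSeries ℤ_[5]) * c.Yv ^ m, ?_⟩
    linear_combination ((Mn m : PowerSeries ℤ_[5]) * c.Yv ^ m) * hr0
      + ((m : PowerSeries ℤ_[5]) * (Mn m : PowerSeries ℤ_[5]) * c.Yv ^ m) * hr1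
      + ((m : PowerSeries ℤ_[5]) ^ 2 * (Mn m : PowerSeries ℤ_[5]) * c.Yv ^ m) * hr2
  have h4 := dvd_add (dvd_sub h1 h2) (dvd_trans hsP h3)
  have e1 : ∑ k ∈ range (5 * n), (10 * (k : PowerSeries ℤ_[5]) + 1) * (Mn k : PowerSeries ℤ_[5])
      * c.Xv ^ k = ∑ k ∈ range (5 * n),
        (X ^ 0 + C 10 * X ^ 1 : (PowerSeries ℤ_[5])[X]).eval (k : PowerSeries ℤ_[5])
          * (Mn k : PowerSeries ℤ_[5]) * c.Xv ^ k := by
    refine sum_congr rfl fun k _ => ?_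
    have e3 : (X ^ 0 + C 10 * X ^ 1 : (PowerSeries ℤ_[5])[X]).eval (k : PowerSeries ℤ_[5])
        = 10 * (k : PowerSeries ℤ_[5]) + 1 := by
      simp only [pow_zero, pow_one, eval_add, eval_one, eval_mul, eval_C, eval_X]
      ring
    rw [e3]
  unfold Dnf
  rw [e1]
  convert h4 using 1
  ring

end ps5

section final5

variable [Fact (Nat.Prime 5)]

theorem main5 (w : ℤ_[5]) (hw : 12 ^ 4 * w = 1) (n : ℕ) :
    ((5 * n * Nat.centralBinom n : ℕ) : ℤ_[5]) ∣ Sw w (5 * n) + 5 * Sw w n := by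
  rcases Nat.eq_zero_or_pos n with h0 | hn
  · subst h0; simp [Sw]
  obtain ⟨D⟩ := GD_exists 5 (by norm_num)
  obtain ⟨c, hc⟩ := c0_exists
  have h1 := Dnf_dvd D c hc n hn
  -- the polynomial
  set W : ℤ_[5][X] := Wf n X with hW
  have hWc : ((W : ℤ_[5][X]) : PowerSeries ℤ_[5]) = Wf n c.h := by
    have := Wf_map (Polynomial.coeToPowerSeries.ringHom (R := ℤ_[5])) n X
    rw [Polynomial.coeToPowerSeries.ringHom_apply, Polynomial.coeToPowerSeries.ringHom_apply,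
      Polynomial.coe_X, ← hc] at this
    exact this
  have h2 : ((5 ^ 3 * n ^ 3 * Mn n : ℕ) : PowerSeries ℤ_[5]) ∣ (W : PowerSeries ℤ_[5]) := by
    rw [hWc, W_eq c n hn]
    exact h1.mul_right _
  have h3 : ∀ i, ((5 ^ 3 * n ^ 3 * Mn n : ℕ) : ℤ_[5]) ∣ W.coeff i := by
    intro i
    obtain ⟨r, hr⟩ := h2
    refine ⟨PowerSeries.coeff i r, ?_⟩
    have h4 := congrArg (PowerSeries.coeff (R := ℤ_[5]) i) hr
    rw [Polynomial.coeff_coe] at h4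
    rw [h4]
    have : ((5 ^ 3 * n ^ 3 * Mn n : ℕ) : PowerSeries ℤ_[5])
        = PowerSeries.C ((5 ^ 3 * n ^ 3 * Mn n : ℕ) : ℤ_[5]) := by
      rw [map_natCast]
    rw [this, PowerSeries.coeff_C_mul]
  -- valuation of the target
  set d : ℤ_[5] := ((5 * n * Nat.centralBinom n : ℕ) : ℤ_[5]) with hd
  have hdne : d ≠ 0 := by
    rw [hd]
    exact_mod_cast mul_ne_zero (mul_ne_zero (by norm_num) hn.ne') (Nat.centralBinom_ne_zero n)
  obtain ⟨a, u, hu⟩ : ∃ (a : ℕ) (u : ℤ_[5]ˣ), d = (u : ℤ_[5]) * ((5 : ℕ) : ℤ_[5]) ^ a :=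
    ⟨_, _, PadicInt.unitCoeff_spec hdne⟩
  have h5 : (5 : ℤ_[5]) ^ (2 * a + 1) ∣ ((5 ^ 3 * n ^ 3 * Mn n : ℕ) : ℤ_[5]) := by
    have e1 : ((5 ^ 3 * n ^ 3 * Mn n : ℕ) : ℤ_[5])
        = 5 * d ^ 2 * ((n : ℤ_[5]) * (Nat.centralBinom (2 * n) : ℤ_[5])) := by
      rw [hd]; unfold Mn; push_cast; ring
    rw [e1, hu]
    refine ⟨(u : ℤ_[5]) ^ 2 * ((n : ℤ_[5]) * (Nat.centralBinom (2 * n) : ℤ_[5])), ?_⟩
    push_cast
    ring
  have h6 : ∀ i, (5 : ℤ_[5]) ^ (2 * a + 1) ∣ W.coeff i := fun i => dvd_trans h5 (h3 i)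
  set K := 9 * n - 2 with hK
  set N := W.natDegree + K with hN
  have h7 := hom_dvd W K N a (wq_Wf n hn) h6
  have h8 := hom_eval W N (by omega)
  set H := ∑ i ∈ range (N + 1), W.coeff i * 5 ^ (N - i) with hH
  have h9 : eval₂ cq (1 / 5 : ℚ_[5]) W = Wf n (c5).h := by
    have := Wf_map (Polynomial.eval₂RingHom cq (1 / 5 : ℚ_[5])) n X
    rw [Polynomial.coe_eval₂RingHom, Polynomial.eval₂_X] at this
    exact this
  obtain ⟨u', hu', hden⟩ := den_c5 n hn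
  rw [h9, W_eq c5 n hn, Dnf_c5 w hw n] at h8
  have e1 : (5 : ℚ_[5]) ^ N = 5 ^ (N - K + 1) * 5 ^ (9 * n - 3) := by
    rw [← pow_add]; congr 1; omega
  have h10 : cq H = cq (5 ^ (N - K + 1) * ((Sw w (5 * n) + 5 * Sw w n) * u')) := by
    rw [h8, e1, map_mul, map_pow, map_ofNat, map_mul, ← hden]
    ring
  have h11 := cq_inj h10
  rw [h11, pow_add, pow_add, pow_one, mul_assoc] at h7
  have h12 : (5 : ℤ_[5]) ^ (N - K) * (5 * 5 ^ a) ∣
      5 ^ (N - K) * (5 * ((Sw w (5 * n) + 5 * Sw w n) * u')) := by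
    convert h7 using 1
    ring
  have h5ne : (5 : ℤ_[5]) ≠ 0 := by norm_num
  have h13 := (mul_dvd_mul_iff_left (pow_ne_zero _ h5ne)).mp h12
  have h14 := (mul_dvd_mul_iff_left h5ne).mp h13
  have h15 := (hu'.dvd_mul_right).mp h14
  rw [hu]
  have : IsUnit (u : ℤ_[5]) := u.isUnit
  rw [this.mul_left_dvd]
  push_cast
  exact h15

theorem all5 (w : ℤ_[5]) (hw : 12 ^ 4 * w = 1) (n : ℕ) : (Dn n : ℤ_[5]) ∣ Sw w n := by
  refine digit 5 (by norm_num) w (fun n hn => ?_) n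
  have h1 := main5 w hw n
  have h2 : ((5 * n * Nat.centralBinom n : ℕ) : ℤ_[5]) ∣ 5 * Sw w n := by
    have h3 : ((5 * n * Nat.centralBinom n : ℕ) : ℤ_[5]) ∣ 5 * (Dn n : ℤ_[5]) := by
      have : 5 * n * Nat.centralBinom n ∣ 5 * Dn n := by
        unfold Dn
        exact ⟨2 * n + 1, by ring⟩
      exact_mod_cast (Nat.cast_dvd_cast (α := ℤ_[5]) this)
    exact dvd_trans h3 (mul_dvd_mul dvd_rfl hn)
  have := dvd_sub h1 h2
  convert this using 1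
  ring

end final5

end FF1001
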