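import Pool.Agent.W_ff1001_h94.Dwork2
import Pool.Agent.W_ff1001_h94.Expo
import Pool.Agent.W_ff1001_h94.Gam2

/-! The Frobenius matrices `Psi` modulo `p^s`. -/

namespace FF1001

open Finset Polynomial

/-- the Gamma and exponential polynomials -/
structure GD (p : ℕ) [Fact p.Prime] where
  A : ℕ → ℤ_[p][X]
  Q : ℕ → ℤ_[p][X]
  β : ℕ → ℤ_[p][X]
  hA1 : ∀ s, (p : ℤ_[p][X]) ^ s ∣ A s * Pf p X ^ 4 - Q s
  hA2 : ∀ s, (p : ℤ_[p][X]) ^ s ∣ (Pf p (4 * X) * Pf p (4 * X + 1) * Pf p (4 * X + 2)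
          * Pf p (4 * X + 3)) * A s - (Q s).comp (X + 1)
  hQ0 : ∀ s, (p : ℤ_[p]) ^ s ∣ (Q s).coeff 0 - 1
  hQ1 : ∀ s, (p : ℤ_[p]) ^ s ∣ (Q s).coeff 1
  hQ2 : ∀ s, (p : ℤ_[p]) ^ s ∣ (Q s).coeff 2
  hAw : ∀ s i, (p : ℤ_[p]) ^ (min i 3) ∣ (A s).coeff i
  hAc : ∀ s, (p : ℤ_[p][X]) ^ s ∣ A (s + 1) - A s
  hAe : ∀ s (m : ℕ), (p : ℤ_[p]) ^ s ∣ (A s).eval (m : ℤ_[p]) * (Gm p (m + 1) : ℤ_[p]) ^ 4
          - (Gm p (4 * m) : ℤ_[p])
  hβ : ∀ j : ℕ, (j.factorial : ℤ_[p][X]) * β j = (p : ℤ_[p][X]) ^ j * descPochhammer ℤ_[p] j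
  hβ2 : ∀ s j : ℕ, 2 * s ≤ j → (p : ℤ_[p][X]) ^ s ∣ β j
  hβ3 : ∀ i j : ℕ, (p : ℤ_[p]) ^ (min i 3) ∣ (β j).coeff i

theorem GD_exists (p : ℕ) [Fact p.Prime] (hp : 5 ≤ p) : Nonempty (GD p) := by
  obtain ⟨A, Q, h⟩ := AQ_exists p hp
  obtain ⟨β, h1, h2, h3⟩ := beta_exists p hp
  exact ⟨⟨A, Q, β, fun s => (h s).1, fun s => (h s).2.1, fun s => (h s).2.2.1,
    fun s => (h s).2.2.2.1, fun s => (h s).2.2.2.2.1, fun s => (h s).2.2.2.2.2.1,
    fun s => (h s).2.2.2.2.2.2.1, fun s => (h s).2.2.2.2.2.2.2, h1, h2, h3⟩⟩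

section red

variable {S : Type*} [CommRing S]

/-- the remainder -/
noncomputable def redA (Z iz : S) (h : iz * (1 - 256 * Z) = 1) (g : S[X]) : Fin 3 → S :=
  (red_exists Z iz h g).choose

/-- the quotient -/
noncomputable def redQ (Z iz : S) (h : iz * (1 - 256 * Z) = 1) (g : S[X]) : S[X] :=
  (red_exists Z iz h g).choose_spec.choose

theorem red_spec (Z iz : S) (h : iz * (1 - 256 * Z) = 1) (g : S[X]) :
    g = qd (redA Z iz h g) + tau Z (redQ Z iz h g) :=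
  (red_exists Z iz h g).choose_spec.choose_spec

theorem qd_sub (a b : Fin 3 → S) : qd a - qd b = qd (fun i => a i - b i) := by
  unfold qd; simp only [C_sub]; ring

theorem qd_add (a b : Fin 3 → S) : qd a + qd b = qd (fun i => a i + b i) := by
  unfold qd; simp only [C_add]; ring

theorem C_mul_qd (c : S) (a : Fin 3 → S) : C c * qd a = qd (fun i => c * a i) := by
  unfold qd; simp only [C_mul]; ring

theorem tau_add (Z : S) (q r : S[X]) : tau Z (q + r) = tau Z q + tau Z r := by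
  unfold tau; rw [add_comp]; ring

theorem tau_sub (Z : S) (q r : S[X]) : tau Z (q - r) = tau Z q - tau Z r := by
  unfold tau; rw [sub_comp]; ring

theorem tau_C_mul (Z c : S) (q : S[X]) : tau Z (C c * q) = C c * tau Z q := by
  unfold tau; rw [mul_comp, C_comp]; ring

theorem natCast_pow_C (p s : ℕ) : (p : S[X]) ^ s = C ((p : S) ^ s) := by
  simp

/-- a polynomial congruence gives a congruence of remainders -/
theorem red_congr (Z iz : S) (h : iz * (1 - 256 * Z) = 1) (d : S) (g : S[X])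
    (a : Fin 3 → S) (q : S[X]) (hd : C d ∣ g - (qd a + tau Z q)) (i : Fin 3) :
    d ∣ redA Z iz h g i - a i := by
  have h1 : g - (qd a + tau Z q) = qd (fun i => redA Z iz h g i - a i)
      + tau Z (redQ Z iz h g - q) := by
    rw [tau_sub, ← qd_sub]
    conv_lhs => rw [red_spec Z iz h g]
    ring
  rw [h1] at hd
  exact (red_unique Z iz h d _ _ hd).1 i

theorem red_eq (Z iz : S) (h : iz * (1 - 256 * Z) = 1) (g : S[X])
    (a : Fin 3 → S) (q : S[X]) (hd : g = qd a + tau Z q) : redA Z iz h g = a := by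
  funext i
  have := red_congr Z iz h 0 g a q (by rw [← hd]; simp) i
  rw [zero_dvd_iff, sub_eq_zero] at this
  exact this

theorem red_map {S' : Type*} [CommRing S'] (φ : S →+* S') (Z iz : S)
    (h : iz * (1 - 256 * Z) = 1) (h' : φ iz * (1 - 256 * φ Z) = 1) (g : S[X]) (i : Fin 3) :
    redA (φ Z) (φ iz) h' (g.map φ) i = φ (redA Z iz h g i) := by
  have h1 : g.map φ = qd (fun i => φ (redA Z iz h g i)) + tau (φ Z) ((redQ Z iz h g).map φ) := by
    rw [← qd_map, ← tau_map, ← Polynomial.map_add, ← red_spec]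
  rw [red_eq _ _ h' _ _ _ h1]

end red

section psi

variable {p : ℕ} [Fact p.Prime] (D : GD p) {S : Type*} [CommRing S] [Algebra ℤ_[p] S]

/-- `ghat_P` -/
noncomputable def gg (s : ℕ) (Xv v : S) (P : S[X]) : S[X] :=
  gh p ((D.A s).map (algebraMap ℤ_[p] S) * Ef D.β s v) Xv P

/-- the matrix with rows `red ghat_{x^i}` -/
noncomputable def Psi (s : ℕ) (Xv v Z iz : S) (h : iz * (1 - 256 * Z) = 1) :
    Matrix (Fin 3) (Fin 3) S :=
  fun i j => redA Z iz h (gg D s Xv v (X ^ (i : ℕ))) j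

theorem Pf_map {A B : Type*} [CommSemiring A] [CommSemiring B] (φ : A →+* B) (p : ℕ) (x : A) :
    φ (Pf p x) = Pf p (φ x) := by
  unfold Pf
  rw [map_prod]
  refine prod_congr rfl fun i _ => ?_
  simp

theorem nf_map {A B : Type*} [CommSemiring A] [CommSemiring B] (φ : A →+* B) (p j : ℕ) (x : A) :
    φ (nf p j x) = nf p j (φ x) := by
  unfold nf
  rw [map_mul, map_pow, map_prod, map_prod]
  congr 1
  · refine prod_congr rfl fun i _ => ?_
    simp [map_ofNat]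
  · congr 1
    refine prod_congr rfl fun i _ => ?_
    simp

theorem gh_map {S' : Type*} [CommRing S'] (φ : S →+* S') (G : S[X]) (Xv : S) (P : S[X]) :
    (gh p G Xv P).map φ = gh p (G.map φ) (φ Xv) (P.map φ) := by
  unfold gh
  rw [Polynomial.map_mul, Polynomial.map_sum]
  congr 1
  refine sum_congr rfl fun j _ => ?_
  have h := nf_map (Polynomial.mapRingHom φ) p j (X : S[X])
  simp only [coe_mapRingHom, map_X] at h
  rw [Polynomial.map_mul, Polynomial.map_mul, h, Polynomial.map_pow, map_C, map_comp]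
  simp

theorem gg_map {S' : Type*} [CommRing S'] [Algebra ℤ_[p] S'] (φ : S →ₐ[ℤ_[p]] S') (s : ℕ)
    (Xv v : S) (P : S[X]) :
    (gg D s Xv v P).map (φ : S →+* S') = gg D s (φ Xv) (φ v) (P.map (φ : S →+* S')) := by
  unfold gg
  rw [gh_map, Polynomial.map_mul, Ef_map, Polynomial.map_map]
  have : ((φ : S →+* S').comp (algebraMap ℤ_[p] S)) = algebraMap ℤ_[p] S' := by
    ext x; simp
  rw [this]
  rfl

theorem Psi_map {S' : Type*} [CommRing S'] [Algebra ℤ_[p] S'] (φ : S →ₐ[ℤ_[p]] S') (s : ℕ)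
    (Xv v Z iz : S) (h : iz * (1 - 256 * Z) = 1) (h' : φ iz * (1 - 256 * φ Z) = 1)
    (i j : Fin 3) :
    φ (Psi D s Xv v Z iz h i j) = Psi D s (φ Xv) (φ v) (φ Z) (φ iz) h' i j := by
  unfold Psi
  have h1 := red_map (φ : S →+* S') Z iz h h' (gg D s Xv v (X ^ (i : ℕ))) j
  rw [gg_map] at h1
  simp only [Polynomial.map_pow, map_X] at h1
  exact h1.symm

theorem gg_coh (s : ℕ) (Xv v : S) (P : S[X]) :
    (p : S[X]) ^ s ∣ gg D (s + 1) Xv v P - gg D s Xv v P := by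
  unfold gg gh
  rw [← sub_mul]
  refine Dvd.dvd.mul_right ?_ _
  have h1 : (p : S[X]) ^ s ∣ (D.A (s + 1)).map (algebraMap ℤ_[p] S)
      - (D.A s).map (algebraMap ℤ_[p] S) := by
    have := map_dvd (Polynomial.mapRingHom (algebraMap ℤ_[p] S)) (D.hAc s)
    simpa using this
  have h2 := Ef_coh D.β D.hβ2 s v
  obtain ⟨r1, h1⟩ := h1
  obtain ⟨r2, h2⟩ := h2
  refine ⟨r1 * Ef D.β (s + 1) v + (D.A s).map (algebraMap ℤ_[p] S) * r2, ?_⟩
  linear_combination Ef D.β (s + 1) v * h1 + (D.A s).map (algebraMap ℤ_[p] S) * h2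

theorem Psi_coh (s : ℕ) (Xv v Z iz : S) (h : iz * (1 - 256 * Z) = 1) (i j : Fin 3) :
    (p : S) ^ s ∣ Psi D (s + 1) Xv v Z iz h i j - Psi D s Xv v Z iz h i j := by
  unfold Psi
  refine red_congr Z iz h _ _ _ (redQ Z iz h (gg D s Xv v (X ^ (i : ℕ)))) ?_ j
  rw [← red_spec, ← natCast_pow_C]
  exact gg_coh D s Xv v _

/-- facts about `A` in the algebra `S` -/
theorem A_tele (s : ℕ) : (p : S[X]) ^ s ∣ (D.A s).map (algebraMap ℤ_[p] S) * Pf p X ^ 4
    - (D.Q s).map (algebraMap ℤ_[p] S) := by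
  have := map_dvd (Polynomial.mapRingHom (algebraMap ℤ_[p] S)) (D.hA1 s)
  rw [map_pow, map_sub, map_mul, map_pow, Pf_map] at this
  simpa using this

theorem A_tele2 (s : ℕ) : (p : S[X]) ^ s ∣ (Pf p (4 * X) * Pf p (4 * X + 1) * Pf p (4 * X + 2)
          * Pf p (4 * X + 3)) * (D.A s).map (algebraMap ℤ_[p] S)
          - ((D.Q s).map (algebraMap ℤ_[p] S)).comp (X + 1) := by
  have := map_dvd (Polynomial.mapRingHom (algebraMap ℤ_[p] S)) (D.hA2 s)
  rw [map_pow, map_sub, map_mul, map_mul, map_mul, map_mul, Pf_map, Pf_map, Pf_map, Pf_map] at this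
  simpa [map_comp, map_ofNat] using this

end psi

end FF1001
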