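import Pool.Agent.W_ff1001_h94.Psi

/-! The differential equation and the initial value of `Psi`. -/

namespace FF1001

open Finset Polynomial

variable {p : ℕ} [Fact p.Prime] (D : GD p) {S : Type*} [CommRing S] [Algebra ℤ_[p] S]

theorem gg_add (s : ℕ) (Xv v : S) (P P' : S[X]) :
    gg D s Xv v (P + P') = gg D s Xv v P + gg D s Xv v P' := gh_add _ _ _ _ _

theorem gg_C_mul (s : ℕ) (Xv v a : S) (P : S[X]) :
    gg D s Xv v (C a * P) = C a * gg D s Xv v P := gh_C_mul _ _ _ _ _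

theorem gg_tele (s : ℕ) (Xv Z v : S) (hZ : Xv ^ p = Z * (1 + (p : S) * v)) :
    ∃ r : S[X], (p : S[X]) ^ s ∣ gg D s Xv v (X ^ 3 - C Xv * Rf X) - tau Z r := by
  refine ⟨C ((p : S) ^ 3) * ((D.Q s).map (algebraMap ℤ_[p] S) * Ef D.β s v), ?_⟩
  rw [tau_C_mul]
  have hp : 0 < p := (Fact.out : p.Prime).pos
  have := gh_tele p hp ((p : S[X]) ^ s) ((D.A s).map (algebraMap ℤ_[p] S))
    ((D.Q s).map (algebraMap ℤ_[p] S)) (Ef D.β s v) Xv Z v (A_tele D s) (A_tele2 D s)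
    (Ef_comp D.β D.hβ D.hβ2 s v) hZ
  rw [← natCast_pow_C]
  exact this

/-- the remainder of `ghat_{x^3}` -/
theorem red_cube (s : ℕ) (Xv Z v iz iX : S) (hZ : Xv ^ p = Z * (1 + (p : S) * v))
    (h : iz * (1 - 256 * Z) = 1) (hX : iX * (1 - 256 * Xv) = 1) (j : Fin 3) :
    (p : S) ^ s ∣ redA Z iz h (gg D s Xv v (X ^ 3)) j
      - (Nmat Xv iX * Psi D s Xv v Z iz h) 2 j := by
  obtain ⟨r, hr⟩ := gg_tele D s Xv Z v hZ
  have e0 : (Rf X : S[X]) = 24 + 176 * X + 384 * X ^ 2 + 256 * X ^ 3 := by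
    unfold Rf; ring
  have e1 : (X ^ 3 : S[X]) = C iX * (X ^ 3 - C Xv * Rf X)
      + C (24 * (Xv * iX)) * X ^ 0 + C (176 * (Xv * iX)) * X ^ 1 + C (384 * (Xv * iX)) * X ^ 2 := by
    have hX' : C iX * (1 - 256 * C Xv) = (1 : S[X]) := by
      have h3 := congrArg (C : S → S[X]) hX
      rw [C_mul, C_sub, C_mul, C_1] at h3
      exact h3
    have c24 : (C (24 * (Xv * iX)) : S[X]) = 24 * (C Xv * C iX) := by
      rw [C_mul, C_mul]; rfl
    have c176 : (C (176 * (Xv * iX)) : S[X]) = 176 * (C Xv * C iX) := by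
      rw [C_mul, C_mul]; rfl
    have c384 : (C (384 * (Xv * iX)) : S[X]) = 384 * (C Xv * C iX) := by
      rw [C_mul, C_mul]; rfl
    rw [c24, c176, c384, e0]
    linear_combination (-X ^ 3) * hX'
  have e2 : gg D s Xv v (X ^ 3) = C iX * gg D s Xv v (X ^ 3 - C Xv * Rf X)
      + C (24 * (Xv * iX)) * gg D s Xv v (X ^ 0) + C (176 * (Xv * iX)) * gg D s Xv v (X ^ 1)
      + C (384 * (Xv * iX)) * gg D s Xv v (X ^ 2) := by
    conv_lhs => rw [e1]
    rw [gg_add, gg_add, gg_add, gg_C_mul, gg_C_mul, gg_C_mul, gg_C_mul]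
  refine red_congr Z iz h _ _ _ (C iX * r + C (24 * (Xv * iX)) * redQ Z iz h (gg D s Xv v (X ^ 0))
    + C (176 * (Xv * iX)) * redQ Z iz h (gg D s Xv v (X ^ 1))
    + C (384 * (Xv * iX)) * redQ Z iz h (gg D s Xv v (X ^ 2))) ?_ j
  have e3 : qd (fun j => (Nmat Xv iX * Psi D s Xv v Z iz h) 2 j)
      = C (24 * (Xv * iX)) * qd (redA Z iz h (gg D s Xv v (X ^ 0)))
      + C (176 * (Xv * iX)) * qd (redA Z iz h (gg D s Xv v (X ^ 1)))
      + C (384 * (Xv * iX)) * qd (redA Z iz h (gg D s Xv v (X ^ 2))) := by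
    rw [C_mul_qd, C_mul_qd, C_mul_qd, qd_add, qd_add]
    congr 1
    funext j
    simp [Matrix.mul_apply, Fin.sum_univ_three, Nmat, Psi]
  rw [← natCast_pow_C]
  obtain ⟨t, ht⟩ := hr
  refine ⟨C iX * t, ?_⟩
  rw [e2, e3, tau_add, tau_add, tau_add, tau_C_mul, tau_C_mul, tau_C_mul, tau_C_mul]
  have s0 := red_spec Z iz h (gg D s Xv v (X ^ 0))
  have s1 := red_spec Z iz h (gg D s Xv v (X ^ 1))
  have s2 := red_spec Z iz h (gg D s Xv v (X ^ 2))
  linear_combination C iX * ht + C (24 * (Xv * iX)) * s0 + C (176 * (Xv * iX)) * s1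
    + C (384 * (Xv * iX)) * s2

/-- horizontality, row by row -/
theorem red_der (s : ℕ) (θ : Derivation ℤ_[p] S S) (Xv Z v iz ξ ζ : S)
    (h : iz * (1 - 256 * Z) = 1) (hu : IsUnit (1 + (p : S) * v))
    (hθX : θ Xv = ξ * Xv) (hθZ : θ Z = ζ * Z)
    (hθv : (p : S) * θ v = ((p : S) * ξ - ζ) * (1 + (p : S) * v)) (i : ℕ) (j : Fin 3) :
    (p : S) ^ s ∣ θ (redA Z iz h (gg D s Xv v (X ^ i)) j)
      - (ξ * redA Z iz h (gg D s Xv v (X ^ (i + 1))) j
        - ζ * (Matrix.vecMul (redA Z iz h (gg D s Xv v (X ^ i))) (Nmat Z iz)) j) := by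
  have hE : (p : S[X]) ^ s ∣ dm θ (Ef D.β s v) - C ((p : S) * ξ - ζ) * X * Ef D.β s v := by
    have h1 := Ef_der D.β D.hβ D.hβ2 s v θ
    rw [hθv] at h1
    have h2 : C (1 + (p : S) * v) * dm θ (Ef D.β s v)
        - C (((p : S) * ξ - ζ) * (1 + (p : S) * v)) * X * Ef D.β s v
        = C (1 + (p : S) * v) * (dm θ (Ef D.β s v) - C ((p : S) * ξ - ζ) * X * Ef D.β s v) := by
      rw [C_mul]; ring
    rw [h2] at h1
    have hu' : IsUnit (C (1 + (p : S) * v) : S[X]) := hu.map C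
    exact (hu'.dvd_mul_left).mp h1
  have hder := gh_der p θ ((p : S[X]) ^ s) ((D.A s).map (algebraMap ℤ_[p] S)) (Ef D.β s v) Xv ξ ζ
    hθX (dm_map θ _) hE (X ^ i) (by simp [Derivation.leibniz_pow])
  rw [← pow_succ'] at hder
  change (p : S[X]) ^ s ∣ dm θ (gg D s Xv v (X ^ i)) + C ζ * X * gg D s Xv v (X ^ i)
      - C ξ * gg D s Xv v (X ^ (i + 1)) at hder
  set a := redA Z iz h (gg D s Xv v (X ^ i)) with ha
  set a' := redA Z iz h (gg D s Xv v (X ^ (i + 1))) with ha'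
  set q := redQ Z iz h (gg D s Xv v (X ^ i)) with hq
  set q' := redQ Z iz h (gg D s Xv v (X ^ (i + 1))) with hq'
  have s0 := red_spec Z iz h (gg D s Xv v (X ^ i))
  have s1 := red_spec Z iz h (gg D s Xv v (X ^ (i + 1)))
  rw [← ha, ← hq] at s0
  rw [← ha', ← hq'] at s1
  rw [s0, s1] at hder
  have e1 : dm θ (qd a + tau Z q) + C ζ * X * (qd a + tau Z q) - C ξ * (qd a' + tau Z q')
      = qd (fun j => θ (a j) - (ξ * a' j - ζ * (Matrix.vecMul a (Nmat Z iz)) j))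
        + tau Z (C (ζ * a 2 * iz) + (dm θ q + C ζ * X * q) - C ξ * q') := by
    have d1 := D_qd θ Z iz ζ h a
    have d2 := D_tau θ Z ζ hθZ q
    have d3 : qd (fun j => θ (a j) - (ξ * a' j - ζ * (Matrix.vecMul a (Nmat Z iz)) j))
        = qd (fun i => θ (a i) + ζ * (Matrix.vecMul a (Nmat Z iz)) i) - C ξ * qd a' := by
      rw [C_mul_qd, qd_sub]
      congr 1
      funext j
      ring
    rw [d3, tau_sub, tau_add, tau_C_mul, map_add]
    linear_combination d1 + d2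
  rw [e1, natCast_pow_C] at hder
  exact (red_unique Z iz h _ _ _ hder).1 j

/-- the linear differential equation for `Psi` modulo `p^s` -/
theorem Psi_ode (s : ℕ) (θ : Derivation ℤ_[p] S S) (Xv Z v iz iX ξ ζ : S)
    (h : iz * (1 - 256 * Z) = 1) (hX : iX * (1 - 256 * Xv) = 1)
    (hZ : Xv ^ p = Z * (1 + (p : S) * v)) (hu : IsUnit (1 + (p : S) * v))
    (hθX : θ Xv = ξ * Xv) (hθZ : θ Z = ζ * Z)
    (hθv : (p : S) * θ v = ((p : S) * ξ - ζ) * (1 + (p : S) * v)) (i j : Fin 3) :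
    (p : S) ^ s ∣ θ (Psi D s Xv v Z iz h i j)
      - (ξ * (Nmat Xv iX * Psi D s Xv v Z iz h) i j
        - ζ * (Psi D s Xv v Z iz h * Nmat Z iz) i j) := by
  have hrow : ∀ k : Fin 3, ∀ j, (Psi D s Xv v Z iz h * Nmat Z iz) k j
      = (Matrix.vecMul (redA Z iz h (gg D s Xv v (X ^ (k : ℕ)))) (Nmat Z iz)) j := by
    intro k j
    rw [Matrix.mul_apply]
    rfl
  rw [hrow]
  have hd := red_der D s θ Xv Z v iz ξ ζ h hu hθX hθZ hθv (i : ℕ) j
  change (p : S) ^ s ∣ θ (redA Z iz h (gg D s Xv v (X ^ (i : ℕ))) j) - _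
  fin_cases i
  · have : (Nmat Xv iX * Psi D s Xv v Z iz h) 0 j = redA Z iz h (gg D s Xv v (X ^ 1)) j := by
      simp [Matrix.mul_apply, Fin.sum_univ_three, Nmat, Psi]
    simpa [this] using hd
  · have : (Nmat Xv iX * Psi D s Xv v Z iz h) 1 j = redA Z iz h (gg D s Xv v (X ^ 2)) j := by
      simp [Matrix.mul_apply, Fin.sum_univ_three, Nmat, Psi]
    simpa [this] using hd
  · have hc := red_cube D s Xv Z v iz iX hZ h hX j
    have hc' := Dvd.dvd.mul_left hc ξ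
    have := dvd_add hd hc'
    convert this using 1
    simp
    ring

/-- initial value: at `X = Z = v = 0` -/
theorem Psi_init (s : ℕ) (h : (1 : ℤ_[p]) * (1 - 256 * 0) = 1) (i j : Fin 3) :
    (p : ℤ_[p]) ^ s ∣ Psi D s (0 : ℤ_[p]) 0 0 1 h i j
      - (if i = j then (p : ℤ_[p]) ^ (i : ℕ) else 0) := by
  have hp : 0 < p := (Fact.out : p.Prime).pos
  set g := gg D s (0 : ℤ_[p]) 0 (X ^ (i : ℕ)) with hg
  have hg1 : g = (D.A s) * Ef D.β s (0 : ℤ_[p]) * (((p : ℤ_[p][X]) * X) ^ (i : ℕ)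
      * Pf p X ^ 4) := by
    rw [hg]
    unfold gg gh
    have h1 : (D.A s).map (algebraMap ℤ_[p] ℤ_[p]) = D.A s := by
      simp
    rw [h1]
    congr 1
    rw [sum_eq_single_of_mem 0 (mem_range.mpr hp)]
    · have h2 : nf p 0 (X : ℤ_[p][X]) = Pf p X ^ 4 := by
        unfold nf Pf; simp
      rw [h2]
      simp
    · intro b _ hb
      rw [C_0, zero_pow hb]
      ring
  have hg2 : (p : ℤ_[p][X]) ^ s ∣ g - D.Q s * ((p : ℤ_[p][X]) * X) ^ (i : ℕ) := by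
    obtain ⟨r1, h1⟩ := D.hA1 s
    obtain ⟨r2, h2⟩ := Ef_zero D.β D.hβ (S := ℤ_[p]) s
    rw [hg1]
    refine ⟨((p : ℤ_[p][X]) * X) ^ (i : ℕ) * (r1 * Ef D.β s (0 : ℤ_[p]) + D.Q s * r2), ?_⟩
    linear_combination ((p : ℤ_[p][X]) * X) ^ (i : ℕ) * Ef D.β s (0 : ℤ_[p]) * h1
      + ((p : ℤ_[p][X]) * X) ^ (i : ℕ) * D.Q s * h2
  have hsp := red_spec (0 : ℤ_[p]) 1 h g
  have hco : redA (0 : ℤ_[p]) 1 h g j = g.coeff (j : ℕ) := by
    conv_rhs => rw [hsp]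
    unfold tau qd
    rw [C_0, zero_mul, zero_mul, sub_zero, coeff_add]
    fin_cases j <;> simp [coeff_X, coeff_C, coeff_X_pow, coeff_X_pow_mul']
  have h3 : (p : ℤ_[p]) ^ s ∣ g.coeff (j : ℕ)
      - (D.Q s * ((p : ℤ_[p][X]) * X) ^ (i : ℕ)).coeff (j : ℕ) := by
    rw [natCast_pow_C, C_dvd_iff_dvd_coeff] at hg2
    have := hg2 (j : ℕ)
    rwa [coeff_sub] at this
  have h4 : (D.Q s * ((p : ℤ_[p][X]) * X) ^ (i : ℕ)).coeff (j : ℕ)
      = (p : ℤ_[p]) ^ (i : ℕ) * (if (i : ℕ) ≤ j then (D.Q s).coeff (j - i) else 0) := by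
    rw [mul_pow, ← mul_assoc, coeff_mul_X_pow']
    split_ifs with hij
    · rw [mul_comm (D.Q s), natCast_pow_C, coeff_C_mul]
    · simp
  change (p : ℤ_[p]) ^ s ∣ redA (0 : ℤ_[p]) 1 h g j - _
  rw [hco]
  have h5 : (p : ℤ_[p]) ^ s ∣ (D.Q s * ((p : ℤ_[p][X]) * X) ^ (i : ℕ)).coeff (j : ℕ)
      - (if i = j then (p : ℤ_[p]) ^ (i : ℕ) else 0) := by
    rw [h4]
    have q0 := D.hQ0 s
    have q1 := D.hQ1 s
    have q2 := D.hQ2 s
    fin_cases i <;> fin_cases j <;> simp <;>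
      first
        | exact q0
        | exact q1
        | exact q2
        | exact Dvd.dvd.mul_left q1 _
        | (have := Dvd.dvd.mul_left q0 ((p : ℤ_[p])); convert this using 1; ring1)
        | (have := Dvd.dvd.mul_left q0 ((p : ℤ_[p]) ^ 2); convert this using 1; ring1)
  have h6 := dvd_add h3 h5
  convert h6 using 1
  ring

end FF1001
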