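import Pool.Agent.W_ff1001_h94.HC

/-! The telescoping identity of the numbers `n_j`. -/

set_option autoImplicit false

namespace FF1001

open Finset Polynomial

theorem nf_succ {A : Type*} [CommRing A] (p j : ℕ) (hj : j + 1 < p) (x : A) :
    ((p : A) * x + (j : A) + 1) ^ 3 * nf p (j + 1) x
      = Rf ((p : A) * x + (j : A)) * nf p j x := by
  unfold nf Rf
  rw [show 4 * (j + 1) = 4 * j + 1 + 1 + 1 + 1 by ring, prod_range_succ, prod_range_succ,
    prod_range_succ, prod_range_succ, Finset.prod_eq_prod_Ico_succ_bot hj]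
  push_cast
  ring

theorem tele_block {A : Type*} [CommRing A] (p r : ℕ) (hp : 0 < p) (x : A) :
    ∏ i ∈ Ico (r * p) ((r + 1) * p), (4 * (p : A) * x + (i : A))
      = ((p : A) * (4 * x + (r : A))) * Pf p (4 * x + (r : A)) := by
  unfold Pf
  have h1 : Ico (r * p) ((r + 1) * p) = Ico (0 + r * p) (p + r * p) := by
    congr 1 <;> ring
  rw [h1, ← Finset.prod_Ico_add', Finset.prod_eq_prod_Ico_succ_bot hp]
  congr 1
  · push_cast
    ring
  · refine Finset.prod_congr rfl fun i _ => ?_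
    push_cast
    ring

theorem tele_all {A : Type*} [CommRing A] (p : ℕ) (hp : 0 < p) (x : A) :
    ∏ i ∈ range (4 * p - 1), (4 * (p : A) * x + ((i : A) + 1))
      = (p : A) ^ 3 * ((4 * x + 1) * (4 * x + 2) * (4 * x + 3)) *
        (Pf p (4 * x) * Pf p (4 * x + 1) * Pf p (4 * x + 2) * Pf p (4 * x + 3)) := by
  have h0 : ∏ i ∈ range (4 * p - 1), (4 * (p : A) * x + ((i : A) + 1))
      = ∏ i ∈ Ico 1 (4 * p), (4 * (p : A) * x + (i : A)) := by
    have h2 : Ico 1 (4 * p) = (Ico 0 (4 * p - 1)).image (fun i => i + 1) := by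
      rw [Finset.image_add_right_Ico]
      congr 1
      omega
    rw [h2, Finset.prod_image (fun a _ b _ h => Nat.add_right_cancel h), range_eq_Ico]
    refine Finset.prod_congr rfl fun i _ => ?_
    push_cast
    ring
  have hb1 := tele_block p 1 hp x
  have hb2 := tele_block p 2 hp x
  have hb3 := tele_block p 3 hp x
  norm_num at hb1 hb2 hb3
  have h3 : ∏ i ∈ Ico 1 p, (4 * (p : A) * x + (i : A)) = Pf p (4 * x) := by
    unfold Pf
    refine Finset.prod_congr rfl fun i _ => ?_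
    ring
  rw [h0, ← Finset.prod_Ico_consecutive (fun i : ℕ => 4 * (p : A) * x + (i : A))
      (show 1 ≤ p from hp) (show p ≤ 4 * p by omega),
    ← Finset.prod_Ico_consecutive (fun i : ℕ => 4 * (p : A) * x + (i : A))
      (show p ≤ 2 * p by omega) (show 2 * p ≤ 4 * p by omega),
    ← Finset.prod_Ico_consecutive (fun i : ℕ => 4 * (p : A) * x + (i : A))
      (show 2 * p ≤ 3 * p by omega) (show 3 * p ≤ 4 * p by omega), h3, hb1, hb2, hb3]
  ring

theorem nf_last {A : Type*} [CommRing A] (p : ℕ) (hp : 0 < p) (x : A) :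
    Rf ((p : A) * x + ((p : A) - 1)) * nf p (p - 1) x
      = (p : A) ^ 3 * Rf x * (Pf p (4 * x) * Pf p (4 * x + 1) * Pf p (4 * x + 2)
          * Pf p (4 * x + 3)) := by
  have h1 := tele_all p hp x
  obtain ⟨q, rfl⟩ : ∃ q, p = q + 1 := ⟨p - 1, by omega⟩
  have h2 : 4 * (q + 1) - 1 = 4 * q + 1 + 1 + 1 := by omega
  rw [h2, prod_range_succ, prod_range_succ, prod_range_succ] at h1
  have h3 : nf (q + 1) (q + 1 - 1) x =
      ∏ i ∈ range (4 * q), (4 * ((q + 1 : ℕ) : A) * x + ((i : A) + 1)) := by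
    unfold nf
    simp
  rw [h3]
  unfold Rf
  have h4 : ((q + 1 : ℕ) : A) ^ 3 * (4 * (4 * x + 1) * (4 * x + 2) * (4 * x + 3)) *
      (Pf (q + 1) (4 * x) * Pf (q + 1) (4 * x + 1) * Pf (q + 1) (4 * x + 2) *
        Pf (q + 1) (4 * x + 3)) = 4 * (((q + 1 : ℕ) : A) ^ 3 *
      ((4 * x + 1) * (4 * x + 2) * (4 * x + 3)) *
        (Pf (q + 1) (4 * x) * Pf (q + 1) (4 * x + 1) * Pf (q + 1) (4 * x + 2) *
          Pf (q + 1) (4 * x + 3))) := by ring
  rw [h4, ← h1]
  push_cast
  ring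

theorem tele {A : Type*} [CommRing A] (p : ℕ) (hp : 0 < p) (x y : A) :
    ∑ j ∈ range p, y ^ j * (((p : A) * x + (j : A)) ^ 3 - y * Rf ((p : A) * x + (j : A)))
        * nf p j x
      = ((p : A) * x) ^ 3 * Pf p x ^ 4
        - y ^ p * ((p : A) ^ 3 * Rf x * (Pf p (4 * x) * Pf p (4 * x + 1) * Pf p (4 * x + 2)
          * Pf p (4 * x + 3))) := by
  obtain ⟨a, ha⟩ : ∃ a : ℕ → A, a = fun j => if j < p then
      y ^ j * ((p : A) * x + (j : A)) ^ 3 * nf p j x else
      y ^ p * ((p : A) ^ 3 * Rf x * (Pf p (4 * x) * Pf p (4 * x + 1) * Pf p (4 * x + 2)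
          * Pf p (4 * x + 3))) := ⟨_, rfl⟩
  have h0 : a 0 = ((p : A) * x) ^ 3 * Pf p x ^ 4 := by
    rw [ha]
    simp only [hp, if_true]
    unfold nf Pf
    simp
  have hlast : a p = y ^ p * ((p : A) ^ 3 * Rf x * (Pf p (4 * x) * Pf p (4 * x + 1) *
      Pf p (4 * x + 2) * Pf p (4 * x + 3))) := by
    rw [ha]
    simp only [lt_irrefl, if_false]
  rw [← h0, ← hlast, ← Finset.sum_range_sub' a p]
  refine Finset.sum_congr rfl fun j hj => ?_
  rw [mem_range] at hj
  have hj0 : a j = y ^ j * ((p : A) * x + (j : A)) ^ 3 * nf p j x := by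
    rw [ha]
    simp only [hj, if_true]
  by_cases hj1 : j + 1 < p
  · have hj2 : a (j + 1) = y ^ (j + 1) * ((p : A) * x + ((j + 1 : ℕ) : A)) ^ 3 * nf p (j + 1) x := by
      rw [ha]
      simp only [hj1, if_true]
    have h5 := nf_succ p j hj1 x
    rw [hj0, hj2, mul_assoc (y ^ (j + 1)), Nat.cast_succ, ← add_assoc ((p : A) * x), h5]
    ring
  · have hjp : j + 1 = p := by omega
    have h6 := nf_last p hp x
    have h7 : p - 1 = j := by omega
    have h8 : (p : A) - 1 = (j : A) := by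
      rw [← hjp]
      push_cast
      ring
    rw [h7, h8] at h6
    rw [hj0, hjp, hlast, ← h6, ← hjp]
    push_cast
    ring

end FF1001
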